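import Pool.Agent.R426.QC.Cvw

/-!
# If `χ_d T` is a coboundary then `d` comes from a point over the field
-/

set_option autoImplicit false
set_option linter.unusedSectionVars false

namespace Pool.Agent.R426.QC.Cv

open WeierstrassCurve Pool.Agent.TH841.SH.D

section

variable {K : Type} [Field K] [CharZero K]

lemma isGalAC (K : Type) [Field K] [CharZero K] : IsGalois K (AlgebraicClosure K) where
  to_isSeparable := inferInstance
  to_normal := IsAlgClosure.normal K (AlgebraicClosure K)

attribute [local instance] isGalAC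

/-- an element fixed by all the automorphisms lies in the base field -/
lemma fixm (x : AlgebraicClosure K) (h : ∀ σ : Gal K, σ x = x) :
    ∃ y : K, algebraMap K (AlgebraicClosure K) y = x := by
  have := InfiniteGalois.mem_bot_iff_fixed (k := K) (K := AlgebraicClosure K) x
  rw [IntermediateField.mem_bot] at this
  exact this.2 h

lemma act_some (W : WeierstrassCurve K) {F L : Type} [Field F] [Field L] [Algebra K F]
    [Algebra K L] (φ : F →ₐ[K] L) {x y : F} (h : (W.baseChange F).toAffine.Nonsingular x y) :
    act W φ (.some x y h) =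
      .some (φ x) (φ y) ((Affine.baseChange_nonsingular W φ.injective ..).mpr h) := rfl

/-- the equation of the curve -/
lemma eqn {a b : K} {x y : AlgebraicClosure K}
    (h : ((WF a b).baseChange (AlgebraicClosure K)).toAffine.Nonsingular x y) :
    y ^ 2 = x ^ 3 + algebraMap K (AlgebraicClosure K) a * x ^ 2 +
      algebraMap K (AlgebraicClosure K) b * x := by
  have h1 := (Affine.nonsingular_iff _ _).1 h |>.1
  rw [Affine.equation_iff] at h1
  have e1 : ((WF a b).baseChange (AlgebraicClosure K)).toAffine.a₁ = 0 := map_zero _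
  have e2 : ((WF a b).baseChange (AlgebraicClosure K)).toAffine.a₂ =
      algebraMap K (AlgebraicClosure K) a := rfl
  have e3 : ((WF a b).baseChange (AlgebraicClosure K)).toAffine.a₃ = 0 := map_zero _
  have e4 : ((WF a b).baseChange (AlgebraicClosure K)).toAffine.a₄ =
      algebraMap K (AlgebraicClosure K) b := rfl
  have e6 : ((WF a b).baseChange (AlgebraicClosure K)).toAffine.a₆ = 0 := map_zero _
  rw [e1, e2, e3, e4, e6] at h1
  linear_combination h1

/-- a point of the curve -/
noncomputable def pt {a b : K} {x y : AlgebraicClosure K}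
    (h : ((WF a b).baseChange (AlgebraicClosure K)).toAffine.Nonsingular x y) :
    Pt (WF a b) (AlgebraicClosure K) := Affine.Point.some x y h

/-- the sum of `(x, y)` and `(0, 0)` -/
lemma add_T {a b : K} (hb : b ≠ 0) {x y x' y' : AlgebraicClosure K}
    (h : ((WF a b).baseChange (AlgebraicClosure K)).toAffine.Nonsingular x y)
    (h' : ((WF a b).baseChange (AlgebraicClosure K)).toAffine.Nonsingular x' y') (hx : x ≠ 0)
    (he : pt h' = pt h + T0 K (a := a) hb (AlgebraicClosure K)) :
    x' = (algebraMap K (AlgebraicClosure K) b) / x ∧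
      y' = - ((algebraMap K (AlgebraicClosure K) b) * y / x ^ 2) := by
  have h1 : pt h + T0 K (a := a) hb (AlgebraicClosure K) =
      @HAdd.hAdd _ _ _ (@instHAdd _ (@Affine.Point.instAdd (AlgebraicClosure K) _
        ((WF a b).baseChange (AlgebraicClosure K)).toAffine
        (Classical.decEq (AlgebraicClosure K)))) (Affine.Point.some x y h)
          (Affine.Point.some 0 0 (ns0 K hb (AlgebraicClosure K))) := rfl
  rw [h1, @Affine.Point.add_of_X_ne _ _ _ (Classical.decEq (AlgebraicClosure K)) _ _ _ _ _ _ hx]
    at he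
  have he := (Affine.Point.some.injEq _ _ _ _ _ _).mp he
  have e0 := eqn h
  have e1 : ((WF a b).baseChange (AlgebraicClosure K)).toAffine.a₁ = 0 := map_zero _
  have e2 : ((WF a b).baseChange (AlgebraicClosure K)).toAffine.a₂ =
      algebraMap K (AlgebraicClosure K) a := rfl
  have e3 : ((WF a b).baseChange (AlgebraicClosure K)).toAffine.a₃ = 0 := map_zero _
  obtain ⟨he1, he2⟩ := he
  rw [@Affine.slope_of_X_ne _ _ _ (Classical.decEq (AlgebraicClosure K)) _ _ _ _ hx, Affine.addX,
    e1, e2] at he1
  rw [@Affine.slope_of_X_ne _ _ _ (Classical.decEq (AlgebraicClosure K)) _ _ _ _ hx, Affine.addY,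
    Affine.negY, Affine.negAddY, Affine.addX, e1, e2, e3] at he2
  constructor
  · rw [he1, sub_zero, sub_zero, sub_zero, zero_mul, add_zero]
    field_simp
    linear_combination e0
  · rw [he2, sub_zero, sub_zero]
    field_simp
    linear_combination (-x ^ 2 * y) * e0

theorem t_COB {a b : K} (hb : b ≠ 0) {d : K} (hd : d ≠ 0)
    (h : IsCob (WF a b) (coc K hb d)) :
    IsSquare d ∨ IsSquare (d * (a ^ 2 - 4 * b)) ∨ LocI K K a b d := by
  classical
  obtain ⟨P, hP⟩ := h
  obtain ⟨s, hs⟩ : ∃ s : AlgebraicClosure K, s ^ 2 = algebraMap K (AlgebraicClosure K) d :=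
    IsAlgClosed.exists_pow_nat_eq _ two_pos
  have hd' : algebraMap K (AlgebraicClosure K) d ≠ 0 :=
    (map_ne_zero_iff _ (algebraMap K (AlgebraicClosure K)).injective).2 hd
  have hs0 : s ≠ 0 := by
    rintro rfl
    apply hd'
    rw [← hs]; ring
  have hsσ : ∀ σ : Gal K, σ s = s ∨ σ s = -s := by
    intro σ
    apply sq_eq_sq_iff_eq_or_eq_neg.1
    rw [← map_pow, hs, AlgEquiv.commutes]
  have hcoc : ∀ σ : Gal K, (σ s = s → coc K (a := a) hb d σ = 0) ∧
      (σ s ≠ s → coc K (a := a) hb d σ = T0 K hb (AlgebraicClosure K)) := by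
    intro σ
    constructor
    · intro h
      apply coc_none
      rintro ⟨s', hs', hne⟩
      apply hne
      rcases sq_eq_sq_iff_eq_or_eq_neg.1 (hs'.trans hs.symm) with h1 | h1
      · rw [h1, h]
      · rw [h1, map_neg, h]
    · intro h
      exact coc_pos _ ⟨s, hs, h⟩
  -- if all the automorphisms fix `s`
  have hsq : (∀ σ : Gal K, σ s = s) → IsSquare d := by
    intro h
    obtain ⟨y, hy⟩ := fixm s h
    refine ⟨y, ?_⟩
    apply (algebraMap K (AlgebraicClosure K)).injective
    rw [map_mul, hy, ← pow_two, hs]
  have hT0 : T0 K (a := a) hb (AlgebraicClosure K) ≠ 0 := by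
    intro h
    exact Affine.Point.some_ne_zero _ h
  have hfix0 : (∀ σ : Gal K, act (WF a b) σ.toAlgHom P = P) → IsSquare d := by
    intro h
    apply hsq
    intro σ
    by_contra hne
    have h1 := hP σ
    rw [(hcoc σ).2 hne, h σ, sub_self] at h1
    exact hT0 h1
  have hact0 : ∀ σ : Gal K, σ s = s → act (WF a b) σ.toAlgHom P = P := by
    intro σ h
    have h1 := hP σ
    rw [(hcoc σ).1 h] at h1
    exact (sub_eq_zero.1 h1.symm)
  have hact1 : ∀ σ : Gal K, σ s ≠ s →
      act (WF a b) σ.toAlgHom P = P + T0 K hb (AlgebraicClosure K) := by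
    intro σ h
    have h1 := hP σ
    rw [(hcoc σ).2 h] at h1
    rw [h1]
    abel
  rcases P with _ | ⟨x, y, hxy⟩
  · left
    apply hfix0
    intro σ
    exact map_zero _
  by_cases hx : x = 0
  · left
    apply hfix0
    intro σ
    subst hx
    have e0 := eqn hxy
    have hy : y = 0 := by
      have : y ^ 2 = 0 := by rw [e0]; ring
      exact pow_eq_zero_iff two_ne_zero |>.1 this
    subst hy
    rw [act_some]
    congr 1
    · exact map_zero σ
    · exact map_zero σ
  have e0 := eqn hxy
  have hc : (algebraMap K (AlgebraicClosure K) b) ≠ 0 :=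
    (map_ne_zero_iff _ (algebraMap K (AlgebraicClosure K)).injective).2 hb
  have f0 : ∀ σ : Gal K, σ s = s → σ x = x ∧ σ y = y := by
    intro σ h
    have h1 := hact0 σ h
    rw [act_some] at h1
    exact (Affine.Point.some.injEq _ _ _ _ _ _).mp h1
  have f1 : ∀ σ : Gal K, σ s ≠ s → σ x = (algebraMap K (AlgebraicClosure K) b) / x ∧
      σ y = - ((algebraMap K (AlgebraicClosure K) b) * y / x ^ 2) := by
    intro σ h
    have h1 := hact1 σ h
    rw [act_some] at h1
    exact add_T hb _ _ hx h1
  right
  by_cases hy : y = 0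
  · left
    subst hy
    have e1 : x ^ 2 + algebraMap K (AlgebraicClosure K) a * x +
        algebraMap K (AlgebraicClosure K) b = 0 := by
      have h1 : x * (x ^ 2 + algebraMap K (AlgebraicClosure K) a * x +
          algebraMap K (AlgebraicClosure K) b) = 0 := by
        linear_combination -e0
      exact (mul_eq_zero.1 h1).resolve_left hx
    obtain ⟨r, hr⟩ : ∃ r : K, algebraMap K (AlgebraicClosure K) r =
        (2 * x + algebraMap K (AlgebraicClosure K) a) * s := by
      apply fixm
      intro σ
      have e4 : σ (2 : AlgebraicClosure K) = 2 := map_ofNat σ 2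
      have e5 : σ (algebraMap K (AlgebraicClosure K) a) =
        algebraMap K (AlgebraicClosure K) a := σ.commutes a
      by_cases h : σ s = s
      · rw [map_mul, map_add, map_mul, (f0 σ h).1, h, e4, e5]
      · rw [map_mul, map_add, map_mul, (f1 σ h).1, (hsσ σ).resolve_left h, e4, e5]
        have e2 : (algebraMap K (AlgebraicClosure K) b) / x =
            -(x + algebraMap K (AlgebraicClosure K) a) := by
          rw [div_eq_iff hx]
          linear_combination e1
        rw [e2]
        ring
    refine ⟨r, ?_⟩
    apply (algebraMap K (AlgebraicClosure K)).injective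
    have e3 : ((2 * x + algebraMap K (AlgebraicClosure K) a) * s) ^ 2 =
        algebraMap K (AlgebraicClosure K) d *
          (algebraMap K (AlgebraicClosure K) a ^ 2 - 4 * algebraMap K (AlgebraicClosure K) b) := by
      rw [mul_pow, hs]
      linear_combination (4 * (algebraMap K (AlgebraicClosure K) d)) * e1
    simp only [map_mul, map_sub, map_pow, map_ofNat, hr]
    linear_combination -e3
  · right
    obtain ⟨r, hr⟩ : ∃ r : K, algebraMap K (AlgebraicClosure K) r = (y / x) * s := by
      apply fixm
      intro σ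
      by_cases h : σ s = s
      · rw [map_mul, map_div₀, (f0 σ h).1, (f0 σ h).2, h]
      · rw [map_mul, map_div₀, (f1 σ h).1, (f1 σ h).2, (hsσ σ).resolve_left h]
        field_simp
    obtain ⟨Y, hY⟩ : ∃ Y : K, algebraMap K (AlgebraicClosure K) Y =
        y * ((algebraMap K (AlgebraicClosure K) b) - x ^ 2) / x ^ 2 := by
      apply fixm
      intro σ
      have e5 : σ (algebraMap K (AlgebraicClosure K) b) = algebraMap K (AlgebraicClosure K) b :=
        σ.commutes b
      by_cases h : σ s = s
      · simp only [map_div₀, map_mul, map_sub, map_pow, (f0 σ h).1, (f0 σ h).2, e5]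
      · simp only [map_div₀, map_mul, map_sub, map_pow, (f1 σ h).1, (f1 σ h).2, e5]
        field_simp
        ring
    have hr0 : r ≠ 0 := by
      rintro rfl
      rw [map_zero] at hr
      exact mul_ne_zero (div_ne_zero hy hx) hs0 hr.symm
    have hX : algebraMap K (AlgebraicClosure K) (d * (r / d) ^ 2) = y ^ 2 / x ^ 2 := by
      rw [map_mul, map_pow, map_div₀, hr]
      field_simp
      linear_combination hs
    obtain ⟨X, hXd⟩ : ∃ X : K, X = d * (r / d) ^ 2 := ⟨_, rfl⟩
    rw [← hXd] at hX
    refine ⟨X, Y, r / d, ?_, ?_, hXd⟩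
    · rw [hXd]
      exact mul_ne_zero hd (pow_ne_zero 2 (div_ne_zero hr0 hd))
    · apply (algebraMap K (AlgebraicClosure K)).injective
      simp only [Algebra.algebraMap_self_apply, map_add, map_sub, map_mul, map_pow, hY, hX,
        map_ofNat]
      have hy2 : y ^ 2 / x ^ 2 = x + algebraMap K (AlgebraicClosure K) a +
          algebraMap K (AlgebraicClosure K) b / x := by
        rw [e0]
        field_simp
      have hy3 : (y * ((algebraMap K (AlgebraicClosure K) b) - x ^ 2) / x ^ 2) ^ 2 =
          y ^ 2 / x ^ 2 * (((algebraMap K (AlgebraicClosure K) b) - x ^ 2) / x) ^ 2 := by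
        field_simp
      rw [hy3, hy2]
      field_simp
      ring

end

end Pool.Agent.R426.QC.Cv
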