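import Pool.Agent.R426.QC.Ve
import Pool.Agent.TH841.NF.ShaN

/-!
# The Tate-Shafarevich groups and the change of variables
-/

set_option autoImplicit false
set_option linter.unusedSectionVars false

attribute [-instance] DivisionRing.toRatAlgebra

namespace Pool.Agent.R426.QC

open Pool.Agent.Y698

open WeierstrassCurve IsDedekindDomain NumberField

open Pool.Agent.TH841.SH.D (Pt act Gal Coch IsCoc IsCob LocTriv cob)
open Pool.Agent.TH841.NF.D (IsShaCoc shaCoc Sha)

lemma charZ (K L : Type) [Field K] [CharZero K] [Field L] [Algebra K L] : CharZero L :=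
  charZero_of_injective_algebraMap (algebraMap K L).injective

section

variable {K : Type} [Field K] [NumberField K] (j t : K)

/-- the map on the cochains -/
noncomputable def vCo (f : Coch (EX K j)) : Coch (E2 K j t) :=
  fun σ => vPe K j t (AlgebraicClosure K) (f σ)

lemma coc_vCo {f : Coch (EX K j)} (h : IsCoc (EX K j) f) : IsCoc (E2 K j t) (vCo j t f) := by
  refine ⟨?_, fun σ τ => ?_⟩
  · exact h.1.comp _
  · show vPe K j t _ (f (σ * τ)) = vPe K j t _ (f σ) + act (E2 K j t) σ.toAlgHom (vPe K j t _ (f τ))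
    rw [h.2, map_add, act_vPe]

lemma loc_vCo {f : Coch (EX K j)} {E : Type} [Field E] [Algebra K E]
    (h : LocTriv (EX K j) E f) : LocTriv (E2 K j t) E (vCo j t f) := by
  intro ι
  have i1 : CharZero E := charZ K E
  have i2 : CharZero (AlgebraicClosure E) := charZ K _
  obtain ⟨P, hP⟩ := h ι
  refine ⟨vPe K j t (AlgebraicClosure E) P, fun τ σ hσ => ?_⟩
  show act (E2 K j t) ι (vPe K j t _ (f σ)) = _
  rw [act_vPe, act_vPe, hP τ σ hσ, map_sub]

lemma sha_vCo {f : Coch (EX K j)} (h : IsShaCoc (EX K j) f) : IsShaCoc (E2 K j t) (vCo j t f) :=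
  ⟨coc_vCo j t h.1, fun v => loc_vCo j t (h.2.1 v), fun v => loc_vCo j t (h.2.2 v)⟩

lemma vCo_add (f g : Coch (EX K j)) : vCo j t (f + g) = vCo j t f + vCo j t g := by
  funext σ
  exact map_add (vPe K j t (AlgebraicClosure K)) (f σ) (g σ)

lemma vCo_cob {f : Coch (EX K j)} (h : IsCob (EX K j) f) : IsCob (E2 K j t) (vCo j t f) := by
  obtain ⟨P, hP⟩ := h
  refine ⟨vPe K j t _ P, fun σ => ?_⟩
  show vPe K j t _ (f σ) = _
  rw [hP, map_sub, act_vPe]

lemma cob_of_vCo {f : Coch (EX K j)} (h : IsCob (E2 K j t) (vCo j t f)) : IsCob (EX K j) f := by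
  obtain ⟨R, hR⟩ := h
  obtain ⟨R', rfl⟩ := vPe_surj K j t (AlgebraicClosure K) R
  refine ⟨R', fun σ => ?_⟩
  apply vPe_inj K j t (AlgebraicClosure K)
  have h1 : vPe K j t _ (f σ) = _ := hR σ
  rw [h1, map_sub, act_vPe]

/-- the elements of order two of the Tate-Shafarevich group -/
theorem sha_tr (h : ∀ x : Sha (E2 K j t), 2 • x = 0 → x = 0) (x : Sha (EX K j))
    (hx : 2 • x = 0) : x = 0 := by
  rw [two_nsmul] at hx
  obtain ⟨f, rfl⟩ := QuotientAddGroup.mk_surjective x
  have hx' : f + f ∈ (cob (EX K j)).addSubgroupOf (shaCoc (EX K j)) :=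
    (QuotientAddGroup.eq_zero_iff (f + f)).1 hx
  rw [AddSubgroup.mem_addSubgroupOf] at hx'
  refine (QuotientAddGroup.eq_zero_iff f).2 ?_
  rw [AddSubgroup.mem_addSubgroupOf]
  have hg : IsShaCoc (E2 K j t) (vCo j t f.1) := sha_vCo j t f.2
  set g : shaCoc (E2 K j t) := ⟨vCo j t f.1, hg⟩ with hgd
  have h2 : g + g ∈ (cob (E2 K j t)).addSubgroupOf (shaCoc (E2 K j t)) := by
    rw [AddSubgroup.mem_addSubgroupOf]
    have h3 : IsCob (E2 K j t) (vCo j t (f.1 + f.1)) := vCo_cob j t hx'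
    rw [vCo_add] at h3
    exact h3
  have h4 : (2 : ℕ) • (QuotientAddGroup.mk g : Sha (E2 K j t)) = 0 := by
    rw [two_nsmul]
    exact (QuotientAddGroup.eq_zero_iff (g + g)).2 h2
  have h5 := h _ h4
  have h6 : g ∈ (cob (E2 K j t)).addSubgroupOf (shaCoc (E2 K j t)) :=
    (QuotientAddGroup.eq_zero_iff g).1 h5
  rw [AddSubgroup.mem_addSubgroupOf] at h6
  exact cob_of_vCo j t h6

end

end Pool.Agent.R426.QC
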