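import Pool.Agent.R426.QC.Cvw
import Pool.Agent.R426.QC.Shr
import Pool.Agent.R428.G.Fld

/-!
# Local points with given class on the isogenous curve
-/

set_option autoImplicit false
set_option linter.unusedSectionVars false

attribute [-instance] DivisionRing.toRatAlgebra

open NumberField IsDedekindDomain

namespace Pool.Agent.R426.QC

open WithZero
open Pool.Agent.Y698 Pool.Agent.Y698.SG
open Pool.Agent.Y682 (vv vv_coe charZero_adic exists_sqrt exists_sqrt')
open Cv (LocI)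

section gen

variable {F L : Type} [Field F] [CharZero F] [Field L] [Algebra F L] {a D d : F}

/-- the cubic -/
lemma cub (ha : a ^ 2 = a - 2) (X : L) : X ^ 3 - 2 * algebraMap F L (cA a D) * X ^ 2 +
    (algebraMap F L (cA a D) ^ 2 - 4 * algebraMap F L (cB a D)) * X =
    X * (X + algebraMap F L (D * (2 * a - 1)) * (algebraMap F L (1 - a)) ^ 2) *
      (X + algebraMap F L (D * (2 * a - 1)) * (algebraMap F L (1 - a)) ^ 6) := by
  have e1 : -2 * cA a D = D * (2 * a - 1) * (1 - a) ^ 2 + D * (2 * a - 1) * (1 - a) ^ 6 := by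
    unfold cA eA eB
    linear_combination (D * (2 * a - 1) * (-a ^ 4 + 5 * a ^ 3 - 2 * a ^ 2 + 0 * a + 0)) * ha
  have e2 : cA a D ^ 2 - 4 * cB a D =
      (D * (2 * a - 1) * (1 - a) ^ 2) * (D * (2 * a - 1) * (1 - a) ^ 6) := by
    rw [cD_eq]
    unfold eA
    ring
  have e3 := congrArg (algebraMap F L) e1
  have e4 := congrArg (algebraMap F L) e2
  simp only [map_mul, map_neg, map_add, map_sub, map_pow, map_ofNat, map_one] at e3 e4 ⊢
  linear_combination (X ^ 2) * e3 + X * e4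

lemma loc_r (ha : a ^ 2 = a - 2) {r z : L} (hd : algebraMap F L d ≠ 0) (hr : r ≠ 0)
    (hz : z ^ 2 = algebraMap F L d *
      (algebraMap F L d * r ^ 2 + algebraMap F L (D * (2 * a - 1)) * (algebraMap F L (1 - a)) ^ 2) *
      (algebraMap F L d * r ^ 2 +
        algebraMap F L (D * (2 * a - 1)) * (algebraMap F L (1 - a)) ^ 6)) :
    LocI F L (cA a D) (cB a D) d := by
  refine ⟨algebraMap F L d * r ^ 2, r * z, r, mul_ne_zero hd (pow_ne_zero 2 hr), ?_, rfl⟩
  rw [cub ha, mul_pow, hz]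
  ring

lemma loc_tor (ha : a ^ 2 = a - 2) {s : L} (hd : algebraMap F L d ≠ 0)
    (hD : D ≠ 0) (hs : s ^ 2 = -algebraMap F L (D * (2 * a - 1)) * algebraMap F L d) :
    LocI F L (cA a D) (cB a D) d := by
  have hb : algebraMap F L (1 - a) ≠ 0 :=
    (map_ne_zero_iff _ (algebraMap F L).injective).2 (a_ne (ha_conj ha))
  have hs0 : algebraMap F L (D * (2 * a - 1)) ≠ 0 :=
    (map_ne_zero_iff _ (algebraMap F L).injective).2 (mul_ne_zero hD (s_ne ha))
  refine ⟨-(algebraMap F L (D * (2 * a - 1)) * (algebraMap F L (1 - a)) ^ 2), 0,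
    s * algebraMap F L (1 - a) / algebraMap F L d,
    neg_ne_zero.2 (mul_ne_zero hs0 (pow_ne_zero 2 hb)), ?_, ?_⟩
  · rw [cub ha]
    ring
  · rw [div_pow, mul_pow, hs]
    field_simp

lemma loc_inf (ha : a ^ 2 = a - 2) {s t w : L} (hs : s ^ 2 = algebraMap F L d) (hs0 : s ≠ 0)
    (ht : t ≠ 0)
    (hw : w ^ 2 = (1 + algebraMap F L (D * (2 * a - 1)) * (algebraMap F L (1 - a)) ^ 2 * t ^ 2) *
      (1 + algebraMap F L (D * (2 * a - 1)) * (algebraMap F L (1 - a)) ^ 6 * t ^ 2)) :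
    LocI F L (cA a D) (cB a D) d := by
  refine ⟨(t ^ 2)⁻¹, w * (t ^ 3)⁻¹, (t * s)⁻¹, inv_ne_zero (pow_ne_zero 2 ht), ?_, ?_⟩
  · rw [cub ha, mul_pow, hw]
    field_simp
  · rw [← hs]
    field_simp

end gen

section

variable {K : Type} [Field K] [NumberField K] (e : RR ≃+* 𝓞 K)

/-- the element of the completion -/
noncomputable def pk (v : HeightOneSpectrum (𝓞 K)) (x : RR) : v.adicCompletion K :=
  algebraMap K (v.adicCompletion K) (em e x)

lemma pk_ne (v : HeightOneSpectrum (𝓞 K)) {x : RR} (h : x ≠ 0) : pk e v x ≠ 0 :=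
  (map_ne_zero _).2 (em_ne e h)

lemma vv_pk (v : HeightOneSpectrum (𝓞 K)) (x : RR) : vv v (pk e v x) = v.valuation K (em e x) :=
  vv_coe v _

lemma vv_pk_le (v : HeightOneSpectrum (𝓞 K)) (x : RR) : vv v (pk e v x) ≤ 1 := by
  rw [vv_pk]
  exact HeightOneSpectrum.valuation_le_one _ _

/-- the class of one -/
lemma sol_sqE (v : HeightOneSpectrum (𝓞 K)) {d D : RR} (hd : d ≠ 0) {s : v.adicCompletion K}
    (hs : s ^ 2 = pk e v d) :
    LocI K (v.adicCompletion K) (cA (em e aR) (em e D)) (cB (em e aR) (em e D)) (em e d) := by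
  have := charZero_adic v
  have hs0 : s ≠ 0 := by
    rintro rfl
    rw [zero_pow two_ne_zero] at hs
    exact pk_ne e v hd hs.symm
  obtain ⟨π, hπ⟩ := v.valuation_exists_uniformizer K
  have hπ0 : π ≠ 0 := by
    rintro rfl
    rw [map_zero] at hπ
    exact exp_ne_zero hπ.symm
  have hpπ : algebraMap K (v.adicCompletion K) π ≠ 0 := (map_ne_zero _).2 hπ0
  have h4 : vv v (4 : v.adicCompletion K) ≤ 1 := by
    have h5 := vv_pk_le e v 4
    have h6 : pk e v 4 = 4 := by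
      unfold pk
      rw [map_ofNat, map_ofNat]
    rwa [h6] at h5
  have h40 : vv v (4 : v.adicCompletion K) ≠ 0 := (Valuation.ne_zero_iff _).2 (by norm_num)
  obtain ⟨t, ht⟩ : ∃ t : v.adicCompletion K, t = 4 * algebraMap K _ π := ⟨_, rfl⟩
  have ht0 : t ≠ 0 := by
    rw [ht]
    exact mul_ne_zero (by norm_num) hpπ
  have hvt : vv v (t ^ 2) < vv v 4 := by
    have hv1 : vv v (algebraMap K (v.adicCompletion K) π) = exp (-1 : ℤ) := by
      rw [vv_coe, hπ]
    rw [map_pow, ht, map_mul, hv1]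
    have h5 : (vv v 4 * exp (-1 : ℤ)) ^ 2 = vv v 4 * (vv v 4 * exp (-1 : ℤ) ^ 2) := by
      rw [mul_pow, sq (vv v 4), mul_assoc]
    rw [h5]
    have h6 : vv v 4 * exp (-1 : ℤ) ^ 2 < 1 := by
      calc vv v 4 * exp (-1 : ℤ) ^ 2 ≤ 1 * exp (-1 : ℤ) ^ 2 := by gcongr
        _ = exp (-1 : ℤ) ^ 2 := one_mul _
        _ < 1 := by
          refine pow_lt_one₀ zero_le ?_ two_ne_zero
          rw [← exp_zero, exp_lt_exp]; norm_num
    calc vv v 4 * (vv v 4 * exp (-1 : ℤ) ^ 2) < vv v 4 * 1 :=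
          mul_lt_mul_of_pos_left h6 (zero_lt_iff.2 h40)
      _ = _ := mul_one _
  have hcj : em e (cj aR) = 1 - em e aR := by
    rw [cj_aR, map_sub, map_one]
  obtain ⟨w, hw⟩ := exists_sqrt v (t ^ 2 * (pk e v (D * fR * cj aR ^ 2 + D * fR * cj aR ^ 6) +
    pk e v (D * fR * cj aR ^ 2 * (D * fR * cj aR ^ 6)) * t ^ 2)) (by
      rw [map_mul]
      refine lt_of_le_of_lt (mul_le_of_le_one_right' ?_) hvt
      refine (Valuation.map_add _ _ _).trans (max_le (vv_pk_le e v _) ?_)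
      rw [map_mul]
      exact mul_le_one' (vv_pk_le e v _) (hvt.le.trans h4))
  refine loc_inf (ema_sq e) (s := s) (t := t) (w := w) hs hs0 ht0 ?_
  rw [hw]
  unfold pk
  simp only [map_mul, map_add, map_pow, hcj, em_fR]
  ring

/-- square roots at the odd primes -/
lemma sqrt_res {z : RR} (hz : Prime z) (h2 : ¬ z ∣ 2) {c b : RR} (hc : ¬ z ∣ c)
    (hb : z ∣ b ^ 2 - c) : ∃ s : (plc e hz : HeightOneSpectrum (𝓞 K)).adicCompletion K,
      s ^ 2 = pk e (plc e hz) c := by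
  have hzb : ¬ z ∣ b := by
    intro h'
    apply hc
    have h3 : c = b ^ 2 - (b ^ 2 - c) := by ring
    rw [h3]
    exact dvd_sub (dvd_pow h' two_ne_zero) hb
  have h40 : ¬ z ∣ 4 := by
    intro h'
    have h3 : (4 : RR) = 2 * 2 := by norm_num
    rw [h3] at h'
    rcases hz.dvd_or_dvd h' with h | h <;> exact h2 h
  apply exists_sqrt' (plc e hz) (y := pk e (plc e hz) b) (pk_ne e _ fun h' =>
    hzb (by rw [h']; exact dvd_zero _))
  have h4 : vv (plc e hz) (4 : (plc e hz).adicCompletion K) = 1 := by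
    have h5 := val_one' e hz h40
    rw [← vv_coe, map_ofNat, map_ofNat] at h5
    exact h5
  have h6 : pk e (plc e hz) c - pk e (plc e hz) b ^ 2 = pk e (plc e hz) (c - b ^ 2) := by
    unfold pk
    rw [map_sub, map_sub, map_pow, map_pow]
  rw [h4, vv_pk, val_one' e hz hzb, h6, vv_pk, one_pow, mul_one, val_lt]
  have h7 : c - b ^ 2 = -(b ^ 2 - c) := by ring
  rw [h7]
  exact (dvd_neg).2 hb

end

end Pool.Agent.R426.QC
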