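import Pool.Agent.R426.QC.Tor
import Pool.Agent.R426.QC.Cvb
import Pool.Agent.R426.QC.Sln
import Pool.Agent.R428.G.Cls

/-!
# The classes of the points if there are finitely many
-/

set_option autoImplicit false
set_option linter.unusedSectionVars false

attribute [-instance] DivisionRing.toRatAlgebra

open NumberField IsDedekindDomain

namespace Pool.Agent.R426.QC

open WeierstrassCurve WithZero
open Pool.Agent.Y698 Pool.Agent.Y698.SG
open Pool.Agent.R428.G (kap kap_some kap_zero kap_ne kap_add kap_two)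
open Cv (LocI)

section crv

variable {L : Type} [Field L] [CharZero L] [DecidableEq L] {W : WeierstrassCurve L} {r s : L}
  (R : Rt W r s)

include R in
/-- if there are `4 t` points, `t` odd, then the classes are those of the points of order two -/
theorem Rt.cls {t : ℕ} (ht : Odd t) (hc : Nat.card W.toAffine.Point = 4 * t)
    (no4 : ∀ P : W.toAffine.Point, (P + P) + (P + P) = 0 → P + P = 0) (P : W.toAffine.Point) :
    ∃ c : L, c ≠ 0 ∧ (kap r (r * (r - s)) P = c ^ 2 ∨ kap r (r * (r - s)) P = -r * c ^ 2 ∨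
      kap r (r * (r - s)) P = (s - r) * c ^ 2 ∨ kap r (r * (r - s)) P = r * (r - s) * c ^ 2) := by
  have S := R.wr
  obtain ⟨m, hm⟩ := ht
  obtain ⟨R', hR⟩ : ∃ R' : W.toAffine.Point, R' = m • P := ⟨_, rfl⟩
  obtain ⟨Q, hQ⟩ : ∃ Q : W.toAffine.Point, Q = P + (R' + R') := ⟨_, rfl⟩
  have hQt : Q = t • P := by
    rw [hQ, hR, hm, add_smul, one_smul, mul_smul, two_smul, add_comm]
  have h4 : (Q + Q) + (Q + Q) = 0 := by
    have h5 : (Q + Q) + (Q + Q) = 4 • Q := by
      rw [← two_nsmul, ← two_nsmul, ← mul_smul]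
      norm_num
    have : Finite W.toAffine.Point := by
      apply Nat.finite_of_card_ne_zero
      rw [hc]
      omega
    rw [h5, hQt, ← mul_smul, ← hc]
    exact card_nsmul_eq_zero'
  have h2 := no4 Q h4
  obtain ⟨ν, hν0, hν⟩ := kap_add S P (R' + R')
  obtain ⟨μ, hμ0, hμ⟩ := kap_two S R'
  rw [← hQ, hμ] at hν
  have hkQ := kap_ne S Q
  have hP : kap r (r * (r - s)) P = kap r (r * (r - s)) Q *
      (ν / (μ * kap r (r * (r - s)) Q)) ^ 2 := by
    field_simp
    linear_combination hν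
  have hc0 : ν / (μ * kap r (r * (r - s)) Q) ≠ 0 := div_ne_zero hν0 (mul_ne_zero hμ0 hkQ)
  set c₀ := ν / (μ * kap r (r * (r - s)) Q) with hc₀
  rcases Q with _ | ⟨X, Y, k⟩
  · refine ⟨c₀, hc0, Or.inl ?_⟩
    rw [hP]
    show 1 * c₀ ^ 2 = _
    rw [one_mul]
  · have hY := R.two_y k h2
    subst hY
    rcases R.root k with hX | hX | hX
    · refine ⟨c₀, hc0, Or.inr (Or.inl ?_)⟩
      rw [hP, kap_some, hX, dv_ne (Ne.symm R.r0), zero_sub]
    · refine ⟨c₀, hc0, Or.inr (Or.inr (Or.inr ?_))⟩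
      rw [hP, kap_some, hX, dv_T]
    · refine ⟨c₀, hc0, Or.inr (Or.inr (Or.inl ?_))⟩
      rw [hP, kap_some, hX, dv_ne (Ne.symm R.rs)]

end crv

section

variable {K : Type} [Field K] [NumberField K] (e : RR ≃+* 𝓞 K)

/-- the points over `K` if there are finitely many -/
theorem globE {D : RR} (hsq : Squarefree (fR * D)) {J : RR} (hJ : D = 1 + 4 * J)
    (hfin : Finite (EX K (em e J)).toAffine.Point) {d : K}
    (h : LocI K K (cA (em e aR) (em e D)) (cB (em e aR) (em e D)) d) :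
    ∃ c : K, d = c ^ 2 ∨ d = -em e (fR * D) * c ^ 2 := by
  classical
  obtain ⟨t, ht, hct⟩ := torE e hsq hJ
  set j := em e J with hj
  set a := em e aR with ha'
  have ha : a ^ 2 = a - 2 := ema_sq e
  have hDj : em e D = 1 + 4 * j := by
    rw [hJ, map_add, map_mul, map_one, map_ofNat]
  have hD0 : (1 + 4 * j) ≠ 0 := by
    rw [← hDj]
    exact em_ne e (right_ne_zero_of_mul hsq.ne_zero)
  have hs0 : 2 * a - 1 ≠ 0 := s_ne ha
  have ha0 := a_ne ha
  have hb0 := a_ne (ha_conj ha)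
  have hns : ¬ IsSquare ((1 + 4 * j) * (2 * a - 1)) := by
    rw [← hDj, ← em_fR, ← map_mul, mul_comm]
    exact not_sqE e hsq
  have hns' : ¬ IsSquare (-((1 + 4 * j) * (2 * a - 1))) := by
    have e1 : -((1 + 4 * j) * (2 * a - 1)) = em e (fR * (-D)) := by
      rw [← hDj, ← em_fR, map_mul, map_neg]
      ring
    rw [e1]
    apply not_sqE e
    rw [mul_neg]
    exact (Associated.refl _).neg_left.squarefree_iff.2 hsq
  have h1 := eA_add ha
  have h2 := eA_mul ha
  have h3 := eA_sub ha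
  have S : VchE j 0 (EX K j) (E2 K j 0) := vchK j 0
  have hA0 : eA a ≠ 0 := by
    intro h0
    rw [h0, zero_mul] at h2
    norm_num at h2
  have hB0 : eB a ≠ 0 := by
    intro h0
    rw [h0, mul_zero] at h2
    norm_num at h2
  have R : Rt (E2 K j 0) ((1 + 4 * j) * eA a) ((1 + 4 * j) * eB a) :=
    { k1 := rfl
      k2 := by
        rw [S.k2]
        linear_combination (1 + 4 * j) * h1
      k3 := rfl
      k4 := by
        rw [S.k4]
        linear_combination (-(1 + 4 * j) ^ 2) * h2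
      k6 := by
        rw [S.k6]
        ring
      r0 := mul_ne_zero hD0 hA0
      s0 := mul_ne_zero hD0 hB0
      rs := by
        intro h
        apply mul_ne_zero hD0 hs0
        rw [← h3]
        linear_combination h }
  let E : (EX K j).toAffine.Point ≃+ (E2 K j 0).toAffine.Point :=
    AddEquiv.ofBijective (vHe S) ⟨vFe_inj S, vFe_surj S⟩
  have no4 : ∀ P : (E2 K j 0).toAffine.Point, (P + P) + (P + P) = 0 → P + P = 0 := by
    refine R.no_four ?_ ?_ ?_
    · rintro ⟨⟨u, hu⟩, -⟩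
      apply hns'
      refine ⟨u / (1 - a) ^ 2, ?_⟩
      unfold eA at hu
      field_simp
      linear_combination hu
    · rintro ⟨u, hu⟩
      apply hns
      refine ⟨u, ?_⟩
      rw [← h3]
      linear_combination hu
    · rintro ⟨u, hu⟩
      apply hns'
      refine ⟨u, ?_⟩
      rw [← h3]
      linear_combination hu
  have hcard : Nat.card (E2 K j 0).toAffine.Point = 4 * t := by
    rw [← Nat.card_congr E.toEquiv, ← hct]
    refine (Nat.card_congr (Equiv.subtypeUnivEquiv fun x => ?_)).symm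
    exact isOfFinAddOrder_of_finite x
  obtain ⟨X, Y, r, hX, hY, hXd⟩ := h
  have hcub := cub (L := K) (D := em e D) ha X
  rw [Algebra.algebraMap_self_apply] at hXd
  rw [hcub] at hY
  simp only [Algebra.algebraMap_self_apply] at hY
  rw [hDj] at hY
  have hr0 : r ≠ 0 := by
    rintro rfl
    rw [zero_pow two_ne_zero, mul_zero] at hXd
    exact hX hXd
  -- the point
  have hdisc : (E2 K j 0).Δ ≠ 0 := by
    have e1 : (E2 K j 0).Δ = 16 * (112 * (1 + 4 * j) ^ 2) ^ 2 *
        ((21 * (1 + 4 * j)) ^ 2 - 4 * (112 * (1 + 4 * j) ^ 2)) := by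
      unfold E2 WeierstrassCurve.Δ WeierstrassCurve.b₈ WeierstrassCurve.b₆ WeierstrassCurve.b₄
        WeierstrassCurve.b₂
      ring
    have e2 : (21 * (1 + 4 * j)) ^ 2 - 4 * (112 * (1 + 4 * j) ^ 2) = -7 * (1 + 4 * j) ^ 2 := by
      ring
    rw [e1, e2]
    exact mul_ne_zero (mul_ne_zero (by norm_num) (pow_ne_zero 2 (mul_ne_zero (by norm_num)
      (pow_ne_zero 2 hD0)))) (mul_ne_zero (by norm_num) (pow_ne_zero 2 hD0))
  have heq : (E2 K j 0).toAffine.Equation (X / (1 - a) ^ 2 + (1 + 4 * j) * eA a)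
      (Y / (1 - a) ^ 3) := by
    rw [Affine.equation_iff]
    have k1 : (E2 K j 0).toAffine.a₁ = 0 := rfl
    have k2 : (E2 K j 0).toAffine.a₂ = -((1 + 4 * j) * eA a + (1 + 4 * j) * eB a) := R.k2
    have k3 : (E2 K j 0).toAffine.a₃ = 0 := rfl
    have k4 : (E2 K j 0).toAffine.a₄ = (1 + 4 * j) * eA a * ((1 + 4 * j) * eB a) := R.k4
    have k6 : (E2 K j 0).toAffine.a₆ = 0 := R.k6
    rw [k1, k2, k3, k4, k6]
    have k7 : (X / (1 - a) ^ 2 + (1 + 4 * j) * eA a) ^ 3 +
        -((1 + 4 * j) * eA a + (1 + 4 * j) * eB a) * (X / (1 - a) ^ 2 + (1 + 4 * j) * eA a) ^ 2 +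
        (1 + 4 * j) * eA a * ((1 + 4 * j) * eB a) * (X / (1 - a) ^ 2 + (1 + 4 * j) * eA a) + 0 =
        (X / (1 - a) ^ 2 + (1 + 4 * j) * eA a) * (X / (1 - a) ^ 2) *
          (X / (1 - a) ^ 2 + (1 + 4 * j) * (eA a - eB a)) := by ring
    rw [k7, h3, div_pow, hY]
    unfold eA
    field_simp
    ring
  have hns2 : (E2 K j 0).toAffine.Nonsingular (X / (1 - a) ^ 2 + (1 + 4 * j) * eA a)
      (Y / (1 - a) ^ 3) := (Affine.equation_iff_nonsingular_of_Δ_ne_zero hdisc).1 heq
  obtain ⟨c, hc0, hc⟩ := R.cls ht hcard no4 (.some _ _ hns2)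
  have hkap : kap ((1 + 4 * j) * eA a) ((1 + 4 * j) * eA a * ((1 + 4 * j) * eA a -
      (1 + 4 * j) * eB a)) (.some _ _ hns2 : (E2 K j 0).toAffine.Point) = X / (1 - a) ^ 2 := by
    rw [kap_some, dv_ne]
    · ring
    · intro h0
      apply div_ne_zero hX (pow_ne_zero 2 hb0)
      linear_combination h0
  rw [hkap] at hc
  have hsub : (1 + 4 * j) * eA a - (1 + 4 * j) * eB a = (1 + 4 * j) * (2 * a - 1) := by
    rw [← h3]; ring
  rcases hc with hc | hc | hc | hc
  · refine ⟨(1 - a) * c / r, Or.inl ?_⟩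
    rw [hXd] at hc
    field_simp at hc ⊢
    linear_combination hc
  · refine ⟨(1 - a) ^ 3 * c / r, Or.inr ?_⟩
    rw [hXd] at hc
    rw [map_mul, em_fR, hDj]
    unfold eA at hc
    field_simp at hc ⊢
    linear_combination hc
  · refine ⟨(1 - a) * c / r, Or.inr ?_⟩
    rw [hXd] at hc
    have e1 : (1 + 4 * j) * eB a - (1 + 4 * j) * eA a = -((1 + 4 * j) * (2 * a - 1)) := by
      rw [← hsub]; ring
    rw [e1] at hc
    rw [map_mul, em_fR, hDj]
    field_simp at hc ⊢
    linear_combination hc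
  · refine ⟨(1 - a) ^ 3 * ((1 + 4 * j) * (2 * a - 1)) * c / r, Or.inl ?_⟩
    rw [hXd, hsub] at hc
    unfold eA at hc
    field_simp at hc ⊢
    linear_combination hc

end

end Pool.Agent.R426.QC
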