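import Pool.Agent.R426.QC.Tma

/-!
# The indices of the points with nonsingular reduction on the twists by elements of `ℚ(√-7)`
-/

set_option autoImplicit false
set_option linter.unusedSectionVars false

namespace Pool.Agent.R426.QC

open Pool.Agent.Y698
open WeierstrassCurve WithZero
open Pool.Agent.Y696 (NonsingRed)

section val

variable {L : Type} [Field L] [CharZero L] {j : L} {W W' : WeierstrassCurve L} (S : VchE j 0 W W')
  [DecidableEq L]

/-- the map of the groups of points -/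
def vHe : W.toAffine.Point →+ W'.toAffine.Point where
  toFun := vFe S
  map_zero' := rfl
  map_add' := vFe_add S

variable {v : Valuation L ℤᵐ⁰}

include S in
/-- good reduction -/
theorem idx_oneE (hj : v j ≤ 1) (h7 : v (7 : L) = 1) (hD : v (1 + 4 * j) = 1) :
    ∃ H : AddSubgroup W.toAffine.Point, (∀ P, P ∈ H ↔ NonsingRed v W P) ∧ H.index = 1 := by
  refine ⟨⊤, fun P => ?_, AddSubgroup.index_top⟩
  refine ⟨fun _ => ?_, fun _ => AddSubgroup.mem_top _⟩
  rcases P with _ | ⟨x, y, h⟩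
  · trivial
  · rw [ns_iffE S hj]
    rcases lt_or_ge 1 (v x) with hx | hx
    · exact Or.inl hx
    · exact Or.inr (good_redE hj h7 hD (S.eqnA h.1) hx)

include S in
/-- index four at a bad place -/
theorem idx_fourE (hj : v j ≤ 1) (h2 : v (2 : L) = 1) {a : L} (ha : a ^ 2 = a - 2)
    (vA : v ((1 + 4 * j) * eA a) = exp (-1)) (vB : v ((1 + 4 * j) * eB a) = exp (-1)) :
    ∃ H : AddSubgroup W.toAffine.Point, (∀ P, P ∈ H ↔ NonsingRed v W P) ∧ H.index = 4 := by
  have hA0 : (1 + 4 * j) * eA a ≠ 0 := by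
    intro h0
    rw [h0, map_zero] at vA
    exact exp_ne_zero vA.symm
  have hδ0 : 1 + 4 * j ≠ 0 := left_ne_zero_of_mul hA0
  have hB0 : (1 + 4 * j) * eB a ≠ 0 := by
    intro h0
    rw [h0, map_zero] at vB
    exact exp_ne_zero vB.symm
  have l112 : v (112 * (1 + 4 * j) ^ 2) = exp (-2) := by
    have e : 112 * (1 + 4 * j) ^ 2 = ((1 + 4 * j) * eA a) * ((1 + 4 * j) * eB a) := by
      linear_combination (-(1 + 4 * j) ^ 2) * eA_mul ha
    rw [e, map_mul, vA, vB, ← exp_add]
    rfl
  have l21 : v (21 * (1 + 4 * j)) < 1 := by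
    have e : 21 * (1 + 4 * j) = -((1 + 4 * j) * eA a + (1 + 4 * j) * eB a) := by
      linear_combination (1 + 4 * j) * eA_add ha
    rw [e, Valuation.map_neg]
    refine Valuation.map_add_lt v ?_ ?_
    · rw [vA, ← exp_zero, exp_lt_exp]; norm_num
    · rw [vB, ← exp_zero, exp_lt_exp]; norm_num
  have hoB : ¬ Ev2 v ((1 + 4 * j) * eB a) := not_ev2 (k := -1) (by rw [vB]; rfl)
  have hoB' : ¬ Ev2 v (0 - (1 + 4 * j) * eB a) := by
    rw [zero_sub]
    exact not_ev2 (k := -1) (by rw [Valuation.map_neg, vB]; rfl)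
  -- the criterion
  have hcrit : ∀ {X Y : L}, W'.toAffine.Nonsingular X Y →
      (1 ≤ v X ↔ (Ev2 v (dv ((1 + 4 * j) * eB a)
        ((1 + 4 * j) * eB a * ((1 + 4 * j) * (eB a - eA a))) X) ∧
        Ev2 v (dv 0 (112 * (1 + 4 * j) ^ 2) X))) := by
    intro X Y h
    have hE := S.eqn' h.1
    by_cases hX : X = 0
    · have hne : (0 : L) ≠ (1 + 4 * j) * eB a := hB0.symm
      rw [hX, dv_ne hne, map_zero]
      exact ⟨fun h => absurd h (by simp), fun h => absurd h.1 hoB'⟩
    by_cases hXB : X = (1 + 4 * j) * eB a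
    · rw [dv_ne hX, hXB, sub_zero, vB]
      refine ⟨fun h => ?_, fun h => absurd h.2 hoB⟩
      rw [← exp_zero, exp_le_exp] at h
      omega
    rw [dv_ne hX, dv_ne hXB, sub_zero]
    have hE' : Y ^ 2 = X * (X - (1 + 4 * j) * eA a) * (X - (1 + 4 * j) * eB a) := by
      unfold EeqE at hE
      have h5 := eA_mul ha
      have h6 := eA_add ha
      linear_combination hE + X ^ 2 * (1 + 4 * j) * h6 - X * (1 + 4 * j) ^ 2 * h5
    constructor
    · intro h1
      have hlt : (exp (-1) : ℤᵐ⁰) < v X := by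
        refine lt_of_lt_of_le ?_ h1
        rw [← exp_zero, exp_lt_exp]
        norm_num
      have e1 : v (X - (1 + 4 * j) * eA a) = v X :=
        Valuation.map_sub_eq_of_lt_left v (by rw [vA]; exact hlt)
      have e2 : v (X - (1 + 4 * j) * eB a) = v X :=
        Valuation.map_sub_eq_of_lt_left v (by rw [vB]; exact hlt)
      obtain ⟨m, hm⟩ := exists_exp v hX
      have e3 : v (Y ^ 2) = exp (3 * m) := by
        rw [hE', map_mul, map_mul, e1, e2, hm, ← exp_add, ← exp_add]
        congr 1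
        ring
      have hY0 : Y ≠ 0 := by
        rintro rfl
        rw [zero_pow two_ne_zero, map_zero] at e3
        exact exp_ne_zero e3.symm
      obtain ⟨l, hl⟩ := exists_exp v hY0
      rw [map_pow, hl, exp_sq, exp_inj] at e3
      have : Ev2 v X := ⟨m / 2, by rw [hm, exp_inj]; omega⟩
      refine ⟨?_, this⟩
      obtain ⟨k, hk⟩ := this
      exact ⟨k, by rw [e2, hk]⟩
    · rintro ⟨⟨k, hk⟩, ⟨l, hl⟩⟩
      by_contra hlt
      push Not at hlt
      rw [hl, ← exp_zero, exp_lt_exp] at hlt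
      have e2 : v (X - (1 + 4 * j) * eB a) = exp (-1) := by
        rw [Valuation.map_sub_eq_of_lt_right v, vB]
        rw [vB, hl, exp_lt_exp]
        omega
      rw [e2, exp_inj] at hk
      omega
  set H1 := GP (S.wr0 hδ0) (mq_ev v) with hH1
  set H2 := GP (S.wrB hδ0 ha) (mq_ev v) with hH2
  have hidx1 : H1.index = 2 := by
    refine GP_index (S.wr0 hδ0) (mq_ev v) (ev2_dich v) (Q := Te (S.wrB hδ0 ha)) ?_
    unfold Te
    rw [mem_GP, dv_ne hB0, sub_zero]
    exact hoB
  have hidx2 : H2.relIndex H1 = 2 := by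
    show (H2.addSubgroupOf H1).index = 2
    rw [AddSubgroup.index_eq_two_iff]
    have hT1 : Te (S.wr0 hδ0) ∈ H1 := by
      unfold Te
      rw [hH1, mem_GP, dv_T]
      exact ⟨-1, by rw [l112]; rfl⟩
    have hT2 : Te (S.wr0 hδ0) ∉ H2 := by
      unfold Te
      rw [hH2, mem_GP, dv_ne hB0.symm]
      exact hoB'
    refine ⟨⟨Te (S.wr0 hδ0), hT1⟩, fun P => ?_⟩
    rw [AddSubgroup.mem_addSubgroupOf, AddSubgroup.mem_addSubgroupOf]
    show Xor ((P : W'.toAffine.Point) + Te (S.wr0 hδ0) ∈ H2) ((P : W'.toAffine.Point) ∈ H2)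
    by_cases hP : (P : W'.toAffine.Point) ∈ H2
    · refine Or.inr ⟨hP, fun h3 => hT2 ?_⟩
      have := H2.sub_mem h3 hP
      rwa [add_sub_cancel_left] at this
    · refine Or.inl ⟨?_, hP⟩
      have hGI : H2.index = 2 := GP_index (S.wrB hδ0 ha) (mq_ev v) (ev2_dich v) hT2
      exact (AddSubgroup.add_mem_iff_of_index_two hGI).2 ⟨fun h => absurd h hP, fun h => absurd h hT2⟩
  have hidx : (H2 ⊓ H1).index = 4 := by
    have h3 := AddSubgroup.relIndex_mul_index (H := H2 ⊓ H1) (K := H1) inf_le_right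
    rw [AddSubgroup.inf_relIndex_right, hidx2, hidx1] at h3
    omega
  refine ⟨AddSubgroup.comap (vHe S) (H2 ⊓ H1), fun P => ?_, ?_⟩
  · rcases P with _ | ⟨x, y, h⟩
    · exact ⟨fun _ => trivial, fun _ => AddSubgroup.zero_mem _⟩
    · rw [ns_iffE S hj, sing_redE hj h2 l21 (by rw [l112, ← exp_zero, exp_lt_exp]; norm_num)
        (S.eqnA h.1)]
      have hns := (S.ns x y).2 h
      rw [add_zero] at hns
      have e1 : vHe S (.some x y h) = (.some (4 * x - 8 * (1 + 4 * j)) (8 * y + 4 * x) hns :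
          W'.toAffine.Point) := by
        show (.some (4 * x - 8 * (1 + 4 * j) + 0) (8 * y + 4 * x) _ : W'.toAffine.Point) = _
        congr 1
        rw [add_zero]
      rw [AddSubgroup.mem_comap, e1, AddSubgroup.mem_inf, hH1, hH2, mem_GP, mem_GP]
      exact (hcrit hns).symm
  · rw [AddSubgroup.index_comap_of_surjective (f := vHe S) _ (vFe_surj S), hidx]

end val

end Pool.Agent.R426.QC
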