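import Pool.Agent.R426.QC.Shr
import Pool.Agent.R426.QC.Tmb
import Pool.Agent.Y715.Z.Min

/-!
# Minimality and Tamagawa numbers
-/

set_option autoImplicit false
set_option linter.unusedSectionVars false

attribute [-instance] DivisionRing.toRatAlgebra

open NumberField IsDedekindDomain

namespace Pool.Agent.R426.QC

open scoped Classical
open WeierstrassCurve WithZero
open Pool.Agent.Y698 Pool.Agent.Y698.SG
open H667R3 Pool.Agent.W192.HK Pool.Agent.TH936.CM Pool.Agent.TH936.PU
open Pool.Agent.Y682 (vv vv_coe)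
open Pool.Agent.Y696 (NonsingRed)
open Pool.Agent.Y715.Z (mem_max)

section min
open IsDiscreteValuationRing IsLocalRing IsDedekindDomain.HeightOneSpectrum
variable (R : Type) [CommRing R] [IsDomain R] [IsDiscreteValuationRing R] {L : Type}
  [Field L] [Algebra R L] [IsFractionRing R L]

/-- a criterion for minimality -/
theorem isMin_gen (W : WeierstrassCurve L) (hint : WeierstrassCurve.IsIntegral R W)
    (h : ∀ C : WeierstrassCurve.VariableChange L,
      WeierstrassCurve.IsIntegral R (C • W) →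
      ∀ u₀ ∈ IsLocalRing.maximalIdeal R, algebraMap R L u₀ ≠ ((C.u : Lˣ) : L)) :
    WeierstrassCurve.IsMinimal R W := by
  refine ⟨⟨by
    change WeierstrassCurve.IsIntegral R
      ((1 : WeierstrassCurve.VariableChange L) • W)
    rw [one_smul]
    exact hint, ?_⟩⟩
  intro C hC _
  have hC' : WeierstrassCurve.IsIntegral R (C • W) := hC
  change WeierstrassCurve.valuation_Δ_aux R (C • W) ≤
    WeierstrassCurve.valuation_Δ_aux R
      ((1 : WeierstrassCurve.VariableChange L) • W)
  rw [one_smul, ← Subtype.coe_le_coe, valuation_Δ_aux_eq_of_isIntegral,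
    valuation_Δ_aux_eq_of_isIntegral, variableChange_Δ, map_mul]
  have hu0 : ((C.u : Lˣ) : L) ≠ 0 := C.u.ne_zero
  have huv : ((C.u⁻¹ : Lˣ) : L) * ((C.u : Lˣ) : L) = 1 := by simp
  have hle : valuation L (maximalIdeal R) ((C.u⁻¹ : Lˣ) : L) ≤ 1 := by
    by_contra hlt
    rw [not_le] at hlt
    have h1 : valuation L (maximalIdeal R) ((C.u : Lˣ) : L) < 1 := by
      have h2 := congrArg (valuation L (maximalIdeal R)) huv
      rw [map_mul, map_one] at h2
      by_contra h3
      rw [not_lt] at h3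
      exact absurd h2 (one_lt_mul_of_lt_of_le hlt h3).ne'
    obtain ⟨u₀, hu₀⟩ := exists_lift_of_le_one (A := R) (K := L) h1.le
    have hmem : u₀ ∈ IsLocalRing.maximalIdeal R := by
      rw [← hu₀] at h1
      exact (valuation_lt_one_iff_mem (K := L) (maximalIdeal R) u₀).1 h1
    exact h C hC' u₀ hmem hu₀
  calc valuation L (maximalIdeal R) (((C.u⁻¹ : Lˣ) : L) ^ 12) *
        valuation L (maximalIdeal R) W.Δ
      ≤ 1 * valuation L (maximalIdeal R) W.Δ := by
        rw [map_pow]
        gcongr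
        exact pow_le_one₀ zero_le hle
    _ = _ := one_mul _

end min

section

variable {K : Type} [Field K] [NumberField K] (e : RR ≃+* 𝓞 K)

lemma exp_lt_one {n : ℤ} (h : n < 0) : (exp n : ℤᵐ⁰) < 1 := by
  rw [← exp_zero, exp_lt_exp]; exact h

/-- the curve over the valuation ring -/
lemma EX_int (v : HeightOneSpectrum (𝓞 K)) (J : RR) :
    (EX K (em e J)).baseChange (v.adicCompletion K) =
      (EX (v.adicCompletionIntegers K)
        (algebraMap (𝓞 K) (v.adicCompletionIntegers K) (e J))).baseChange (v.adicCompletion K) := by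
  show (EX K (em e J)).map _ = (EX _ _).map _
  rw [EX_map, EX_map]
  congr 1

lemma exp_gt {x : ℤᵐ⁰} (h : x < 1) : x ≤ exp (-1 : ℤ) := by
  by_cases hx : x = 0
  · rw [hx]; exact zero_le
  · obtain ⟨n, rfl⟩ : ∃ n : ℤ, x = exp n := ⟨log x, (exp_log hx).symm⟩
    rw [← exp_zero, exp_lt_exp] at h
    rw [exp_le_exp]
    omega

/-- the discriminant -/
lemma v_disc {D : RR} (hsq : Squarefree (fR * D)) {J : RR} (hJ : D = 1 + 4 * J) {z : RR}
    (hz : Prime z) : exp (-6 : ℤ) ≤ (plc e hz).valuation K (EX K (em e J)).Δ := by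
  have hD : em e D = 1 + 4 * em e J := by
    rw [hJ, map_add, map_mul, map_one, map_ofNat]
  have e1 : (EX K (em e J)).Δ = (em e (fR * D)) ^ 6 := by
    rw [EX_Δ, ← hD, map_mul, mul_pow]
    have e2 : (em e fR) ^ 6 = -343 := by
      rw [← map_pow]
      have e3 : (fR ^ 6 : RR) = -343 := by
        have := fR_sq
        linear_combination (fR ^ 4 - 7 * fR ^ 2 + 49) * this
      rw [e3, map_neg, map_ofNat]
    rw [e2]
  rw [e1, map_pow]
  have h1 : exp (-1 : ℤ) ≤ (plc e hz).valuation K (em e (fR * D)) := by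
    by_cases h : z ∣ fR * D
    · rw [val_sqf e hz hsq h]
    · rw [val_one' e hz h]
      exact (exp_lt_one (by norm_num)).le
  calc (exp (-6 : ℤ) : ℤᵐ⁰) = (exp (-1 : ℤ)) ^ 6 := by rw [← exp_nsmul]; rfl
    _ ≤ _ := by gcongr

/-- **minimality** -/
theorem minE {D : RR} (hsq : Squarefree (fR * D)) {J : RR} (hJ : D = 1 + 4 * J)
    (v : HeightOneSpectrum (𝓞 K)) :
    WeierstrassCurve.IsMinimal (v.adicCompletionIntegers K)
      ((EX K (em e J)).baseChange (v.adicCompletion K)) := by
  obtain ⟨z, hz, rfl⟩ := exists_plc e v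
  apply isMin_gen
  · exact ⟨⟨_, EX_int e (plc e hz) J⟩⟩
  intro C hC u₀ hu₀ hu
  set w := vv (plc e hz) with hw
  have hu1 : w ((C.u : _ˣ) : (plc e hz).adicCompletion K) < 1 := by
    rw [← hu]
    exact (mem_max _ _).1 hu₀
  have hu2 : w ((C.u : _ˣ) : (plc e hz).adicCompletion K) ≤ exp (-1 : ℤ) := exp_gt hu1
  obtain ⟨⟨W₀, hW₀⟩⟩ := hC
  have hint : ∀ a : (plc e hz).adicCompletionIntegers K,
      w (algebraMap _ ((plc e hz).adicCompletion K) a) ≤ 1 := fun a =>
    (HeightOneSpectrum.mem_adicCompletionIntegers (𝓞 K) K (plc e hz)).1 a.2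
  have bΔ : w (C • (EX K (em e J)).baseChange ((plc e hz).adicCompletion K)).Δ ≤ 1 := by
    rw [hW₀]
    have : (W₀.baseChange ((plc e hz).adicCompletion K)).Δ =
        algebraMap _ ((plc e hz).adicCompletion K) W₀.Δ := WeierstrassCurve.map_Δ _ _
    rw [this]
    exact hint _
  obtain ⟨u, hu'⟩ : ∃ u : (plc e hz).adicCompletion K, u = ((C.u : _ˣ) : (plc e hz).adicCompletion K) :=
    ⟨_, rfl⟩
  have hu0 : u ≠ 0 := by rw [hu']; exact C.u.ne_zero
  have huinv : ((C.u⁻¹ : _ˣ) : (plc e hz).adicCompletion K) = u⁻¹ := by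
    rw [Units.val_inv_eq_inv_val, hu']
  rw [← hu'] at hu2
  have hΔ : ((EX K (em e J)).baseChange ((plc e hz).adicCompletion K)).Δ =
      algebraMap K ((plc e hz).adicCompletion K) (EX K (em e J)).Δ := WeierstrassCurve.map_Δ _ _
  rw [WeierstrassCurve.variableChange_Δ, huinv, hΔ, map_mul, map_pow, map_inv₀, inv_pow,
    vv_coe] at bΔ
  have hwu : w u ≠ 0 := (Valuation.ne_zero_iff _).2 hu0
  have hd := v_disc e hsq hJ hz
  have h64 : (plc e hz).valuation K (EX K (em e J)).Δ ≤ w u ^ 12 := by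
    have h5 : (plc e hz).valuation K (EX K (em e J)).Δ =
        w u ^ 12 * ((w u ^ 12)⁻¹ * (plc e hz).valuation K (EX K (em e J)).Δ) := by
      rw [← mul_assoc, mul_inv_cancel₀ (pow_ne_zero 12 hwu), one_mul]
    rw [h5]
    exact mul_le_of_le_one_right' bΔ
  have h12 : (exp (-6 : ℤ) : ℤᵐ⁰) ≤ exp (-12 : ℤ) := by
    calc (exp (-6 : ℤ) : ℤᵐ⁰) ≤ (plc e hz).valuation K (EX K (em e J)).Δ := hd
      _ ≤ w u ^ 12 := h64
      _ ≤ (exp (-1 : ℤ)) ^ 12 := by gcongr
      _ = exp (-12 : ℤ) := by rw [← exp_nsmul]; rfl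
  rw [exp_le_exp] at h12
  norm_num at h12

/-- the Tamagawa numbers -/
noncomputable def cE (D : RR) (v : HeightOneSpectrum (𝓞 K)) : ℕ :=
  if e (fR * D) ∈ v.asIdeal then 4 else 1

lemma not_two_mem {z : RR} (hz : Prime z) {D J : RR} (hJ : D = 1 + 4 * J) (h : z ∣ fR * D) :
    ¬ z ∣ 2 := by
  intro h2
  rcases hz.dvd_or_dvd h with h3 | h3
  · have h7 : z ∣ 7 := by
      have e1 : (7 : RR) = -(fR ^ 2) := by rw [fR_sq]; norm_num
      rw [e1, dvd_neg]
      exact dvd_pow h3 two_ne_zero
    apply hz.not_isUnit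
    have e1 : (1 : RR) = 7 - 2 * 3 := by norm_num
    exact isUnit_of_dvd_one (by rw [e1]; exact dvd_sub h7 (h2.mul_right _))
  · apply hz.not_isUnit
    have e1 : (1 : RR) = D - 2 * (2 * J) := by rw [hJ]; ring
    exact isUnit_of_dvd_one (by rw [e1]; exact dvd_sub h3 (h2.mul_right _))

/-- **the Tamagawa numbers** -/
theorem tamE {D : RR} (hsq : Squarefree (fR * D)) {J : RR} (hJ : D = 1 + 4 * J)
    (v : HeightOneSpectrum (𝓞 K)) :
    ∃ H : AddSubgroup ((EX K (em e J)).baseChange (v.adicCompletion K)).toAffine.Point,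
      (∀ P, P ∈ H ↔ NonsingRed Valued.v
        ((EX K (em e J)).baseChange (v.adicCompletion K)) P) ∧ H.index = cE e D v := by
  obtain ⟨z, hz, rfl⟩ := exists_plc e v
  have hchar : CharZero ((plc e hz : HeightOneSpectrum (𝓞 K)).adicCompletion K) :=
    Pool.Agent.Y682.charZero_adic (plc e hz)
  have S := vche K (em e J) 0 ((plc e hz).adicCompletion K)
  rw [map_zero] at S
  set j' := algebraMap K ((plc e hz).adicCompletion K) (em e J) with hj'
  have hD : em e D = 1 + 4 * em e J := by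
    rw [hJ, map_add, map_mul, map_one, map_ofNat]
  have hDj : 1 + 4 * j' = algebraMap K ((plc e hz).adicCompletion K) (em e D) := by
    rw [hD, map_add, map_mul, map_one, map_ofNat]
  have hcoe : ∀ x : RR, (Valued.v : Valuation ((plc e hz).adicCompletion K) ℤᵐ⁰)
      (algebraMap K ((plc e hz).adicCompletion K) (em e x)) = (plc e hz).valuation K (em e x) :=
    fun x => vv_coe _ _
  have hnat : ∀ n : ℕ, (Valued.v : Valuation ((plc e hz).adicCompletion K) ℤᵐ⁰)
      (n : (plc e hz).adicCompletion K) = (plc e hz).valuation K (em e n) := by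
    intro n
    have hn : (n : (plc e hz).adicCompletion K) =
        algebraMap K ((plc e hz).adicCompletion K) (em e n) := by
      rw [map_natCast (em e), map_natCast (algebraMap K ((plc e hz).adicCompletion K))]
    rw [hn, hcoe]
  have hj : (Valued.v : Valuation ((plc e hz).adicCompletion K) ℤᵐ⁰) j' ≤ 1 := by
    rw [hj', hcoe]
    exact val_le e hz J
  unfold cE
  by_cases hd : z ∣ fR * D
  · rw [if_pos ((plc_mem e hz _).2 hd)]
    have h2z := not_two_mem hz hJ hd
    have h2 : (Valued.v : Valuation ((plc e hz).adicCompletion K) ℤᵐ⁰) 2 = 1 := by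
      have := hnat 2
      rw [Nat.cast_ofNat, Nat.cast_ofNat, val_one' e hz h2z] at this
      exact this
    have ha : (algebraMap K ((plc e hz).adicCompletion K) (em e aR)) ^ 2 =
        algebraMap K ((plc e hz).adicCompletion K) (em e aR) - 2 := by
      rw [← map_pow, ema_sq, map_sub, map_ofNat]
    have hvd := val_sqf e hz hsq hd
    have ha1 : (plc e hz).valuation K (em e aR) = 1 :=
      val_one' e hz fun h => h2z (h.trans ⟨cj aR, two_eq⟩)
    have hb1 : (plc e hz).valuation K (em e (cj aR)) = 1 :=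
      val_one' e hz fun h => h2z (h.trans ⟨aR, by rw [two_eq, mul_comm]⟩)
    refine idx_fourE S hj h2 ha ?_ ?_
    · have e1 : (1 + 4 * j') * eA (algebraMap K ((plc e hz).adicCompletion K) (em e aR)) =
          algebraMap K ((plc e hz).adicCompletion K) (em e (fR * D * cj aR ^ 4)) := by
        rw [hDj, cj_aR]
        unfold eA
        simp only [map_mul, map_pow, map_sub, map_one, em_fR, map_ofNat]
        ring
      rw [e1, hcoe, map_mul, map_mul, map_pow, map_pow, hvd, hb1, one_pow, mul_one]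
    · have e1 : (1 + 4 * j') * eB (algebraMap K ((plc e hz).adicCompletion K) (em e aR)) =
          algebraMap K ((plc e hz).adicCompletion K) (em e (-(fR * D * aR ^ 4))) := by
        rw [hDj]
        unfold eB
        simp only [map_mul, map_pow, map_sub, map_neg, map_one, em_fR, map_ofNat]
        ring
      rw [e1, hcoe, map_neg, Valuation.map_neg, map_mul, map_mul, map_pow, map_pow, hvd, ha1,
        one_pow, mul_one]
  · rw [if_neg (fun h => hd ((plc_mem e hz _).1 h))]
    refine idx_oneE S hj ?_ ?_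
    · have h7 : ¬ z ∣ 7 := fun h => hd ((dvd_fR hz h).mul_right _)
      have := hnat 7
      rw [Nat.cast_ofNat, Nat.cast_ofNat, val_one' e hz h7] at this
      exact this
    · rw [hDj, hcoe]
      exact val_one' e hz fun h => hd (h.mul_left _)

/-- the product of the Tamagawa numbers -/
theorem cE_prod {ι : Type} [DecidableEq ι] {I : Finset ι} {π : ι → RR} (hπ : ∀ i ∈ I, Pm (π i))
    (hf : Fam I π) :
    {v : HeightOneSpectrum (𝓞 K) | cE e (∏ i ∈ I, π i) v ≠ 1}.Finite ∧
    ∏ᶠ v : HeightOneSpectrum (𝓞 K), cE e (∏ i ∈ I, π i) v = 4 ^ (I.card + 1) := by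
  set pls : Finset (HeightOneSpectrum (𝓞 K)) :=
    (Finset.univ : Finset I).image (fun l => plc e (hπ l.1 l.2).pr) with hpls
  set v7 : HeightOneSpectrum (𝓞 K) := plc e prime_fR with hv7
  have hinj : Function.Injective (fun l : I => (plc e (hπ l.1 l.2).pr : HeightOneSpectrum (𝓞 K))) := by
    intro a b hab
    by_contra hne
    have h1 := (plc_eq e (hπ a.1 a.2).pr (hπ b.1 b.2).pr).1 hab
    exact hf.ne b.1 b.2 a.1 a.2 (fun h => hne (Subtype.ext h.symm))
      (Ideal.mem_span_singleton.2 h1.dvd)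
  have hcard : pls.card = I.card := by
    rw [hpls, Finset.card_image_of_injective _ hinj, Finset.card_univ, Fintype.card_coe]
  have hmem : ∀ v : HeightOneSpectrum (𝓞 K), v ∈ insert v7 pls ↔
      e (fR * ∏ i ∈ I, π i) ∈ v.asIdeal := by
    intro v
    rw [Finset.mem_insert, hpls, Finset.mem_image]
    constructor
    · rintro (rfl | ⟨l, -, rfl⟩)
      · exact (plc_mem e _ _).2 (Dvd.intro _ rfl)
      · exact (plc_mem e _ _).2 ((Finset.dvd_prod_of_mem π l.2).mul_left _)
    · intro hv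
      obtain ⟨z, hz, rfl⟩ := exists_plc e v
      rcases hz.dvd_or_dvd ((plc_mem e _ _).1 hv) with h1 | h1
      · left
        exact (plc_eq e hz prime_fR).2 (hz.associated_of_dvd prime_fR h1)
      · right
        obtain ⟨l, hl, hzl⟩ := (hz.dvd_finsetProd_iff _).1 h1
        exact ⟨⟨l, hl⟩, Finset.mem_univ _,
          ((plc_eq e hz (hπ l hl).pr).2 (hz.associated_of_dvd (hπ l hl).pr hzl)).symm⟩
  have hv7 : v7 ∉ pls := by
    rw [hpls, Finset.mem_image]
    rintro ⟨l, -, hl⟩
    have h1 := (plc_eq e (hπ l.1 l.2).pr prime_fR).1 hl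
    exact fR_notin (hπ l.1 l.2).pd (Ideal.mem_span_singleton.2 h1.dvd)
  have hval1 : ∀ v ∈ insert v7 pls, cE e (∏ i ∈ I, π i) v = 4 := fun v hv => if_pos ((hmem v).1 hv)
  have hsub : ∀ v : HeightOneSpectrum (𝓞 K), cE e (∏ i ∈ I, π i) v ≠ 1 → v ∈ insert v7 pls := by
    intro v hv
    by_contra h
    exact hv (if_neg fun h' => h ((hmem v).2 h'))
  refine ⟨(Finset.finite_toSet (insert v7 pls)).subset fun v hv => hsub v hv, ?_⟩
  rw [finprod_eq_prod_of_mulSupport_subset (s := insert v7 pls) _ (fun v hv => hsub v hv),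
    Finset.prod_congr rfl hval1, Finset.prod_const, Finset.card_insert_of_notMem hv7, hcard]

/-- `√-7 D` is squarefree -/
lemma sqf_seven {ι : Type} {I : Finset ι} {π : ι → RR} (hπ : ∀ i ∈ I, Pm (π i)) (hf : Fam I π) :
    Squarefree (fR * ∏ i ∈ I, π i) := by
  refine squarefree_mul_iff.2 ⟨?_, prime_fR.squarefree, sqf_fam hπ hf⟩
  exact (IsCoprime.prod_right fun i hi => (hπ i hi).pd.cop).isRelPrime

end

end Pool.Agent.R426.QC
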