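import Pool.Agent.R426.QC.Shr
import Pool.Agent.R426.QC.Tmb
import Pool.Agent.R428.G.Tor

/-!
# The torsion of the twists over `ℚ(√-7)`
-/

set_option autoImplicit false
set_option linter.unusedSectionVars false

attribute [-instance] DivisionRing.toRatAlgebra

open NumberField IsDedekindDomain

namespace Pool.Agent.R426.QC

open WeierstrassCurve WithZero
open Pool.Agent.Y698 Pool.Agent.Y698.SG
open H667R3 Pool.Agent.W192.HK Pool.Agent.TH936.CM Pool.Agent.TH936.PU
open Pool.Agent.Y682 (IsT)
open Pool.Agent.R428.G (card_torsion)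

section crv

/-- the curve `y² = x (x - r) (x - s)` -/
structure Rt {L : Type} [Field L] (W : WeierstrassCurve L) (r s : L) : Prop where
  k1 : W.a₁ = 0
  k2 : W.a₂ = -(r + s)
  k3 : W.a₃ = 0
  k4 : W.a₄ = r * s
  k6 : W.a₆ = 0
  r0 : r ≠ 0
  s0 : s ≠ 0
  rs : r ≠ s

variable {L : Type} [Field L] [CharZero L] [DecidableEq L] {W : WeierstrassCurve L} {r s : L}
  (R : Rt W r s)

include R in
omit [CharZero L] [DecidableEq L] in
lemma Rt.w0 : Wr W 0 (-(r + s)) (r * s) where
  k1 := R.k1
  k2 := by rw [R.k2]; ring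
  k3 := R.k3
  k4 := by rw [R.k4]; ring
  k6 := by rw [R.k6]; ring
  hβ := mul_ne_zero R.r0 R.s0

include R in
omit [CharZero L] [DecidableEq L] in
lemma Rt.wr : Wr W r (2 * r - s) (r * (r - s)) where
  k1 := R.k1
  k2 := by rw [R.k2]; ring
  k3 := R.k3
  k4 := by rw [R.k4]; ring
  k6 := by rw [R.k6]; ring
  hβ := mul_ne_zero R.r0 (sub_ne_zero.2 R.rs)

include R in
omit [CharZero L] [DecidableEq L] in
lemma Rt.ws : Wr W s (2 * s - r) (s * (s - r)) where
  k1 := R.k1
  k2 := by rw [R.k2]; ring
  k3 := R.k3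
  k4 := by rw [R.k4]; ring
  k6 := by rw [R.k6]; ring
  hβ := mul_ne_zero R.s0 (sub_ne_zero.2 (Ne.symm R.rs))

include R in
lemma Rt.two_y {x y : L} (h : W.toAffine.Nonsingular x y)
    (h2 : (.some x y h : W.toAffine.Point) + .some x y h = 0) : y = 0 := by
  rw [add_eq_zero_iff_eq_neg] at h2
  obtain ⟨h', e⟩ := R.w0.neg_some h
  rw [e, Affine.Point.some.injEq] at h2
  apply mul_left_cancel₀ (show (2 : L) ≠ 0 by norm_num)
  linear_combination h2.2

include R in
lemma Rt.root {x : L} (h : W.toAffine.Nonsingular x 0) : x = 0 ∨ x = r ∨ x = s := by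
  have h1 := R.w0.eqn h.1
  have h2 : x * ((x - r) * (x - s)) = 0 := by linear_combination -h1
  rcases mul_eq_zero.1 h2 with h3 | h3
  · exact Or.inl h3
  · rcases mul_eq_zero.1 h3 with h4 | h4
    · exact Or.inr (Or.inl (sub_eq_zero.1 h4))
    · exact Or.inr (Or.inr (sub_eq_zero.1 h4))

include R in
/-- four points are killed by two -/
lemma Rt.card_two : Nat.card {x : W.toAffine.Point // x + x = 0} = 4 := by
  let F : Option (Fin 3) → {x : W.toAffine.Point // x + x = 0} := fun j => match j with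
    | none => ⟨0, add_zero 0⟩
    | some 0 => ⟨Te R.w0, R.w0.T_add_T⟩
    | some 1 => ⟨Te R.wr, R.wr.T_add_T⟩
    | some 2 => ⟨Te R.ws, R.ws.T_add_T⟩
  have hF : Function.Bijective F := by
    constructor
    · intro a b hab
      have h := congrArg Subtype.val hab
      rcases a with _ | a <;> rcases b with _ | b
      · rfl
      · exfalso
        fin_cases b <;> exact Affine.Point.some_ne_zero _ h.symm
      · exfalso
        fin_cases a <;> exact Affine.Point.some_ne_zero _ h
      · fin_cases a <;> fin_cases b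
        · rfl
        · exact absurd ((Affine.Point.some.injEq _ _ _ _ _ _).mp h).1.symm R.r0
        · exact absurd ((Affine.Point.some.injEq _ _ _ _ _ _).mp h).1.symm R.s0
        · exact absurd ((Affine.Point.some.injEq _ _ _ _ _ _).mp h).1 R.r0
        · rfl
        · exact absurd ((Affine.Point.some.injEq _ _ _ _ _ _).mp h).1 R.rs
        · exact absurd ((Affine.Point.some.injEq _ _ _ _ _ _).mp h).1 R.s0
        · exact absurd ((Affine.Point.some.injEq _ _ _ _ _ _).mp h).1 (Ne.symm R.rs)
        · rfl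
    · rintro ⟨P, hP⟩
      rcases P with _ | ⟨x, y, h⟩
      · exact ⟨none, rfl⟩
      · have hy := R.two_y h hP
        subst hy
        rcases R.root h with h1 | h1 | h1
        · exact ⟨some 0, Subtype.ext (R.w0.eq_T h1 h).symm⟩
        · exact ⟨some 1, Subtype.ext (R.wr.eq_T h1 h).symm⟩
        · exact ⟨some 2, Subtype.ext (R.ws.eq_T h1 h).symm⟩
  rw [← Nat.card_eq_of_bijective F hF]
  simp

include R in
/-- no point of order four -/
lemma Rt.no_four (h1 : ¬ (IsSquare (-r) ∧ IsSquare (-s))) (h2 : ¬ IsSquare (r - s))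
    (h3 : ¬ IsSquare (s - r)) (P : W.toAffine.Point) (hP : (P + P) + (P + P) = 0) : P + P = 0 := by
  by_contra hne
  rcases hQ : P + P with _ | ⟨x, y, h⟩
  · exact hne (hQ.trans rfl)
  · rw [hQ] at hP
    have hy := R.two_y h hP
    subst hy
    rcases P with _ | ⟨x₁, y₁, h₁⟩
    · exact absurd (hQ.symm.trans (add_zero _)) (Affine.Point.some_ne_zero h)
    -- the coordinates
    have key : ∀ (e' β' : L), dv e' β' x₁ ≠ 0 → (∃ ν : L, ν ≠ 0 ∧
        dv e' β' x₁ * dv e' β' x₁ * dv e' β' x = ν ^ 2) → IsSquare (dv e' β' x) := by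
      rintro e' β' h3 ⟨ν, -, hν⟩
      refine ⟨ν / dv e' β' x₁, ?_⟩
      field_simp
      linear_combination hν
    have kr := key _ _ (dv_ne_zero R.wr x₁) (R.wr.dv_line hQ)
    have ks := key _ _ (dv_ne_zero R.ws x₁) (R.ws.dv_line hQ)
    rcases R.root h with h4 | h4 | h4
    · rw [h4, dv_ne (Ne.symm R.r0), zero_sub] at kr
      rw [h4, dv_ne (Ne.symm R.s0), zero_sub] at ks
      exact h1 ⟨kr, ks⟩
    · rw [h4, dv_ne R.rs] at ks
      exact h2 ks
    · rw [h4, dv_ne (Ne.symm R.rs)] at kr
      exact h3 kr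

end crv

section

variable {K : Type} [Field K] [NumberField K] (e : RR ≃+* 𝓞 K)

/-- the element has odd valuation -/
lemma not_sqE {D : RR} (hsq : Squarefree (fR * D)) : ¬ IsSquare (em e (fR * D)) := by
  rintro ⟨r, hr⟩
  have h1 := val_sqf e prime_fR hsq (Dvd.intro _ rfl)
  have h0 : r ≠ 0 := by
    rintro rfl
    rw [mul_zero] at hr
    exact em_ne e hsq.ne_zero hr
  rw [← pow_two] at hr
  refine ev_odd_val (w := (plc e prime_fR).valuation K) h0 (x := em e (fR * D)) (k := -1) ?_ ?_
  · rw [hr, map_pow]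
  · rw [h1]
    congr 1

/-- **the order of the torsion group** -/
theorem torE {D : RR} (hsq : Squarefree (fR * D)) {J : RR} (hJ : D = 1 + 4 * J)
    [hde : DecidableEq K] :
    ∃ t : ℕ, Odd t ∧
      Nat.card (AddCommGroup.torsion (EX K (em e J)).toAffine.Point) = 4 * t := by
  obtain rfl : hde = Classical.decEq K := Subsingleton.elim _ _
  let _ : DecidableEq K := Classical.decEq K
  set j := em e J with hj
  set a := em e aR with ha'
  have ha : a ^ 2 = a - 2 := ema_sq e
  have hDj : em e D = 1 + 4 * j := by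
    rw [hJ, map_add, map_mul, map_one, map_ofNat]
  have hD0 : (1 + 4 * j) ≠ 0 := by
    rw [← hDj]
    exact em_ne e (right_ne_zero_of_mul hsq.ne_zero)
  have hs0 : 2 * a - 1 ≠ 0 := s_ne ha
  have ha0 := a_ne ha
  have hb0 := a_ne (ha_conj ha)
  have hns : ¬ IsSquare ((1 + 4 * j) * (2 * a - 1)) := by
    rw [← hDj, ← em_fR, ← map_mul, mul_comm]
    exact not_sqE e hsq
  have hns' : ¬ IsSquare (-((1 + 4 * j) * (2 * a - 1))) := by
    have e1 : -((1 + 4 * j) * (2 * a - 1)) = em e (fR * (-D)) := by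
      rw [← hDj, ← em_fR, map_mul, map_neg]
      ring
    rw [e1]
    apply not_sqE e
    rw [mul_neg]
    exact (Associated.refl _).neg_left.squarefree_iff.2 hsq
  have h1 := eA_add ha
  have h2 := eA_mul ha
  have h3 := eA_sub ha
  have S : VchE j 0 (EX K j) (E2 K j 0) := vchK j 0
  have hA0 : eA a ≠ 0 := by
    intro h0
    rw [h0, zero_mul] at h2
    norm_num at h2
  have hB0 : eB a ≠ 0 := by
    intro h0
    rw [h0, mul_zero] at h2
    norm_num at h2
  have R : Rt (E2 K j 0) ((1 + 4 * j) * eA a) ((1 + 4 * j) * eB a) :=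
    { k1 := rfl
      k2 := by
        rw [S.k2]
        linear_combination (1 + 4 * j) * h1
      k3 := rfl
      k4 := by
        rw [S.k4]
        linear_combination (-(1 + 4 * j) ^ 2) * h2
      k6 := by
        rw [S.k6]
        ring
      r0 := mul_ne_zero hD0 hA0
      s0 := mul_ne_zero hD0 hB0
      rs := by
        intro h
        apply mul_ne_zero hD0 hs0
        rw [← h3]
        linear_combination h }
  let E : (EX K j).toAffine.Point ≃+ (E2 K j 0).toAffine.Point :=
    AddEquiv.ofBijective (vHe S) ⟨vFe_inj S, vFe_surj S⟩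
  refine card_torsion ?_ ?_ ?_
  · have hT : IsT (E2 K j 0) (21 * (1 + 4 * j)) (112 * (1 + 4 * j) ^ 2) :=
      { h1 := rfl
        h2 := by rw [S.k2]; ring
        h3 := rfl
        h4 := by rw [S.k4]; ring
        h6 := by rw [S.k6]; ring
        hB := mul_ne_zero (by norm_num) (pow_ne_zero 2 hD0)
        hD := by
          have e1 : (21 * (1 + 4 * j)) ^ 2 - 4 * (112 * (1 + 4 * j) ^ 2) = -7 * (1 + 4 * j) ^ 2 := by
            ring
          rw [e1]
          exact mul_ne_zero (by norm_num) (pow_ne_zero 2 hD0) }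
    have hfg : Module.Finite ℤ (Pool.Agent.Y682.MP (E2 K j 0)) := Pool.Agent.Y682.fg_MP hT
    have hfg' : Module.Finite ℤ (E2 K j 0).toAffine.Point := hfg
    exact Module.Finite.equiv (E.symm.toIntLinearEquiv)
  · rw [← R.card_two]
    refine Nat.card_congr (Equiv.subtypeEquiv E.toEquiv fun x => ?_)
    show x + x = 0 ↔ E x + E x = 0
    rw [← map_add, map_eq_zero_iff E E.injective]
  · intro P hP
    apply E.injective
    rw [map_zero, map_add]
    refine R.no_four ?_ ?_ ?_ (E P) ?_
    · rintro ⟨⟨u, hu⟩, -⟩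
      apply hns'
      refine ⟨u / (1 - a) ^ 2, ?_⟩
      unfold eA at hu
      field_simp
      linear_combination hu
    · rintro ⟨u, hu⟩
      apply hns
      refine ⟨u, ?_⟩
      rw [← h3]
      linear_combination hu
    · rintro ⟨u, hu⟩
      apply hns'
      refine ⟨u, ?_⟩
      rw [← h3]
      linear_combination hu
    · rw [← map_add, ← map_add, hP, map_zero]

end

end Pool.Agent.R426.QC
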