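import Pool.Agent.R426.QC.Vz
import Pool.Agent.R426.QC.Gl
import Pool.Agent.R426.QC.Tor
import Pool.Agent.R426.QC.Shr

/-!
# Assembly: the results over `ℚ(√-7)`, in terms of the ring of integers
-/

set_option autoImplicit false
set_option linter.unusedSectionVars false

open NumberField IsDedekindDomain

namespace Pool.Agent.R426.QC

open scoped Classical
open Pool.Agent.Y698 Pool.Agent.Y698.SG
open Pool.Agent.W192.HK (sp)
open Pool.Agent.TH841.NF.D (Sha)

section

variable {K : Type} [Field K] [NumberField K] (e : RR ≃+* 𝓞 K)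

/-- primes congruent to `1` modulo `4` -/
def PK (S : Finset (𝓞 K)) : Prop := ∀ p ∈ S, Prime p ∧ (4 : 𝓞 K) ∣ p - 1

/-- the transported family -/
noncomputable def pe (p : 𝓞 K) : RR := e.symm p

lemma pe_pm {S : Finset (𝓞 K)} (hS : PK S) : ∀ p ∈ S, Pm (pe e p) := by
  intro p hp
  obtain ⟨h1, u, hu⟩ := hS p hp
  refine ⟨(MulEquiv.prime_iff e.symm.toMulEquiv).2 h1, e.symm u, ?_⟩
  show e.symm p = _
  have h2 : p = 1 + 4 * u := by linear_combination hu
  conv_lhs => rw [h2]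
  rw [map_add, map_mul, map_one, map_ofNat]

lemma not_four_two : ¬ (4 : RR) ∣ 2 := by
  rintro ⟨c, hc⟩
  have h1 : (1 : RR) = 2 * c := by
    have h2 : (2 : RR) ≠ 0 := by
      intro h
      have := congrArg (fun x : RR => (x : ℂ)) h
      rw [two_coe] at this
      simp at this
    apply mul_left_cancel₀ h2
    linear_combination hc
  have h3 := congrArg nR h1
  rw [nR_mul] at h3
  have e1 : nR (1 : RR) = 1 := by
    unfold nR
    rw [cXY_one.1, cXY_one.2]
    norm_num
  have e2 : nR (2 : RR) = 4 := by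
    have : (2 : RR) = ((2 : ℤ) : RR) := by norm_num
    rw [this]
    unfold nR
    rw [(cXY_int 2).1, (cXY_int 2).2]
    norm_num
  rw [e1, e2] at h3
  omega

lemma pe_fam {S : Finset (𝓞 K)} (hS : PK S) : Fam S (pe e) := by
  refine ⟨fun p hp => (pe_pm e hS p hp).pd, fun p hp q hq hpq h => hpq ?_⟩
  rw [Ideal.mem_span_singleton] at h
  have h1 := (pe_pm e hS q hq).pr.associated_of_dvd (pe_pm e hS p hp).pr h
  obtain ⟨u, hu⟩ := h1
  obtain ⟨a, ha⟩ := (pe_pm e hS p hp).m4
  obtain ⟨b, hb⟩ := (pe_pm e hS q hq).m4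
  rcases isUnit_iff.1 u.isUnit with h2 | h2
  · rw [h2, mul_one] at hu
    exact (e.symm.injective hu).symm
  · exfalso
    rw [h2] at hu
    apply not_four_two
    refine ⟨-a - b, ?_⟩
    rw [ha, hb] at hu
    linear_combination -hu

/-- `0` if `x` is a square modulo `p`, and `1` if it is not -/
noncomputable def nsq {R : Type} [CommRing R] (x p : R) : ZMod 2 :=
  if ∃ b : R, p ∣ b ^ 2 - x then 0 else 1

lemma lg_sy {ϖ x : RR} (h : x ∉ sp ϖ) : lg (sy ϖ x) = nsq x ϖ := by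
  have h1 : IsSquare (Ideal.Quotient.mk (sp ϖ) x) ↔ ∃ b : RR, ϖ ∣ b ^ 2 - x := by
    constructor
    · rintro ⟨y, hy⟩
      obtain ⟨b, rfl⟩ := Ideal.Quotient.mk_surjective y
      refine ⟨b, ?_⟩
      rw [← Ideal.mem_span_singleton, ← Ideal.Quotient.eq, map_pow, hy, pow_two]
    · rintro ⟨b, hb⟩
      rw [← Ideal.mem_span_singleton, ← Ideal.Quotient.eq, map_pow, pow_two] at hb
      exact ⟨_, hb.symm⟩
  unfold sy nsq
  rw [if_neg h]
  by_cases h2 : IsSquare (Ideal.Quotient.mk (sp ϖ) x)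
  · rw [if_pos h2, if_pos (h1.1 h2), lg_one]
  · rw [if_neg h2, if_neg fun h3 => h2 (h1.2 h3), lg_neg_one]

lemma lg_e7 {x : RR} (h : x ∉ sp fR) : lg (e7 x) = nsq x fR := by
  rw [← r7_eq_zero] at h
  have h1 : IsSquare (r7 x) ↔ ∃ b : RR, fR ∣ b ^ 2 - x := by
    constructor
    · rintro ⟨y, hy⟩
      obtain ⟨n, rfl⟩ := ZMod.intCast_surjective y
      refine ⟨(n : RR), ?_⟩
      rw [← Ideal.mem_span_singleton, ← r7_eq_zero, map_sub, map_pow, map_intCast, hy, pow_two,
        sub_self]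
    · rintro ⟨b, hb⟩
      rw [← Ideal.mem_span_singleton, ← r7_eq_zero, map_sub, map_pow, sub_eq_zero, pow_two] at hb
      exact ⟨_, hb.symm⟩
  unfold e7 nsq
  by_cases h2 : IsSquare (r7 x)
  · rw [(quadraticChar_one_iff_isSquare h).2 h2, if_pos (h1.1 h2), Int.cast_one, lg_one]
  · rw [quadraticChar_neg_one_iff_not_isSquare.2 h2, if_neg fun h3 => h2 (h1.2 h3), Int.cast_neg,
      Int.cast_one, lg_neg_one]

lemma nsq_e (x p : 𝓞 K) : nsq (e.symm x) (e.symm p) = nsq x p := by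
  unfold nsq
  have h1 : (∃ b : RR, e.symm p ∣ b ^ 2 - e.symm x) ↔ ∃ b : 𝓞 K, p ∣ b ^ 2 - x := by
    constructor
    · rintro ⟨b, c, hc⟩
      refine ⟨e b, e c, ?_⟩
      have := congrArg e hc
      rwa [map_sub, map_pow, map_mul, e.apply_symm_apply, e.apply_symm_apply] at this
    · rintro ⟨b, c, hc⟩
      refine ⟨e.symm b, e.symm c, ?_⟩
      have := congrArg e.symm hc
      rwa [map_sub, map_pow, map_mul] at this
  simp only [h1]

/-- the matrix -/
noncomputable def matK (f : 𝓞 K) (S : Finset (𝓞 K)) : Matrix S S (ZMod 2) := Matrix.of fun p q =>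
  if q = p then nsq (p : 𝓞 K) f + ∑ r ∈ S.erase (p : 𝓞 K), nsq (p : 𝓞 K) r else nsq (p : 𝓞 K) q

lemma mat_gd {f : 𝓞 K} (hf : e fR = f) {S : Finset (𝓞 K)} (hS : PK S) :
    gd (mc (pe e)) (mr (pe e)) S = (matK f S).det := by
  have hF := pe_fam e hS
  have h1 : ∀ p ∈ S, mc (pe e) p = nsq p f := by
    intro p hp
    show lg (e7 (e.symm p)) = _
    have h2 : e.symm p ∉ sp fR := by
      intro h
      rw [Ideal.mem_span_singleton] at h
      have h3 := (prime_fR.associated_of_dvd (pe_pm e hS p hp).pr h).symm.dvd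
      exact fR_notin (pe_pm e hS p hp).pd (Ideal.mem_span_singleton.2 h3)
    rw [lg_e7 h2, ← nsq_e e p f, ← hf, e.symm_apply_apply]
  have h2 : ∀ p ∈ S, ∀ q ∈ S, p ≠ q → mr (pe e) p q = nsq p q := by
    intro p hp q hq hpq
    have h3 : lg (sy (pe e q) (pe e p)) = nsq (pe e p) (pe e q) :=
      lg_sy (hF.ne p hp q hq hpq)
    exact h3.trans (nsq_e e p q)
  unfold gd
  congr 1
  ext p q
  unfold matK
  rw [Matrix.of_apply, Matrix.of_apply]
  by_cases h : q = p
  · rw [if_pos h.symm, if_pos h, h1 p p.2]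
    congr 1
    refine Finset.sum_congr rfl fun r hr => ?_
    rw [Finset.mem_erase] at hr
    exact h2 p p.2 r hr.2 hr.1.symm
  · rw [if_neg (fun h' => h h'.symm), if_neg h]
    exact h2 p p.2 q q.2 fun h' => h (Subtype.ext h'.symm)

end

end Pool.Agent.R426.QC
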