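import Pool.Agent.R426.QC.Cvw

/-!
# Local triviality of `χ_d T`

If `(X, Y) ∈ E'(L)` with `X = d r²`, `s = r √d`, then `P = (x, s x)`, `x = (X - a + Y / s) / 2`,
is a point of `y² = x³ + a x² + b x` over the algebraic closure of `L` and `τ P - P = χ_d(τ) T`.
-/

set_option autoImplicit false
set_option linter.unusedSectionVars false

namespace Pool.Agent.R426.QC.Cv.Lot

open WeierstrassCurve Pool.Agent.TH841.SH.D Pool.Agent.R426.QC.Cv

variable {k : Type} [Field k] [CharZero k]

lemma act_some' (W : WeierstrassCurve k) {F L : Type} [Field F] [Field L] [Algebra k F]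
    [Algebra k L] (φ : F →ₐ[k] L) {x y : F} (h : (W.baseChange F).toAffine.Nonsingular x y) :
    act W φ (Affine.Point.some x y h) =
      Affine.Point.some (φ x) (φ y) ((Affine.baseChange_nonsingular W φ.injective ..).mpr h) := rfl

lemma some_congr {L : Type} [Field L] (W : WeierstrassCurve.Affine L) {x y x' y' : L}
    (h : W.Nonsingular x y) (h' : W.Nonsingular x' y') (hx : x = x') (hy : y = y') :
    (Affine.Point.some x y h : W.Point) = Affine.Point.some x' y' h' := by
  subst hx hy
  rfl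

section

variable {a b : k} {L : Type} [Field L] [Algebra k L]

lemma wa1 : ((WF a b).baseChange L).toAffine.a₁ = 0 := map_zero (algebraMap k L)

lemma wa3 : ((WF a b).baseChange L).toAffine.a₃ = 0 := map_zero (algebraMap k L)

lemma wa6 : ((WF a b).baseChange L).toAffine.a₆ = 0 := map_zero (algebraMap k L)

lemma wa2 : ((WF a b).baseChange L).toAffine.a₂ = algebraMap k L a := rfl

lemma wa4 : ((WF a b).baseChange L).toAffine.a₄ = algebraMap k L b := rfl

lemma hne {b : k} (h : b ≠ 0) (L : Type) [Field L] [Algebra k L] : algebraMap k L b ≠ 0 :=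
  (map_ne_zero_iff _ (algebraMap k L).injective).2 h

/-- the points `(x, s x)` -/
lemma nons (h : b ≠ 0) {s x : L} (hs : s ≠ 0)
    (hx : x * (s ^ 2 - algebraMap k L a - x) = algebraMap k L b) :
    ((WF a b).baseChange L).toAffine.Nonsingular x (s * x) := by
  have : CharZero L := charZero_of_injective_algebraMap (algebraMap k L).injective
  have hx0 : x ≠ 0 := by
    rintro rfl
    rw [zero_mul] at hx
    exact hne h L hx.symm
  rw [Affine.nonsingular_iff', Affine.equation_iff', wa1, wa2, wa3, wa4, wa6]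
  refine ⟨?_, Or.inr ?_⟩
  · rw [← hx]
    ring
  · have : (2 : L) * (s * x) ≠ 0 := mul_ne_zero two_ne_zero (mul_ne_zero hs hx0)
    simpa using this

/-- the point `(x, s x)` -/
def mkP (h : b ≠ 0) {s x : L} (hs : s ≠ 0)
    (hx : x * (s ^ 2 - algebraMap k L a - x) = algebraMap k L b) : Pt (WF a b) L :=
  Affine.Point.some x (s * x) (nons h hs hx)

/-- `(0, 0) + (x, s x) = (x', -s x')`, `x + x' = s ^ 2 - a` -/
lemma add_T0 (h : b ≠ 0) {s x : L} (hs : s ≠ 0)
    (hx : x * (s ^ 2 - algebraMap k L a - x) = algebraMap k L b) {x' y' : L}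
    (hx' : x' = s ^ 2 - algebraMap k L a - x) (hy' : y' = - s * x')
    (hn : ((WF a b).baseChange L).toAffine.Nonsingular x' y') :
    T0 k h L + mkP h hs hx = Affine.Point.some x' y' hn := by
  have hx0 : x ≠ 0 := by
    rintro rfl
    rw [zero_mul] at hx
    exact hne h L hx.symm
  have h1 : (0 : L) ≠ x := fun h2 => hx0 h2.symm
  let _ : DecidableEq L := Classical.decEq L
  have hsl : ((WF a b).baseChange L).toAffine.slope 0 x 0 (s * x) = s := by
    rw [Affine.slope_of_X_ne h1, zero_sub, zero_sub, neg_div_neg_eq, mul_div_cancel_right₀ _ hx0]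
  refine Eq.trans (@Affine.Point.add_of_X_ne L _ ((WF a b).baseChange L).toAffine
    (Classical.decEq L) 0 x 0 (s * x) (ns0 k h L) (nons h hs hx) h1) ?_
  refine some_congr _ _ _ ?_ ?_
  · rw [hsl, Affine.addX, wa1, wa2, hx']
    ring
  · rw [hsl, Affine.addY, Affine.negAddY, Affine.negY, Affine.addX, wa1, wa2, wa3, hy', hx']
    ring

end

lemma act_T0 {a b : k} (h : b ≠ 0) {F L : Type} [Field F] [Field L] [Algebra k F]
    [Algebra k L] (φ : F →ₐ[k] L) : act (WF a b) φ (T0 k h F) = T0 k h L := by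
  rw [T0, act_some']
  exact some_congr _ _ _ (map_zero φ) (map_zero φ)

/-- the geometric form -/
lemma lot_aux {a b : k} (h : b ≠ 0) (d : k) {F : Type} [Field F] [Algebra k F]
    (ι : AlgebraicClosure k →ₐ[k] F) (X' Y' r' : F) (hX0 : X' ≠ 0)
    (eX : X' = algebraMap k F d * r' ^ 2)
    (eY : Y' ^ 2 = X' ^ 3 - 2 * algebraMap k F a * X' ^ 2 +
      (algebraMap k F a ^ 2 - 4 * algebraMap k F b) * X') :
    ∃ P : Pt (WF a b) F, ∀ (τ' : F →ₐ[k] F) (σ : Gal k), τ' X' = X' → τ' Y' = Y' → τ' r' = r' →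
      (∀ z, τ' (ι z) = ι (σ z)) → act (WF a b) ι (coc k h d σ) = act (WF a b) τ' P - P := by
  have hF0 : CharZero F := charZero_of_injective_algebraMap (algebraMap k F).injective
  obtain ⟨s0, hs0⟩ := IsAlgClosed.exists_pow_nat_eq (algebraMap k (AlgebraicClosure k) d) (n := 2)
    (by norm_num)
  have hq : (ι s0) ^ 2 = algebraMap k F d := by
    rw [← map_pow, hs0, AlgHom.commutes]
  obtain ⟨s, hs⟩ : ∃ s : F, s = r' * ι s0 := ⟨_, rfl⟩
  have hs2 : s ^ 2 = X' := by
    rw [hs, mul_pow, hq, eX]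
    ring
  have hsne : s ≠ 0 := by
    intro h0
    rw [h0] at hs2
    apply hX0
    rw [← hs2]
    ring
  have h20 : (2 : F) ≠ 0 := two_ne_zero
  obtain ⟨x, hxdef⟩ : ∃ x : F, x = (X' - algebraMap k F a + Y' / s) / 2 := ⟨_, rfl⟩
  have hx : x * (s ^ 2 - algebraMap k F a - x) = algebraMap k F b := by
    have h3 : (Y' / s) ^ 2 = X' ^ 2 - 2 * algebraMap k F a * X' +
        (algebraMap k F a ^ 2 - 4 * algebraMap k F b) := by
      rw [div_pow, hs2, eY, div_eq_iff hX0]
      ring
    have h4 : 4 * (x * (s ^ 2 - algebraMap k F a - x)) =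
        (X' - algebraMap k F a) ^ 2 - (Y' / s) ^ 2 := by
      rw [hs2, hxdef]
      field_simp
      ring
    have h40 : (4 : F) ≠ 0 := by norm_num
    apply mul_left_cancel₀ h40
    rw [h4, h3]
    ring
  refine ⟨mkP (k := k) h hsne hx, fun τ' σ hτX hτY hτr hτι => ?_⟩
  have hτx : τ' x = (X' - algebraMap k F a + Y' / τ' s) / 2 := by
    rw [hxdef, map_div₀, map_add, map_sub, map_div₀, map_ofNat, τ'.commutes, hτX, hτY]
  have hP : act (WF a b) τ' (mkP h hsne hx) =
      Affine.Point.some (τ' x) (τ' (s * x))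
        ((Affine.baseChange_nonsingular (WF a b) τ'.injective ..).mpr (nons h hsne hx)) := rfl
  by_cases hσ : ∃ t : AlgebraicClosure k,
    t ^ 2 = algebraMap k (AlgebraicClosure k) d ∧ σ t ≠ t
  · -- `σ √d = - √d`
    have hc : coc k (a := a) h d σ = T0 k h (AlgebraicClosure k) := if_pos hσ
    have hc2 : act (WF a b) ι (coc k h d σ) = T0 k h F := by
      rw [hc, act_T0]
    have hσ0 : σ s0 = - s0 := by
      have h5 : (σ s0) ^ 2 = s0 ^ 2 := by rw [← map_pow, hs0, AlgEquiv.commutes]
      rcases sq_eq_sq_iff_eq_or_eq_neg.1 h5 with h6 | h6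
      · exfalso
        obtain ⟨t, ht, ht2⟩ := hσ
        apply ht2
        rw [← hs0] at ht
        rcases sq_eq_sq_iff_eq_or_eq_neg.1 ht with h7 | h7
        · rw [h7, h6]
        · rw [h7, map_neg, h6]
      · exact h6
    have hτs : τ' s = - s := by
      rw [hs, map_mul, hτr, hτι, hσ0, map_neg]
      ring
    have e1 : τ' x = s ^ 2 - algebraMap k F a - x := by
      rw [hτx, hτs, hs2, hxdef, div_neg]
      field_simp
      ring
    exact eq_sub_of_add_eq ((congrArg (fun z => z + mkP h hsne hx) hc2).trans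
      ((add_T0 (k := k) h hsne hx e1 (by rw [map_mul, hτs]) _).trans hP.symm))
  · have hc : coc k (a := a) h d σ = 0 := if_neg hσ
    have hc2 : act (WF a b) ι (coc k h d σ) = 0 :=
      (congrArg (act (WF a b) ι) hc).trans (map_zero (act (WF a b) ι))
    have hσ0 : σ s0 = s0 := by
      by_contra h5
      exact hσ ⟨s0, hs0, h5⟩
    have hτs : τ' s = s := by
      rw [hs, map_mul, hτr, hτι, hσ0]
    have e1 : τ' x = x := by
      rw [hτx, hτs, hxdef]
    have e2 : act (WF a b) τ' (mkP h hsne hx) = mkP h hsne hx :=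
      hP.trans (some_congr _ _ _ e1 (by rw [map_mul, hτs, e1]))
    exact hc2.trans (sub_eq_zero.2 e2).symm

theorem t_LOT {a b : k} (h : b ≠ 0) (d : k) (K : Type) [Field K] [Algebra k K]
    (hL : LocI k K a b d) : LocTriv (WF a b) K (coc k h d) := by
  obtain ⟨X, Y, r, hX, hY, hXd⟩ := hL
  intro ι
  have e1 : ∀ z : k, algebraMap K (AlgebraicClosure K) (algebraMap k K z) =
      algebraMap k (AlgebraicClosure K) z := fun z =>
    (IsScalarTower.algebraMap_apply k K (AlgebraicClosure K) z).symm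
  obtain ⟨P, hP⟩ := lot_aux (a := a) h d ι (algebraMap K (AlgebraicClosure K) X)
    (algebraMap K (AlgebraicClosure K) Y) (algebraMap K (AlgebraicClosure K) r)
    (fun h0 => hX ((algebraMap K (AlgebraicClosure K)).injective (by rw [h0, map_zero])))
    (by rw [hXd, map_mul, map_pow, e1])
    (by
      rw [← map_pow, hY]
      simp only [map_add, map_sub, map_mul, map_pow, map_ofNat, e1])
  exact ⟨P, fun τ σ hτσ => hP (τ.toAlgHom.restrictScalars k) σ (τ.commutes X) (τ.commutes Y)
    (τ.commutes r) hτσ⟩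

end Pool.Agent.R426.QC.Cv.Lot
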