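import Pool.Agent.R426.QC.Shv
import Pool.Agent.R426.QC.Cvl

/-!
# Classes of order two of the Tate-Shafarevich group, transport to the shifted model
-/

set_option autoImplicit false
set_option linter.unusedSectionVars false

attribute [-instance] DivisionRing.toRatAlgebra

namespace Pool.Agent.R426.QC

open Pool.Agent.Y698

open WeierstrassCurve IsDedekindDomain NumberField

open Pool.Agent.TH841.SH.D (Pt act Gal Coch IsCoc IsCob LocTriv cob)
open Pool.Agent.TH841.NF.D (IsShaCoc shaCoc Sha)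

section

variable {K : Type} [Field K] [NumberField K] (j t : K)

lemma coc_of_vCo {f : Coch (EX K j)} (h : IsCoc (E2 K j t) (vCo j t f)) : IsCoc (EX K j) f := by
  let E : Pt (EX K j) (AlgebraicClosure K) ≃ Pt (E2 K j t) (AlgebraicClosure K) :=
    Equiv.ofBijective (vPe K j t (AlgebraicClosure K)) ⟨vPe_inj K j t _, vPe_surj K j t _⟩
  refine ⟨?_, fun σ τ => ?_⟩
  · have h1 : f = E.symm ∘ vCo j t f := by
      funext σ
      exact (E.symm_apply_apply (f σ)).symm
    rw [h1]
    exact h.1.comp _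
  · apply vPe_inj K j t (AlgebraicClosure K)
    have h1 : vPe K j t _ (f (σ * τ)) = vPe K j t _ (f σ) +
        act (E2 K j t) σ.toAlgHom (vPe K j t _ (f τ)) := h.2 σ τ
    rw [h1, map_add, act_vPe]

lemma loc_of_vCo {f : Coch (EX K j)} {E : Type} [Field E] [Algebra K E]
    (h : LocTriv (E2 K j t) E (vCo j t f)) : LocTriv (EX K j) E f := by
  intro ι
  have i1 : CharZero E := charZ K E
  have i2 : CharZero (AlgebraicClosure E) := charZ K _
  obtain ⟨Q, hQ⟩ := h ι
  obtain ⟨P, rfl⟩ := vPe_surj K j t (AlgebraicClosure E) Q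
  refine ⟨P, fun τ σ hσ => ?_⟩
  apply vPe_inj K j t (AlgebraicClosure E)
  have h1 := hQ τ σ hσ
  have h2 : act (E2 K j t) ι (vPe K j t _ (f σ)) = _ := h1
  rw [act_vPe] at h2
  rw [h2, map_sub, act_vPe]

/-- a class of order two in the kernel of the localizations -/
theorem cob_of_sha {W : WeierstrassCurve K} (hW : E2 K j t = W)
    (hsha : ∀ x : Sha (EX K j), 2 • x = 0 → x = 0) {g : Coch W} (hg : IsShaCoc W g)
    (h2 : g + g = 0) : IsCob W g := by
  subst hW
  let E : Pt (EX K j) (AlgebraicClosure K) ≃ Pt (E2 K j t) (AlgebraicClosure K) :=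
    Equiv.ofBijective (vPe K j t (AlgebraicClosure K)) ⟨vPe_inj K j t _, vPe_surj K j t _⟩
  obtain ⟨f, hf⟩ : ∃ f : Coch (EX K j), vCo j t f = g :=
    ⟨fun σ => E.symm (g σ), by funext σ; exact E.apply_symm_apply (g σ)⟩
  subst hf
  have hfs : IsShaCoc (EX K j) f :=
    ⟨coc_of_vCo j t hg.1, fun v => loc_of_vCo j t (hg.2.1 v), fun v => loc_of_vCo j t (hg.2.2 v)⟩
  have hff : f + f = 0 := by
    funext σ
    apply vPe_inj K j t (AlgebraicClosure K)
    have h3 := congrFun h2 σ
    have h4 : vPe K j t _ (f σ) + vPe K j t _ (f σ) = 0 := h3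
    show vPe K j t _ (f σ + f σ) = vPe K j t _ 0
    rw [map_add, h4, map_zero]
  obtain ⟨x, hx⟩ : ∃ x : Sha (EX K j), x = QuotientAddGroup.mk (⟨f, hfs⟩ : shaCoc (EX K j)) :=
    ⟨_, rfl⟩
  have hx2 : 2 • x = 0 := by
    rw [two_nsmul, hx]
    refine (QuotientAddGroup.eq_zero_iff _).2 ?_
    have h3 : ((⟨f, hfs⟩ : shaCoc (EX K j)) + ⟨f, hfs⟩) = 0 := Subtype.ext hff
    have h4 := AddSubgroup.zero_mem ((cob (EX K j)).addSubgroupOf (shaCoc (EX K j)))
    rw [← h3] at h4
    exact h4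
  have hx0 := hsha x hx2
  rw [hx] at hx0
  have hcob : IsCob (EX K j) f := (QuotientAddGroup.eq_zero_iff _).1 hx0
  exact vCo_cob j t hcob

end

end Pool.Agent.R426.QC
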