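import Pool.Agent.R426.QC.Sln

/-!
# The places of good reduction
-/

set_option autoImplicit false
set_option linter.unusedSectionVars false

attribute [-instance] DivisionRing.toRatAlgebra

open NumberField IsDedekindDomain

namespace Pool.Agent.R426.QC

open WithZero
open Pool.Agent.Y698 Pool.Agent.Y698.SG
open Pool.Agent.W192.HK (sp)
open Pool.Agent.Y682 (vv vv_coe charZero_adic exists_sqrt exists_sqrt')
open Pool.Agent.R428.G (sum_hyp)
open Cv (LocI)

section fin

variable {k : Type} [Field k] [Fintype k] [DecidableEq k]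

lemma exists_valE (h2 : ringChar k ≠ 2) {c w b : k} (hc : c ≠ 0) (hw : w ≠ 0) (hb : b ≠ 0)
    (hb4 : b ^ 4 ≠ 1) : quadraticChar k c = 1 ∨ quadraticChar k (-(w * c)) = 1 ∨
      ∃ r : k, r ≠ 0 ∧ quadraticChar k (c * (c * r ^ 2 + w * b ^ 2) * (c * r ^ 2 + w * b ^ 6)) = 1 := by
  by_contra hcon
  push Not at hcon
  obtain ⟨h1, h3, h4⟩ := hcon
  have h20 : (2 : k) ≠ 0 := Ring.two_ne_zero h2
  have hc1 : quadraticChar k c = -1 := (quadraticChar_dichotomy hc).resolve_left h1
  have h3' : quadraticChar k (-w) = 1 := by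
    rcases quadraticChar_dichotomy (neg_ne_zero.2 hw) with h | h
    · exact h
    · exfalso
      apply h3
      rw [show -(w * c) = (-w) * c by ring, map_mul, h, hc1]
      norm_num
  have hsq : ∀ x : k, x ≠ 0 → quadraticChar k (-w * x ^ 2) = 1 := by
    intro x hx
    rw [map_mul, h3', quadraticChar_sq_one' hx]
    norm_num
  have key : ∀ s : k, 0 ≤ quadraticChar k ((s + w * b ^ 2) * (s + w * b ^ 6)) +
      quadraticChar k s := by
    intro s
    by_cases hs0 : s = 0
    · subst hs0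
      have e1 : (0 + w * b ^ 2) * (0 + w * b ^ 6) = (w * b ^ 4) ^ 2 := by ring
      rw [e1, quadraticChar_sq_one' (mul_ne_zero hw (pow_ne_zero 4 hb)), quadraticChar_zero]
      norm_num
    rcases quadraticChar_dichotomy hs0 with hs | hs
    · rw [hs]
      by_cases h0 : (s + w * b ^ 2) * (s + w * b ^ 6) = 0
      · rw [h0, quadraticChar_zero]; norm_num
      · rcases quadraticChar_dichotomy h0 with h | h <;> rw [h] <;> norm_num
    · have h5 : quadraticChar k (s * c) = 1 := by rw [map_mul, hs, hc1]; norm_num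
      rw [quadraticChar_one_iff_isSquare (mul_ne_zero hs0 hc)] at h5
      obtain ⟨r, hr⟩ := h5
      have hr0 : r ≠ 0 := by
        rintro rfl
        rw [mul_zero] at hr
        exact mul_ne_zero hs0 hc hr
      have hr2 : c * (r / c) ^ 2 = s := by
        field_simp
        linear_combination -hr
      have h6 := h4 (r / c) (div_ne_zero hr0 hc)
      rw [hr2, mul_assoc, map_mul, hc1] at h6
      have h7 : s + w * b ^ 2 ≠ 0 := by
        intro h7
        have e1 : s = -w * b ^ 2 := by linear_combination h7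
        rw [e1, hsq b hb] at hs
        norm_num at hs
      have h8 : s + w * b ^ 6 ≠ 0 := by
        intro h7
        have e1 : s = -w * (b ^ 3) ^ 2 := by linear_combination h7
        rw [e1, hsq (b ^ 3) (pow_ne_zero 3 hb)] at hs
        norm_num at hs
      rcases quadraticChar_dichotomy (mul_ne_zero h7 h8) with h | h
      · rw [h, hs]; norm_num
      · rw [h] at h6
        exact absurd (by norm_num) h6
  have hsum : ∑ s : k, quadraticChar k ((s + w * b ^ 2) * (s + w * b ^ 6)) = -1 := by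
    have hne : -((w * b ^ 2 - w * b ^ 6) / 2) ^ 2 ≠ 0 := by
      refine neg_ne_zero.2 (pow_ne_zero 2 (div_ne_zero ?_ h20))
      have e1 : w * b ^ 2 - w * b ^ 6 = w * b ^ 2 * (1 - b ^ 4) := by ring
      rw [e1]
      exact mul_ne_zero (mul_ne_zero hw (pow_ne_zero 2 hb)) (sub_ne_zero.2 (Ne.symm hb4))
    rw [← sum_hyp h2 hne]
    rw [← Equiv.sum_comp (Equiv.addRight (-((w * b ^ 2 + w * b ^ 6) / 2)))
      (fun s : k => quadraticChar k ((s + w * b ^ 2) * (s + w * b ^ 6)))]
    refine Finset.sum_congr rfl fun s _ => ?_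
    congr 1
    simp only [Equiv.coe_addRight]
    field_simp
    ring
  have h9 := Finset.sum_nonneg fun (s : k) (_ : s ∈ Finset.univ) => key s
  rw [Finset.sum_add_distrib, hsum, quadraticChar_sum_zero h2] at h9
  norm_num at h9

end fin

/-- the form with elements of the ring -/
lemma exists_resE {z : RR} (hz : Prime z) (h2 : ¬ z ∣ 2) {c w b : RR} (hc : ¬ z ∣ c)
    (hw : ¬ z ∣ w) (hb : ¬ z ∣ b) (hb4 : ¬ z ∣ b ^ 4 - 1) :
    (∃ x : RR, z ∣ x ^ 2 - c) ∨ (∃ x : RR, z ∣ x ^ 2 - (-(w * c))) ∨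
      ∃ r x : RR, ¬ z ∣ r ∧ ¬ z ∣ c * (c * r ^ 2 + w * b ^ 2) * (c * r ^ 2 + w * b ^ 6) ∧
        z ∣ x ^ 2 - c * (c * r ^ 2 + w * b ^ 2) * (c * r ^ 2 + w * b ^ 6) := by
  classical
  have hmax : (Ideal.span {z}).IsMaximal :=
    ((Ideal.span_singleton_prime hz.ne_zero).2 hz).isMaximal (by
      rw [Ne, Ideal.span_singleton_eq_bot]; exact hz.ne_zero)
  let _ : Field (RR ⧸ Ideal.span {z}) := Ideal.Quotient.field _
  have hfin : Finite (RR ⧸ Ideal.span {z}) := fin_quot hz.ne_zero
  let _ := Fintype.ofFinite (RR ⧸ Ideal.span {z})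
  have hmem : ∀ a : RR, Ideal.Quotient.mk (Ideal.span {z}) a = 0 ↔ z ∣ a := fun a => by
    rw [Ideal.Quotient.eq_zero_iff_mem, Ideal.mem_span_singleton]
  have hch : ringChar (RR ⧸ Ideal.span {z}) ≠ 2 := by
    intro h
    have h2' : ((2 : ℕ) : RR ⧸ Ideal.span {z}) = 0 := by
      rw [← h]; exact ringChar.Nat.cast_ringChar
    have h3 : Ideal.Quotient.mk (Ideal.span {z}) 2 = 0 := by
      rw [← h2']; exact map_natCast (Ideal.Quotient.mk (Ideal.span {z})) 2
    exact h2 ((hmem 2).1 h3)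
  have key : ∀ c : RR, quadraticChar (RR ⧸ Ideal.span {z})
      (Ideal.Quotient.mk (Ideal.span {z}) c) = 1 → ¬ z ∣ c ∧ ∃ x : RR, z ∣ x ^ 2 - c := by
    intro c h
    have h0 : Ideal.Quotient.mk (Ideal.span {z}) c ≠ 0 := by
      intro h0
      rw [h0, quadraticChar_zero] at h
      norm_num at h
    refine ⟨fun h' => h0 ((hmem c).2 h'), ?_⟩
    rw [quadraticChar_one_iff_isSquare h0] at h
    obtain ⟨d, hd⟩ := h
    obtain ⟨d, rfl⟩ := Ideal.Quotient.mk_surjective d
    refine ⟨d, ?_⟩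
    rw [← map_mul, ← pow_two] at hd
    rw [← Ideal.mem_span_singleton, ← Ideal.Quotient.eq]
    exact hd.symm
  rcases exists_valE hch (c := Ideal.Quotient.mk _ c) (w := Ideal.Quotient.mk _ w)
    (b := Ideal.Quotient.mk _ b) (fun h => hc ((hmem c).1 h)) (fun h => hw ((hmem w).1 h))
    (fun h => hb ((hmem b).1 h)) (fun h => hb4 ((hmem _).1 (by
      rw [map_sub, map_pow, map_one]; exact sub_eq_zero.2 h))) with h | h | h
  · exact Or.inl (key c h).2
  · right; left
    apply (key _ _).2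
    rw [map_neg, map_mul]
    exact h
  · right; right
    obtain ⟨r, hr0, hr⟩ := h
    obtain ⟨r, rfl⟩ := Ideal.Quotient.mk_surjective r
    obtain ⟨k1, x, k2⟩ := key (c * (c * r ^ 2 + w * b ^ 2) * (c * r ^ 2 + w * b ^ 6)) (by
      rw [RingHom.map_mul, RingHom.map_mul, RingHom.map_add, RingHom.map_add, RingHom.map_mul,
        RingHom.map_mul, RingHom.map_mul, RingHom.map_pow, RingHom.map_pow, RingHom.map_pow]
      exact hr)
    exact ⟨r, x, fun h => hr0 ((hmem r).2 h), k1, k2⟩

section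

variable {K : Type} [Field K] [NumberField K] (e : RR ≃+* 𝓞 K)

lemma cja4 : cj aR ^ 4 - 1 = -aR ^ 4 := by
  rw [cj_aR]
  have := aR_sq
  linear_combination (2 * aR ^ 2 - 2 * aR + 0) * this

/-- the places of good reduction -/
lemma sol_goodE {z : RR} (hz : Prime z) (h2 : ¬ z ∣ 2) {d D : RR} (hd : ¬ z ∣ d)
    (hD : ¬ z ∣ fR * D) :
    LocI K ((plc e hz : HeightOneSpectrum (𝓞 K)).adicCompletion K) (cA (em e aR) (em e D))
      (cB (em e aR) (em e D)) (em e d) := by
  have := charZero_adic (plc e hz : HeightOneSpectrum (𝓞 K))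
  have hd0 : d ≠ 0 := fun h => hd (by rw [h]; exact dvd_zero _)
  have hD0 : D ≠ 0 := fun h => hD (by rw [h, mul_zero]; exact dvd_zero _)
  have h2ab : (2 : RR) = aR * cj aR := by
    rw [cj_aR]
    linear_combination aR_sq
  have hza : ¬ z ∣ aR := fun h => h2 (by rw [h2ab]; exact h.mul_right _)
  have hzb : ¬ z ∣ cj aR := fun h => h2 (by rw [h2ab]; exact h.mul_left _)
  have hcj : em e (cj aR) = 1 - em e aR := by
    rw [cj_aR, map_sub, map_one]
  rcases exists_resE hz h2 (c := d) (w := D * fR) (b := cj aR) hd (by rwa [mul_comm]) hzb (by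
    rw [cja4, dvd_neg]
    exact fun h => hza (hz.dvd_of_dvd_pow h)) with ⟨x, hx⟩ | ⟨x, hx⟩ | ⟨r, x, hr, hne, hx⟩
  · obtain ⟨s, hs⟩ := sqrt_res e hz h2 hd hx
    exact sol_sqE e _ hd0 hs
  · obtain ⟨s, hs⟩ := sqrt_res e hz h2 (c := -(D * fR * d)) (by
      rw [dvd_neg]
      intro h
      rcases hz.dvd_or_dvd h with h | h
      · exact hD (by rwa [mul_comm])
      · exact hd h) hx
    refine loc_tor (ema_sq e) (s := s) (pk_ne e (plc e hz) hd0) (em_ne e hD0) ?_
    rw [hs]
    unfold pk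
    simp only [map_neg, map_mul, em_fR]
    ring
  · obtain ⟨s, hs⟩ := sqrt_res e hz h2 hne hx
    refine loc_r (ema_sq e) (r := pk e (plc e hz) r) (z := s) (pk_ne e (plc e hz) hd0)
      (pk_ne e _ fun h => hr (by rw [h]; exact dvd_zero _)) ?_
    rw [hs]
    unfold pk
    simp only [map_add, map_mul, map_pow, em_fR, hcj]

end

end Pool.Agent.R426.QC
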