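import Pool.Agent.R426.QC.Sln

/-!
# The places above two and the infinite places
-/

set_option autoImplicit false
set_option linter.unusedSectionVars false

attribute [-instance] DivisionRing.toRatAlgebra

open NumberField IsDedekindDomain

namespace Pool.Agent.R426.QC

open WithZero
open Pool.Agent.Y698 Pool.Agent.Y698.SG
open Pool.Agent.Y682 (vv vv_coe charZero_adic exists_sqrt exists_sqrt')
open Cv (LocI)

/-- reduction modulo `α³` -/
noncomputable def e6 : RR →+* ZMod 8 := ev (6 : ZMod 8) (by decide)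

/-- reduction modulo `ᾱ³` -/
noncomputable def e3 : RR →+* ZMod 8 := ev (3 : ZMod 8) (by decide)

lemma e6_a : e6 aR = 6 := ev_aR _ _
lemma e3_a : e3 aR = 3 := ev_aR _ _
lemma e6_b : e6 (cj aR) = 3 := by rw [cj_aR, map_sub, map_one, e6_a]; decide
lemma e3_b : e3 (cj aR) = 6 := by rw [cj_aR, map_sub, map_one, e3_a]; decide
lemma e6_f : e6 fR = 3 := by
  unfold fR
  rw [map_sub, map_mul, map_one, map_ofNat, e6_a]
  decide
lemma e3_f : e3 fR = 5 := by
  unfold fR
  rw [map_sub, map_mul, map_one, map_ofNat, e3_a]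
  decide

lemma co' (r : RR) : r = (cX r : RR) + (cY r : RR) * aR := by
  apply Subtype.ext
  push_cast
  rw [aR_coe, ← co r]

lemma eight_eq : (8 : RR) = aR ^ 3 * cj aR ^ 3 := by
  rw [cj_aR]
  linear_combination (aR ^ 4 - 2 * aR ^ 3 - aR ^ 2 + 2 * aR + 4) * aR_sq

lemma e6_zero {x : RR} (h : e6 x = 0) : aR ^ 3 ∣ x := by
  have h1 : ((cX x + 6 * cY x : ℤ) : ZMod 8) = 0 := by
    have h2 : (cX x : ZMod 8) + (cY x : ZMod 8) * 6 = 0 := h
    push_cast
    linear_combination h2
  rw [ZMod.intCast_zmod_eq_zero_iff_dvd] at h1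
  obtain ⟨m, hm⟩ := h1
  have hm' : (cX x : RR) + 6 * (cY x : RR) = 8 * (m : RR) := by exact_mod_cast congrArg (fun n : ℤ => (n : RR)) hm
  refine ⟨-(cY x : RR) + cj aR ^ 3 * ((m : RR) - (cY x : RR)), ?_⟩
  conv_lhs => rw [co' x]
  have h3 : aR ^ 3 = -aR - 2 := by linear_combination (aR + 1) * aR_sq
  linear_combination hm' + ((m : RR) - (cY x : RR)) * eight_eq + (cY x : RR) * h3

lemma e3_zero {x : RR} (h : e3 x = 0) : cj aR ^ 3 ∣ x := by
  have h1 : ((cX x + 3 * cY x : ℤ) : ZMod 8) = 0 := by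
    have h2 : (cX x : ZMod 8) + (cY x : ZMod 8) * 3 = 0 := h
    push_cast
    linear_combination h2
  rw [ZMod.intCast_zmod_eq_zero_iff_dvd] at h1
  obtain ⟨m, hm⟩ := h1
  have hm' : (cX x : RR) + 3 * (cY x : RR) = 8 * (m : RR) := by exact_mod_cast congrArg (fun n : ℤ => (n : RR)) hm
  refine ⟨(cY x : RR) + aR ^ 3 * (m : RR), ?_⟩
  conv_lhs => rw [co' x]
  have h3 : cj aR ^ 3 = aR - 3 := by
    rw [cj_aR]
    linear_combination (-aR + 2) * aR_sq
  linear_combination hm' + (m : RR) * eight_eq - (cY x : RR) * h3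

lemma four_eq : (4 : RR) = aR ^ 2 * cj aR ^ 2 := by
  rw [cj_aR]
  linear_combination (-aR ^ 2 + aR + 2) * aR_sq

lemma e6_four {x : RR} (h : e6 x = 4) : aR ^ 2 ∣ x := by
  have h1 : e6 (x - 4) = 0 := by rw [map_sub, h, map_ofNat]; decide
  obtain ⟨c, hc⟩ := e6_zero h1
  refine ⟨aR * c + cj aR ^ 2, ?_⟩
  linear_combination hc + four_eq

lemma cl6 {D : RR} (h : ∃ J : RR, D = 1 + 4 * J) : e6 D = 1 ∨ e6 D = 5 := by
  obtain ⟨J, rfl⟩ := h
  rw [map_add, map_mul, map_one, map_ofNat]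
  revert J
  have : ∀ y : ZMod 8, 1 + 4 * y = 1 ∨ 1 + 4 * y = 5 := by decide
  exact fun J => this _

lemma cl3 {D : RR} (h : ∃ J : RR, D = 1 + 4 * J) : e3 D = 1 ∨ e3 D = 5 := by
  obtain ⟨J, rfl⟩ := h
  rw [map_add, map_mul, map_one, map_ofNat]
  revert J
  have : ∀ y : ZMod 8, 1 + 4 * y = 1 ∨ 1 + 4 * y = 5 := by decide
  exact fun J => this _

section

variable {K : Type} [Field K] [NumberField K] (e : RR ≃+* 𝓞 K)

/-- square roots at the primes above two -/
lemma sqrt_two {z : RR} (hz : Prime z) (h2 : z ∣ 2) {c : RR} (hc : z ^ 3 ∣ c - 1) :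
    ∃ s : (plc e hz : HeightOneSpectrum (𝓞 K)).adicCompletion K, s ^ 2 = pk e (plc e hz) c := by
  obtain ⟨m, hm⟩ := hc
  have v2 : (plc e hz : HeightOneSpectrum (𝓞 K)).valuation K (em e 2) = exp (-1 : ℤ) :=
    val_sqf e hz sqf_two h2
  have v4 : vv (plc e hz) (4 : (plc e hz : HeightOneSpectrum (𝓞 K)).adicCompletion K) =
      exp (-2 : ℤ) := by
    have e4 : (4 : (plc e hz : HeightOneSpectrum (𝓞 K)).adicCompletion K) =
        algebraMap K _ (em e 2 * em e 2) := by
      rw [← map_mul, show (2 : RR) * 2 = 4 by norm_num, map_ofNat, map_ofNat]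
    rw [e4, vv_coe, map_mul, v2, ← exp_add]
    norm_num
  obtain ⟨s, hs⟩ := exists_sqrt (plc e hz) (pk e (plc e hz) (c - 1)) (by
    rw [vv_pk, hm, map_mul, map_pow, map_mul, map_pow, val_z e hz, v4]
    refine lt_of_le_of_lt (mul_le_of_le_one_right' (val_le e hz m)) ?_
    rw [← exp_nsmul, exp_lt_exp]
    norm_num)
  refine ⟨s, ?_⟩
  rw [hs]
  unfold pk
  rw [map_sub, map_sub, map_one, map_one]
  ring

lemma em_cja : em e (cj aR) = 1 - em e aR := by
  rw [cj_aR, map_sub, map_one]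

/-- the place `α` -/
lemma sol_a {d D : RR} (hd : ∃ J : RR, d = 1 + 4 * J) (hD : ∃ J : RR, D = 1 + 4 * J)
    (hd0 : d ≠ 0) (hD0 : D ≠ 0) (hz : Prime aR) :
    LocI K ((plc e hz : HeightOneSpectrum (𝓞 K)).adicCompletion K) (cA (em e aR) (em e D))
      (cB (em e aR) (em e D)) (em e d) := by
  have := charZero_adic (plc e hz : HeightOneSpectrum (𝓞 K))
  have h2 : aR ∣ (2 : RR) := ⟨cj aR, by rw [cj_aR]; linear_combination aR_sq⟩
  have hsq : ∀ c : RR, e6 c = 1 → ∃ s : (plc e hz : HeightOneSpectrum (𝓞 K)).adicCompletion K,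
      s ^ 2 = pk e (plc e hz) c := fun c hc => sqrt_two e hz h2 (e6_zero (by
    rw [map_sub, map_one, hc, sub_self]))
  rcases cl6 hd with h5 | h5
  · obtain ⟨s, hs⟩ := hsq d h5
    exact sol_sqE e _ hd0 hs
  rcases cl6 hD with h6 | h6
  · obtain ⟨s, hs⟩ := hsq (-(D * fR * d)) (by
      rw [map_neg, map_mul, map_mul, h5, h6, e6_f]
      decide)
    refine loc_tor (ema_sq e) (s := s) (pk_ne e (plc e hz) hd0) (em_ne e hD0) ?_
    rw [hs]
    unfold pk
    simp only [map_neg, map_mul, em_fR]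
    ring
  · obtain ⟨y', hy'⟩ := e6_four (x := d + D * fR * cj aR ^ 2) (by
      rw [map_add, map_mul, map_mul, map_pow, h5, h6, e6_f, e6_b]
      decide)
    have hodd : e6 y' = 1 ∨ e6 y' = 3 ∨ e6 y' = 5 ∨ e6 y' = 7 := by
      have h7 := congrArg e6 hy'
      rw [map_add, map_mul, map_mul, map_pow, h5, h6, e6_f, e6_b, map_mul, map_pow, e6_a] at h7
      revert h7
      generalize e6 y' = t
      revert t
      decide
    obtain ⟨s, hs⟩ := hsq (d * y' * (y' - 4 * (D * fR))) (by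
      rw [map_mul, map_mul, map_sub, map_mul, map_mul, h5, h6, e6_f, map_ofNat]
      rcases hodd with h | h | h | h <;> rw [h] <;> decide)
    refine loc_r (ema_sq e) (r := 1) (z := s * pk e (plc e hz) (aR ^ 2))
      (pk_ne e (plc e hz) hd0) one_ne_zero ?_
    have h8 : d + D * fR * cj aR ^ 6 = aR ^ 2 * (y' - 4 * (D * fR)) := by
      have e1 : cj aR ^ 4 = 1 - aR ^ 4 := by
        rw [cj_aR]
        linear_combination (2 * aR ^ 2 - 2 * aR) * aR_sq
      linear_combination hy' + (D * fR * cj aR ^ 2) * e1 + (D * fR * aR ^ 2) * four_eq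
    have h9 : pk e (plc e hz) (d + D * fR * cj aR ^ 2) * pk e (plc e hz) (d + D * fR * cj aR ^ 6) *
        pk e (plc e hz) d =
        pk e (plc e hz) (d * y' * (y' - 4 * (D * fR))) * pk e (plc e hz) (aR ^ 2) ^ 2 := by
      unfold pk
      rw [h8, hy']
      simp only [map_mul, map_pow]
      ring
    rw [mul_pow, hs, ← h9]
    unfold pk
    simp only [map_add, map_mul, map_pow, em_fR, em_cja]
    ring

/-- the place `ᾱ` -/
lemma sol_b {d D : RR} (hd : ∃ J : RR, d = 1 + 4 * J) (hD : ∃ J : RR, D = 1 + 4 * J)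
    (hd0 : d ≠ 0) (hz : Prime (cj aR)) :
    LocI K ((plc e hz : HeightOneSpectrum (𝓞 K)).adicCompletion K) (cA (em e aR) (em e D))
      (cB (em e aR) (em e D)) (em e d) := by
  have := charZero_adic (plc e hz : HeightOneSpectrum (𝓞 K))
  have h2 : cj aR ∣ (2 : RR) := ⟨aR, by rw [cj_aR]; linear_combination aR_sq⟩
  have hsq : ∀ c : RR, e3 c = 1 → ∃ s : (plc e hz : HeightOneSpectrum (𝓞 K)).adicCompletion K,
      s ^ 2 = pk e (plc e hz) c := fun c hc => sqrt_two e hz h2 (e3_zero (by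
    rw [map_sub, map_one, hc, sub_self]))
  rcases cl3 hd with h5 | h5
  · obtain ⟨s, hs⟩ := hsq d h5
    exact sol_sqE e _ hd0 hs
  · obtain ⟨s, hs⟩ := hsq (d * (64 * d + D * fR) * (4 * aR ^ 4 * d + D * fR)) (by
      rw [map_mul, map_mul, map_add, map_add, map_mul, map_mul, map_mul, map_mul, map_pow, h5,
        e3_f, e3_a, map_ofNat, map_ofNat]
      rcases cl3 hD with h | h <;> rw [h] <;> decide)
    have h8r : pk e (plc e hz) (8 * cj aR) ≠ 0 := pk_ne e (plc e hz) (mul_ne_zero (by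
      intro h
      have := congrArg (fun x : RR => (x : ℂ)) h
      have h88 : ((8 : RR) : ℂ) = 8 := rfl
      simp only [h88] at this
      simp at this) hz.ne_zero)
    refine loc_r (ema_sq e) (r := pk e (plc e hz) (8 * cj aR))
      (z := s * pk e (plc e hz) (cj aR ^ 4)) (pk_ne e (plc e hz) hd0) h8r ?_
    have k1 : d * (8 * cj aR) ^ 2 + D * fR * cj aR ^ 2 = cj aR ^ 2 * (64 * d + D * fR) := by ring
    have k2 : d * (8 * cj aR) ^ 2 + D * fR * cj aR ^ 6 =
        cj aR ^ 6 * (4 * aR ^ 4 * d + D * fR) := by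
      have e1 : (16 : RR) = aR ^ 4 * cj aR ^ 4 := by
        have := four_eq
        linear_combination (4 + aR ^ 2 * cj aR ^ 2) * this
      linear_combination (4 * d * cj aR ^ 2) * e1
    have h9 : pk e (plc e hz) (d * (8 * cj aR) ^ 2 + D * fR * cj aR ^ 2) *
        pk e (plc e hz) (d * (8 * cj aR) ^ 2 + D * fR * cj aR ^ 6) * pk e (plc e hz) d =
        pk e (plc e hz) (d * (64 * d + D * fR) * (4 * aR ^ 4 * d + D * fR)) *
          pk e (plc e hz) (cj aR ^ 4) ^ 2 := by
      rw [k1, k2]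
      unfold pk
      simp only [map_mul, map_pow]
      ring
    rw [mul_pow, hs, ← h9]
    unfold pk
    simp only [map_add, map_mul, map_pow, em_fR, em_cja]
    ring

/-- the infinite places -/
lemma sol_inf (v : InfinitePlace K) {d D : RR} (hd : d ≠ 0) :
    LocI K v.Completion (cA (em e aR) (em e D)) (cB (em e aR) (em e D)) (em e d) := by
  have hch : CharZero v.Completion := charZero_of_injective_algebraMap
    (algebraMap K v.Completion).injective
  have hpd : algebraMap K v.Completion (em e d) ≠ 0 := (map_ne_zero _).2 (em_ne e hd)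
  have hi : (algebraMap K v.Completion (em e fR)) ^ 2 = -7 := by
    rw [← map_pow, ← map_pow, fR_sq, map_neg, map_neg, map_ofNat, map_ofNat]
  have hc : v.IsComplex := by
    by_contra hcon
    rw [InfinitePlace.not_isComplex_iff_isReal] at hcon
    have h1 := congrArg (InfinitePlace.Completion.extensionEmbeddingOfIsReal hcon) hi
    rw [map_pow, map_neg, map_ofNat] at h1
    have h2 := sq_nonneg (InfinitePlace.Completion.extensionEmbeddingOfIsReal hcon
      (algebraMap K v.Completion (em e fR)))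
    rw [h1] at h2
    linarith
  have hsq : ∀ x : v.Completion, ∃ y : v.Completion, y ^ 2 = x := by
    intro x
    let f := InfinitePlace.Completion.ringEquivComplexOfIsComplex hc
    obtain ⟨y, hy⟩ := IsAlgClosed.exists_pow_nat_eq (f x) (n := 2) two_pos
    refine ⟨f.symm y, ?_⟩
    rw [← map_pow, hy, RingEquiv.symm_apply_apply]
  obtain ⟨y, hy⟩ := hsq _
  obtain ⟨s, hs⟩ := hsq (algebraMap K v.Completion (em e d))
  exact loc_inf (ema_sq e) (s := s) (t := 1) (w := y) hs (by
    rintro rfl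
    rw [zero_pow two_ne_zero] at hs
    exact hpd hs.symm) one_ne_zero hy

end

end Pool.Agent.R426.QC
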