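import Pool.Agent.R426.QC.Cla
import Pool.Agent.R426.QC.Shx
import Pool.Agent.R426.QC.Slf
import Pool.Agent.R426.QC.Slt
import Pool.Agent.R426.QC.Main

/-!
# The converse: a kernel vector gives a point or an element of the Tate-Shafarevich group
-/

set_option autoImplicit false
set_option linter.unusedSectionVars false

attribute [-instance] DivisionRing.toRatAlgebra

open NumberField IsDedekindDomain

namespace Pool.Agent.R426.QC

open WithZero WeierstrassCurve
open Pool.Agent.Y698 Pool.Agent.Y698.SG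
open Pool.Agent.W192.HK (sp)
open Pool.Agent.Y682 (vv vv_coe charZero_adic)
open Pool.Agent.Y697.PP (Mt)
open Pool.Agent.TH841.NF.D (IsShaCoc shaCoc Sha)
open Pool.Agent.TH841.SH.D (IsCob)
open Cv (LocI)

/-- a vector in the kernel -/
lemma exists_ker {V : Type} [DecidableEq V] (A : V → V → ZMod 2) (θ : V → ZMod 2) {S : Finset V}
    (h : (Mt A θ S).det = 0) :
    ∃ t : V → ZMod 2, (∀ v ∈ S, θ v * t v + ∑ u ∈ S, A v u * (t v + t u) = 0) ∧
      ∃ v ∈ S, t v ≠ 0 := by
  have h2 : (2 : ZMod 2) = 0 := rfl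
  obtain ⟨x, hx0, hx⟩ := Matrix.exists_mulVec_eq_zero_iff.2 h
  let t : V → ZMod 2 := fun v => if hv : v ∈ S then x ⟨v, hv⟩ else 0
  have ht : ∀ v : S, t v = x v := fun v => by
    simp only [t]
    rw [dif_pos v.2]
  refine ⟨t, fun v hv => ?_, ?_⟩
  · have h1 := congrFun hx ⟨v, hv⟩
    simp only [Matrix.mulVec, dotProduct, Pi.zero_apply] at h1
    rw [← Finset.add_sum_erase _ _ (Finset.mem_univ (⟨v, hv⟩ : S))] at h1
    have e1 : Mt A θ S ⟨v, hv⟩ ⟨v, hv⟩ = θ v + ∑ x ∈ S.erase v, A v x := by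
      unfold Mt; rw [if_pos rfl]
    have e2 : ∑ y ∈ (Finset.univ : Finset S).erase ⟨v, hv⟩, Mt A θ S ⟨v, hv⟩ y * x y =
        ∑ y ∈ S.erase v, A v y * t y := by
      refine Finset.sum_bij (fun y _ => (y : V)) ?_ ?_ ?_ ?_
      · intro y hy
        rw [Finset.mem_erase] at hy ⊢
        exact ⟨fun h => hy.1 (Subtype.ext h), y.2⟩
      · intro y _ z _ h
        exact Subtype.ext h
      · intro y hy
        rw [Finset.mem_erase] at hy
        exact ⟨⟨y, hy.2⟩, Finset.mem_erase.2 ⟨fun h => hy.1 (congrArg Subtype.val h),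
          Finset.mem_univ _⟩, rfl⟩
      · intro y hy
        unfold Mt
        rw [if_neg (Finset.ne_of_mem_erase hy), ht]
    rw [← Finset.add_sum_erase _ _ hv]
    have e4 : ∑ x ∈ S.erase v, A v x * (t v + t x) =
        (∑ x ∈ S.erase v, A v x) * t v + ∑ x ∈ S.erase v, A v x * t x := by
      rw [Finset.sum_mul, ← Finset.sum_add_distrib]
      exact Finset.sum_congr rfl fun x _ => by ring
    rw [e4]
    rw [e1, e2, ← ht] at h1
    linear_combination h1 + A v v * t v * h2
  · by_contra hcon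
    push Not at hcon
    apply hx0
    funext v
    rw [← ht]
    exact hcon v v.2

/-- the subset of a vector in the kernel -/
lemma exists_T {ι : Type} [DecidableEq ι] {c : ι → ZMod 2} {r : ι → ι → ZMod 2} {I : Finset ι}
    (hg : gd c r I = 0) : ∃ T ⊆ I, T.Nonempty ∧ (∀ i ∈ I \ T, ∑ j ∈ T, r i j = 0) ∧
      ∀ i ∈ T, c i + ∑ j ∈ I \ T, r i j = 0 := by
  rw [gd_Mt] at hg
  obtain ⟨t, hker, v₀, hv₀, htv₀⟩ := exists_ker r c hg
  have hone : ∀ x : ZMod 2, x ≠ 0 → x = 1 := by decide
  have h22 : ∀ x : ZMod 2, x + x = 0 := by decide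
  set T := I.filter (fun v => t v = 1) with hT
  have hTS : T ⊆ I := Finset.filter_subset _ _
  have hnT : ∀ v ∈ I, v ∉ T → t v = 0 := by
    intro v hv hvT
    by_contra h
    exact hvT (Finset.mem_filter.2 ⟨hv, hone _ h⟩)
  refine ⟨T, hTS, ⟨v₀, Finset.mem_filter.2 ⟨hv₀, hone _ htv₀⟩⟩, ?_, ?_⟩
  · intro v hv
    have hv' := Finset.mem_sdiff.1 hv
    have h1 := hker v hv'.1
    rw [hnT v hv'.1 hv'.2, mul_zero, zero_add, ← Finset.sum_sdiff hTS,
      Finset.sum_eq_zero (s := I \ T) (fun w hw => by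
        rw [hnT w (Finset.mem_sdiff.1 hw).1 (Finset.mem_sdiff.1 hw).2, zero_add, mul_zero]),
      zero_add] at h1
    rw [← h1]
    refine Finset.sum_congr rfl fun w hw => ?_
    rw [(Finset.mem_filter.1 hw).2, zero_add, mul_one]
  · intro v hv
    have h1 := hker v (hTS hv)
    rw [(Finset.mem_filter.1 hv).2, mul_one, ← Finset.sum_sdiff hTS,
      Finset.sum_eq_zero (s := T) (fun w hw => by
        rw [(Finset.mem_filter.1 hw).2, h22, mul_zero]), add_zero] at h1
    rw [← h1]
    congr 1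
    refine Finset.sum_congr rfl fun w hw => ?_
    rw [hnT w (Finset.mem_sdiff.1 hw).1 (Finset.mem_sdiff.1 hw).2, add_zero, mul_one]

lemma nsq_zero {R : Type} [CommRing R] {x p : R} (h : nsq x p = 0) : ∃ b : R, p ∣ b ^ 2 - x := by
  unfold nsq at h
  by_contra hcon
  rw [if_neg hcon] at h
  exact one_ne_zero h

/-- the symbol of a product -/
lemma lg_prod {ι : Type} {I U : Finset ι} {π : ι → RR} (hf : Fam I π) (hU : U ⊆ I) {i : ι}
    (hi : i ∈ I) (hiU : i ∉ U) : lg (sy (π i) (∏ j ∈ U, π j)) = ∑ j ∈ U, dr π i j := by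
  rw [sy_prod (hf.pd i hi)]
  exact (sgn_prod (s := U) (f := fun j => sy (π i) (π j)) fun j hj =>
    sy_sgn (hf.ne j (hU hj) i hi (fun h3 => hiU (h3 ▸ hj)))).2

lemma e7_prod {ι : Type} (U : Finset ι) (π : ι → RR) : e7 (∏ j ∈ U, π j) = ∏ j ∈ U, e7 (π j) := by
  classical
  induction U using Finset.induction_on with
  | empty => rw [Finset.prod_empty, Finset.prod_empty, e7_one]
  | insert i U hi ih => rw [Finset.prod_insert hi, Finset.prod_insert hi, e7_mul, ih]

section

variable {K : Type} [Field K] [NumberField K] (e : RR ≃+* 𝓞 K)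

/-- a squarefree element that is not a unit is not a square -/
lemma not_sq_of {x z : RR} (hsq : Squarefree x) (hz : Prime z) (hzx : z ∣ x) :
    ¬ IsSquare (em e x) := by
  rintro ⟨r, hr⟩
  have h1 := val_sqf e hz hsq hzx
  have h0 : r ≠ 0 := by
    rintro rfl
    rw [mul_zero] at hr
    exact em_ne e hsq.ne_zero hr
  rw [← pow_two] at hr
  refine ev_odd_val (w := (plc e hz).valuation K) h0 (x := em e x) (k := -1) ?_ ?_
  · rw [hr, map_pow]
  · rw [h1]
    congr 1

/-- **the converse** -/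
theorem convE {ι : Type} [DecidableEq ι] {I : Finset ι} {π : ι → RR} (hπ : ∀ i ∈ I, Pm (π i))
    (hf : Fam I π) (hg : gd (mc π) (mr π) I = 0) {J : RR} (hJ : ∏ i ∈ I, π i = 1 + 4 * J)
    (hfin : Finite (EX K (em e J)).toAffine.Point)
    (hsha : ∀ x : Sha (EX K (em e J)), 2 • x = 0 → x = 0) : False := by
  classical
  have hsq := sqf_seven hπ hf
  have hsqD := sqf_fam hπ hf
  obtain ⟨T, hTI, ⟨i₀, hi₀⟩, hout, hin⟩ := exists_T hg
  have hsym : ∀ i ∈ I, ∀ j ∈ I, i ≠ j → mr π i j = dr π i j := by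
    intro i hi j hj hij
    unfold mr dr
    rw [(hπ i hi).recip (hπ j hj) (hf.ne j hj i hi (Ne.symm hij)) (hf.ne i hi j hj hij)]
  have hsum : ∑ i ∈ T, mc π i = 0 := by
    have h1 : ∑ i ∈ T, (mc π i + ∑ j ∈ I \ T, mr π i j) = 0 := Finset.sum_eq_zero hin
    have h2 : ∑ i ∈ I \ T, ∑ j ∈ T, mr π i j = 0 := Finset.sum_eq_zero hout
    have h3 : ∑ i ∈ T, ∑ j ∈ I \ T, mr π i j = ∑ i ∈ I \ T, ∑ j ∈ T, mr π i j := by
      rw [Finset.sum_comm]
      refine Finset.sum_congr rfl fun i hi => Finset.sum_congr rfl fun j hj => ?_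
      have hi' := Finset.mem_sdiff.1 hi
      rw [hsym i hi'.1 j (hTI hj) (fun h => hi'.2 (h ▸ hj))]
      rfl
    rw [Finset.sum_add_distrib, h3, h2, add_zero] at h1
    exact h1
  set D := ∏ i ∈ I, π i with hD
  obtain ⟨d, hd⟩ : ∃ d : RR, d = ∏ i ∈ T, π i := ⟨_, rfl⟩
  obtain ⟨D'', hD''⟩ : ∃ D'' : RR, D'' = ∏ i ∈ I \ T, π i := ⟨_, rfl⟩
  have hDd : D = d * D'' := by
    rw [hd, hD'', mul_comm]
    exact (Finset.prod_sdiff hTI).symm
  have hd0 : d ≠ 0 := by
    intro h0
    rw [h0, zero_mul] at hDd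
    exact hsqD.ne_zero hDd
  have hD0 : D ≠ 0 := hsqD.ne_zero
  have hdsq : Squarefree d := hsqD.squarefree_of_dvd ⟨D'', hDd⟩
  have hd4 : ∃ J : RR, d = 1 + 4 * J := by
    rw [hd]
    exact prod_four T fun i hi => (hπ i (hTI hi)).m4
  -- local points
  have hloc : ∀ v : HeightOneSpectrum (𝓞 K),
      LocI K (v.adicCompletion K) (cA (em e aR) (em e D)) (cB (em e aR) (em e D)) (em e d) := by
    intro v
    obtain ⟨z, hz, rfl⟩ := exists_plc e v
    have hch := charZero_adic (plc e hz : HeightOneSpectrum (𝓞 K))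
    by_cases h2 : z ∣ 2
    · rw [two_eq] at h2
      rcases hz.dvd_or_dvd h2 with h3 | h3
      · rw [(plc_eq e hz prime_aR).2 (hz.associated_of_dvd prime_aR h3)]
        exact sol_a e hd4 ⟨J, hJ⟩ hd0 hD0 prime_aR
      · rw [(plc_eq e hz prime_cja).2 (hz.associated_of_dvd prime_cja h3)]
        exact sol_b e hd4 ⟨J, hJ⟩ hd0 prime_cja
    by_cases hzf : z ∣ fR
    · have hpl := (plc_eq e hz prime_fR).2 (hz.associated_of_dvd prime_fR hzf)
      rw [hpl]
      have hf2 : ¬ fR ∣ 2 := fun h => h2 (hzf.trans h)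
      have hfd : d ∉ sp fR := by
        intro h
        rw [Ideal.mem_span_singleton] at h
        have h5 : fR * fR ∣ fR * D := mul_dvd_mul_left _ (by rw [hDd]; exact h.mul_right _)
        exact prime_fR.not_isUnit (hsq _ h5)
      have h6 : e7 d ^ 2 = 1 := e7_sq hfd
      have h7 : lg (e7 d) = 0 := by
        rw [hd, e7_prod]
        rw [(sgn_prod (s := T) (f := fun j => e7 (π j)) fun j hj =>
          sq_one_cases (e7_sq (fun h => by
            rw [Ideal.mem_span_singleton] at h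
            have h3 := (prime_fR.associated_of_dvd (hπ j (hTI hj)).pr h).symm.dvd
            exact fR_notin (hπ j (hTI hj)).pd (Ideal.mem_span_singleton.2 h3)))).2]
        exact hsum
      rw [lg_e7 hfd] at h7
      obtain ⟨b, hb⟩ := nsq_zero h7
      obtain ⟨s, hs⟩ := sqrt_res e prime_fR hf2
        (fun h => hfd (Ideal.mem_span_singleton.2 h)) hb
      exact sol_sqE e _ hd0 hs
    by_cases hzD : z ∣ D
    · obtain ⟨l, hl, hzl⟩ := (hz.dvd_finsetProd_iff _).1 hzD
      have hpl := (plc_eq e hz (hπ l hl).pr).2 (hz.associated_of_dvd (hπ l hl).pr hzl)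
      rw [hpl]
      have hl2 : ¬ π l ∣ 2 := pm_two (hπ l hl)
      have hch' := charZero_adic (plc e (hπ l hl).pr : HeightOneSpectrum (𝓞 K))
      have hp := (hπ l hl).pd
      by_cases hlT : l ∈ T
      · have h3 := hin l hlT
        have h4 := lg_prod hf (Finset.sdiff_subset (s := I) (t := T)) hl
          (fun h => (Finset.mem_sdiff.1 h).2 hlT)
        rw [← hD''] at h4
        have hnd : ¬ π l ∣ D'' := by
          rintro ⟨c, hc⟩
          have h5 : π l * π l ∣ D := by
            rw [hDd, hc]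
            refine mul_dvd_mul ?_ ⟨c, rfl⟩
            rw [hd]
            exact Finset.dvd_prod_of_mem _ hlT
          exact hp.pr.not_isUnit (hsqD _ h5)
        have hnd' : D'' ∉ sp (π l) := fun h => hnd (Ideal.mem_span_singleton.1 h)
        have hnf := fR_notin hp
        have h6 : -(fR * D'') ∉ sp (π l) := by
          rw [neg_mem_iff, Ideal.mem_span_singleton]
          intro h
          rcases hp.pr.dvd_or_dvd h with h | h
          · exact hnf (Ideal.mem_span_singleton.2 h)
          · exact hnd h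
        have h7 : lg (sy (π l) (-(fR * D''))) = 0 := by
          have e1 : -(fR * D'') = (-1) * (fR * D'') := by ring
          rw [e1, hp.mul, hp.neg, one_mul, hp.mul, lg_mul (sy_sgn hnf) (sy_sgn hnd'), h4]
          have e2 : lg (sy (π l) fR) = mc π l := by
            unfold mc
            rw [(hπ l hl).seven]
          rw [e2, ← h3]
          congr 1
          refine Finset.sum_congr rfl fun u hu => ?_
          exact (hsym l hl u (Finset.mem_sdiff.1 hu).1 fun h =>
            (Finset.mem_sdiff.1 hu).2 (h ▸ hlT)).symm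
        rw [lg_sy h6] at h7
        obtain ⟨b, hb⟩ := nsq_zero h7
        obtain ⟨s, hs⟩ := sqrt_res e hp.pr hl2 (fun h => h6 (Ideal.mem_span_singleton.2 h)) hb
        refine loc_tor (ema_sq e) (s := s * pk e (plc e hp.pr) d) (pk_ne e _ hd0)
          (em_ne e hD0) ?_
        rw [mul_pow, hs, hDd]
        unfold pk
        simp only [map_neg, map_mul, em_fR]
        ring
      · have h3 := hout l (Finset.mem_sdiff.2 ⟨hl, hlT⟩)
        have h4 := lg_prod hf hTI hl hlT
        rw [← hd] at h4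
        have hnd : d ∉ sp (π l) := by
          rw [hd]
          intro h
          rw [Ideal.mem_span_singleton] at h
          obtain ⟨u, hu, hlu⟩ := (hp.pr.dvd_finsetProd_iff _).1 h
          exact hf.ne u (hTI hu) l hl (fun h => hlT (h ▸ hu)) (Ideal.mem_span_singleton.2 hlu)
        have h5 : lg (sy (π l) d) = 0 := by
          rw [h4, ← h3]
          refine Finset.sum_congr rfl fun u hu => ?_
          exact (hsym l hl u (hTI hu) fun h => hlT (h ▸ hu)).symm
        rw [lg_sy hnd] at h5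
        obtain ⟨b, hb⟩ := nsq_zero h5
        obtain ⟨s, hs⟩ := sqrt_res e hp.pr hl2 (fun h => hnd (Ideal.mem_span_singleton.2 h)) hb
        exact sol_sqE e _ hd0 hs
    · refine sol_goodE e hz h2 (fun h => hzD (by rw [hDd]; exact h.mul_right _)) fun h => ?_
      rcases hz.dvd_or_dvd h with h | h
      · exact hzf h
      · exact hzD h
  -- the class
  have ha := ema_sq e
  have hDj : em e D = 1 + 4 * em e J := by
    rw [hJ, map_add, map_mul, map_one, map_ofNat]
  have hD0' : (1 + 4 * em e J) ≠ 0 := by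
    rw [← hDj]
    exact em_ne e hD0
  have hT := isT_E2 (j := em e J) ha hD0'
  rw [← hDj] at hT
  have hW : E2 K (em e J) (-(em e D * eB (em e aR))) =
      Cv.WF (cA (em e aR) (em e D)) (cB (em e aR) (em e D)) := by
    ext
    · exact hT.h1
    · exact hT.h2
    · exact hT.h3
    · exact hT.h4
    · exact hT.h6
  have hb0 : cB (em e aR) (em e D) ≠ 0 := hT.hB
  have hcoc : IsShaCoc (Cv.WF (cA (em e aR) (em e D)) (cB (em e aR) (em e D)))
      (Cv.coc K hb0 (em e d)) :=
    ⟨Cv.coc_coc hb0 _, fun v => Cv.Lot.t_LOT hb0 _ _ (hloc v),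
      fun v => Cv.Lot.t_LOT hb0 _ _ (sol_inf e v hd0)⟩
  have hcob := cob_of_sha _ _ hW hsha hcoc (Cv.coc_two hb0 _)
  have hdz : π i₀ ∣ d := by
    rw [hd]
    exact Finset.dvd_prod_of_mem _ hi₀
  have hnsd := not_sq_of e hdsq (hπ i₀ (hTI hi₀)).pr hdz
  rcases Cv.t_COB hb0 (em_ne e hd0) hcob with h | h | h
  · exact hnsd h
  · apply hnsd
    obtain ⟨r, hr⟩ := h
    rw [cD_eq] at hr
    have hne : em e D * eA (em e aR) ≠ 0 := by
      intro h0
      have h1 := hT.hD
      rw [cD_eq, h0] at h1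
      exact h1 (by ring)
    refine ⟨r / (em e D * eA (em e aR)), ?_⟩
    rw [div_mul_div_comm, ← hr, eq_div_iff (mul_ne_zero hne hne)]
    ring
  · obtain ⟨c, hc⟩ := globE e hsq hJ hfin h
    rcases hc with hc | hc
    · exact hnsd ⟨c, by rw [hc, sq]⟩
    · have hsq2 : Squarefree (-(fR * D'')) := by
        have h1 : fR * D'' ∣ fR * D := mul_dvd_mul_left _ ⟨d, by rw [hDd]; ring⟩
        have h2 := hsq.squarefree_of_dvd h1
        exact (Associated.refl _).neg_left.squarefree_iff.2 h2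
      apply not_sq_of e hsq2 prime_fR ((dvd_neg).2 (Dvd.intro _ rfl))
      have hpd : em e d ≠ 0 := em_ne e hd0
      have hc0 : c ≠ 0 := by
        rintro rfl
        rw [zero_pow two_ne_zero, mul_zero] at hc
        exact hpd hc
      refine ⟨c⁻¹, ?_⟩
      rw [hDd, map_mul, map_mul] at hc
      have h1 : -(em e fR * em e D'') * c ^ 2 = 1 := by
        apply mul_left_cancel₀ hpd
        linear_combination -hc
      rw [map_neg, map_mul]
      field_simp
      linear_combination h1

end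

end Pool.Agent.R426.QC
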