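import Pool.Agent.TH841.NF.ShaN
import Pool.Agent.Y668.AlAdd

/-!
# The cocycle `χ_d T` on `y² = x³ + a x² + b x` over a field of characteristic zero

Port of `Pool/Agent/Y79/SG`, `Pool/Agent/Y945/SG` (integral coefficients) to coefficients in the field.
-/

set_option autoImplicit false
set_option linter.unusedSectionVars false

namespace Pool.Agent.R426.QC.Cv

open WeierstrassCurve

open Pool.Agent.TH841.SH.D (Pt act Gal Coch IsCoc IsCob LocTriv cob)

/-- the curve `y² = x³ + a x² + b x` -/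
abbrev WF {F : Type} [Field F] (a b : F) : WeierstrassCurve F := Pool.Agent.Y668.Wt a b

/-- a point `(X, Y)` of `y² = x³ - 2 a x² + (a² - 4 b) x` over `L` with `X ∈ d L*²` -/
def LocI (F L : Type) [Field F] [Field L] [Algebra F L] (a b d : F) : Prop :=
  ∃ X Y r : L, X ≠ 0 ∧ Y ^ 2 = X ^ 3 - 2 * algebraMap F L a * X ^ 2 +
    (algebraMap F L a ^ 2 - 4 * algebraMap F L b) * X ∧ X = algebraMap F L d * r ^ 2

section

variable (F : Type) [Field F]

lemma ns0 {a b : F} (hb : b ≠ 0) (L : Type) [Field L] [Algebra F L] :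
    ((WF a b).baseChange L).toAffine.Nonsingular 0 0 := by
  rw [Affine.nonsingular_zero]
  refine ⟨?_, Or.inr ?_⟩
  · exact map_zero (algebraMap F L)
  · intro h0
    exact hb ((algebraMap F L).injective (by rw [map_zero]; exact h0))

/-- the point `(0, 0)` -/
def T0 {a b : F} (hb : b ≠ 0) (L : Type) [Field L] [Algebra F L] : Pt (WF a b) L :=
  Affine.Point.some 0 0 (ns0 F hb L)

open Classical in
/-- the cocycle `χ_d T` -/
noncomputable def coc {a b : F} (hb : b ≠ 0) (d : F) : Coch (WF a b) := fun σ =>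
  if ∃ s : AlgebraicClosure F, s ^ 2 = algebraMap F (AlgebraicClosure F) d ∧ σ s ≠ s then
    T0 F hb (AlgebraicClosure F) else 0

end

variable {F : Type} [Field F]

lemma lc_apply (x : AlgebraicClosure F) : IsLocallyConstant (fun σ : Gal F => σ x) := by
  rw [IsLocallyConstant.iff_exists_open]
  intro σ
  have hx : IsIntegral F x := Algebra.IsIntegral.isIntegral x
  have : FiniteDimensional F (IntermediateField.adjoin F {x}) :=
    IntermediateField.adjoin.finiteDimensional hx
  refine ⟨(fun τ => σ⁻¹ * τ) ⁻¹'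
    ((IntermediateField.adjoin F {x}).fixingSubgroup : Set (AlgebraicClosure F ≃ₐ[F] AlgebraicClosure F)),
    (IntermediateField.fixingSubgroup_isOpen _).preimage (continuous_const_mul _), ?_, ?_⟩
  · show σ⁻¹ * σ ∈ (IntermediateField.adjoin F {x}).fixingSubgroup
    rw [inv_mul_cancel]
    exact one_mem _
  · intro τ hτ
    have h1 : σ⁻¹ * τ ∈ (IntermediateField.adjoin F {x}).fixingSubgroup := hτ
    rw [IntermediateField.mem_fixingSubgroup_iff] at h1
    have h2 := h1 x (IntermediateField.mem_adjoin_simple_self F x)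
    rw [AlgEquiv.mul_apply] at h2
    have h3 := congrArg σ h2
    rw [← AlgEquiv.mul_apply, mul_inv_cancel, AlgEquiv.one_apply] at h3
    exact h3

lemma exists_root (d : F) : ∃ s : AlgebraicClosure F, s ^ 2 = algebraMap F (AlgebraicClosure F) d :=
  IsAlgClosed.exists_pow_nat_eq _ two_pos

lemma ap_sq {d : F} {s : AlgebraicClosure F} (hs : s ^ 2 = algebraMap F (AlgebraicClosure F) d)
    (σ : Gal F) : σ s = s ∨ σ s = -s := by
  apply sq_eq_sq_iff_eq_or_eq_neg.1
  rw [← map_pow, hs, AlgEquiv.commutes]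

variable [CharZero F] {a b : F}

lemma coc_pos (hb : b ≠ 0) {d : F} {σ : Gal F}
    (hex : ∃ s : AlgebraicClosure F, s ^ 2 = algebraMap F (AlgebraicClosure F) d ∧ σ s ≠ s) :
    coc F (a := a) hb d σ = T0 F hb (AlgebraicClosure F) := if_pos hex

lemma coc_none (hb : b ≠ 0) {d : F} {σ : Gal F}
    (hex : ¬ ∃ s : AlgebraicClosure F, s ^ 2 = algebraMap F (AlgebraicClosure F) d ∧ σ s ≠ s) :
    coc F (a := a) hb d σ = 0 := if_neg hex

lemma coc_eq (hb : b ≠ 0) {d : F} {s : AlgebraicClosure F}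
    (hs : s ^ 2 = algebraMap F (AlgebraicClosure F) d) (σ : Gal F) :
    (σ s = s → coc F (a := a) hb d σ = 0) ∧
      (σ s ≠ s → coc F (a := a) hb d σ = T0 F hb (AlgebraicClosure F)) := by
  constructor
  · intro h1
    apply coc_none
    rintro ⟨t, h2, h3⟩
    apply h3
    rw [← hs] at h2
    rcases sq_eq_sq_iff_eq_or_eq_neg.1 h2 with rfl | rfl
    · exact h1
    · rw [map_neg, h1]
  · intro h1
    exact coc_pos hb ⟨s, hs, h1⟩

lemma T0_add (hb : b ≠ 0) : T0 F (a := a) hb (AlgebraicClosure F) +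
    T0 F hb (AlgebraicClosure F) = 0 := by
  refine @Affine.Point.add_of_Y_eq (AlgebraicClosure F) _
    ((WF a b).baseChange (AlgebraicClosure F)).toAffine (Classical.decEq (AlgebraicClosure F))
    0 0 0 0 (ns0 F hb (AlgebraicClosure F)) (ns0 F hb (AlgebraicClosure F)) rfl ?_
  have h1 : ((WF a b).baseChange (AlgebraicClosure F)).toAffine.a₁ = 0 :=
    map_zero (algebraMap F (AlgebraicClosure F))
  have h3 : ((WF a b).baseChange (AlgebraicClosure F)).toAffine.a₃ = 0 :=
    map_zero (algebraMap F (AlgebraicClosure F))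
  rw [Affine.negY, h1, h3]
  ring

lemma act_T0 (hb : b ≠ 0) (σ : Gal F) :
    act (WF a b) σ.toAlgHom (T0 F hb (AlgebraicClosure F)) = T0 F hb (AlgebraicClosure F) := by
  have h1 : act (WF a b) σ.toAlgHom (T0 F hb (AlgebraicClosure F)) = (Affine.Point.some (σ 0) (σ 0)
    ((Affine.baseChange_nonsingular (WF a b) σ.toAlgHom.injective ..).mpr
      (ns0 F hb (AlgebraicClosure F))) : Pt (WF a b) (AlgebraicClosure F)) := rfl
  rw [h1]
  unfold T0
  congr 1
  · exact map_zero σ
  · exact map_zero σ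

lemma coc_coc (hb : b ≠ 0) (d : F) : IsCoc (WF a b) (coc F hb d) := by
  classical
  obtain ⟨s, hs⟩ := exists_root (F := F) d
  constructor
  · have h1 : coc F (a := a) hb d = (fun x : AlgebraicClosure F =>
        if x = s then (0 : Pt (WF a b) (AlgebraicClosure F)) else T0 F hb (AlgebraicClosure F)) ∘
        (fun σ : Gal F => σ s) := by
      funext σ
      show coc F hb d σ = if σ s = s then 0 else T0 F hb (AlgebraicClosure F)
      split_ifs with h2
      · exact (coc_eq hb hs σ).1 h2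
      · exact (coc_eq hb hs σ).2 h2
    rw [h1]
    exact (lc_apply s).comp _
  · intro σ τ
    have hm : (σ * τ) s = σ (τ s) := rfl
    rcases ap_sq hs τ with h1 | h1
    · rw [(coc_eq hb hs τ).1 h1, map_zero, add_zero]
      rw [h1] at hm
      by_cases h2 : σ s = s
      · rw [(coc_eq hb hs σ).1 h2, (coc_eq hb hs (σ * τ)).1 (hm.trans h2)]
      · rw [(coc_eq hb hs σ).2 h2, (coc_eq hb hs (σ * τ)).2 (by rw [hm]; exact h2)]
    · by_cases h0 : -s = s
      · rw [h0] at h1
        rw [(coc_eq hb hs τ).1 h1, map_zero, add_zero]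
        rw [h1] at hm
        by_cases h2 : σ s = s
        · rw [(coc_eq hb hs σ).1 h2, (coc_eq hb hs (σ * τ)).1 (hm.trans h2)]
        · rw [(coc_eq hb hs σ).2 h2, (coc_eq hb hs (σ * τ)).2 (by rw [hm]; exact h2)]
      · rw [(coc_eq hb hs τ).2 (by rw [h1]; exact h0), act_T0]
        rw [h1, map_neg] at hm
        by_cases h2 : σ s = s
        · rw [h2] at hm
          rw [(coc_eq hb hs σ).1 h2, (coc_eq hb hs (σ * τ)).2 (by rw [hm]; exact h0), zero_add]
        · have h3 : σ s = -s := (ap_sq hs σ).resolve_left h2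
          rw [h3, neg_neg] at hm
          rw [(coc_eq hb hs σ).2 h2, (coc_eq hb hs (σ * τ)).1 hm, T0_add]

lemma coc_two (hb : b ≠ 0) (d : F) : coc F (a := a) hb d + coc F hb d = 0 := by
  obtain ⟨s, hs⟩ := exists_root (F := F) d
  funext σ
  show coc F (a := a) hb d σ + coc F hb d σ = 0
  by_cases h1 : σ s = s
  · rw [(coc_eq hb hs σ).1 h1, add_zero]
  · rw [(coc_eq hb hs σ).2 h1, T0_add]

end Pool.Agent.R426.QC.Cv
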