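import Mathlib

/-!
# Euler products over the primes of a Dedekind domain
-/

set_option autoImplicit false
set_option linter.unusedSectionVars false

open Filter
open scoped Topology

namespace Pool.Agent.R426.QC

open IsDedekindDomain

/-- a completely multiplicative function on the ideals -/
structure CMI {R : Type} [CommRing R] (f : Ideal R → ℂ) : Prop where
  zero : f ⊥ = 0
  one : f ⊤ = 1
  mul : ∀ I J, f (I * J) = f I * f J
  summ : Summable f

section

variable {R : Type} [CommRing R] [IsDedekindDomain R]

/-- the nonzero ideals with prime divisors in `S` -/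
def inI (S : Finset (HeightOneSpectrum R)) (I : Ideal R) : Prop :=
  I ≠ ⊥ ∧ ∀ v : HeightOneSpectrum R, v.asIdeal ∣ I → v ∈ S

open Classical in
/-- the partial sums -/
noncomputable def PhI (f : Ideal R → ℂ) (S : Finset (HeightOneSpectrum R)) : ℂ :=
  ∑' I : Ideal R, if inI S I then f I else 0

theorem inI_empty (I : Ideal R) : inI ∅ I ↔ I = ⊤ := by
  constructor
  · rintro ⟨h1, h2⟩
    by_contra hne
    obtain ⟨M, hM, hIM⟩ := Ideal.exists_le_maximal I hne
    have hM0 : M ≠ ⊥ := by
      rintro rfl
      exact h1 (le_bot_iff.1 hIM)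
    exact absurd (h2 ⟨M, hM.isPrime, hM0⟩ (Ideal.dvd_iff_le.2 hIM)) (Finset.notMem_empty _)
  · rintro rfl
    refine ⟨?_, fun v hv => ?_⟩
    · intro h
      exact zero_ne_one (α := Ideal R) (by rw [Ideal.one_eq_top, h]; rfl)
    · exfalso
      have h1 := Ideal.dvd_iff_le.1 hv
      exact v.isPrime.ne_top (top_le_iff.1 h1)

theorem PhI_empty {f : Ideal R → ℂ} (hf : CMI f) : PhI f ∅ = 1 := by
  classical
  unfold PhI
  rw [tsum_eq_single ⊤]
  · rw [if_pos ((inI_empty ⊤).2 rfl), hf.one]
  · intro g hg
    rw [if_neg]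
    rwa [inI_empty]

/-- the sum over the multiples -/
lemma tsum_mult (v : HeightOneSpectrum R) (g : Ideal R → ℂ) :
    ∑' J : Ideal R, g (v.asIdeal * J) =
      open Classical in ∑' I : Ideal R, if v.asIdeal ∣ I then g I else 0 := by
  classical
  have hinj : Function.Injective (fun J : Ideal R => v.asIdeal * J) :=
    mul_right_injective₀ v.ne_bot
  have h1 := hinj.tsum_eq (f := fun I : Ideal R => if v.asIdeal ∣ I then g I else 0) (by
    intro I hI
    rw [Function.mem_support] at hI
    have h2 : v.asIdeal ∣ I := by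
      by_contra h
      exact hI (if_neg h)
    obtain ⟨J, hJ⟩ := h2
    exact ⟨J, hJ.symm⟩)
  rw [← h1]
  refine tsum_congr fun J => ?_
  rw [if_pos (dvd_mul_right _ _)]

theorem PhI_insert {f : Ideal R → ℂ} (hf : CMI f) {S : Finset (HeightOneSpectrum R)}
    [DecidableEq (HeightOneSpectrum R)] {q : HeightOneSpectrum R}
    (hqS : q ∉ S) : PhI f (insert q S) * (1 - f q.asIdeal) = PhI f S := by
  classical
  set S' := insert q S with hS'
  have hs : Summable (fun g : Ideal R => if inI S' g then f g else 0) :=
    Summable.of_norm_bounded hf.summ.norm fun g => by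
      split_ifs
      · exact le_rfl
      · rw [norm_zero]; exact norm_nonneg _
  have h1 := tsum_mult q (fun g : Ideal R => if inI S' g then f g else 0)
  have hiff : ∀ β : Ideal R, inI S' (q.asIdeal * β) ↔ inI S' β := by
    intro β
    unfold inI
    have h0 : q.asIdeal * β ≠ ⊥ ↔ β ≠ ⊥ := by
      rw [not_iff_not]
      constructor
      · intro h
        exact (Ideal.mul_eq_bot.1 h).resolve_left q.ne_bot
      · rintro rfl
        exact Ideal.mul_bot _
    rw [h0]
    refine and_congr Iff.rfl ⟨fun h r hrb => h r (hrb.mul_left _), fun h r hrb => ?_⟩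
    have hr : Prime r.asIdeal := r.prime
    rcases hr.dvd_or_dvd hrb with h2 | h2
    · have h3 : q.asIdeal ≤ r.asIdeal := Ideal.dvd_iff_le.1 h2
      have h4 : q = r := HeightOneSpectrum.ext (q.isMaximal.eq_of_le r.isPrime.ne_top h3)
      rw [← h4]
      exact Finset.mem_insert_self _ _
    · exact h r h2
  have h2 : ∀ β : Ideal R, (if inI S' (q.asIdeal * β) then f (q.asIdeal * β) else 0) =
      f q.asIdeal * (if inI S' β then f β else 0) := by
    intro β
    simp only [hiff β]
    split_ifs
    · exact hf.mul q.asIdeal β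
    · rw [mul_zero]
  rw [tsum_congr h2, tsum_mul_left] at h1
  have h3 : PhI f S = ∑' g : Ideal R, ((if inI S' g then f g else 0) -
      (if q.asIdeal ∣ g then (if inI S' g then f g else 0) else 0)) := by
    unfold PhI
    refine tsum_congr fun g => ?_
    have hiff2 : inI S g ↔ inI S' g ∧ ¬ q.asIdeal ∣ g := by
      unfold inI
      constructor
      · rintro ⟨a, b⟩
        exact ⟨⟨a, fun r hrg => Finset.mem_insert_of_mem (b r hrg)⟩,
          fun h => hqS (b q h)⟩
      · rintro ⟨⟨a, b⟩, c⟩
        refine ⟨a, fun r hrg => ?_⟩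
        rcases Finset.mem_insert.1 (b r hrg) with h | h
        · rw [h] at hrg; exact absurd hrg c
        · exact h
    by_cases hd : q.asIdeal ∣ g
    · rw [if_pos hd, sub_self, if_neg (fun h => (hiff2.1 h).2 hd)]
    · rw [if_neg hd, sub_zero]
      by_cases hn : inI S' g
      · rw [if_pos hn, if_pos (hiff2.2 ⟨hn, hd⟩)]
      · rw [if_neg hn, if_neg (fun h => hn (hiff2.1 h).1)]
  rw [h3, hs.tsum_sub, ← h1]
  · unfold PhI
    ring
  · refine Summable.of_norm_bounded hs.norm fun g => ?_
    split_ifs <;> simp

theorem PhI_prod {f : Ideal R → ℂ} (hf : CMI f) (S : Finset (HeightOneSpectrum R)) :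
    ∏ p ∈ S, (1 - f p.asIdeal)⁻¹ = PhI f S := by
  classical
  have hne : ∀ q : HeightOneSpectrum R, 1 - f q.asIdeal ≠ 0 := by
    intro q h
    have h1 := PhI_insert hf (Finset.notMem_empty q)
    rw [h, mul_zero, PhI_empty hf] at h1
    exact zero_ne_one h1
  induction S using Finset.induction_on with
  | empty => rw [Finset.prod_empty, PhI_empty hf]
  | insert q S hq ih =>
    rw [Finset.prod_insert hq, ih, ← PhI_insert hf hq]
    have := hne q
    field_simp

/-- the Euler product -/
theorem hasProdI {f : Ideal R → ℂ} (hf : CMI f) :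
    HasProd (fun v : HeightOneSpectrum R => (1 - f v.asIdeal)⁻¹) (∑' I : Ideal R, f I) := by
  classical
  have h2 : Tendsto (fun s : Finset (HeightOneSpectrum R) => ∏ q ∈ s, (1 - f q.asIdeal)⁻¹) atTop
      (𝓝 (∑' g : Ideal R, f g)) := by
    simp only [PhI_prod hf]
    unfold PhI
    refine tendsto_tsum_of_dominated_convergence (bound := fun g => ‖f g‖) hf.summ.norm ?_ ?_
    · intro g
      by_cases hg : g = ⊥
      · rw [hg, hf.zero]
        simp
      · have hfin : {v : HeightOneSpectrum R | v.asIdeal ∣ g}.Finite := Ideal.finite_factors hg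
        refine tendsto_const_nhds.congr' ?_
        filter_upwards [eventually_ge_atTop hfin.toFinset] with s hs
        rw [if_pos]
        refine ⟨hg, fun q hqg => ?_⟩
        exact hs ((Set.Finite.mem_toFinset _).2 hqg)
    · refine Eventually.of_forall fun s g => ?_
      split_ifs
      · exact le_rfl
      · rw [norm_zero]; exact norm_nonneg _
  exact h2

/-- transport along an isomorphism -/
theorem CMI.trans {R' : Type} [CommRing R'] [IsDedekindDomain R'] (e : R ≃+* R') {f : Ideal R → ℂ}
    (hf : CMI f) : CMI (fun I : Ideal R' => f (Ideal.map (e.symm : R' →+* R) I)) ∧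
      ∑' I : Ideal R', f (Ideal.map (e.symm : R' →+* R) I) = ∑' I : Ideal R, f I := by
  let E : Ideal R' ≃ Ideal R :=
    { toFun := fun I => Ideal.map (e.symm : R' →+* R) I
      invFun := fun I => Ideal.map (e : R →+* R') I
      left_inv := fun I => by
        show Ideal.map (e : R →+* R') (Ideal.map (e.symm : R' →+* R) I) = I
        rw [Ideal.map_map, RingEquiv.comp_symm, Ideal.map_id]
      right_inv := fun I => by
        show Ideal.map (e.symm : R' →+* R) (Ideal.map (e : R →+* R') I) = I
        rw [Ideal.map_map, RingEquiv.symm_comp, Ideal.map_id] }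
  refine ⟨⟨?_, ?_, fun I J => ?_, ?_⟩, E.tsum_eq f⟩
  · show f (Ideal.map _ ⊥) = 0
    rw [Ideal.map_bot, hf.zero]
  · show f (Ideal.map _ ⊤) = 1
    rw [Ideal.map_top, hf.one]
  · show f (Ideal.map _ (I * J)) = _
    rw [Ideal.map_mul, hf.mul]
  · exact (E.summable_iff (f := f)).2 hf.summ

end

end Pool.Agent.R426.QC
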