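import Pool.Agent.R426.QC.Rec2
import Pool.Agent.Y698.Cls

/-!
# The field `ℚ(√-7)`, its ring of integers and its places
-/

set_option autoImplicit false
set_option linter.unusedSectionVars false

open NumberField IsDedekindDomain

namespace Pool.Agent.R426.QC

open Pool.Agent.Y698
open H667R3 Pool.Agent.W192.HK Pool.Agent.TH936.CM Pool.Agent.TH936.PU

section

variable {K : Type} [Field K] [NumberField K] {a : K}

/-- rational coordinates -/
theorem rat_coord (ha : a ^ 2 = a - 2) (hK : Module.finrank ℚ K = 2) (x : K) :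
    ∃ u v : ℚ, x = u + v * a := by
  have hli : LinearIndependent ℚ ![(1 : K), a] := by
    rw [LinearIndependent.pair_iff]
    intro s t hst
    have h1 : (s : K) + (t : K) * a = 0 := by
      rw [Rat.smul_def, Rat.smul_def, mul_one] at hst
      exact hst
    by_cases ht : t = 0
    · rw [ht, Rat.cast_zero, zero_mul, add_zero] at h1
      exact ⟨by exact_mod_cast h1, ht⟩
    · exfalso
      have ht' : (t : K) ≠ 0 := by exact_mod_cast ht
      have h2 : a = ((-s / t : ℚ) : K) := by
        push_cast
        field_simp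
        linear_combination h1
      rw [h2] at ha
      have h3 : (-s / t) ^ 2 = (-s / t) - 2 := by exact_mod_cast ha
      nlinarith [sq_nonneg (2 * (-s / t) - 1)]
  have hsp := hli.span_eq_top_of_card_eq_finrank (by simp [hK])
  have hx : x ∈ Submodule.span ℚ (Set.range ![(1 : K), a]) := by rw [hsp]; trivial
  have hr : Set.range ![(1 : K), a] = {1, a} := by
    simp [Matrix.range_cons, Matrix.range_empty, Set.pair_comm]
  rw [hr, Submodule.mem_span_pair] at hx
  obtain ⟨u, v, h⟩ := hx
  refine ⟨u, v, ?_⟩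
  rw [← h, Rat.smul_def, Rat.smul_def, mul_one]

/-- **the ring of integers** -/
theorem exists_iso (ha : a ^ 2 = a - 2) (hK : Module.finrank ℚ K = 2) :
    ∃ e : RR ≃+* 𝓞 K, ∀ x, algebraMap (𝓞 K) K (e x) = ev a ha x := by
  have hai : IsIntegral ℤ a := by
    refine ⟨Polynomial.X ^ 2 - Polynomial.X + Polynomial.C 2, ?_, ?_⟩
    · monicity!
    · simp only [Polynomial.eval₂_add, Polynomial.eval₂_sub, Polynomial.eval₂_pow,
        Polynomial.eval₂_X, Polynomial.eval₂_C]
      rw [ha]
      simp
  set a' : 𝓞 K := ⟨a, hai⟩ with ha'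
  have hh : algebraMap (𝓞 K) K a' = a := rfl
  have haa : a' ^ 2 = a' - 2 := by
    apply FaithfulSMul.algebraMap_injective (𝓞 K) K
    rw [map_pow, map_sub, map_ofNat, hh]
    exact ha
  have hcomp : ∀ x, algebraMap (𝓞 K) K (ev a' haa x) = ev a ha x := by
    intro x
    rw [ev_apply, ev_apply, map_add, map_mul, map_intCast, map_intCast, hh]
  have hinj : Function.Injective (ev a' haa) := by
    intro x y h
    apply ev_inj ha
    rw [← hcomp, ← hcomp, h]
  have hsurj : Function.Surjective (ev a' haa) := by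
    intro x
    let _ : Algebra RR K := (ev a ha).toAlgebra
    have hmap : ∀ y : RR, algebraMap RR K y = ev a ha y := fun y => rfl
    have i1 : FaithfulSMul RR K := by
      rw [faithfulSMul_iff_algebraMap_injective]
      exact ev_inj ha
    have i2 : IsFractionRing RR K := by
      refine IsFractionRing.of_field RR K fun z => ?_
      obtain ⟨u, v, rfl⟩ := rat_coord ha hK z
      have h1 : (u.den : K) ≠ 0 := by exact_mod_cast u.den_nz
      have h2 : (v.den : K) ≠ 0 := by exact_mod_cast v.den_nz
      refine ⟨((u.num * v.den : ℤ) : RR) + ((v.num * u.den : ℤ) : RR) * aR,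
        ((u.den * v.den : ℤ) : RR), ?_⟩
      rw [hmap, hmap, map_add, map_mul, map_intCast, map_intCast, map_intCast, ev_aR]
      have e1 : (u : K) = u.num / u.den := by
        conv_lhs => rw [← Rat.num_div_den u]
        push_cast
        rfl
      have e2 : (v : K) = v.num / v.den := by
        conv_lhs => rw [← Rat.num_div_den v]
        push_cast
        rfl
      rw [e1, e2]
      push_cast
      field_simp
    have h3 : IsIntegral RR ((algebraMap (𝓞 K) K) x) := (RingOfIntegers.isIntegral_coe x).tower_top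
    obtain ⟨y, hy⟩ := IsIntegrallyClosed.isIntegral_iff.1 h3
    refine ⟨y, ?_⟩
    apply FaithfulSMul.algebraMap_injective (𝓞 K) K
    rw [hcomp, ← hy]
    rfl
  exact ⟨RingEquiv.ofBijective (ev a' haa) ⟨hinj, hsurj⟩, hcomp⟩

end

section

variable {K : Type} [Field K] [NumberField K] (e : RR ≃+* 𝓞 K)

/-- the embedding of the ring -/
noncomputable def em : RR →+* K := (algebraMap (𝓞 K) K).comp (e : RR →+* 𝓞 K)

lemma em_apply (x : RR) : em e x = algebraMap (𝓞 K) K (e x) := rfl

lemma em_inj : Function.Injective (em e) :=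
  (FaithfulSMul.algebraMap_injective (𝓞 K) K).comp e.injective

lemma em_ne {x : RR} (h : x ≠ 0) : em e x ≠ 0 := (map_ne_zero_iff _ (em_inj e)).2 h

/-- the place of a prime element -/
noncomputable def plc {z : RR} (hz : Prime z) : HeightOneSpectrum (𝓞 K) where
  asIdeal := Ideal.span {e z}
  isPrime := by
    have h1 : Prime (e z) := (MulEquiv.prime_iff e.toMulEquiv).2 hz
    exact (Ideal.span_singleton_prime h1.ne_zero).2 h1
  ne_bot := by
    have h1 : Prime (e z) := (MulEquiv.prime_iff e.toMulEquiv).2 hz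
    rw [Ne, Ideal.span_singleton_eq_bot]; exact h1.ne_zero

lemma mem_span_e (z x : RR) : e x ∈ Ideal.span {e z} ↔ z ∣ x := by
  rw [Ideal.mem_span_singleton]
  constructor
  · intro h
    have := map_dvd e.symm h
    simpa using this
  · exact fun h => map_dvd e h

lemma plc_mem {z : RR} (hz : Prime z) (x : RR) : e x ∈ (plc e hz).asIdeal ↔ z ∣ x :=
  mem_span_e e z x

/-- every place is the place of a prime element -/
lemma exists_plc (v : HeightOneSpectrum (𝓞 K)) : ∃ (z : RR) (hz : Prime z), plc e hz = v := by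
  set I : Ideal RR := v.asIdeal.comap (e : RR →+* 𝓞 K) with hI
  obtain ⟨z, hz⟩ := exists_gen I
  have hv : v.asIdeal = Ideal.span {e z} := by
    apply Ideal.ext
    intro y
    obtain ⟨x, rfl⟩ := e.surjective y
    have h1 : x ∈ I ↔ e x ∈ v.asIdeal := Iff.rfl
    rw [mem_span_e, ← Ideal.mem_span_singleton, ← h1]
    rw [hz]
  have hz0 : e z ≠ 0 := by
    intro h0
    apply v.ne_bot
    rw [hv, h0]
    simp
  have hpr : Prime (e z) := by
    rw [← Ideal.span_singleton_prime hz0, ← hv]
    exact v.isPrime
  have hz' : Prime z := (MulEquiv.prime_iff e.toMulEquiv).1 hpr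
  refine ⟨z, hz', ?_⟩
  apply HeightOneSpectrum.ext
  exact hv.symm

lemma plc_eq {z w : RR} (hz : Prime z) (hw : Prime w) : plc e hz = plc e hw ↔ Associated z w := by
  constructor
  · intro h
    have h1 : e z ∈ (plc e hw).asIdeal := by
      rw [← h]
      exact Ideal.mem_span_singleton_self _
    rw [plc_mem] at h1
    exact (hw.irreducible.associated_of_dvd hz.irreducible h1).symm
  · intro h
    apply HeightOneSpectrum.ext
    show Ideal.span {e z} = Ideal.span {e w}
    rw [Ideal.span_singleton_eq_span_singleton]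
    exact h.map e

lemma val_lt {z : RR} (hz : Prime z) (x : RR) : (plc e hz).valuation K (em e x) < 1 ↔ z ∣ x := by
  rw [em_apply, HeightOneSpectrum.valuation_lt_one_iff_mem, plc_mem]

lemma val_le {z : RR} (hz : Prime z) (x : RR) : (plc e hz).valuation K (em e x) ≤ 1 :=
  HeightOneSpectrum.valuation_le_one _ _

lemma val_one' {z : RR} (hz : Prime z) {x : RR} (h : ¬ z ∣ x) :
    (plc e hz).valuation K (em e x) = 1 :=
  le_antisymm (val_le e hz x) (not_lt.1 (fun h' => h ((val_lt e hz x).1 h')))

lemma val_z {z : RR} (hz : Prime z) : (plc e hz).valuation K (em e z) = WithZero.exp (-1 : ℤ) := by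
  rw [em_apply, HeightOneSpectrum.valuation_of_algebraMap]
  exact HeightOneSpectrum.intValuation_singleton _ ((map_ne_zero_iff e e.injective).2 hz.ne_zero) rfl

lemma val_mul1 {z : RR} (hz : Prime z) {x c : RR} (h : x = z * c) (hc : ¬ z ∣ c) :
    (plc e hz).valuation K (em e x) = WithZero.exp (-1 : ℤ) := by
  rw [h, map_mul, map_mul, val_one' e hz hc, mul_one, val_z e hz]

lemma val_sqf {z : RR} (hz : Prime z) {d : RR} (hd : Squarefree d) (h : z ∣ d) :
    (plc e hz).valuation K (em e d) = WithZero.exp (-1 : ℤ) := by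
  obtain ⟨c, rfl⟩ := h
  refine val_mul1 e hz rfl ?_
  rintro ⟨c', rfl⟩
  exact hz.not_isUnit (hd z ⟨c', by ring⟩)

/-- the number of residue classes -/
lemma card_plc {z : RR} (hz : Prime z) : (Nat.card (𝓞 K ⧸ (plc e hz).asIdeal) : ℤ) = nR z := by
  have h1 : Nat.card (𝓞 K ⧸ (plc e hz).asIdeal) = Nat.card (RR ⧸ sp z) := by
    refine Nat.card_congr (Ideal.quotientEquiv (sp z) (plc e hz).asIdeal e ?_).symm.toEquiv
    show Ideal.span {e z} = Ideal.map (e : RR →+* 𝓞 K) (Ideal.span {z})
    rw [Ideal.map_span, Set.image_singleton]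
    rfl
  rw [h1]
  have h2 := nm_nI (sp z)
  rw [nI_sp] at h2
  unfold nm at h2
  have h3 : Nat.card (RR ⧸ sp z) = (nR z).natAbs := by exact_mod_cast h2
  rw [h3]
  exact Int.natAbs_of_nonneg (nR_nonneg z)

end

end Pool.Agent.R426.QC
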