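import Pool.Agent.R426.QC.Rec
import Pool.Agent.Y698.SG.Wo
import Pool.Agent.Y698.Wc

/-!
# The quadratic characters of the ideals of `ℤ[(1 + √-7) / 2]`
-/

set_option autoImplicit false
set_option linter.unusedSectionVars false

open Filter
open scoped Topology PeriodPair

namespace Pool.Agent.R426.QC

open Pool.Agent.Y698 Pool.Agent.Y698.SG
open H667R3 Pool.Agent.W192.HK Pool.Agent.TH936.CM Pool.Agent.TH936.PU
open Pool.Agent.W192.CM (nu)

/-- the residue symbol as a character of the ideals -/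
noncomputable def Xs (ϖ : RR) (I : Ideal RR) : ℂ := sy ϖ (Submodule.IsPrincipal.generator I)

lemma sy_neg {ϖ : RR} (h : PD ϖ) (x : RR) : sy ϖ (-x) = sy ϖ x := by
  have h1 := h.mul (-1) x
  rwa [h.neg, one_mul, neg_one_mul] at h1

lemma sy_one' {ϖ : RR} (h : PD ϖ) : sy ϖ 1 = 1 := by
  unfold sy
  rw [if_neg, if_pos ⟨1, by rw [map_one, mul_one]⟩]
  rw [Ideal.mem_span_singleton]
  exact fun h1 => h.pr.not_isUnit (isUnit_of_dvd_one h1)

lemma Xs_sp {ϖ : RR} (h : PD ϖ) (g : RR) : Xs ϖ (sp g) = sy ϖ g := by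
  unfold Xs
  have h1 : sp (Submodule.IsPrincipal.generator (sp g)) = sp g :=
    Submodule.IsPrincipal.span_singleton_generator _
  rcases sp_eq h1 with h2 | h2
  · rw [h2]
  · rw [h2, sy_neg h]

lemma two_notin {ϖ : RR} (h : PD ϖ) : (2 : RR) ∉ sp ϖ := by
  intro h2
  obtain ⟨u, hu⟩ := h.m4
  apply h.pr.not_isUnit
  rw [Ideal.mem_span_singleton] at h2
  have h1 : ϖ ∣ 1 := by
    have e : (1 : RR) = ϖ - 2 * (2 * u) := by
      linear_combination -hu
    rw [e]
    exact dvd_sub dvd_rfl (h2.mul_right _)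
  exact isUnit_of_dvd_one h1

/-- there are nonsquares -/
lemma exists_nonsq {ϖ : RR} (h : PD ϖ) : ∃ x : RR, x ≠ 0 ∧ sy ϖ x = -1 := by
  have hmax := maximal_sp h.pr.irreducible
  have hf := fin_quot h.pr.ne_zero
  let _ : Fintype (RR ⧸ sp ϖ) := Fintype.ofFinite _
  let _ : Field (RR ⧸ sp ϖ) := Ideal.Quotient.field _
  have h2 : ringChar (RR ⧸ sp ϖ) ≠ 2 := by
    intro h2
    have h3 : ((2 : ℕ) : RR ⧸ sp ϖ) = 0 := by
      rw [← h2]
      exact ringChar.Nat.cast_ringChar
    apply two_notin h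
    rw [← Ideal.Quotient.eq_zero_iff_mem]
    have h4 : Ideal.Quotient.mk (sp ϖ) (2 : RR) = ((2 : ℕ) : RR ⧸ sp ϖ) := by
      rw [map_ofNat]
      norm_num
    rw [h4, h3]
  obtain ⟨y, hy⟩ := FiniteField.exists_nonsquare h2
  obtain ⟨x, rfl⟩ := Ideal.Quotient.mk_surjective y
  have hx : x ∉ sp ϖ := by
    intro hx
    apply hy
    rw [Ideal.Quotient.eq_zero_iff_mem.2 hx]
    exact ⟨0, by ring⟩
  refine ⟨x, fun h0 => hx (by rw [h0]; exact Submodule.zero_mem _), ?_⟩
  unfold sy
  rw [if_neg hx, if_neg hy]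

theorem Xs_HC {ϖ : RR} (h : PD ϖ) : HC 0 (sp ϖ) (Xs ϖ) := by
  have hirr := h.pr.irreducible
  refine ⟨?_, ?_, ?_, ?_, ?_⟩
  · rw [Ne, Ideal.span_singleton_eq_bot]
    exact h.pr.ne_zero
  · intro I J
    obtain ⟨g, rfl⟩ := exists_gen I
    obtain ⟨g', rfl⟩ := exists_gen J
    rw [Ideal.span_singleton_mul_span_singleton, Xs_sp h, Xs_sp h, Xs_sp h, h.mul]
  · intro I
    obtain ⟨g, rfl⟩ := exists_gen I
    rw [Xs_sp h, sy_zero_iff, not_coprime_iff hirr, Ideal.span_singleton_eq_bot]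
    constructor
    · exact fun h1 => Or.inr h1
    · rintro (rfl | h1)
      · exact Submodule.zero_mem _
      · exact h1
  · intro α _ h1
    rw [Xs_sp h, pow_zero, sy_per ϖ α 1 h1, sy_one' h]
  · intro q' hq'
    have htop : q' = ⊤ := (maximal_sp hirr).out.2 _ hq'
    obtain ⟨x, hx0, hx⟩ := exists_nonsq h
    refine ⟨x, hx0, by rw [htop]; trivial, ?_, ?_⟩
    · by_contra h1
      rw [not_coprime_iff hirr, ← sy_zero_iff, hx] at h1
      norm_num at h1
    · rw [Xs_sp h, hx, pow_zero]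
      norm_num

/-- the product of the characters -/
theorem prod_Xs {ι : Type} {S : Finset ι} {π : ι → RR} (hS : Fam S π) (hne : S.Nonempty) :
    HC 0 (sp (∏ i ∈ S, π i)) (fun I => ∏ i ∈ S, Xs (π i) I) := by
  classical
  have hbasic := Pool.Agent.W287.HK.h_basic
  have hcls := Pool.Agent.W571.HK.h_cls hbasic
  have hfp := Pool.Agent.W53.HK.h_fp hbasic hcls
  have hprod := Pool.Agent.W29.HK.h_prod hbasic hfp
  induction hne using Finset.Nonempty.cons_induction with
  | singleton a =>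
    simp only [Finset.prod_singleton]
    exact Xs_HC (hS.pd a (Finset.mem_singleton_self a))
  | cons a S ha hne ih =>
    have hS' : Fam S π := hS.mono (Finset.subset_cons ha)
    have ih' := ih hS'
    have haS := hS.pd a (Finset.mem_cons_self a S)
    have hcop : IsCoprime (sp (∏ i ∈ S, π i)) (sp (π a)) := by
      rw [Ideal.isCoprime_span_singleton_iff]
      refine IsCoprime.prod_left fun i hi => ?_
      have h1 : π i ∉ sp (π a) := hS.ne i (Finset.mem_cons_of_mem hi) a (Finset.mem_cons_self a S)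
        (fun h => ha (h ▸ hi))
      rw [← Ideal.isCoprime_span_singleton_iff]
      by_contra h2
      rw [not_coprime_iff haS.pr.irreducible] at h2
      exact h1 h2
    have h3 := hprod RR al qr 0 _ _ _ _ ih' (Xs_HC haS) hcop
    rw [Ideal.span_singleton_mul_span_singleton] at h3
    convert h3 using 1
    · rw [Finset.prod_cons, mul_comm]
    · funext I
      rw [Finset.prod_cons, mul_comm]

end Pool.Agent.R426.QC
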