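import Pool.Agent.Y698.Trd
import Pool.Agent.Y682.Glob
import Pool.Agent.Y682.Lcl

/-!
# Local conditions for the 2-descent on the twists by elements of `ℚ(√-7)`
-/

set_option autoImplicit false
set_option linter.unusedSectionVars false

attribute [-instance] DivisionRing.toRatAlgebra

namespace Pool.Agent.R426.QC

open Pool.Agent.Y698
open IsDedekindDomain NumberField WithZero
open Pool.Agent.Y682 (S1 S2)

section field

variable {F : Type} [Field F] [CharZero F] {w : Valuation F ℤᵐ⁰} {a D : F}

/-- the local conditions -/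
def LCE (w : Valuation F ℤᵐ⁰) (a D d : F) : Prop :=
  (w D = 1 → LC w a d) ∧ (w D < 1 → Sq w d ∨ Sq w (D * (2 * a - 1) * d))

/-- the hypotheses -/
structure LH (w : Valuation F ℤᵐ⁰) (D : F) : Prop where
  h7 : w 7 = 1
  hun : w 2 < 1 → w 2 = exp (-1)
  h4 : w (D - 1) ≤ w 4
  h0 : D ≠ 0
  hD : w D < 1 → w D = exp (-1)

lemma LCE.sqE (ha : a ^ 2 = a - 2) {d d' : F} (h : LCE w a D d') (h' : SqE d d') : LCE w a D d := by
  refine ⟨fun h1 => (h.1 h1).sqE ha h', fun h1 => ?_⟩
  rcases h.2 h1 with h2 | h2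
  · exact Or.inl (h2.sqE h')
  · exact Or.inr (h2.sqE ((SqE.refl _).mul h'))

lemma LCE.one : LCE w a D 1 :=
  ⟨fun _ => LC.one, fun _ => Or.inl (by
    have := Sq.sq (w := w) (z := (1 : F)) one_ne_zero
    rwa [one_pow] at this)⟩

lemma LCE.sq (ha : a ^ 2 = a - 2) {z : F} (hz : z ≠ 0) : LCE w a D (z ^ 2) :=
  LCE.one.sqE ha ⟨z, hz, by rw [one_mul]⟩

lemma LH.ur (H : LH w D) : Ur w D :=
  ⟨1, one_ne_zero, by rw [one_pow, map_one, one_pow, mul_one]; exact H.h4⟩

lemma LCE.s (ha : a ^ 2 = a - 2) (H : LH w D) : LCE w a D (D * (2 * a - 1)) := by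
  refine ⟨fun h1 => ?_, fun h1 => ?_⟩
  · have h2 := LC.s ha H.h7
    refine ⟨⟨1, one_ne_zero, by rw [map_mul, h1, w_s_one ha H.h7, one_mul, map_one, one_pow]⟩,
      fun hb => H.ur.mul (two_lt' ha hb) (h2.2 hb)⟩
  · right
    have h2 : D * (2 * a - 1) ≠ 0 := mul_ne_zero H.h0 (s_ne ha)
    have := Sq.sq (w := w) h2
    rwa [pow_two] at this

lemma LH.two (H : LH w D) (h : w D < 1) : w 2 = 1 := by
  have h1 := H.h4
  by_contra h2
  have h2' : w 2 < 1 := lt_of_le_of_ne w_two_le h2
  have h3 : w (1 : F) < 1 := by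
    have e : (1 : F) = D - (D - 1) := by ring
    rw [e]
    exact Valuation.map_sub_lt w h (h1.trans_lt (w_four_lt h2'))
  rw [map_one] at h3
  exact lt_irrefl _ h3

/-- the local conditions for points -/
lemma LCE.pt (ha : a ^ 2 = a - 2) (H : LH w D) {x y : F}
    (hy : y ≠ 0) (h : y ^ 2 = x * (x - D * eA a) * (x - D * eB a)) :
    LCE w a D (x - D * eB a) := by
  refine ⟨fun hD => ?_, fun hD => ?_⟩
  · have hw4 := H.h4
    by_cases h2 : w 2 = 1
    · refine ⟨ev_oddD ha hD h2 H.h7 hy h, fun hb => ?_⟩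
      have := two_lt' ha hb
      rw [h2] at this
      exact absurd this (lt_irrefl _)
    · have h2' : w 2 < 1 := lt_of_le_of_ne w_two_le h2
      have h2e : w 2 = exp (-1) := H.hun h2'
      have hab : w a * w (1 - a) = exp (-1) := by
        rw [← map_mul, ab_eq ha, h2e]
      by_cases hwa : w a = 1
      · have hU := ur_twoD ha hD hw4 h2' H.h7 hwa hy h
        exact ⟨hU.ev h2', fun _ => hU⟩
      · have hb1 : w (1 - a) = 1 := by
          have ha0 : a ≠ 0 := by
            rintro rfl
            rw [map_zero, zero_mul] at hab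
            exact exp_ne_zero hab.symm
          have hb0 : (1 - a) ≠ 0 := by
            intro h0
            rw [h0, map_zero, mul_zero] at hab
            exact exp_ne_zero hab.symm
          obtain ⟨m, hm⟩ := vexp (w := w) ha0
          obtain ⟨k, hk⟩ := vexp (w := w) hb0
          have h1 := wa_le (w := w) ha
          have h3 := wa_le (w := w) (ha_conj ha)
          rw [hm] at h1 hwa hab
          rw [hk] at h3 hab
          rw [← exp_add, exp_inj] at hab
          rw [← exp_zero, exp_le_exp] at h1 h3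
          rw [← exp_zero, exp_inj] at hwa
          rw [hk, ← exp_zero, exp_inj]
          omega
        refine ⟨ev_twoD ha hD hw4 h2e H.h7 hb1 hy h, fun hb => ?_⟩
        rw [hb1] at hb
        exact absurd hb (lt_irrefl _)
  · exact sq_D ha (H.hD hD) (H.two hD) H.h7 hy h

lemma a_ne (ha : a ^ 2 = a - 2) : a ≠ 0 := by
  rintro rfl
  norm_num at ha

/-- the first coefficient -/
def cA {F : Type} [Field F] (a D : F) : F := D * (2 * eB a - eA a)

/-- the second coefficient -/
def cB {F : Type} [Field F] (a D : F) : F := D ^ 2 * (eB a * (eB a - eA a))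

lemma cB_eq (ha : a ^ 2 = a - 2) : cB a D = (D * (2 * a - 1) * a ^ 2) ^ 2 := by
  unfold cB
  rw [← neg_sub (eA a) (eB a), eA_sub ha]
  unfold eB
  ring

lemma cD_eq : cA a D ^ 2 - 4 * cB a D = (D * eA a) ^ 2 := by
  unfold cA cB
  ring

/-- the first kind of classes -/
lemma LCE.of1 (ha : a ^ 2 = a - 2) (H : LH w D) {m : F} (h : S1 (cA a D) (cB a D) m) :
    LCE w a D m := by
  have hs0 : 2 * a - 1 ≠ 0 := s_ne ha
  have ha0 := a_ne ha
  rcases h with h | h | ⟨hm, y, hy⟩
  · rw [h]; exact LCE.one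
  · rw [h, cB_eq ha]
    exact LCE.sq ha (mul_ne_zero (mul_ne_zero H.h0 hs0) (pow_ne_zero 2 ha0))
  · by_cases hy0 : y = 0
    · rw [hy0] at hy
      have h1 : m * ((m + D * eB a) * (m + D * (eB a - eA a))) = 0 := by
        have e1 : m * ((m + D * eB a) * (m + D * (eB a - eA a))) =
          m * (m ^ 2 + cA a D * m + cB a D) := by
          unfold cA cB
          ring
        rw [e1, ← hy]
        ring
      rcases mul_eq_zero.1 h1 with h2 | h2
      · exact absurd h2 hm
      rcases mul_eq_zero.1 h2 with h3 | h3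
      · refine (LCE.s ha H).sqE ha ⟨a ^ 2, pow_ne_zero 2 ha0, ?_⟩
        rw [eq_neg_of_add_eq_zero_left h3]
        unfold eB
        ring
      · refine (LCE.s ha H).sqE ha ⟨1, one_ne_zero, ?_⟩
        rw [eq_neg_of_add_eq_zero_left h3]
        have := eA_sub ha
        linear_combination D * this
    · have h1 := LCE.pt (w := w) (x := m + D * eB a) ha H hy0 (by
        rw [hy]
        unfold cA cB
        ring)
      rwa [add_sub_cancel_right] at h1

/-- the second kind of classes -/
lemma LCE.of2 (ha : a ^ 2 = a - 2) (H : LH w D) {m : F} (h : S2 (cA a D) (cB a D) m) :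
    LCE w (1 - a) D m := by
  have ha' := ha_conj ha
  have hb0 := a_ne ha'
  have hab := ab_eq ha
  have he : eA a ≠ 0 := by
    unfold eA
    exact mul_ne_zero (s_ne ha) (pow_ne_zero 4 hb0)
  rcases h with h | h | ⟨hm, y, hy⟩
  · rw [h]; exact LCE.one
  · rw [h, cD_eq]
    exact LCE.sq ha' (mul_ne_zero H.h0 he)
  · refine LCE.sqE ha' (d' := m / (1 - a) ^ 2) ?_ ⟨1 - a, hb0, ?_⟩
    · refine LCE.of1 ha' H (Or.inr (Or.inr ⟨div_ne_zero hm (pow_ne_zero 2 hb0),
        y / (1 - a) ^ 3, ?_⟩))
      have k1 : cA (1 - a) D * (1 - a) ^ 2 = -2 * cA a D := by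
        unfold cA
        rw [eA_conj, eB_conj]
        unfold eA eB
        linear_combination (D * (2 * a - 1) * (3 * a ^ 4 - 11 * a ^ 3 + 8 * a ^ 2 - 2 * a)) * ha
      have k2 : cB (1 - a) D * (1 - a) ^ 4 = cA a D ^ 2 - 4 * cB a D := by
        rw [cB_eq ha', cD_eq]
        unfold eA
        ring
      rw [div_pow, hy]
      field_simp
      linear_combination (-m) * k1 - k2
    · field_simp

end field

section place

variable {F : Type} [Field F] [NumberField F] (P : HeightOneSpectrum (𝓞 F))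

lemma LCE.down {a D q : F} (h : LCE (Valued.v : Valuation (P.adicCompletion F) ℤᵐ⁰)
    (algebraMap F (P.adicCompletion F) a) (algebraMap F (P.adicCompletion F) D)
    (algebraMap F (P.adicCompletion F) q)) :
    LCE (P.valuation F) a D q := by
  refine ⟨fun h1 => (h.1 (by rw [valued_algebraMap]; exact h1)).down P, fun h1 => ?_⟩
  rcases h.2 (by rw [valued_algebraMap]; exact h1) with h2 | h2
  · exact Or.inl (h2.down P)
  · right
    apply Sq.down P
    rw [map_mul, map_mul, map_sub, map_mul, map_ofNat, map_one]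
    exact h2

lemma LH.up {D : F} (h : LH (P.valuation F) D) :
    LH (Valued.v : Valuation (P.adicCompletion F) ℤᵐ⁰) (algebraMap F (P.adicCompletion F) D) := by
  have e : ∀ n : ℕ, (Valued.v : Valuation (P.adicCompletion F) ℤᵐ⁰) (n : P.adicCompletion F) =
      P.valuation F (n : F) := by
    intro m
    have e : (m : P.adicCompletion F) = algebraMap F _ (m : F) := (map_natCast _ m).symm
    rw [e, valued_algebraMap]
  have e7 : (Valued.v : Valuation (P.adicCompletion F) ℤᵐ⁰) 7 = P.valuation F 7 := by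
    exact_mod_cast e 7
  have e2 : (Valued.v : Valuation (P.adicCompletion F) ℤᵐ⁰) 2 = P.valuation F 2 := by
    exact_mod_cast e 2
  have e4 : (Valued.v : Valuation (P.adicCompletion F) ℤᵐ⁰) 4 = P.valuation F 4 := by
    exact_mod_cast e 4
  refine ⟨by rw [e7]; exact h.h7, by rw [e2]; exact h.hun, ?_, ?_, ?_⟩
  · rw [e4, ← map_one (algebraMap F (P.adicCompletion F)), ← map_sub, valued_algebraMap]
    exact h.h4
  · exact (map_ne_zero _).2 h.h0
  · rw [valued_algebraMap]
    exact h.hD

lemma map_cA {F L : Type} [Field F] [Field L] (f : F →+* L) (a D : F) :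
    f (cA a D) = cA (f a) (f D) := by
  unfold cA eA eB
  simp only [map_mul, map_sub, map_neg, map_pow, map_ofNat, map_one]

lemma map_cB {F L : Type} [Field F] [Field L] (f : F →+* L) (a D : F) :
    f (cB a D) = cB (f a) (f D) := by
  unfold cB eA eB
  simp only [map_mul, map_sub, map_neg, map_pow, map_ofNat, map_one]

/-- the class of an element whose local classes are known, first kind -/
lemma LCE.glob1 {a D b : F} (ha : a ^ 2 = a - 2) (H : LH (P.valuation F) D) (hb : b ≠ 0)
    (h : ∃ y m : P.adicCompletion F, y ≠ 0 ∧ algebraMap F (P.adicCompletion F) b * y ^ 2 = m ∧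
      S1 (algebraMap F (P.adicCompletion F) (cA a D)) (algebraMap F (P.adicCompletion F) (cB a D))
        m) : LCE (P.valuation F) a D b := by
  obtain ⟨y, m, hy, hym, hm⟩ := h
  have hch := charC P
  have haE : (algebraMap F (P.adicCompletion F) a) ^ 2 = algebraMap F (P.adicCompletion F) a - 2 := by
    rw [← map_pow, ha, map_sub, map_ofNat]
  rw [map_cA, map_cB] at hm
  apply LCE.down P
  refine (LCE.of1 haE H.up hm).sqE haE ⟨y⁻¹, inv_ne_zero hy, ?_⟩
  rw [← hym]
  field_simp

/-- the class of an element whose local classes are known, second kind -/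
lemma LCE.glob2 {a D b : F} (ha : a ^ 2 = a - 2) (H : LH (P.valuation F) D) (hb : b ≠ 0)
    (h : ∃ y m : P.adicCompletion F, y ≠ 0 ∧ algebraMap F (P.adicCompletion F) b * y ^ 2 = m ∧
      S2 (algebraMap F (P.adicCompletion F) (cA a D)) (algebraMap F (P.adicCompletion F) (cB a D))
        m) : LCE (P.valuation F) (1 - a) D b := by
  obtain ⟨y, m, hy, hym, hm⟩ := h
  have hch := charC P
  have haE : (algebraMap F (P.adicCompletion F) a) ^ 2 = algebraMap F (P.adicCompletion F) a - 2 := by
    rw [← map_pow, ha, map_sub, map_ofNat]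
  rw [map_cA, map_cB] at hm
  apply LCE.down P
  rw [map_sub, map_one]
  refine (LCE.of2 haE H.up hm).sqE (ha_conj haE) ⟨y⁻¹, inv_ne_zero hy, ?_⟩
  rw [← hym]
  field_simp

end place

end Pool.Agent.R426.QC
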