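import Pool.Agent.R426.QC.Hc
import Pool.Agent.Y698.SG.Inp

/-!
# The central values of the twists by products of prime elements
-/

set_option autoImplicit false
set_option linter.unusedSectionVars false

open Filter
open scoped Topology PeriodPair

namespace Pool.Agent.R426.QC

open Pool.Agent.Y698 Pool.Agent.Y698.SG
open H667R3 Pool.Agent.W192.HK Pool.Agent.TH936.CM Pool.Agent.TH936.PU
open Pool.Agent.W192.CM (nu)

/-- the central value of a twist -/
theorem val_gn {n : RR} (hn : Go n) (htop : sp n ≠ ⊤) {X : Ideal RR → ℂ} (hX : HC 0 (sp n) X)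
    {φ : RR → ℂ} (hφX : ∀ g : RR, (starRingEnd ℂ) (X (sp g)) = φ g) {k : ℕ} (hk : 0 < k)
    (h7 : φ fR ^ k = 1) :
    ∃ F : ℂ → ℂ, Differentiable ℂ F ∧
    (∀ z : ℂ, 3 / 2 < z.re → HasSum (fun I : Ideal RR => psi I * X I * (nm I : ℂ) ^ (-z)) (F z)) ∧
    ∀ [Fintype (RR ⧸ sp fR)] (Γ : Type) [LinearOrderedCommGroupWithZero Γ] (v : Valuation ℂ Γ)
      (L : PeriodPair) (Ω : ℂ), LD L Ω → v al < 1 → ∀ T : ℂ,
      Tendsto (fun δ : ℝ => GG Ω δ 1) (𝓝[>] 0) (𝓝 T) →
      v 2 * v ((starRingEnd ℂ) (F 1) / Ω) = v (Bg L Ω T n φ) := by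
  classical
  have hbasic := Pool.Agent.W287.HK.h_basic
  have hcls := Pool.Agent.W571.HK.h_cls hbasic
  have hfp := Pool.Agent.W53.HK.h_fp hbasic hcls
  have hfpr := Pool.Agent.W366.HK.h_fpr hbasic hcls
  have hlat := Pool.Agent.W585.HK.h_lat hbasic
  have hker := Pool.Agent.W692.HK.h_ker hbasic hcls hfpr
  have hcnt := Pool.Agent.W584.HK.h_cnt hbasic hcls hfpr hlat hker
  have hdec := Pool.Agent.W856.HK.h_dec hbasic
  have hgauss := Pool.Agent.W636.HK.h_gauss hbasic hfp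
  have hpois := Pool.Agent.W348.HK.h_pois hbasic
  have htheta := Pool.Agent.TH936.HK.h_theta hbasic hfp hdec hgauss hpois hcnt
  have hafe := Pool.Agent.TH936.HK.h_afe hbasic hfp hcnt hgauss htheta
  have hprod := Pool.Agent.W29.HK.h_prod hbasic hfp
  obtain ⟨F, g1, g2, g3⟩ := val hbasic hfp hcnt hdec hafe hprod qr psi_HC hX
    ((Ideal.isCoprime_span_singleton_iff _ _).2 hn.gd.cop)
  refine ⟨F, g1, g2, ?_⟩
  intro _ Γ _ v L Ω h hv T hT
  have hL := h.lat
  have hΩ := hL.ne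
  have t2 := v_two_lt hv
  have f1 := fin_quot hn.gd.ne
  let _ : Fintype (RR ⧸ sp n) := Fintype.ofFinite _
  have h4 := g3 htop L Ω hL
  rw [nu_eq] at h4
  have e1 : ∀ u, HH L Ω fR (ee psi) u = HH L Ω fR e7 u := by
    intro u
    unfold HH
    simp only [ee_psi]
  simp only [e1] at h4
  have hxo := xb_xo hfp qr hX htop
  have hsum : ∑ x : RR ⧸ sp n, xb X x.out * HH L Ω fR e7 (Ω * x.out / (n : ℂ)) =
      Bg L Ω T n φ := by
    rw [Bg_eq]
    have h5 : ∀ x : RR ⧸ sp n, xb X x.out * HH L Ω fR e7 (Ω * x.out / (n : ℂ)) =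
        φ x.out * Gv L Ω T (Ω * x.out / (n : ℂ)) - xb X x.out * T := by
      intro x
      have h6 : xb X x.out = φ x.out := hφX x.out
      by_cases hx : x.out ∈ sp n
      · have h7 := hxo.zero _ hx
        rw [← h6, h7]
        ring
      · have h7 : Ω * x.out / (n : ℂ) ∉ L.lattice := by rwa [div_mem_iff hL hn.gd.ne]
        unfold Gv
        rw [if_neg h7, ← h6]
        ring
    rw [Finset.sum_congr rfl (fun x _ => h5 x), Finset.sum_sub_distrib, ← Finset.sum_mul,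
      hxo.sum, zero_mul, sub_zero]
  rw [hsum] at h4
  have h5 := congrArg v h4
  have hvN : v (n : ℂ) = 1 := hn.v_eq hv
  have e2 : v (xb X fR) = 1 := by
    have h8 : xb X fR = φ fR := hφX fR
    rw [h8]
    exact val_root v hk h7
  have e3 : v (e7 n) = 1 := by
    refine val_root v two_pos (e7_sq ?_)
    exact not_mem_of_cop hn.gd.cop
  rw [map_mul, map_mul, map_mul, map_div₀, map_mul, ee_psi, map_mul v (e7 n), e3, e2,
    v_fR hv, hvN, one_mul, div_one, mul_one] at h5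
  push_cast at h5
  rw [map_div₀, ← mul_div_assoc]
  have h10 : v Ω ≠ 0 := (Valuation.ne_zero_iff v).2 hΩ
  rw [div_eq_iff h10]
  rw [h5, mul_comm]

lemma sy_conj (ϖ x : RR) : (starRingEnd ℂ) (sy ϖ x) = sy ϖ x := by
  rcases sy_val ϖ x with h | ⟨-, h | h⟩
  · rw [h.2, map_zero]
  · rw [h, map_one]
  · rw [h, map_neg, map_one]

lemma Xs_ev (ϖ : RR) (I : Ideal RR) : (starRingEnd ℂ) (Xs ϖ I) = Xs ϖ I := sy_conj _ _

lemma gd_empty {ι : Type} [DecidableEq ι] (c : ι → ZMod 2) (r : ι → ι → ZMod 2) :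
    gd c r ∅ = 1 := by
  unfold gd
  exact Matrix.det_isEmpty

/-- **the quadratic twists** -/
theorem val_pm {ι : Type} [DecidableEq ι] {S : Finset ι} {π : ι → RR} (hS : Fam S π) :
    ∃ F : ℂ → ℂ, Differentiable ℂ F ∧
    (∀ z : ℂ, 3 / 2 < z.re → HasSum (fun I : Ideal RR =>
      psi I * (∏ i ∈ S, Xs (π i) I) * (nm I : ℂ) ^ (-z)) (F z)) ∧
    ∀ (Γ : Type) [LinearOrderedCommGroupWithZero Γ] (v : Valuation ℂ Γ) (L : PeriodPair) (Ω : ℂ),
      LD L Ω → v al < 1 →
      (gd (mc π) (mr π) S ≠ 0 → v 2 * v ((starRingEnd ℂ) (F 1) / Ω) = v 2 ^ S.card) ∧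
      (gd (mc π) (mr π) S = 0 → v 2 * v ((starRingEnd ℂ) (F 1) / Ω) < v 2 ^ S.card) := by
  classical
  rcases S.eq_empty_or_nonempty with rfl | hne
  · obtain ⟨F, g1, g2, g3, g4⟩ := val_triv
    refine ⟨F, g1, fun z hz => ?_, fun Γ _ v L Ω hL hv => ⟨fun _ => ?_, fun h0 => ?_⟩⟩
    · simpa using g2 z hz
    · rw [Finset.card_empty, pow_zero]
      exact g4 Γ v L Ω hL hv
    · rw [gd_empty] at h0
      exact absurd h0 one_ne_zero
  · have hHC := prod_Xs hS hne
    have hgo : Go (∏ i ∈ S, π i) := Go.prod fun i hi => (hS.pd i hi).go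
    obtain ⟨i0, hi0⟩ := hne
    have htop : sp (∏ i ∈ S, π i) ≠ ⊤ := by
      intro h
      rw [Ideal.span_singleton_eq_top] at h
      exact (hS.pd i0 hi0).pr.not_isUnit (isUnit_of_dvd_unit (Finset.dvd_prod_of_mem π hi0) h)
    obtain ⟨F, g1, g2, g3⟩ := val_gn hgo htop hHC (φ := fun m => ∏ i ∈ S, sy (π i) m)
      (by
        intro g
        rw [map_prod]
        refine Finset.prod_congr rfl fun i hi => ?_
        rw [Xs_ev, Xs_sp (hS.pd i hi)]) two_pos
      (by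
        show (∏ i ∈ S, sy (π i) fR) ^ 2 = 1
        rw [← Finset.prod_pow]
        refine Finset.prod_eq_one fun i hi => ?_
        have hi' := hS.pd i hi
        have h1 : fR ∉ sp (π i) := by
          intro h1
          apply hi'.pr.not_isUnit
          obtain ⟨a, b, hab⟩ := hi'.cop
          rw [Ideal.mem_span_singleton] at h1
          refine isUnit_of_dvd_one ?_
          rw [← hab]
          exact dvd_add (h1.mul_left _) (Dvd.intro_left _ rfl)
        rcases sy_sgn h1 with h2 | h2 <;> rw [h2] <;> norm_num)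
    have := fin_quot fR_ne
    let _ : Fintype (RR ⧸ sp fR) := Fintype.ofFinite _
    obtain ⟨F0, -, -, k3⟩ := val_one
    refine ⟨F, g1, g2, fun Γ _ v L Ω hL hv => ?_⟩
    have hT := k3 L Ω hL.lat
    rw [g3 Γ v L Ω hL hv _ hT]
    exact ⟨v_quad inp.rec' hL hv hT (hL.v_T hv hT) hS, v_quad0 inp.rec' hL hv hT (hL.v_T hv hT) hS⟩

end Pool.Agent.R426.QC
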