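import Pool.Agent.Y279.SG.PI
import Pool.Agent.Y919.SG.RC
import Pool.Agent.Y698.SG.Wc

/-!
# The prime elements `≡ 1 mod 4` of the ring of integers of `ℚ(√-7)`
-/

set_option autoImplicit false
set_option linter.unusedSectionVars false

namespace Pool.Agent.R426.QC

open Pool.Agent.Y698 Pool.Agent.Y698.SG
open H667R3 Pool.Agent.W192.HK Pool.Agent.TH936.CM Pool.Agent.TH936.PU
open Pool.Agent.Y279.SG (sy_eq red int_sq mk_int_of cXY_cj nR_dvd unit_of_nR nR_int dvd_coord qch_eq)

/-- prime elements `≡ 1 mod 4` -/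
structure Pm (ϖ : RR) : Prop where
  pr : Prime ϖ
  m4 : ∃ u : RR, ϖ = 1 + 4 * u

/-- odd inert prime numbers -/
structure In (q : ℕ) : Prop where
  pr : q.Prime
  h2 : q ≠ 2
  ns : ¬ IsSquare (-7 : ZMod q)

lemma In.seven {q : ℕ} (h : In q) : q ≠ 7 := by
  rintro rfl
  exact h.ns ⟨0, by decide⟩

lemma In.cop {q : ℕ} (h : In q) : IsCoprime fR (q : RR) := by
  have h1 : IsCoprime ((7 : ℕ) : RR) ((q : ℕ) : RR) :=
    cop_cast ((Nat.coprime_primes (by norm_num) h.pr).2 h.seven.symm)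
  have h2 : ((7 : ℕ) : RR) = fR * (-fR) := by
    have := fR_sq
    push_cast
    linear_combination this
  rw [h2] at h1
  exact h1.of_mul_left_left

lemma sy_sp {ϖ ϖ' : RR} (h : sp ϖ = sp ϖ') (x : RR) : sy ϖ x = sy ϖ' x := by
  classical
  have key : ∀ I J : Ideal RR, I = J → (if x ∈ I then (0 : ℂ) else
      if IsSquare (Ideal.Quotient.mk I x) then 1 else -1) = (if x ∈ J then (0 : ℂ) else
      if IsSquare (Ideal.Quotient.mk J x) then 1 else -1) := by
    rintro I _ rfl
    rfl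
  have := key _ _ h
  unfold sy
  convert this

lemma sy_negm (ϖ x : RR) : sy (-ϖ) x = sy ϖ x := sy_sp (Ideal.span_singleton_neg ϖ) x

/-- every integer is a square modulo an inert prime -/
lemma In.int_sq {q : ℕ} (h : In q) (n : ℤ) :
    IsSquare (Ideal.Quotient.mk (sp (q : RR)) (n : RR)) := by
  have _ : Fact q.Prime := ⟨h.pr⟩
  by_cases h1 : IsSquare ((n : ℤ) : ZMod q)
  · obtain ⟨s, hs⟩ := h1
    obtain ⟨s, rfl⟩ := ZMod.intCast_surjective s
    refine ⟨Ideal.Quotient.mk _ (s : RR), ?_⟩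
    rw [← map_mul]
    have := mk_int_of (q := q) (a := n) (b := s * s) (by push_cast; exact hs)
    push_cast at this
    exact this
  · have hn0 : ((n : ℤ) : ZMod q) ≠ 0 := fun h0 => h1 (by rw [h0]; exact ⟨0, by ring⟩)
    have h70 : (-7 : ZMod q) ≠ 0 := fun h0 => h.ns (by rw [h0]; exact ⟨0, by ring⟩)
    have hq2 : ringChar (ZMod q) ≠ 2 := by
      rw [ZMod.ringChar_zmod_n]
      exact h.h2
    have e1 : quadraticChar (ZMod q) (n : ZMod q) = -1 :=
      (quadraticChar_neg_one_iff_not_isSquare).2 h1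
    have e2 : quadraticChar (ZMod q) (-7 : ZMod q) = -1 :=
      (quadraticChar_neg_one_iff_not_isSquare).2 h.ns
    have e3 : IsSquare ((-7 : ZMod q) * (n : ZMod q)) := by
      rw [← quadraticChar_one_iff_isSquare (mul_ne_zero h70 hn0), map_mul, e1, e2]
      norm_num
    obtain ⟨s, hs⟩ := e3
    obtain ⟨s, rfl⟩ := ZMod.intCast_surjective s
    obtain ⟨u, v, huv⟩ := h.cop
    have e4 := mk_int_of (q := q) (a := -7 * n) (b := s * s) (by push_cast; exact hs)
    push_cast at e4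
    have e5 : Ideal.Quotient.mk (sp (q : RR)) (u * fR) = 1 := by
      rw [← map_one (Ideal.Quotient.mk (sp (q : RR))), Ideal.Quotient.eq,
        Ideal.mem_span_singleton']
      exact ⟨-v, by linear_combination -huv⟩
    refine ⟨Ideal.Quotient.mk _ ((s : RR) * u), ?_⟩
    have e6 : (-7 : RR) = fR ^ 2 := fR_sq.symm
    rw [e6] at e4
    simp only [map_mul, map_pow] at e4 e5 ⊢
    linear_combination (Ideal.Quotient.mk (sp (q : RR)) u) ^ 2 * e4 -
      Ideal.Quotient.mk (sp (q : RR)) (n : RR) *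
        (Ideal.Quotient.mk (sp (q : RR)) u * Ideal.Quotient.mk (sp (q : RR)) fR + 1) * e5

lemma In.dvd {q : ℕ} (h : In q) (x : RR) : x ∈ sp (q : RR) ↔ (q : ℤ) ∣ nR x := by
  rw [mem_inert_iff h.pr h.ns, ZMod.intCast_zmod_eq_zero_iff_dvd]

lemma In.sy {q : ℕ} (h : In q) (x : RR) : sy (q : RR) x = qch q (nR x) := by
  classical
  have _ : Fact q.Prime := ⟨h.pr⟩
  unfold Pool.Agent.Y698.SG.sy
  by_cases h0 : x ∈ sp (q : RR)
  · rw [if_pos h0]
    rcases qch_val h.pr (nR x) with h1 | h1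
    · exact h1.2.symm
    · exact absurd ((h.dvd x).1 h0) h1.1
  have hnd : ¬ (q : ℤ) ∣ nR x := fun h1 => h0 ((h.dvd x).2 h1)
  have hn0 : ((nR x : ℤ) : ZMod q) ≠ 0 := by
    rwa [Ne, ZMod.intCast_zmod_eq_zero_iff_dvd]
  have key : IsSquare (Ideal.Quotient.mk (sp (q : RR)) x) ↔ IsSquare ((nR x : ℤ) : ZMod q) := by
    constructor
    · rintro ⟨y, hy⟩
      obtain ⟨y, rfl⟩ := Ideal.Quotient.mk_surjective y
      refine ⟨((nR y : ℤ) : ZMod q), ?_⟩
      rw [← map_mul, Ideal.Quotient.eq, Ideal.mem_span_singleton'] at hy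
      obtain ⟨c, hc⟩ := hy
      have h1 : x = y * y + (q : RR) * c := by linear_combination -hc
      have h2 : cX x = cX (y * y) + q * cX c ∧ cY x = cY (y * y) + q * cY c := by
        apply cXY_of
        rw [h1]
        push_cast
        have e1 := co (y * y)
        push_cast at e1
        rw [e1, co c]
        ring
      have h3 : ((nR x : ℤ) : ZMod q) = ((nR (y * y) : ℤ) : ZMod q) := by
        unfold nR
        rw [h2.1, h2.2]
        push_cast
        simp
      rw [h3, nR_mul]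
      push_cast
      rfl
    · rintro ⟨s, hs⟩
      obtain ⟨m, rfl⟩ := ZMod.intCast_surjective s
      have e1 := mk_int_of (q := q) (a := nR x) (b := m * m) (by push_cast; exact hs)
      rw [← mul_cj x] at e1
      push_cast at e1
      have e2 : cj x = ((2 * cX x + cY x : ℤ) : RR) - x := by
        apply RR_ext
        · rw [(cXY_cj x).1, sub_eq_add_neg, (cXY_add _ _).1, (cXY_int _).1, (cXY_neg x).1]
          ring
        · rw [(cXY_cj x).2, sub_eq_add_neg, (cXY_add _ _).2, (cXY_int _).2, (cXY_neg x).2]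
          ring
      obtain ⟨t, ht⟩ : ∃ t : ℤ, t = 2 * cX x + cY x := ⟨_, rfl⟩
      rw [e2, ← ht] at e1
      by_cases h5 : (((t + 2 * m : ℤ)) : ZMod q) = 0
      · -- then `x = -m`
        have e3 : Ideal.Quotient.mk (sp (q : RR)) ((t + 2 * m : ℤ) : RR) = 0 := by
          have := mk_int_of (q := q) (a := t + 2 * m) (b := 0) (by rw [h5]; simp)
          rw [this]
          simp
        have e4 : Ideal.Quotient.mk (sp (q : RR)) ((x + (m : RR)) * (x + (m : RR))) = 0 := by
          push_cast at e3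
          simp only [map_mul, map_add, map_sub, map_ofNat] at e1 e3 ⊢
          linear_combination -e1 + Ideal.Quotient.mk (sp (q : RR)) x * e3
        rw [Ideal.Quotient.eq_zero_iff_mem] at e4
        have hpr : (sp (q : RR)).IsPrime := (maximal_sp (irr_inert h.pr h.ns)).isPrime
        have e5 : x + (m : RR) ∈ sp (q : RR) := by
          rcases hpr.mem_or_mem e4 with h6 | h6 <;> exact h6
        have e6 : Ideal.Quotient.mk (sp (q : RR)) x =
            Ideal.Quotient.mk (sp (q : RR)) ((-m : ℤ) : RR) := by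
          rw [Ideal.Quotient.eq]
          push_cast
          rw [sub_neg_eq_add]
          exact e5
        rw [e6]
        exact h.int_sq (-m)
      · obtain ⟨w, hw⟩ := ZMod.intCast_surjective (((t + 2 * m : ℤ) : ZMod q)⁻¹)
        have e3 : Ideal.Quotient.mk (sp (q : RR)) (((t + 2 * m) * w : ℤ) : RR) = 1 := by
          have := mk_int_of (q := q) (a := (t + 2 * m) * w) (b := 1)
            (by rw [Int.cast_mul, hw, mul_inv_cancel₀ h5]; simp)
          rw [this]
          simp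
        obtain ⟨r, hr⟩ := h.int_sq w
        refine ⟨Ideal.Quotient.mk _ (x + (m : RR)) * r, ?_⟩
        push_cast at e3
        simp only [map_mul, map_add, map_sub, map_ofNat] at e1 e3 hr ⊢
        generalize Ideal.Quotient.mk (sp (q : RR)) x = X at *
        generalize Ideal.Quotient.mk (sp (q : RR)) (m : RR) = M at *
        generalize Ideal.Quotient.mk (sp (q : RR)) (t : RR) = T at *
        generalize Ideal.Quotient.mk (sp (q : RR)) (w : RR) = W at *
        linear_combination (X + M) ^ 2 * hr - X * e3 + W * e1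
  rw [if_neg h0, qch_eq]
  by_cases h1 : IsSquare ((nR x : ℤ) : ZMod q)
  · rw [if_pos (key.2 h1), (quadraticChar_one_iff_isSquare hn0).2 h1]
    norm_num
  · rw [if_neg (fun h2 => h1 (key.1 h2)), (quadraticChar_neg_one_iff_not_isSquare).2 h1]
    norm_num

/-! ### The two kinds of prime elements -/

/-- the coordinates of an element `≡ 1 mod 4` -/
lemma coord4 {ϖ : RR} (h : ∃ u : RR, ϖ = 1 + 4 * u) :
    ∃ x y : ℤ, cX ϖ = 1 + 4 * x ∧ cY ϖ = 4 * y := by
  obtain ⟨u, rfl⟩ := h
  have h4 : (4 : RR) = ((4 : ℤ) : RR) := by push_cast; rfl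
  rw [h4, (cXY_add _ _).1, (cXY_add _ _).2, (cXY_mul _ _).1, (cXY_mul _ _).2, cXY_one.1, cXY_one.2,
    (cXY_int 4).1, (cXY_int 4).2]
  exact ⟨cX u, cY u, by ring, by ring⟩

lemma m4_of_coord {ϖ : RR} {x y : ℤ} (h1 : cX ϖ = 1 + 4 * x) (h2 : cY ϖ = 4 * y) :
    ∃ u : RR, ϖ = 1 + 4 * u := by
  refine ⟨(x : RR) + (y : RR) * aR, ?_⟩
  have e := Pool.Agent.Y279.SG.dec ϖ
  rw [h1, h2] at e
  push_cast at e
  linear_combination e

/-- a rational prime below a prime element -/
lemma exists_below {ϖ : RR} (h : Prime ϖ) : ∃ p : ℕ, p.Prime ∧ ϖ ∣ (p : RR) := by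
  have key : ∀ n : ℕ, n ≠ 0 → ϖ ∣ (n : RR) → ∃ p : ℕ, p.Prime ∧ ϖ ∣ (p : RR) := by
    intro n
    induction n using Nat.strong_induction_on with
    | _ n ih =>
      intro hn0 hd
      by_cases hn1 : n = 1
      · subst hn1
        rw [Nat.cast_one] at hd
        exact absurd (isUnit_of_dvd_one hd) h.not_isUnit
      · obtain ⟨m, hm⟩ := Nat.minFac_dvd n
        have hp := Nat.minFac_prime hn1
        have hm0 : m ≠ 0 := by
          rintro rfl
          rw [mul_zero] at hm
          exact hn0 hm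
        have h1 : ϖ ∣ ((n.minFac : ℕ) : RR) * ((m : ℕ) : RR) := by
          have h2 : ((n : ℕ) : RR) = ((n.minFac * m : ℕ) : RR) := congrArg _ hm
          rw [h2, Nat.cast_mul] at hd
          exact hd
        rcases h.dvd_or_dvd h1 with h2 | h2
        · exact ⟨_, hp, h2⟩
        · refine ih m ?_ hm0 h2
          have h3 := hp.two_le
          have h4 : 0 < m := Nat.pos_of_ne_zero hm0
          nlinarith
  have hN := nR_pos h.ne_zero
  refine key (nR ϖ).toNat (by omega) ?_
  refine ⟨cj ϖ, ?_⟩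
  rw [mul_cj]
  have h1 : (((nR ϖ).toNat : ℤ) : RR) = ((nR ϖ : ℤ) : RR) := by
    rw [Int.toNat_of_nonneg hN.le]
  rw [← h1, Int.cast_natCast]

/-- **the prime elements** -/
theorem Pm.cases {ϖ : RR} (h : Pm ϖ) :
    (∃ p : ℕ, Spl p ∧ nR ϖ = p) ∨ ∃ q : ℕ, In q ∧ (ϖ = q ∨ ϖ = -q) := by
  obtain ⟨p, hp, c, hc⟩ := exists_below h.pr
  have _ : Fact p.Prime := ⟨hp⟩
  obtain ⟨x, y, hx, hy⟩ := coord4 h.m4
  have hN : nR ϖ = (1 + 4 * x) ^ 2 + (1 + 4 * x) * (4 * y) + 2 * (4 * y) ^ 2 := by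
    unfold nR
    rw [hx, hy]
  have hmod : nR ϖ % 4 = 1 := by
    rw [hN]
    have e : (1 + 4 * x) ^ 2 + (1 + 4 * x) * (4 * y) + 2 * (4 * y) ^ 2 =
      1 + 4 * (2 * x + 4 * x ^ 2 + (1 + 4 * x) * y + 8 * y ^ 2) := by ring
    rw [e]
    omega
  have hpos := nR_pos h.pr.ne_zero
  have hmul : nR ϖ * nR c = (p : ℤ) ^ 2 := by
    rw [← nR_mul, ← hc, nR_nat]
  have hnat : (nR ϖ).natAbs * (nR c).natAbs = p ^ 2 := by
    rw [← Int.natAbs_mul, hmul]
    simp [Int.natAbs_pow]
  obtain ⟨i, hi, hi'⟩ := (Nat.dvd_prime_pow hp).1 (Dvd.intro _ hnat)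
  have hN' : nR ϖ = (p : ℤ) ^ i := by
    have h1 : ((nR ϖ).natAbs : ℤ) = nR ϖ := Int.natAbs_of_nonneg hpos.le
    rw [← h1, hi']
    push_cast
    rfl
  interval_cases i
  · exfalso
    apply h.pr.not_isUnit
    apply unit_of_nR
    rw [hN', pow_zero]
  · left
    rw [pow_one] at hN'
    refine ⟨p, ⟨hp, ?_, ?_⟩, hN'⟩
    · rw [hN'] at hmod
      omega
    · obtain ⟨φ, -⟩ := red hp hN'
      refine ⟨φ fR, ?_⟩
      rw [← map_mul]
      have h1 : fR * fR = -7 := by rw [← pow_two]; exact fR_sq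
      rw [h1, map_neg, map_ofNat]
  · right
    have hcu : nR c = 1 := by
      have h2 : (p : ℤ) ^ 2 ≠ 0 := pow_ne_zero 2 (by exact_mod_cast hp.ne_zero)
      apply mul_left_cancel₀ h2
      rw [← hN', hmul, mul_one, hN']
    have hϖ : ϖ = p ∨ ϖ = -p := by
      rcases isUnit_iff.1 (unit_of_nR hcu) with h1 | h1
      · left; rw [hc, h1, mul_one]
      · right; rw [hc, h1]; ring
    have hpR : Prime (p : RR) := by
      rcases hϖ with h1 | h1
      · rw [← h1]; exact h.pr
      · have := h.pr.neg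
        rwa [h1, neg_neg] at this
    have hp2 : p ≠ 2 := by
      rintro rfl
      rw [hN'] at hmod
      norm_num at hmod
    refine ⟨p, ⟨hp, hp2, ?_⟩, hϖ⟩
    rintro ⟨t, ht⟩
    obtain ⟨s, hs⟩ := ZMod.intCast_surjective t
    have h7 : (p : ℤ) ∣ s ^ 2 + 7 := by
      rw [← ZMod.intCast_zmod_eq_zero_iff_dvd]
      push_cast
      rw [hs]
      linear_combination -ht
    have hsf : ((p : ℤ) : RR) ∣ ((s : RR) - fR) * ((s : RR) + fR) := by
      obtain ⟨k, hk⟩ := h7
      refine ⟨(k : RR), ?_⟩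
      have hk' : ((s ^ 2 + 7 : ℤ) : RR) = ((p * k : ℤ) : RR) := by rw [hk]
      push_cast at hk'
      push_cast
      linear_combination hk' - fR_sq
    have hpd : ¬ ((p : ℤ) ∣ 2) := by
      intro h
      have h1 : p ∣ 2 := by exact_mod_cast h
      exact hp2 ((Nat.prime_dvd_prime_iff_eq hp Nat.prime_two).1 h1)
    have hpR' : Prime ((p : ℤ) : RR) := by rwa [Int.cast_natCast]
    rcases hpR'.dvd_or_dvd hsf with h | h
    · have h1 := (dvd_coord h).2
      apply hpd
      have h2 : cY ((s : RR) - fR) = -2 := by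
        rw [sub_eq_add_neg, (cXY_add _ _).2, (cXY_int s).2, (cXY_neg _).2, cXY_fR.2]
        norm_num
      rw [h2] at h1
      exact (dvd_neg).1 h1
    · have h1 := (dvd_coord h).2
      apply hpd
      have h2 : cY ((s : RR) + fR) = 2 := by
        rw [(cXY_add _ _).2, (cXY_int s).2, cXY_fR.2]
        norm_num
      rw [h2] at h1
      exact h1

/-- the properties of the symbols -/
theorem Pm.pd {ϖ : RR} (h : Pm ϖ) : PD ϖ := by
  rcases h.cases with ⟨p, hp, hN⟩ | ⟨q, hq, hϖ⟩
  · exact (Pool.Agent.Y279.SG.t_PD1 p ϖ hp hN h.m4).1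
  · have key : ∀ x, sy ϖ x = qch q (nR x) := by
      intro x
      rcases hϖ with rfl | rfl
      · exact hq.sy x
      · rw [sy_negm]; exact hq.sy x
    refine ⟨h.pr, h.m4, ?_, fun x y => ?_, ?_⟩
    · rcases hϖ with rfl | rfl
      · exact hq.cop
      · exact hq.cop.neg_right
    · rw [key, key, key, nR_mul, qch_mul]
    · rw [key]
      have h1 : nR (-1 : RR) = 1 := by
        unfold nR
        rw [(cXY_neg 1).1, (cXY_neg 1).2, cXY_one.1, cXY_one.2]
        norm_num
      rw [h1]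
      unfold qch
      rw [jacobiSym.one_left]
      norm_num

end Pool.Agent.R426.QC
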