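import Pool.Agent.R426.QC.Fe
import Pool.Agent.Y698.Ld
import Pool.Agent.Y577.LU.L1

/-!
# Periods and the discriminant for `ℚ(√-7)`
-/

set_option autoImplicit false
set_option linter.unusedSectionVars false

open NumberField
open scoped Topology PeriodPair

namespace Pool.Agent.R426.QC

open Pool.Agent.Y698
open H667R3 Pool.Agent.W192.HK Pool.Agent.TH936.CM Pool.Agent.TH936.PU

lemma g2_congr' {L M : PeriodPair} (h : L.lattice = M.lattice) : L.g₂ = M.g₂ := by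
  unfold PeriodPair.g₂ PeriodPair.G
  rw [h]

lemma g3_congr' {L M : PeriodPair} (h : L.lattice = M.lattice) : L.g₃ = M.g₃ := by
  unfold PeriodPair.g₃ PeriodPair.G
  rw [h]

/-- the area of a period parallelogram -/
lemma area7 {L : PeriodPair} {Ω : ℂ} (hL : IsLat L RR Ω) :
    2 * |((starRingEnd ℂ) L.ω₁ * L.ω₂).im| = Real.sqrt 7 * Complex.normSq Ω := by
  obtain ⟨a, ha⟩ := (hL.mem _).1 L.ω₁_mem_lattice
  obtain ⟨b, hb⟩ := (hL.mem _).1 L.ω₂_mem_lattice
  have h1 : Ω ∈ L.lattice := (hL.mem _).2 ⟨1, by push_cast; ring⟩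
  have h2 : Ω * al ∈ L.lattice := (hL.mem _).2 ⟨aR, by rw [aR_coe]⟩
  rw [PeriodPair.mem_lattice] at h1 h2
  obtain ⟨m, n, h1⟩ := h1
  obtain ⟨k, l, h2⟩ := h2
  have hc : ∀ i j : ℤ, (i : ℂ) * L.ω₁ + j * L.ω₂ =
      Ω * (((i * cX a + j * cX b : ℤ) : ℂ) + ((i * cY a + j * cY b : ℤ) : ℂ) * al) := by
    intro i j
    rw [ha, hb, co a, co b]
    push_cast
    ring
  rw [hc] at h1 h2
  have h1' : (((m * cX a + n * cX b : ℤ) : ℂ) + ((m * cY a + n * cY b : ℤ) : ℂ) * al) =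
      ((1 : ℤ) : ℂ) + ((0 : ℤ) : ℂ) * al := by
    apply mul_left_cancel₀ hL.ne
    rw [h1]
    push_cast
    ring
  have h2' : (((k * cX a + l * cX b : ℤ) : ℂ) + ((k * cY a + l * cY b : ℤ) : ℂ) * al) =
      ((0 : ℤ) : ℂ) + ((1 : ℤ) : ℂ) * al := by
    apply mul_left_cancel₀ hL.ne
    rw [h2]
    push_cast
    ring
  obtain ⟨q1, q2⟩ := co_uniq h1'
  obtain ⟨q3, q4⟩ := co_uniq h2'
  have hdet : (cX a * cY b - cY a * cX b) * (m * l - n * k) = 1 := by
    linear_combination (k * cY a + l * cY b) * q1 + q4 - (k * cX a + l * cX b) * q2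
  have hunit : |cX a * cY b - cY a * cX b| = 1 :=
    Int.isUnit_iff_abs_eq.1 (IsUnit.of_mul_eq_one _ hdet)
  have him : ((starRingEnd ℂ) L.ω₁ * L.ω₂).im =
      Complex.normSq Ω * (((cX a * cY b - cY a * cX b : ℤ) : ℝ) * (Real.sqrt 7 / 2)) := by
    rw [ha, hb, map_mul]
    have : (starRingEnd ℂ) Ω * (starRingEnd ℂ) (a : ℂ) * (Ω * b) =
        ((Complex.normSq Ω : ℝ) : ℂ) * ((starRingEnd ℂ) (a : ℂ) * b) := by
      rw [← Complex.mul_conj]
      ring
    rw [this, Complex.im_ofReal_mul]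
    congr 1
    rw [co a, co b]
    simp only [map_add, map_mul, Complex.add_im, Complex.mul_im, Complex.add_re,
      Complex.mul_re, Complex.intCast_re, Complex.intCast_im, Complex.conj_re, Complex.conj_im,
      al_re, al_im]
    push_cast
    ring
  rw [him, abs_mul, abs_of_nonneg (Complex.normSq_nonneg Ω), abs_mul, ← Int.cast_abs, hunit,
    abs_of_nonneg (by positivity : (0 : ℝ) ≤ Real.sqrt 7 / 2)]
  push_cast
  ring

/-- scaling -/
lemma scale {L : PeriodPair} {Ω : ℂ} (h : LD L Ω) {δ r : ℂ} (hδ : δ ≠ 0) (hr : r ^ 2 = δ⁻¹)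
    (hr0 : r * Ω ≠ 0) :
    (mkL al (r * Ω) qr.im hr0).g₂ = 35 / 4 * δ ^ 2 ∧
      (mkL al (r * Ω) qr.im hr0).g₃ = 49 / 8 * δ ^ 3 := by
  have hΩ := h.lat.ne
  have hlat : (mkL al Ω qr.im hΩ).lattice = L.lattice := by
    apply SetLike.ext
    intro z
    rw [(mkL_isLat qr hΩ).mem, h.lat.mem]
  have hg : (mkL al Ω qr.im hΩ).g₂ = 35 / 4 := by
    rw [← h.g2]
    exact g2_congr' hlat
  have hg3 : (mkL al Ω qr.im hΩ).g₃ = 49 / 8 := by
    rw [← h.g3]
    exact g3_congr' hlat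
  constructor
  · unfold PeriodPair.g₂ at hg ⊢
    rw [G_eq _ _ (k := 4) (by norm_num)] at hg ⊢
    have e1 : ((r * Ω) ^ 4)⁻¹ = δ ^ 2 * (Ω ^ 4)⁻¹ := by
      have : (r * Ω) ^ 4 = (r ^ 2) ^ 2 * Ω ^ 4 := by ring
      rw [this, hr, mul_inv, inv_pow, inv_inv]
    rw [e1]
    linear_combination (δ ^ 2) * hg
  · unfold PeriodPair.g₃ at hg3 ⊢
    rw [G_eq _ _ (k := 6) (by norm_num)] at hg3 ⊢
    have e1 : ((r * Ω) ^ 6)⁻¹ = δ ^ 3 * (Ω ^ 6)⁻¹ := by
      have : (r * Ω) ^ 6 = (r ^ 2) ^ 3 * Ω ^ 6 := by ring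
      rw [this, hr, mul_inv, inv_pow, inv_inv]
    rw [e1]
    linear_combination (δ ^ 3) * hg3

/-- the area of the lattice of the twist -/
theorem per7 {L : PeriodPair} {Ω : ℂ} (h : LD L Ω) {δ : ℂ} (hδ : δ ≠ 0) {Λ : PeriodPair}
    (h2 : Λ.g₂ = 35 / 4 * δ ^ 2) (h3 : Λ.g₃ = 49 / 8 * δ ^ 3) :
    2 * |((starRingEnd ℂ) Λ.ω₁ * Λ.ω₂).im| = Real.sqrt 7 * Complex.normSq Ω / ‖δ‖ := by
  obtain ⟨r, hr⟩ := IsAlgClosed.exists_pow_nat_eq δ⁻¹ (n := 2) (by norm_num)
  have hr0 : r ≠ 0 := by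
    rintro rfl
    rw [zero_pow (by norm_num)] at hr
    exact inv_ne_zero hδ hr.symm
  have hrΩ : r * Ω ≠ 0 := mul_ne_zero hr0 h.lat.ne
  obtain ⟨s2, s3⟩ := scale h hδ hr hrΩ
  have hlat := Pool.Agent.Y577.LU.lat_unique Λ (mkL al (r * Ω) qr.im hrΩ) (h2.trans s2.symm)
    (h3.trans s3.symm)
  have hL : IsLat Λ RR (r * Ω) := by
    refine ⟨hrΩ, fun z => ?_⟩
    rw [hlat]
    exact (mkL_isLat qr hrΩ).mem z
  rw [area7 hL, map_mul]
  have hn : Complex.normSq r = 1 / ‖δ‖ := by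
    rw [Complex.normSq_eq_norm_sq, ← norm_pow, hr, norm_inv, one_div]
  rw [hn]
  ring

/-- such lattices exist -/
theorem per7_ex {δ : ℂ} (hδ : δ ≠ 0) :
    ∃ Λ : PeriodPair, Λ.g₂ = 35 / 4 * δ ^ 2 ∧ Λ.g₃ = 49 / 8 * δ ^ 3 := by
  obtain ⟨L, Ω, h⟩ := exists_LD
  obtain ⟨r, hr⟩ := IsAlgClosed.exists_pow_nat_eq δ⁻¹ (n := 2) (by norm_num)
  have hr0 : r ≠ 0 := by
    rintro rfl
    rw [zero_pow (by norm_num)] at hr
    exact inv_ne_zero hδ hr.symm
  have hrΩ : r * Ω ≠ 0 := mul_ne_zero hr0 h.lat.ne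
  exact ⟨_, scale h hδ hr hrΩ⟩

/-! ### the discriminant -/

/-- the basis `1, α` -/
noncomputable def bR : Module.Basis (Fin 2) ℤ RR :=
  Module.Basis.ofEquivFun
    { toFun := fun a => ![cX a, cY a]
      invFun := fun f => (f 0 : RR) + (f 1 : RR) * aR
      left_inv := fun a => by
        apply Subtype.ext
        show (((cX a : RR) + (cY a : RR) * aR : RR) : ℂ) = (a : ℂ)
        push_cast
        rw [aR_coe, ← co a]
      right_inv := fun f => by
        have h1 : ((((f 0 : RR) + (f 1 : RR) * aR : RR)) : ℂ) = (f 0 : ℂ) + (f 1 : ℂ) * al := by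
          push_cast
          rw [aR_coe]
        obtain ⟨h2, h3⟩ := cXY_of h1
        funext i
        fin_cases i
        · exact h2
        · exact h3
      map_add' := fun a b => by
        funext i
        fin_cases i
        · exact (cXY_add a b).1
        · exact (cXY_add a b).2
      map_smul' := fun n a => by
        have h1 : n • a = (n : RR) * a := by rw [zsmul_eq_mul]
        funext i
        rw [h1]
        fin_cases i
        · show cX ((n : RR) * a) = _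
          rw [(cXY_mul _ _).1, (cXY_int n).1, (cXY_int n).2]
          simp
        · show cY ((n : RR) * a) = _
          rw [(cXY_mul _ _).2, (cXY_int n).1, (cXY_int n).2]
          simp }

lemma bR_0 : bR 0 = 1 := by
  unfold bR
  rw [Module.Basis.coe_ofEquivFun]
  show (((Pi.single 0 1 : Fin 2 → ℤ) 0 : ℤ) : RR) + (((Pi.single 0 1 : Fin 2 → ℤ) 1 : ℤ) : RR) * aR = 1
  simp

lemma bR_1 : bR 1 = aR := by
  unfold bR
  rw [Module.Basis.coe_ofEquivFun]
  show (((Pi.single 1 1 : Fin 2 → ℤ) 0 : ℤ) : RR) + (((Pi.single 1 1 : Fin 2 → ℤ) 1 : ℤ) : RR) * aR = aR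
  simp

lemma rep0 (a : RR) : bR.repr a 0 = cX a := rfl
lemma rep1 (a : RR) : bR.repr a 1 = cY a := rfl

lemma trace_RR (a : RR) : Algebra.trace ℤ RR a = 2 * cX a + cY a := by
  rw [Algebra.trace_eq_matrix_trace bR a, Matrix.trace_fin_two,
    Algebra.leftMulMatrix_eq_repr_mul, Algebra.leftMulMatrix_eq_repr_mul, rep0, rep1, bR_0, bR_1,
    mul_one, (cXY_mul _ _).2, cXY_aR.1, cXY_aR.2]
  ring

lemma discr_RR : Algebra.discr ℤ bR = -7 := by
  rw [Algebra.discr_def, Matrix.det_fin_two]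
  simp only [Algebra.traceMatrix_apply, Algebra.traceForm_apply, trace_RR, bR_0, bR_1, mul_one,
    one_mul, (cXY_mul _ _).1, (cXY_mul _ _).2, cXY_aR.1, cXY_aR.2, cXY_one.1, cXY_one.2]
  norm_num

lemma discr_K7 {K : Type} [Field K] [NumberField K] (e : RR ≃+* 𝓞 K) :
    discr K = -7 := by
  have e' : RR ≃ₐ[ℤ] 𝓞 K := AlgEquiv.ofRingEquiv (f := e) (fun n => by
    rw [eq_intCast, eq_intCast, map_intCast])
  rw [← NumberField.discr_eq_discr K (bR.map e'.toLinearEquiv), ← discr_RR,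
    Algebra.discr_eq_discr_of_algEquiv bR e']
  rfl

lemma sqrt_discr7 {K : Type} [Field K] [NumberField K] (e : RR ≃+* 𝓞 K) :
    Real.sqrt |(discr K : ℝ)| = Real.sqrt 7 := by
  rw [discr_K7 e]
  congr 1
  norm_num

/-- the absolute values of the conjugates -/
lemma norm_em {K : Type} [Field K] [NumberField K] (e : RR ≃+* 𝓞 K) (σ : K →+* ℂ) (r : RR) :
    ‖σ (em e r)‖ = ‖(r : ℂ)‖ := by
  set f : RR →+* ℂ := σ.comp (em e) with hf
  have h0 : f r = cX r + cY r * f aR := by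
    have h1 : r = (cX r : RR) + (cY r : RR) * aR := by
      apply Subtype.ext
      push_cast
      rw [aR_coe, ← co r]
    conv_lhs => rw [h1]
    rw [map_add, map_mul, map_intCast, map_intCast]
  have h2 : (f aR) ^ 2 = f aR - 2 := by
    rw [← map_pow, aR_sq, map_sub, map_ofNat]
  have h3 : (f aR - al) * (f aR - (1 - al)) = 0 := by
    linear_combination h2 - al_sq
  show ‖f r‖ = _
  rcases mul_eq_zero.1 h3 with h4 | h4
  · rw [h0, sub_eq_zero.1 h4, ← co r]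
  · have h5 : (starRingEnd ℂ) al = 1 - al := by
      apply Complex.ext
      · rw [Complex.conj_re, Complex.sub_re, Complex.one_re, al_re]; norm_num
      · rw [Complex.conj_im, Complex.sub_im, Complex.one_im, zero_sub]
    rw [h0, sub_eq_zero.1 h4, ← h5, ← Complex.norm_conj (r : ℂ)]
    congr 1
    conv_rhs => rw [co r]
    rw [map_add, map_mul, map_intCast, map_intCast]

end Pool.Agent.R426.QC
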