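import Pool.Agent.R426.QC.Pd

/-!
# Quadratic reciprocity in the ring of integers of `ℚ(√-7)`
-/

set_option autoImplicit false
set_option linter.unusedSectionVars false

namespace Pool.Agent.R426.QC

open Pool.Agent.Y698 Pool.Agent.Y698.SG
open H667R3 Pool.Agent.W192.HK Pool.Agent.TH936.CM Pool.Agent.TH936.PU
open Pool.Agent.Y279.SG (sy_eq red cXY_cj nR_dvd qch_eq)
open Pool.Agent.Y919.SG (jac_abs gcd_natAbs sq8)

/-- the symbol of an even number -/
lemma jac_even {A B : ℤ} {N : ℕ} (hA : A % 2 = 1) (hB : B % 2 = 0) (hB0 : B ≠ 0)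
    (hc : IsCoprime A B) (hN : (N : ℤ) = A ^ 2 + 7 * B ^ 2) :
    jacobiSym B N = if B % 4 = 0 then 1 else -1 := by
  have hA2 := sq8 hA
  have hB4 : (B % 4 = 0 ∧ B ^ 2 % 8 = 0) ∨ (B % 4 = 2 ∧ B ^ 2 % 8 = 4) := by
    have h1 : B % 8 = 0 ∨ B % 8 = 2 ∨ B % 8 = 4 ∨ B % 8 = 6 := by omega
    rcases h1 with h1 | h1 | h1 | h1
    · left; refine ⟨by omega, by simp [pow_two, Int.mul_emod, h1]⟩
    · right; refine ⟨by omega, by simp [pow_two, Int.mul_emod, h1]⟩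
    · left; refine ⟨by omega, by simp [pow_two, Int.mul_emod, h1]⟩
    · right; refine ⟨by omega, by simp [pow_two, Int.mul_emod, h1]⟩
  have hN4 : N % 4 = 1 := by
    have : (N : ℤ) % 4 = 1 := by
      rw [hN]
      rcases hB4 with ⟨-, h⟩ | ⟨-, h⟩ <;> omega
    omega
  have hNodd : Odd N := Nat.odd_iff.2 (by omega)
  rw [jac_abs hN4]
  obtain ⟨k, b, hb, hkb⟩ := Nat.exists_eq_two_pow_mul_odd (n := B.natAbs) (Int.natAbs_ne_zero.2 hB0)
  have hbB : (b : ℤ) ∣ B := by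
    rw [← Int.dvd_natAbs, hkb]
    push_cast
    exact Dvd.intro_left _ rfl
  have hJb : jacobiSym (b : ℤ) N = 1 := by
    rw [← jacobiSym.quadratic_reciprocity_one_mod_four hN4 hb]
    have h1 : jacobiSym (N : ℤ) b = jacobiSym (A ^ 2) b := by
      apply jacobiSym.mod_left'
      refine Int.modEq_iff_dvd.2 ?_
      rw [hN]
      obtain ⟨c, hc⟩ := hbB
      exact ⟨-(7 * c * B), by linear_combination (-7 * B) * hc⟩
    rw [h1]
    apply jacobiSym.sq_one'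
    have h2 : IsCoprime A (b : ℤ) := hc.of_isCoprime_of_dvd_right hbB
    exact Int.isCoprime_iff_gcd_eq_one.1 h2
  have h2 : ((B.natAbs : ℕ) : ℤ) = 2 ^ k * (b : ℤ) := by
    rw [hkb]; push_cast; rfl
  rw [h2, jacobiSym.mul_left, hJb, mul_one, jacobiSym.pow_left, jacobiSym.at_two hNodd,
    ZMod.χ₈_nat_eq_if_mod_eight]
  rcases hB4 with ⟨h3, h4⟩ | ⟨h3, h4⟩
  · have hN8 : N % 8 = 1 := by
      have : (N : ℤ) % 8 = 1 := by
        rw [hN]; omega
      omega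
    rw [if_pos h3, if_neg (by omega), if_pos (Or.inl hN8), one_pow]
  · have hN8 : N % 8 = 5 := by
      have : (N : ℤ) % 8 = 5 := by
        rw [hN]; omega
      omega
    have hk : k = 1 := by
      have h5 : B.natAbs % 4 = 2 := by omega
      rw [hkb] at h5
      obtain ⟨c, hc⟩ := hb
      rcases k with _ | _ | k
      · rw [pow_zero, one_mul] at h5; omega
      · rfl
      · exfalso
        rw [pow_succ, pow_succ] at h5
        have : 2 ^ k * 2 * 2 * b = 4 * (2 ^ k * b) := by ring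
        rw [this] at h5
        omega
    rw [hk, if_neg (by omega), if_neg (by omega), if_neg (by omega), pow_one]

/-- the symbol modulo a prime element of degree one -/
lemma spl_sy {p : ℕ} (hp : p.Prime) {ϖ : RR} (hN : nR ϖ = p) (z : RR) :
    ((cY ϖ : ℤ) : ZMod p) ≠ 0 ∧
      sy ϖ z = qch p (cY ϖ * (cY ϖ * cX z - cX ϖ * cY z)) := by
  have _ : Fact p.Prime := ⟨hp⟩
  obtain ⟨φ, hφ⟩ := red hp hN
  have hsur : Function.Surjective φ := by
    intro t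
    obtain ⟨s, hs⟩ := ZMod.intCast_surjective t
    exact ⟨(s : RR), by rw [map_intCast, hs]⟩
  have hcoe : ∀ z : RR, φ z = (cX z : ZMod p) + (cY z : ZMod p) * φ aR := by
    intro z
    conv_lhs => rw [Pool.Agent.Y279.SG.dec z]
    rw [map_add, map_mul, map_intCast, map_intCast]
  have h0 : (cX ϖ : ZMod p) + (cY ϖ : ZMod p) * φ aR = 0 := by
    rw [← hcoe, hφ]
    exact Ideal.mem_span_singleton_self _
  have hY : ((cY ϖ : ℤ) : ZMod p) ≠ 0 := by
    intro hY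
    rw [hY, zero_mul, add_zero] at h0
    rw [ZMod.intCast_zmod_eq_zero_iff_dvd] at h0 hY
    obtain ⟨a, ha⟩ := h0
    obtain ⟨b, hb⟩ := hY
    have h1 : (p : ℤ) = (p : ℤ) ^ 2 * (a ^ 2 + a * b + 2 * b ^ 2) := by
      rw [← hN]
      nth_rewrite 1 [nR]
      rw [ha, hb, hN]
      ring
    have h2 : (p : ℤ) ≠ 0 := by exact_mod_cast hp.ne_zero
    have h3 : (p : ℤ) ∣ 1 := by
      refine ⟨a ^ 2 + a * b + 2 * b ^ 2, ?_⟩
      apply mul_left_cancel₀ h2
      linear_combination h1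
    have h4 : p ∣ 1 := by exact_mod_cast h3
    exact hp.one_lt.ne' (Nat.dvd_one.1 h4)
  refine ⟨hY, ?_⟩
  rw [sy_eq φ hsur hφ, qch_eq]
  have e : ((cY ϖ * (cY ϖ * cX z - cX ϖ * cY z) : ℤ) : ZMod p) =
      (cY ϖ : ZMod p) ^ 2 * φ z := by
    rw [hcoe z]
    push_cast
    linear_combination (-(cY ϖ : ZMod p) * (cY z : ZMod p)) * h0
  rw [e, map_mul, map_pow, quadraticChar_sq_one hY, one_mul]

lemma sy_zero_iff {ϖ x : RR} : sy ϖ x = 0 ↔ x ∈ sp ϖ := by
  rcases sy_val ϖ x with h | ⟨h1, h2⟩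
  · exact ⟨fun _ => h.1, fun _ => h.2⟩
  · refine ⟨fun h => ?_, fun h => absurd h h1⟩
    exfalso
    rcases h2 with h3 | h3 <;> rw [h3] at h <;> norm_num at h

lemma qch_zero_of {p : ℕ} {m : ℤ} (hp : p.Prime) (h : (p : ℤ) ∣ m) : qch p m = 0 := by
  rcases qch_val hp m with h1 | h1
  · exact h1.2
  · exact absurd h h1.1

lemma jac_ne {a : ℤ} {b : ℕ} (h : jacobiSym a b ≠ 0) : jacobiSym a b = 1 ∨ jacobiSym a b = -1 := by
  rcases jacobiSym.trichotomy a b with h1 | h1 | h1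
  · exact absurd h1 h
  · exact Or.inl h1
  · exact Or.inr h1

/-- reciprocity for two primes of degree one -/
theorem rec_ss {p p' : ℕ} (hp : Spl p) (hp' : Spl p') {ϖ ϖ' : RR} (hN : nR ϖ = p)
    (hN' : nR ϖ' = p') (h4 : ∃ u : RR, ϖ = 1 + 4 * u) (h4' : ∃ u : RR, ϖ' = 1 + 4 * u)
    (hne : ϖ' ∉ sp ϖ) (hne' : ϖ ∉ sp ϖ') : sy ϖ ϖ' = sy ϖ' ϖ := by
  obtain ⟨x, y, hx, hy⟩ := coord4 h4
  obtain ⟨x', y', hx', hy'⟩ := coord4 h4'
  obtain ⟨hY, s1⟩ := spl_sy hp.pr hN ϖ'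
  obtain ⟨hY', s2⟩ := spl_sy hp'.pr hN' ϖ
  obtain ⟨A, hA⟩ : ∃ A : ℤ, A = 1 + 4 * x + 2 * y := ⟨_, rfl⟩
  obtain ⟨B, hB⟩ : ∃ B : ℤ, B = 2 * y := ⟨_, rfl⟩
  obtain ⟨C, hC⟩ : ∃ C : ℤ, C = 1 + 4 * x' + 2 * y' := ⟨_, rfl⟩
  obtain ⟨D, hD⟩ : ∃ D : ℤ, D = 2 * y' := ⟨_, rfl⟩
  obtain ⟨n, hn⟩ : ∃ n : ℤ, n = B * C - A * D := ⟨_, rfl⟩
  have e1 : cY ϖ * (cY ϖ * cX ϖ' - cX ϖ * cY ϖ') = 2 ^ 2 * (B * n) := by
    rw [hx, hy, hx', hy', hn, hA, hB, hC, hD]; ring
  have e2 : cY ϖ' * (cY ϖ' * cX ϖ - cX ϖ' * cY ϖ) = -(2 ^ 2 * (D * n)) := by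
    rw [hx, hy, hx', hy', hn, hA, hB, hC, hD]; ring
  have hpe : (p : ℤ) = A ^ 2 + 7 * B ^ 2 := by
    rw [← hN]
    unfold nR
    rw [hx, hy, hA, hB]; ring
  have hpe' : (p' : ℤ) = C ^ 2 + 7 * D ^ 2 := by
    rw [← hN']
    unfold nR
    rw [hx', hy', hC, hD]; ring
  have hpp : ((p * p' : ℕ) : ℤ) = (A * C + 7 * (B * D)) ^ 2 + 7 * n ^ 2 := by
    push_cast
    rw [hpe, hpe', hn]; ring
  have hB0 : B ≠ 0 := by
    intro h
    apply hY
    have : y = 0 := by omega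
    rw [hy, this]
    simp
  have hD0 : D ≠ 0 := by
    intro h
    apply hY'
    have : y' = 0 := by omega
    rw [hy', this]
    simp
  have hpn : ¬ (p : ℤ) ∣ n := by
    intro h
    apply hne
    rw [← sy_zero_iff, s1, e1]
    exact qch_zero_of hp.pr ((h.mul_left B).mul_left _)
  have hpn' : ¬ (p' : ℤ) ∣ n := by
    intro h
    apply hne'
    rw [← sy_zero_iff, s2, e2]
    exact qch_zero_of hp'.pr ((dvd_neg).2 ((h.mul_left D).mul_left _))
  have hn0 : n ≠ 0 := fun h => hpn (h ▸ dvd_zero _)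
  have cop : ∀ {l : ℕ} {a b : ℤ}, l.Prime → (l : ℤ) = a ^ 2 + 7 * b ^ 2 → IsCoprime a b := by
    intro l a b hl h
    rw [Int.isCoprime_iff_gcd_eq_one]
    by_contra hg
    obtain ⟨r, hr, hr1⟩ := Nat.exists_prime_and_dvd hg
    have h1 : (r : ℤ) ∣ a := (Int.natCast_dvd_natCast.2 hr1).trans (Int.gcd_dvd_left ..)
    have h2 : (r : ℤ) ∣ b := (Int.natCast_dvd_natCast.2 hr1).trans (Int.gcd_dvd_right ..)
    have h3 : ((r : ℤ)) ^ 2 ∣ l := by
      rw [h]
      exact dvd_add (pow_dvd_pow_of_dvd h1 2) ((pow_dvd_pow_of_dvd h2 2).mul_left _)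
    have h4 : r ^ 2 ∣ l := by exact_mod_cast h3
    have h5 : r ∣ l := (dvd_pow_self r two_ne_zero).trans h4
    rcases (Nat.dvd_prime hl).1 h5 with h6 | h6
    · exact hr.one_lt.ne' h6
    · rw [h6] at h4
      have h7 := Nat.le_of_dvd hl.pos h4
      have := hl.two_le
      nlinarith
  have c1 := cop hp.pr hpe
  have c2 := cop hp'.pr hpe'
  have c3 : IsCoprime (A * C + 7 * (B * D)) n := by
    rw [Int.isCoprime_iff_gcd_eq_one]
    by_contra hg
    obtain ⟨r, hr, hr1⟩ := Nat.exists_prime_and_dvd hg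
    have h1 : (r : ℤ) ∣ A * C + 7 * (B * D) :=
      (Int.natCast_dvd_natCast.2 hr1).trans (Int.gcd_dvd_left ..)
    have h2 : (r : ℤ) ∣ n := (Int.natCast_dvd_natCast.2 hr1).trans (Int.gcd_dvd_right ..)
    have h3 : (r : ℤ) ∣ ((p * p' : ℕ) : ℤ) := by
      rw [hpp]
      exact dvd_add (dvd_pow h1 two_ne_zero) ((dvd_pow h2 two_ne_zero).mul_left _)
    have h4 : r ∣ p * p' := by exact_mod_cast h3
    rcases (hr.dvd_mul).1 h4 with h5 | h5
    · rw [(Nat.prime_dvd_prime_iff_eq hr hp.pr).1 h5] at h2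
      exact hpn h2
    · rw [(Nat.prime_dvd_prime_iff_eq hr hp'.pr).1 h5] at h2
      exact hpn' h2
  have j1 := jac_even (by omega) (by omega) hB0 c1 hpe
  have j2 := jac_even (by omega) (by omega) hD0 c2 hpe'
  have hnp : n = 2 * (y * C - A * y') := by rw [hn, hB, hD]; ring
  have hXodd : (A * C + 7 * (B * D)) % 2 = 1 := by
    have h1 : A % 2 = 1 := by omega
    have h2 : C % 2 = 1 := by omega
    have h3 : (A * C) % 2 = 1 := by rw [Int.mul_emod, h1, h2]; rfl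
    have h5 : 7 * (B * D) = 2 * (7 * (y * D)) := by rw [hB]; ring
    rw [h5]
    omega
  have j3 := jac_even hXodd (by omega) hn0 c3 hpp
  have : NeZero p := ⟨hp.pr.ne_zero⟩
  have : NeZero p' := ⟨hp'.pr.ne_zero⟩
  rw [jacobiSym.mul_right] at j3
  have hp2 : ((2 : ℤ)).gcd p = 1 := by
    rw [← Int.isCoprime_iff_gcd_eq_one]
    have : Nat.Coprime 2 p := (Nat.coprime_primes Nat.prime_two hp.pr).2 (by
      rintro rfl
      have := hp.m4
      omega)
    exact_mod_cast Nat.isCoprime_iff_coprime.2 this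
  have hp2' : ((2 : ℤ)).gcd p' = 1 := by
    rw [← Int.isCoprime_iff_gcd_eq_one]
    have : Nat.Coprime 2 p' := (Nat.coprime_primes Nat.prime_two hp'.pr).2 (by
      rintro rfl
      have := hp'.m4
      omega)
    exact_mod_cast Nat.isCoprime_iff_coprime.2 this
  have hneg : jacobiSym (-1) p' = 1 := by
    rw [jacobiSym.at_neg_one (Nat.odd_iff.2 (by have := hp'.m4; omega)),
      ZMod.χ₄_nat_one_mod_four hp'.m4]
  rw [s1, s2, e1, e2]
  unfold qch
  congr 1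
  have e3 : -(2 ^ 2 * (D * n)) = -1 * (2 ^ 2 * (D * n)) := by ring
  rw [e3, jacobiSym.mul_left, jacobiSym.mul_left, jacobiSym.mul_left, jacobiSym.mul_left,
    jacobiSym.mul_left, hneg, jacobiSym.sq_one' hp2, jacobiSym.sq_one' hp2', j1, j2]
  -- the parities
  have hA1 : A % 2 = 1 := by omega
  have hC1 : C % 2 = 1 := by omega
  have hpar : (y * C - A * y') % 2 = (y + y') % 2 := by
    have h1 : (y * C) % 2 = y % 2 := by rw [Int.mul_emod, hC1, mul_one, Int.emod_emod]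
    have h2 : (A * y') % 2 = y' % 2 := by rw [Int.mul_emod, hA1, one_mul, Int.emod_emod]
    omega
  have hJ0 : jacobiSym n p ≠ 0 := by
    intro h
    rw [h, zero_mul] at j3
    split_ifs at j3 <;> norm_num at j3
  have hJ0' : jacobiSym n p' ≠ 0 := by
    intro h
    rw [h, mul_zero] at j3
    split_ifs at j3 <;> norm_num at j3
  have b1 : B % 4 = 0 ↔ y % 2 = 0 := by omega
  have b2 : D % 4 = 0 ↔ y' % 2 = 0 := by omega
  have b3 : n % 4 = 0 ↔ (y + y') % 2 = 0 := by omega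
  simp only [b1, b2, b3] at j3 ⊢
  rcases jac_ne hJ0 with k1 | k1 <;> rcases jac_ne hJ0' with k2 | k2 <;> rw [k1, k2] at j3 ⊢ <;>
    split_ifs at j3 ⊢ <;> first | (norm_num; done) | (exfalso; omega) | (norm_num at j3; done)

/-- reciprocity for a prime of degree one and an inert prime -/
theorem rec_si {p q : ℕ} (hp : Spl p) (hq : In q) {ϖ ϖ' : RR} (hN : nR ϖ = p)
    (h4 : ∃ u : RR, ϖ = 1 + 4 * u) (hϖ' : ϖ' = q ∨ ϖ' = -q) : sy ϖ ϖ' = sy ϖ' ϖ := by
  have h1 : sy ϖ' ϖ = qch q p := by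
    rw [← hN, ← hq.sy]
    rcases hϖ' with rfl | rfl
    · rfl
    · exact sy_negm _ _
  have h2 : sy ϖ ϖ' = qch p q := by
    have h3 := (Pool.Agent.Y279.SG.t_PD1 p ϖ hp hN h4).2.2.2.1
    rcases hϖ' with rfl | rfl
    · have := h3 (q : ℤ)
      rwa [Int.cast_natCast] at this
    · have := h3 (-(q : ℤ))
      rw [Int.cast_neg, Int.cast_natCast] at this
      rw [this]
      unfold qch
      congr 1
      rw [jacobiSym.neg _ (Nat.odd_iff.2 (by have := hp.m4; omega)),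
        ZMod.χ₄_nat_one_mod_four hp.m4, one_mul]
  rw [h1, h2]
  unfold qch
  congr 1
  exact (jacobiSym.quadratic_reciprocity_one_mod_four hp.m4
    (hq.pr.odd_of_ne_two hq.h2)).symm

theorem rec_ii {q q' : ℕ} (hq : In q) (_hq' : In q') {ϖ ϖ' : RR} (hϖ : ϖ = q ∨ ϖ = -q)
    (hϖ' : ϖ' = q' ∨ ϖ' = -q') (hne : ϖ' ∉ sp ϖ) : sy ϖ ϖ' = 1 := by
  have h1 : sy ϖ ϖ' = qch q (nR ϖ') := by
    rw [← hq.sy]
    rcases hϖ with rfl | rfl
    · rfl
    · exact sy_negm _ _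
  have h2 : nR ϖ' = (q' : ℤ) ^ 2 := by
    rcases hϖ' with rfl | rfl
    · rw [nR_nat]
    · rw [nR_neg, nR_nat]
  have h0 : sy ϖ ϖ' ≠ 0 := fun h => hne (sy_zero_iff.1 h)
  rw [h1, h2] at h0 ⊢
  unfold qch at h0 ⊢
  have h3 : jacobiSym ((q' : ℤ) ^ 2) q = 1 := by
    apply jacobiSym.sq_one'
    by_contra hg
    apply h0
    rw [jacobiSym.pow_left]
    have : jacobiSym (q' : ℤ) q = 0 := by
      rw [jacobiSym.eq_zero_iff]
      exact ⟨hq.pr.ne_zero, hg⟩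
    rw [this]
    norm_num
  rw [h3]
  norm_num

/-- **quadratic reciprocity** -/
theorem Pm.recip {ϖ ϖ' : RR} (h : Pm ϖ) (h' : Pm ϖ') (hne : ϖ' ∉ sp ϖ) (hne' : ϖ ∉ sp ϖ') :
    sy ϖ ϖ' = sy ϖ' ϖ := by
  rcases h.cases with ⟨p, hp, hN⟩ | ⟨q, hq, hϖ⟩ <;>
    rcases h'.cases with ⟨p', hp', hN'⟩ | ⟨q', hq', hϖ'⟩
  · exact rec_ss hp hp' hN hN' h.m4 h'.m4 hne hne'
  · exact rec_si hp hq' hN h.m4 hϖ'
  · exact (rec_si hp' hq hN' h'.m4 hϖ).symm
  · rw [rec_ii hq hq' hϖ hϖ' hne, rec_ii hq' hq hϖ' hϖ hne']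

/-- the sign of an inert prime element -/
lemma inert_sign {q : ℕ} (hq : In q) {ϖ : RR} (h4 : ∃ u : RR, ϖ = 1 + 4 * u)
    (hϖ : ϖ = q ∨ ϖ = -q) : (q % 4 = 1 ∧ ϖ = q) ∨ (q % 4 = 3 ∧ ϖ = -q) := by
  obtain ⟨x, y, hx, hy⟩ := coord4 h4
  have hodd : q % 2 = 1 := Nat.odd_iff.1 (hq.pr.odd_of_ne_two hq.h2)
  rcases hϖ with h | h
  · left
    rw [h, (cXY_nat q).1] at hx
    exact ⟨by omega, h⟩
  · right
    rw [h, (cXY_neg _).1, (cXY_nat q).1] at hx
    exact ⟨by omega, h⟩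

/-- **the supplementary law for `√-7`** -/
theorem Pm.seven {ϖ : RR} (h : Pm ϖ) : sy ϖ fR = e7 ϖ := by
  rcases h.cases with ⟨p, hp, hN⟩ | ⟨q, hq, hϖ⟩
  · exact (Pool.Agent.Y919.SG.t_RC Pool.Agent.Y279.SG.t_PD1 p ϖ hp hN h.m4).2.1
  · have h1 : sy ϖ fR = qch q 7 := by
      rw [← nR_fR, ← hq.sy]
      rcases hϖ with rfl | rfl
      · rfl
      · exact sy_negm _ _
    rw [h1]
    have _ : Fact (Nat.Prime 7) := ⟨by norm_num⟩
    have e7q : e7 (q : RR) = ((jacobiSym (q : ℤ) 7 : ℤ) : ℂ) := by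
      rw [e7_nat, ← jacobiSym.legendreSym.to_jacobiSym]
      unfold legendreSym
      rw [Int.cast_natCast]
    have hodd : Odd q := hq.pr.odd_of_ne_two hq.h2
    unfold qch
    rcases inert_sign hq h.m4 hϖ with ⟨h4, h5⟩ | ⟨h4, h5⟩
    · rw [h5, e7q]
      congr 1
      have := jacobiSym.quadratic_reciprocity_one_mod_four h4 (by decide : Odd 7)
      exact this.symm
    · rw [h5, e7_neg, e7q]
      have := jacobiSym.quadratic_reciprocity_three_mod_four h4 (by norm_num : 7 % 4 = 3)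
      rw [this]
      push_cast
      ring

lemma chi8_neg : ∀ z : ZMod 8, ZMod.χ₈ (-z) = ZMod.χ₈ z := by decide

lemma chi8_abs (x : ℤ) : ZMod.χ₈ ((x.natAbs : ℕ) : ZMod 8) = ZMod.χ₈ ((x : ℤ) : ZMod 8) := by
  rcases Int.natAbs_eq x with h | h
  · conv_rhs => rw [h]
    rw [Int.cast_natCast]
  · conv_rhs => rw [h]
    rw [Int.cast_neg, Int.cast_natCast, chi8_neg]

/-- **the supplementary law for `(1 + √-7) / 2`** -/
theorem Pm.two {ϖ : RR} (h : Pm ϖ) :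
    sy ϖ aR = ((ZMod.χ₈ ((cX ϖ : ℤ) : ZMod 8) : ℤ) : ℂ) := by
  rcases h.cases with ⟨p, hp, hN⟩ | ⟨q, hq, hϖ⟩
  · obtain ⟨x, y, hx, hy⟩ := coord4 h.m4
    obtain ⟨hY, s1⟩ := spl_sy hp.pr hN aR
    rw [s1, cXY_aR.1, cXY_aR.2, mul_zero, zero_sub, mul_one]
    obtain ⟨A, hA⟩ : ∃ A : ℤ, A = 1 + 4 * x + 2 * y := ⟨_, rfl⟩
    obtain ⟨B, hB⟩ : ∃ B : ℤ, B = 2 * y := ⟨_, rfl⟩
    have hpe : (p : ℤ) = A ^ 2 + 7 * B ^ 2 := by
      rw [← hN]
      unfold nR
      rw [hx, hy, hA, hB]; ring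
    have hB0 : B ≠ 0 := by
      intro h
      apply hY
      have : y = 0 := by omega
      rw [hy, this]
      simp
    have cop : IsCoprime A B := by
      rw [Int.isCoprime_iff_gcd_eq_one]
      by_contra hg
      obtain ⟨r, hr, hr1⟩ := Nat.exists_prime_and_dvd hg
      have h1 : (r : ℤ) ∣ A := (Int.natCast_dvd_natCast.2 hr1).trans (Int.gcd_dvd_left ..)
      have h2 : (r : ℤ) ∣ B := (Int.natCast_dvd_natCast.2 hr1).trans (Int.gcd_dvd_right ..)
      have h3 : ((r : ℤ)) ^ 2 ∣ p := by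
        rw [hpe]
        exact dvd_add (pow_dvd_pow_of_dvd h1 2) ((pow_dvd_pow_of_dvd h2 2).mul_left _)
      have h4 : r ^ 2 ∣ p := by exact_mod_cast h3
      have h5 : r ∣ p := (dvd_pow_self r two_ne_zero).trans h4
      rcases (Nat.dvd_prime hp.pr).1 h5 with h6 | h6
      · exact hr.one_lt.ne' h6
      · rw [h6] at h4
        have h7 := Nat.le_of_dvd hp.pr.pos h4
        have := hp.pr.two_le
        nlinarith
    have j1 := jac_even (by omega) (by omega) hB0 cop hpe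
    have hpodd : Odd p := Nat.odd_iff.2 (by have := hp.m4; omega)
    have hneg : jacobiSym (-1) p = 1 := by
      rw [jacobiSym.at_neg_one hpodd, ZMod.χ₄_nat_one_mod_four hp.m4]
    have j2 : jacobiSym 2 p = if B % 4 = 0 then 1 else -1 := by
      rw [jacobiSym.at_two hpodd, ZMod.χ₈_nat_eq_if_mod_eight]
      have hA2 := sq8 (t := A) (by omega)
      have hB4 : (B % 4 = 0 ∧ B ^ 2 % 8 = 0) ∨ (B % 4 = 2 ∧ B ^ 2 % 8 = 4) := by
        have h1 : B % 8 = 0 ∨ B % 8 = 2 ∨ B % 8 = 4 ∨ B % 8 = 6 := by omega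
        rcases h1 with h1 | h1 | h1 | h1
        · left; refine ⟨by omega, by simp [pow_two, Int.mul_emod, h1]⟩
        · right; refine ⟨by omega, by simp [pow_two, Int.mul_emod, h1]⟩
        · left; refine ⟨by omega, by simp [pow_two, Int.mul_emod, h1]⟩
        · right; refine ⟨by omega, by simp [pow_two, Int.mul_emod, h1]⟩
      rcases hB4 with ⟨h3, h4⟩ | ⟨h3, h4⟩
      · have hN8 : p % 8 = 1 := by
          have : (p : ℤ) % 8 = 1 := by
            rw [hpe]; omega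
          omega
        rw [if_pos h3, if_neg (by omega), if_pos (Or.inl hN8)]
      · have hN8 : p % 8 = 5 := by
          have : (p : ℤ) % 8 = 5 := by
            rw [hpe]; omega
          omega
        rw [if_neg (by omega), if_neg (by omega), if_neg (by omega)]
    have e1 : cY ϖ * -cX ϖ = -1 * (2 * (B * cX ϖ)) := by
      rw [hy, hB]; ring
    rw [e1]
    unfold qch
    congr 1
    rw [jacobiSym.mul_left, jacobiSym.mul_left, jacobiSym.mul_left, hneg, j1, j2, one_mul,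
      ← mul_assoc]
    have e2 : ((if B % 4 = 0 then 1 else -1 : ℤ) * if B % 4 = 0 then 1 else -1) = 1 := by
      split_ifs <;> norm_num
    rw [e2, one_mul, jac_abs hp.m4]
    have hodd : Odd (cX ϖ).natAbs := by
      rw [Int.natAbs_odd, hx]
      exact ⟨2 * x, by ring⟩
    rw [← jacobiSym.quadratic_reciprocity_one_mod_four hp.m4 hodd, ← chi8_abs,
      ← jacobiSym.at_two hodd]
    have e3 : jacobiSym (p : ℤ) (cX ϖ).natAbs = jacobiSym (2 * (cY ϖ) ^ 2) (cX ϖ).natAbs := by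
      apply jacobiSym.mod_left'
      refine Int.modEq_iff_dvd.2 ?_
      rw [Int.natCast_natAbs]
      refine (abs_dvd _ _).2 ⟨-(cX ϖ + cY ϖ), ?_⟩
      rw [← hN]
      unfold nR
      ring
    rw [e3, jacobiSym.mul_left]
    have e4 : jacobiSym ((cY ϖ) ^ 2) (cX ϖ).natAbs = 1 := by
      apply jacobiSym.sq_one'
      rw [gcd_natAbs, ← Int.isCoprime_iff_gcd_eq_one]
      have h1 : IsCoprime (cX ϖ) (2 : ℤ) := by
        rw [hx]
        exact ⟨1, -2 * x, by ring⟩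
      have h2 : IsCoprime (cX ϖ) B := by
        have h3 : cX ϖ = A + (-1) * B := by rw [hx, hA, hB]; ring
        rw [h3]
        exact IsCoprime.add_mul_right_left_iff.2 cop
      have h3 : cY ϖ = 2 * B := by rw [hy, hB]; ring
      rw [h3]
      exact (h1.mul_right h2).symm
    rw [e4, mul_one]
  · have h1 : sy ϖ aR = qch q 2 := by
      have h2 : nR aR = 2 := by
        unfold nR
        rw [cXY_aR.1, cXY_aR.2]
        norm_num
      rw [← h2, ← hq.sy]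
      rcases hϖ with rfl | rfl
      · rfl
      · exact sy_negm _ _
    rw [h1]
    unfold qch
    congr 1
    rw [jacobiSym.at_two (hq.pr.odd_of_ne_two hq.h2)]
    rcases hϖ with rfl | rfl
    · rw [(cXY_nat q).1, Int.cast_natCast]
    · rw [(cXY_neg _).1, (cXY_nat q).1, Int.cast_neg, Int.cast_natCast, chi8_neg]

end Pool.Agent.R426.QC
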