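import Pool.Agent.R426.QC.Rec

/-!
# Quadratic reciprocity in the ring of integers of `ℚ(√-7)`, arbitrary odd prime elements
-/

set_option autoImplicit false
set_option linter.unusedSectionVars false

namespace Pool.Agent.R426.QC

open Pool.Agent.Y698 Pool.Agent.Y698.SG
open H667R3 Pool.Agent.W192.HK Pool.Agent.TH936.CM Pool.Agent.TH936.PU
open Pool.Agent.Y279.SG (sy_eq red cXY_cj nR_dvd qch_eq unit_of_nR dvd_coord)
open Pool.Agent.Y919.SG (jac_abs gcd_natAbs sq8)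

/-- the prime elements -/
theorem prime_cases {ϖ : RR} (h : Prime ϖ) :
    (∃ p : ℕ, p.Prime ∧ nR ϖ = p) ∨ ∃ q : ℕ, In q ∧ (ϖ = q ∨ ϖ = -q) := by
  obtain ⟨p, hp, c, hc⟩ := exists_below h
  have _ : Fact p.Prime := ⟨hp⟩
  have hpos := nR_pos h.ne_zero
  have hmul : nR ϖ * nR c = (p : ℤ) ^ 2 := by
    rw [← nR_mul, ← hc, nR_nat]
  have hnat : (nR ϖ).natAbs * (nR c).natAbs = p ^ 2 := by
    rw [← Int.natAbs_mul, hmul]
    simp [Int.natAbs_pow]
  obtain ⟨i, hi, hi'⟩ := (Nat.dvd_prime_pow hp).1 (Dvd.intro _ hnat)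
  have hN' : nR ϖ = (p : ℤ) ^ i := by
    have h1 : ((nR ϖ).natAbs : ℤ) = nR ϖ := Int.natAbs_of_nonneg hpos.le
    rw [← h1, hi']
    push_cast
    rfl
  interval_cases i
  · exfalso
    apply h.not_isUnit
    apply unit_of_nR
    rw [hN', pow_zero]
  · left
    rw [pow_one] at hN'
    exact ⟨p, hp, hN'⟩
  · right
    have hcu : nR c = 1 := by
      have h2 : (p : ℤ) ^ 2 ≠ 0 := pow_ne_zero 2 (by exact_mod_cast hp.ne_zero)
      apply mul_left_cancel₀ h2
      rw [← hN', hmul, mul_one, hN']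
    have hϖ : ϖ = p ∨ ϖ = -p := by
      rcases isUnit_iff.1 (unit_of_nR hcu) with h1 | h1
      · left; rw [hc, h1, mul_one]
      · right; rw [hc, h1]; ring
    have hpR : Prime (p : RR) := by
      rcases hϖ with h1 | h1
      · rw [← h1]; exact h
      · have := h.neg
        rwa [h1, neg_neg] at this
    have hp2 : p ≠ 2 := by
      rintro rfl
      have hpR' : Prime ((2 : ℤ) : RR) := by
        have := hpR
        push_cast at this ⊢
        exact this
      have h1 : ((2 : ℤ) : RR) ∣ aR * (1 - aR) := by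
        refine ⟨1, ?_⟩
        have := aR_sq
        push_cast
        linear_combination -this
      rcases hpR'.dvd_or_dvd h1 with h2 | h2
      · have h3 := (dvd_coord h2).2
        rw [cXY_aR.2] at h3
        norm_num at h3
      · have h3 := (dvd_coord h2).2
        rw [sub_eq_add_neg, (cXY_add _ _).2, cXY_one.2, (cXY_neg _).2, cXY_aR.2] at h3
        norm_num at h3
    refine ⟨p, ⟨hp, hp2, ?_⟩, hϖ⟩
    rintro ⟨t, ht⟩
    obtain ⟨s, hs⟩ := ZMod.intCast_surjective t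
    have h7 : (p : ℤ) ∣ s ^ 2 + 7 := by
      rw [← ZMod.intCast_zmod_eq_zero_iff_dvd]
      push_cast
      rw [hs]
      linear_combination -ht
    have hsf : ((p : ℤ) : RR) ∣ ((s : RR) - fR) * ((s : RR) + fR) := by
      obtain ⟨k, hk⟩ := h7
      refine ⟨(k : RR), ?_⟩
      have hk' : ((s ^ 2 + 7 : ℤ) : RR) = ((p * k : ℤ) : RR) := by rw [hk]
      push_cast at hk'
      push_cast
      linear_combination hk' - fR_sq
    have hpd : ¬ ((p : ℤ) ∣ 2) := by
      intro h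
      have h1 : p ∣ 2 := by exact_mod_cast h
      exact hp2 ((Nat.prime_dvd_prime_iff_eq hp Nat.prime_two).1 h1)
    have hpR' : Prime ((p : ℤ) : RR) := by rwa [Int.cast_natCast]
    rcases hpR'.dvd_or_dvd hsf with h | h
    · have h1 := (dvd_coord h).2
      apply hpd
      have h2 : cY ((s : RR) - fR) = -2 := by
        rw [sub_eq_add_neg, (cXY_add _ _).2, (cXY_int s).2, (cXY_neg _).2, cXY_fR.2]
        norm_num
      rw [h2] at h1
      exact (dvd_neg).1 h1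
    · have h1 := (dvd_coord h).2
      apply hpd
      have h2 : cY ((s : RR) + fR) = 2 := by
        rw [(cXY_add _ _).2, (cXY_int s).2, cXY_fR.2]
        norm_num
      rw [h2] at h1
      exact h1

/-- the sign of an odd number -/
def sg4 (n : ℤ) : ℤ := if n % 4 = 1 then 1 else -1

/-- the symbol of an odd number -/
lemma jac_odd {M n : ℤ} {N : ℕ} (hn : n % 2 = 1) (hc : IsCoprime M n)
    (hN : (N : ℤ) = M ^ 2 + 7 * n ^ 2) (hN4 : N % 4 = 3) : jacobiSym n N = sg4 n := by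
  have hNodd : Odd N := Nat.odd_iff.2 (by omega)
  have hb : Odd n.natAbs := Nat.odd_iff.2 (by omega)
  have hJb : jacobiSym (N : ℤ) n.natAbs = 1 := by
    have h1 : jacobiSym (N : ℤ) n.natAbs = jacobiSym (M ^ 2) n.natAbs := by
      apply jacobiSym.mod_left'
      refine Int.modEq_iff_dvd.2 ?_
      rw [hN, Int.natAbs_dvd]
      exact ⟨-(7 * n), by ring⟩
    rw [h1]
    apply jacobiSym.sq_one'
    rw [← Int.isCoprime_iff_gcd_eq_one]
    have h2 : IsCoprime M ((n.natAbs : ℕ) : ℤ) := by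
      refine hc.of_isCoprime_of_dvd_right ?_
      rw [Int.natAbs_dvd]
    exact h2
  have hm1 : jacobiSym (-1) N = -1 := by
    rw [jacobiSym.at_neg_one hNodd, ZMod.χ₄_nat_three_mod_four hN4]
  -- the absolute value
  have habs : jacobiSym (n.natAbs : ℤ) N = if n.natAbs % 4 = 1 then 1 else -1 := by
    split_ifs with h4
    · rw [jacobiSym.quadratic_reciprocity_one_mod_four h4 hNodd, hJb]
    · have h4' : n.natAbs % 4 = 3 := by
        have := Nat.odd_iff.1 hb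
        omega
      rw [jacobiSym.quadratic_reciprocity_three_mod_four h4' hN4, hJb]
  unfold sg4
  rcases Int.natAbs_eq n with h | h
  · rw [← h] at habs
    rw [habs]
    congr 1
    apply propext
    omega
  · have e : n = -1 * (n.natAbs : ℤ) := by omega
    rw [e, jacobiSym.mul_left, hm1, habs]
    have hodd := Nat.odd_iff.1 hb
    by_cases h4 : n.natAbs % 4 = 1
    · rw [if_pos h4, if_neg (by omega)]
      norm_num
    · rw [if_neg h4, if_pos (by omega)]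
      norm_num

lemma cop_of_norm {l : ℕ} {a b : ℤ} (hl : l.Prime) (h : (l : ℤ) = a ^ 2 + 7 * b ^ 2) :
    IsCoprime a b := by
  rw [Int.isCoprime_iff_gcd_eq_one]
  by_contra hg
  obtain ⟨r, hr, hr1⟩ := Nat.exists_prime_and_dvd hg
  have h1 : (r : ℤ) ∣ a := (Int.natCast_dvd_natCast.2 hr1).trans (Int.gcd_dvd_left ..)
  have h2 : (r : ℤ) ∣ b := (Int.natCast_dvd_natCast.2 hr1).trans (Int.gcd_dvd_right ..)
  have h3 : ((r : ℤ)) ^ 2 ∣ l := by
    rw [h]
    exact dvd_add (pow_dvd_pow_of_dvd h1 2) ((pow_dvd_pow_of_dvd h2 2).mul_left _)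
  have h4 : r ^ 2 ∣ l := by exact_mod_cast h3
  have h5 : r ∣ l := (dvd_pow_self r two_ne_zero).trans h4
  rcases (Nat.dvd_prime hl).1 h5 with h6 | h6
  · exact hr.one_lt.ne' h6
  · rw [h6] at h4
    have h7 := Nat.le_of_dvd hl.pos h4
    have := hl.two_le
    nlinarith

lemma sg4_sq (n : ℤ) : sg4 n * sg4 n = 1 := by
  unfold sg4
  split_ifs <;> norm_num

/-- reciprocity for two primes of degree one, the second one `≡ ± √-7 mod 4` -/
theorem rec_st {p p' : ℕ} (hp : Spl p) (hp' : p'.Prime) {ϖ ϖ' : RR} (hN : nR ϖ = p)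
    (hN' : nR ϖ' = p') (h4 : ∃ u : RR, ϖ = 1 + 4 * u) {C D : ℤ} (hD : D % 2 = 1) (hC : C % 2 = 0)
    (hX : cX ϖ' = C - D) (hY' : cY ϖ' = 2 * D)
    (hne : ϖ' ∉ sp ϖ) (hne' : ϖ ∉ sp ϖ') : sy ϖ ϖ' = sy ϖ' ϖ := by
  obtain ⟨x, y, hx, hy⟩ := coord4 h4
  obtain ⟨hY, s1⟩ := spl_sy hp.pr hN ϖ'
  obtain ⟨-, s2⟩ := spl_sy hp' hN' ϖ
  obtain ⟨A, hA⟩ : ∃ A : ℤ, A = 1 + 4 * x + 2 * y := ⟨_, rfl⟩
  obtain ⟨B, hB⟩ : ∃ B : ℤ, B = 2 * y := ⟨_, rfl⟩
  obtain ⟨n, hn⟩ : ∃ n : ℤ, n = B * C - A * D := ⟨_, rfl⟩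
  have e1 : cY ϖ * (cY ϖ * cX ϖ' - cX ϖ * cY ϖ') = 2 ^ 2 * (B * n) := by
    rw [hx, hy, hX, hY', hn, hA, hB]; ring
  have e2 : cY ϖ' * (cY ϖ' * cX ϖ - cX ϖ' * cY ϖ) = 2 ^ 2 * (-D * n) := by
    rw [hx, hy, hX, hY', hn, hA, hB]; ring
  have hpe : (p : ℤ) = A ^ 2 + 7 * B ^ 2 := by
    rw [← hN]
    unfold nR
    rw [hx, hy, hA, hB]; ring
  have hpe' : (p' : ℤ) = C ^ 2 + 7 * D ^ 2 := by
    rw [← hN']
    unfold nR
    rw [hX, hY']; ring
  have hpp : ((p * p' : ℕ) : ℤ) = (A * C + 7 * (B * D)) ^ 2 + 7 * n ^ 2 := by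
    push_cast
    rw [hpe, hpe', hn]; ring
  have hB0 : B ≠ 0 := by
    intro h
    apply hY
    have : y = 0 := by omega
    rw [hy, this]
    simp
  have hpn : ¬ (p : ℤ) ∣ n := by
    intro h
    apply hne
    rw [← sy_zero_iff, s1, e1]
    exact qch_zero_of hp.pr ((h.mul_left B).mul_left _)
  have hpn' : ¬ (p' : ℤ) ∣ n := by
    intro h
    apply hne'
    rw [← sy_zero_iff, s2, e2]
    exact qch_zero_of hp' ((h.mul_left (-D)).mul_left _)
  have c1 := cop_of_norm hp.pr hpe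
  have c2 := cop_of_norm hp' hpe'
  have c3 : IsCoprime (A * C + 7 * (B * D)) n := by
    rw [Int.isCoprime_iff_gcd_eq_one]
    by_contra hg
    obtain ⟨r, hr, hr1⟩ := Nat.exists_prime_and_dvd hg
    have h1 : (r : ℤ) ∣ A * C + 7 * (B * D) :=
      (Int.natCast_dvd_natCast.2 hr1).trans (Int.gcd_dvd_left ..)
    have h2 : (r : ℤ) ∣ n := (Int.natCast_dvd_natCast.2 hr1).trans (Int.gcd_dvd_right ..)
    have h3 : (r : ℤ) ∣ ((p * p' : ℕ) : ℤ) := by
      rw [hpp]
      exact dvd_add (dvd_pow h1 two_ne_zero) ((dvd_pow h2 two_ne_zero).mul_left _)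
    have h4 : r ∣ p * p' := by exact_mod_cast h3
    rcases (hr.dvd_mul).1 h4 with h5 | h5
    · rw [(Nat.prime_dvd_prime_iff_eq hr hp.pr).1 h5] at h2
      exact hpn h2
    · rw [(Nat.prime_dvd_prime_iff_eq hr hp').1 h5] at h2
      exact hpn' h2
  have hC2 : C ^ 2 % 4 = 0 := by
    obtain ⟨c, rfl⟩ : ∃ c, C = 2 * c := ⟨C / 2, by omega⟩
    have : (2 * c) ^ 2 = 4 * c ^ 2 := by ring
    omega
  have hD2 := sq8 hD
  have hp4' : p' % 4 = 3 := by
    have : (p' : ℤ) % 4 = 3 := by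
      rw [hpe']
      omega
    omega
  have j1 := jac_even (by omega) (by omega) hB0 c1 hpe
  have j2 := jac_odd hD c2 hpe' hp4'
  have hA1 : A % 2 = 1 := by omega
  have hn1 : n % 2 = 1 := by
    have h1 : (B * C) % 2 = 0 := by rw [hB, mul_assoc]; omega
    have h2 : (A * D) % 2 = 1 := by rw [Int.mul_emod, hA1, hD]; rfl
    omega
  have hpp4 : (p * p') % 4 = 3 := by
    rw [Nat.mul_mod, hp.m4, hp4']
  have j3 := jac_odd hn1 c3 hpp hpp4
  have : NeZero p := ⟨hp.pr.ne_zero⟩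
  have : NeZero p' := ⟨hp'.ne_zero⟩
  rw [jacobiSym.mul_right] at j3
  have hp2 : ((2 : ℤ)).gcd p = 1 := by
    rw [← Int.isCoprime_iff_gcd_eq_one]
    have : Nat.Coprime 2 p := (Nat.coprime_primes Nat.prime_two hp.pr).2 (by
      rintro rfl
      have := hp.m4
      omega)
    exact_mod_cast Nat.isCoprime_iff_coprime.2 this
  have hp2' : ((2 : ℤ)).gcd p' = 1 := by
    rw [← Int.isCoprime_iff_gcd_eq_one]
    have : Nat.Coprime 2 p' := (Nat.coprime_primes Nat.prime_two hp').2 (by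
      rintro rfl
      omega)
    exact_mod_cast Nat.isCoprime_iff_coprime.2 this
  have hneg : jacobiSym (-1) p' = -1 := by
    rw [jacobiSym.at_neg_one (Nat.odd_iff.2 (by omega)), ZMod.χ₄_nat_three_mod_four hp4']
  rw [s1, s2, e1, e2]
  unfold qch
  congr 1
  have e3 : 2 ^ 2 * (-D * n) = -1 * (2 ^ 2 * (D * n)) := by ring
  rw [e3, jacobiSym.mul_left, jacobiSym.mul_left, jacobiSym.mul_left, jacobiSym.mul_left,
    jacobiSym.mul_left, hneg, jacobiSym.sq_one' hp2, jacobiSym.sq_one' hp2', j1, j2]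
  -- `n ≡ B - D` modulo four
  have hpar : n % 4 = (B - D) % 4 := by
    have e4 : n = (B - D) + (B * (C - D - 1) + (-(4 * (x * D)) )) := by
      rw [hn, hA, hB]; ring
    have h5 : (C - D - 1) % 2 = 0 := by omega
    obtain ⟨w, hw⟩ : ∃ w, C - D - 1 = 2 * w := ⟨(C - D - 1) / 2, by omega⟩
    rw [e4, hw, hB]
    have e5 : 2 * y * (2 * w) = 4 * (y * w) := by ring
    rw [e5]
    omega
  have hJ0 : jacobiSym n p ≠ 0 := by
    intro h
    rw [h, zero_mul] at j3
    unfold sg4 at j3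
    split_ifs at j3 <;> norm_num at j3
  have hJ0' : jacobiSym n p' ≠ 0 := by
    intro h
    rw [h, mul_zero] at j3
    unfold sg4 at j3
    split_ifs at j3 <;> norm_num at j3
  have b1 : B % 4 = 0 ∨ B % 4 = 2 := by omega
  have b2 : D % 4 = 1 ∨ D % 4 = 3 := by omega
  unfold sg4 at j3 ⊢
  rcases jac_ne hJ0 with k1 | k1 <;> rcases jac_ne hJ0' with k2 | k2 <;> rw [k1, k2] at j3 ⊢ <;>
    split_ifs at j3 ⊢ <;> first | (norm_num; done) | (exfalso; omega) | (norm_num at j3; done)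

/-- the symbol of an integer modulo a prime of degree one -/
lemma sy_int {p : ℕ} (hp : p.Prime) {ϖ : RR} (hN : nR ϖ = p) (m : ℤ) :
    sy ϖ (m : RR) = qch p m := by
  obtain ⟨hY, s1⟩ := spl_sy hp hN (m : RR)
  have _ : Fact p.Prime := ⟨hp⟩
  rw [s1, (cXY_int m).1, (cXY_int m).2, mul_zero, sub_zero]
  have e : cY ϖ * (cY ϖ * m) = cY ϖ ^ 2 * m := by ring
  rw [e, qch_eq, qch_eq]
  push_cast
  rw [map_mul, map_pow, quadraticChar_sq_one hY, one_mul]

/-- reciprocity for an inert prime `≡ 1 mod 4` and a prime of odd degree one -/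
theorem rec_it {p q : ℕ} (hp : p.Prime) (hp2 : p ≠ 2) (hq : In q) {ϖ ϖ' : RR} (hN : nR ϖ = p)
    (h4 : ∃ u : RR, ϖ' = 1 + 4 * u) (hϖ' : ϖ' = q ∨ ϖ' = -q) : sy ϖ' ϖ = sy ϖ ϖ' := by
  have hpodd : Odd p := hp.odd_of_ne_two hp2
  have hqodd : Odd q := hq.pr.odd_of_ne_two hq.h2
  have h1 : sy ϖ' ϖ = qch q p := by
    rw [← hN, ← hq.sy]
    rcases hϖ' with rfl | rfl
    · rfl
    · exact sy_negm _ _
  rw [h1]
  rcases inert_sign hq h4 hϖ' with ⟨h5, h6⟩ | ⟨h5, h6⟩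
  · have h3 : sy ϖ ϖ' = qch p q := by
      rw [h6]
      have := sy_int hp hN (q : ℤ)
      rwa [Int.cast_natCast] at this
    rw [h3]
    unfold qch
    congr 1
    exact (jacobiSym.quadratic_reciprocity_one_mod_four h5 hpodd).symm
  · have h3 : sy ϖ ϖ' = qch p (-(q : ℤ)) := by
      rw [h6]
      have := sy_int hp hN (-(q : ℤ))
      rwa [Int.cast_neg, Int.cast_natCast] at this
    rw [h3]
    unfold qch
    congr 1
    have e : -(q : ℤ) = -1 * q := by ring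
    rw [e, jacobiSym.mul_left, jacobiSym.at_neg_one hpodd]
    rcases Nat.odd_mod_four_iff.1 (Nat.odd_iff.1 hpodd) with h7 | h7
    · rw [ZMod.χ₄_nat_one_mod_four h7, one_mul]
      exact jacobiSym.quadratic_reciprocity_one_mod_four h7 hqodd
    · rw [ZMod.χ₄_nat_three_mod_four h7]
      rw [jacobiSym.quadratic_reciprocity_three_mod_four h7 h5]
      ring

/-- **quadratic reciprocity**, the first prime element `≡ 1 mod 4` -/
theorem recip {ϖ π : RR} (h : Pm π) (hϖ : Prime ϖ) (h2 : ¬ ϖ ∣ 2) (hne : π ∉ sp ϖ)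
    (hne' : ϖ ∉ sp π) : sy π ϖ = sy ϖ π := by
  rcases prime_cases hϖ with ⟨p, hp, hN⟩ | ⟨q, hq, hq'⟩
  · have hp2 : p ≠ 2 := by
      rintro rfl
      apply h2
      refine ⟨cj ϖ, ?_⟩
      rw [mul_cj, hN]
      push_cast
      rfl
    rcases h.cases with ⟨p', hp', hN'⟩ | ⟨q', hq', hϖ'⟩
    · -- the parity of the coordinates
      have hnorm : (p : ℤ) = cX ϖ ^ 2 + cX ϖ * cY ϖ + 2 * cY ϖ ^ 2 := by
        rw [← hN]; rfl
      have hpodd : (p : ℤ) % 2 = 1 := by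
        have := Nat.odd_iff.1 (hp.odd_of_ne_two hp2)
        omega
      have hYev : cY ϖ % 2 = 0 := by
        by_contra hcon
        have hYo : cY ϖ % 2 = 1 := by omega
        have h5 : (cX ϖ ^ 2 + cX ϖ * cY ϖ) % 2 = 0 := by
          have e : cX ϖ ^ 2 + cX ϖ * cY ϖ = cX ϖ * (cX ϖ + cY ϖ) := by ring
          rw [e, Int.mul_emod]
          rcases Int.emod_two_eq_zero_or_one (cX ϖ) with h6 | h6
          · rw [h6]; simp
          · have h7 : (cX ϖ + cY ϖ) % 2 = 0 := by omega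
            rw [h7]; simp
        omega
      have hXo : cX ϖ % 2 = 1 := by
        by_contra hcon
        have hXe : cX ϖ % 2 = 0 := by omega
        obtain ⟨w, hw⟩ : ∃ w, cX ϖ = 2 * w := ⟨cX ϖ / 2, by omega⟩
        have e : cX ϖ ^ 2 + cX ϖ * cY ϖ + 2 * cY ϖ ^ 2 =
            2 * (w * cX ϖ + w * cY ϖ + cY ϖ ^ 2) := by
          rw [hw]; ring
        rw [e] at hnorm
        omega
      obtain ⟨D, hD⟩ : ∃ D, cY ϖ = 2 * D := ⟨cY ϖ / 2, by omega⟩
      rcases Int.emod_two_eq_zero_or_one D with hD2 | hD2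
      · -- `± ϖ ≡ 1 mod 4`
        obtain ⟨y, hy⟩ : ∃ y, D = 2 * y := ⟨D / 2, by omega⟩
        have hy4 : cY ϖ = 4 * y := by rw [hD, hy]; ring
        have hx4 : cX ϖ % 4 = 1 ∨ cX ϖ % 4 = 3 := by omega
        rcases hx4 with hx4 | hx4
        · have h4 := m4_of_coord (ϖ := ϖ) (x := cX ϖ / 4) (y := y) (by omega) hy4
          exact h.recip ⟨hϖ, h4⟩ hne' hne
        · have h4 := m4_of_coord (ϖ := -ϖ) (x := (-cX ϖ) / 4) (y := -y)
            (by rw [(cXY_neg ϖ).1]; omega) (by rw [(cXY_neg ϖ).2, hy4]; ring)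
          have hsp : sp (-ϖ) = sp ϖ := Ideal.span_singleton_neg ϖ
          have h5 := h.recip ⟨hϖ.neg, h4⟩ (fun h6 => hne' (by
            have := neg_mem h6
            rwa [neg_neg] at this)) (by rw [hsp]; exact hne)
          have h6 := h.pd.mul (-1) ϖ
          rw [h.pd.neg, one_mul, neg_one_mul] at h6
          rw [← h6, h5, sy_negm]
      · exact rec_st hp' hp hN' hN h.m4 (C := cX ϖ + D) hD2 (by omega) (by ring) hD hne' hne
    · exact rec_it hp hp2 hq' hN h.m4 hϖ'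
  · rcases h.cases with ⟨p', hp', hN'⟩ | ⟨q', hq'', hϖ'⟩
    · exact rec_si hp' hq hN' h.m4 hq'
    · rw [rec_ii hq'' hq hϖ' hq' hne', rec_ii hq hq'' hq' hϖ' hne]

end Pool.Agent.R426.QC
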