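import Pool.Agent.R426.QC.Rec2
import Pool.Agent.R426.QC.Hc
import Pool.Agent.Y698.SG.Ty

/-!
# The traces of Frobenius of the twists by `D ≡ 1 mod 4` in the ring of integers of `ℚ(√-7)`
-/

set_option autoImplicit false
set_option linter.unusedSectionVars false

namespace Pool.Agent.R426.QC

open Pool.Agent.Y698
open Pool.Agent.Y698.SG (sy sy_val PD Fam)
open H667R3 Pool.Agent.W192.HK Pool.Agent.TH936.CM Pool.Agent.TH936.PU
open Pool.Agent.Y279.SG (sy_eq red cXY_cj nR_dvd qch_eq unit_of_nR dvd_coord)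
open W165.CE (pw pw_eq pw_luc exists_roots')

lemma In.e7 {q : ℕ} (h : In q) : Pool.Agent.Y698.e7 (q : RR) = -1 := by
  have _ : Fact (Nat.Prime 7) := ⟨by norm_num⟩
  have _ : Fact q.Prime := ⟨h.pr⟩
  have hodd : Odd q := h.pr.odd_of_ne_two h.h2
  rw [e7_nat]
  have h0 : ((-7 : ℤ) : ZMod q) ≠ 0 := by
    intro h0
    apply h.ns
    push_cast at h0
    rw [h0]
    exact ⟨0, by ring⟩
  have h1 : jacobiSym (-7) q = -1 := by
    rw [← jacobiSym.legendreSym.to_jacobiSym]
    rw [legendreSym.eq_neg_one_iff]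
    intro h2
    apply h.ns
    push_cast at h2
    exact h2
  have h2 : legendreSym 7 (q : ℤ) = jacobiSym (-7) q := by
    rw [jacobiSym.legendreSym.to_jacobiSym]
    have e : (-7 : ℤ) = -1 * 7 := by norm_num
    rw [e, jacobiSym.mul_left, jacobiSym.at_neg_one hodd]
    rcases Nat.odd_mod_four_iff.1 (Nat.odd_iff.1 hodd) with h7 | h7
    · rw [ZMod.χ₄_nat_one_mod_four h7, one_mul]
      exact jacobiSym.quadratic_reciprocity_one_mod_four h7 (by decide : Odd 7)
    · rw [ZMod.χ₄_nat_three_mod_four h7]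
      have := jacobiSym.quadratic_reciprocity_three_mod_four h7 (by norm_num : 7 % 4 = 3)
      rw [this]
      push_cast
      ring
  have h3 : legendreSym 7 (q : ℤ) = -1 := h2.trans h1
  unfold legendreSym at h3
  rw [Int.cast_natCast] at h3
  rw [h3]
  norm_num

/-- the trace of Frobenius of the curve -/
theorem trace_one (k : Type) [Field k] [Finite k] {ϖ : RR} (h : Prime ϖ) (h7 : ¬ ϖ ∣ 7)
    (hk : (Nat.card k : ℤ) = nR ϖ) :
    (((Nat.card k : ℤ) - Nat.card (AP (EX k 0)) : ℤ) : ℂ) =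
      Pool.Agent.Y698.e7 ϖ * ((ϖ : ℂ) + (cj ϖ : ℂ)) := by
  rw [EX_zero]
  rcases prime_cases h with ⟨p, hp, hN⟩ | ⟨q, hq, hϖ⟩
  · have hk' : Nat.card k = p ^ 1 := by
      rw [pow_one]
      rw [hN] at hk
      exact_mod_cast hk
    have hp7 : p ≠ 7 := by
      rintro rfl
      apply h7
      refine ⟨cj ϖ, ?_⟩
      rw [mul_cj, hN]
      push_cast
      rfl
    rw [trace_fin k hp hp7 one_ne_zero hk']
    have hb := (bc_split hp hN (sp_cj_ne hp hp7 hN)).1
    have e1 : pw (bc p) (ec p) 1 = bc p := rfl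
    rw [e1, hb, psi_sp, psi_sp, e7_cj]
    ring
  · have hN : nR ϖ = (q : ℤ) ^ 2 := by
      rcases hϖ with rfl | rfl
      · rw [nR_nat]
      · rw [nR_neg, nR_nat]
    have hk' : Nat.card k = q ^ 2 := by
      rw [hN] at hk
      exact_mod_cast hk
    rw [trace_fin k hq.pr hq.seven two_ne_zero hk']
    have hirr : Irreducible (q : RR) := by
      have h1 : Prime (q : RR) := by
        rcases hϖ with h1 | h1
        · rw [← h1]; exact h
        · have := h.neg
          rwa [h1, neg_neg] at this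
      exact h1.irreducible
    have hb := (bc_inert hirr hq.pr).1
    have e1 : pw (bc q) (ec q) 2 = bc q * bc q - ec q * 2 := rfl
    have e2 : ec q = q := by
      unfold ec
      rw [if_neg hq.seven]
    have e3 : cj (q : RR) = q := map_natCast cj q
    rw [e1, hb, e2]
    rcases hϖ with rfl | rfl
    · rw [hq.e7, e3]
      push_cast
      ring
    · have e4 : cj (-(q : RR)) = -(q : RR) := by rw [map_neg, e3]
      rw [e7_neg, hq.e7, e4]
      push_cast
      ring

lemma card_AP_EX' (k : Type) [Field k] (h2 : (2 : k) ≠ 0) (j : k) :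
    Nat.card (AP (EX k j)) = Nat.card {x : k × k // x.2 ^ 2 = x.1 ^ 3 +
      (-35) * (1 + 4 * j) ^ 2 * x.1 + (-98) * (1 + 4 * j) ^ 3} := by
  have h8 : (8 : k) ≠ 0 := by
    have : (8 : k) = 2 ^ 3 := by norm_num
    rw [this]
    exact pow_ne_zero 3 h2
  have h4 : (4 : k) ≠ 0 := by
    have : (4 : k) = 2 ^ 2 := by norm_num
    rw [this]
    exact pow_ne_zero 2 h2
  have h64 : (64 : k) ≠ 0 := by
    have : (64 : k) = 8 * 8 := by norm_num
    rw [this]
    exact mul_ne_zero h8 h8
  refine Nat.card_congr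
    { toFun := fun Q => ⟨(4 * Q.1.1 - (1 + 4 * j), 8 * Q.1.2 + 4 * Q.1.1), ?_⟩
      invFun := fun Q => ⟨((Q.1.1 + (1 + 4 * j)) / 4, (Q.1.2 - (Q.1.1 + (1 + 4 * j))) / 8), ?_⟩
      left_inv := ?_
      right_inv := ?_ }
  · have h := Q.2
    rw [WeierstrassCurve.Affine.equation_iff] at h
    unfold EX at h
    simp only at h ⊢
    linear_combination 64 * h
  · have h := Q.2
    rw [WeierstrassCurve.Affine.equation_iff]
    unfold EX
    simp only at h ⊢
    apply mul_left_cancel₀ h64
    field_simp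
    linear_combination 64 * h
  · rintro ⟨⟨x, y⟩, h⟩
    apply Subtype.ext
    apply Prod.ext
    · simp only
      field_simp
      ring
    · simp only
      field_simp
      ring
  · rintro ⟨⟨x, y⟩, h⟩
    apply Subtype.ext
    apply Prod.ext
    · simp only
      field_simp
      ring
    · simp only
      field_simp
      ring

/-- the twist in odd characteristic -/
theorem trace_odd (k : Type) [Field k] [Fintype k] [DecidableEq k] (h2 : (2 : k) ≠ 0) {j : k}
    (hD : 1 + 4 * j ≠ 0) :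
    ((Nat.card k : ℤ) - Nat.card (AP (EX k j)) : ℤ) =
      quadraticChar k (1 + 4 * j) * ((Nat.card k : ℤ) - Nat.card (AP (EX k 0))) := by
  have hF : ringChar k ≠ 2 := by
    intro h
    apply h2
    have h3 : ((2 : ℕ) : k) = 0 := by
      rw [← h]
      exact ringChar.Nat.cast_ringChar
    exact_mod_cast h3
  have h := count_tw hF (-35) (-98) hD
  rw [card_AP_EX' k h2 j, card_AP_EX' k h2 0, Nat.card_eq_fintype_card (α := k), h]
  congr 2
  congr 1
  refine Nat.card_congr (Equiv.subtypeEquivRight fun x => ?_)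
  constructor
  · intro h
    rw [h]
    ring
  · intro h
    rw [h]
    ring

/-- the twist over the field with two elements -/
theorem trace_two (k : Type) [Field k] [Finite k] (hk : Nat.card k = 2) {j : k} :
    (((Nat.card k : ℤ) - Nat.card (AP (EX k j)) : ℤ) : ℂ) =
      (open Classical in if j = 0 then 1 else -1) *
        (((Nat.card k : ℤ) - Nat.card (AP (EX k 0)) : ℤ) : ℂ) := by
  classical
  by_cases hj : j = 0
  · rw [if_pos hj, hj, one_mul]
  · have _ : Fintype k := Fintype.ofFinite k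
    have hj1 : j = 1 := by
      by_contra h1
      have h3 : ({0, 1, j} : Finset k).card ≤ Fintype.card k := Finset.card_le_univ _
      rw [← Nat.card_eq_fintype_card, hk, Finset.card_insert_of_notMem, Finset.card_pair (Ne.symm h1)]
        at h3
      · omega
      · rw [Finset.mem_insert, Finset.mem_singleton]
        rintro (h | h)
        · exact zero_ne_one h
        · exact hj h.symm
    rw [if_neg hj, hj1, EX_zero]
    have h5 : Inq 5 := ⟨by norm_num, by norm_num, by decide⟩
    have h6 := Pool.Agent.Y698.trace_tw k Nat.prime_two (by norm_num) one_ne_zero (by rw [hk, pow_one])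
      (S := {5}) (fun q hq => by rw [Finset.mem_singleton.1 hq]; exact h5) (by simp) (j := 1)
      (by simp)
    have h7 := trace_fin k Nat.prime_two (by norm_num) one_ne_zero (by rw [hk, pow_one])
    rw [h7]
    rw [Nat.cast_one] at h6
    rw [h6, Finset.prod_singleton, pow_one]
    congr 1
    unfold qch
    have : jacobiSym ((2 : ℕ) : ℤ) 5 = -1 := by norm_num
    rw [this]
    norm_num

lemma prime_aR : Prime aR := by
  have h : Irreducible aR := irr_of_prime_norm (by rw [aR_nR]; norm_num)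
  exact h.prime

lemma cj_aR : cj aR = 1 - aR := by
  have h4 : cj aR = (cX aR : RR) + (cY aR : RR) * (1 - aR) := rfl
  rw [h4, cXY_aR.1, cXY_aR.2]
  push_cast
  ring

lemma two_eq : (2 : RR) = aR * cj aR := by
  rw [mul_cj, aR_nR]
  push_cast
  rfl

/-- membership in `(a)` -/
lemma mem_a (x : RR) : aR ∣ x ↔ cX x % 2 = 0 := by
  have h1 := Pool.Agent.Y279.SG.dec x
  have h2 : aR ∣ x ↔ aR ∣ ((cX x : ℤ) : RR) := by
    nth_rewrite 1 [h1]
    exact (dvd_add_left (Dvd.intro_left _ rfl))
  rw [h2]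
  constructor
  · intro h3
    by_contra h4
    obtain ⟨w, hw⟩ : ∃ w, cX x = 2 * w + 1 := ⟨cX x / 2, by omega⟩
    rw [hw] at h3
    push_cast at h3
    rw [dvd_add_right ((show aR ∣ 2 from ⟨cj aR, two_eq⟩).mul_right _)] at h3
    exact prime_aR.not_isUnit (isUnit_of_dvd_one h3)
  · intro h3
    obtain ⟨w, hw⟩ : ∃ w, cX x = 2 * w := ⟨cX x / 2, by omega⟩
    rw [hw]
    push_cast
    exact (show aR ∣ 2 from ⟨cj aR, two_eq⟩).mul_right _

/-- the symbol of `a` -/
lemma sy_aR {π u : RR} (h : Pm π) (hu : π = 1 + 4 * u) :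
    sy π aR = open Classical in if aR ∣ u then 1 else -1 := by
  classical
  rw [h.two]
  have h4 : (4 : RR) = ((4 : ℤ) : RR) := by push_cast; rfl
  have hX : cX π = 1 + 4 * cX u := by
    rw [hu, h4, (cXY_add _ _).1, (cXY_mul _ _).1, cXY_one.1, (cXY_int 4).1, (cXY_int 4).2]
    ring
  rw [hX, mem_a]
  rcases Int.emod_two_eq_zero_or_one (cX u) with h1 | h1
  · obtain ⟨w, hw⟩ : ∃ w, cX u = 2 * w := ⟨cX u / 2, by omega⟩
    rw [if_pos h1, hw]
    have e : ((1 + 4 * (2 * w) : ℤ) : ZMod 8) = 1 := by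
      have : (8 : ZMod 8) = 0 := by decide
      push_cast
      linear_combination (w : ZMod 8) * this
    rw [e]
    have : ZMod.χ₈ 1 = 1 := by decide
    rw [this]
    norm_num
  · obtain ⟨w, hw⟩ : ∃ w, cX u = 2 * w + 1 := ⟨cX u / 2, by omega⟩
    rw [if_neg (by omega), hw]
    have e : ((1 + 4 * (2 * w + 1) : ℤ) : ZMod 8) = 5 := by
      have : (8 : ZMod 8) = 0 := by decide
      push_cast
      linear_combination (w : ZMod 8) * this
    rw [e]
    have : ZMod.χ₈ 5 = -1 := by decide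
    rw [this]
    norm_num

lemma cj_dvd {x y : RR} : cj x ∣ cj y ↔ x ∣ y := by
  constructor
  · intro h
    have := map_dvd cj h
    rwa [cj_cj, cj_cj] at this
  · exact fun h => map_dvd cj h

lemma Pm.cj {π : RR} (h : Pm π) : Pm (cj π) := by
  refine ⟨?_, ?_⟩
  · refine ⟨fun h0 => h.pr.ne_zero ?_, fun hu => h.pr.not_isUnit ?_, fun x y hxy => ?_⟩
    · rw [← cj_cj π, h0, map_zero]
    · have := hu.map Pool.Agent.Y698.cj
      rwa [cj_cj] at this
    · have h1 : π ∣ Pool.Agent.Y698.cj x * Pool.Agent.Y698.cj y := by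
        rw [← cj_dvd, map_mul, cj_cj, cj_cj]
        exact hxy
      rcases h.pr.dvd_or_dvd h1 with h2 | h2
      · left
        rw [← cj_dvd, cj_cj]
        exact h2
      · right
        rw [← cj_dvd, cj_cj]
        exact h2
  · obtain ⟨u, hu⟩ := h.m4
    exact ⟨Pool.Agent.Y698.cj u, by rw [hu, map_add, map_mul, map_one, map_ofNat]⟩

open Classical in
/-- the symbols of the prime elements above two -/
lemma sy_two {π u ϖ : RR} (h : Pm π) (hu : π = 1 + 4 * u) (hϖ : Prime ϖ) (h2 : ϖ ∣ 2) :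
    sy π ϖ = if ϖ ∣ u then 1 else -1 := by
  have hneg : ∀ x : RR, sy π (-x) = sy π x := fun x => sy_neg h.pd x
  have hca : Prime (Pool.Agent.Y698.cj aR) := by
    have hirr : Irreducible (Pool.Agent.Y698.cj aR) := irr_of_prime_norm (by
      have : nR (Pool.Agent.Y698.cj aR) = 2 := by
        unfold nR
        rw [(cXY_cj aR).1, (cXY_cj aR).2, cXY_aR.1, cXY_aR.2]
        norm_num
      rw [this]; norm_num)
    exact hirr.prime
  -- the two cases
  have key : ∀ g : RR, Prime g → sy π g = (if g ∣ u then 1 else -1) → ϖ ∣ g →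
      sy π ϖ = if ϖ ∣ u then 1 else -1 := by
    intro g hg hs hd
    obtain ⟨w, hw⟩ := hϖ.irreducible.associated_of_dvd hg.irreducible hd
    rcases isUnit_iff.1 w.isUnit with h1 | h1
    · rw [h1, mul_one] at hw
      rw [hw]
      exact hs
    · have hg' : ϖ = -g := by rw [← hw, h1]; ring
      rw [hg', hneg, hs]
      simp only [neg_dvd]
  rw [two_eq] at h2
  rcases hϖ.dvd_or_dvd h2 with h3 | h3
  · exact key aR prime_aR (sy_aR h hu) h3
  · refine key _ hca ?_ h3
    have h4 : sy π (Pool.Agent.Y698.cj aR) = sy (Pool.Agent.Y698.cj π) aR := by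
      rw [← Pool.Agent.Y279.SG.sy_cj π, cj_cj]
    have hu' : Pool.Agent.Y698.cj π = 1 + 4 * Pool.Agent.Y698.cj u := by
      rw [hu, map_add, map_mul, map_one, map_ofNat]
    rw [h4, sy_aR h.cj hu']
    have h5 : aR ∣ Pool.Agent.Y698.cj u ↔ Pool.Agent.Y698.cj aR ∣ u := by
      rw [← cj_dvd, cj_cj]
    simp only [h5]

/-- the product of elements `1 + 4 u` -/
lemma prod_four {ι : Type} (S : Finset ι) {π : ι → RR} (hπ : ∀ i ∈ S, ∃ u : RR, π i = 1 + 4 * u) :
    ∃ J : RR, ∏ i ∈ S, π i = 1 + 4 * J := by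
  classical
  induction S using Finset.induction_on with
  | empty => exact ⟨0, by simp⟩
  | insert a S ha ih =>
    obtain ⟨J, hJ⟩ := ih fun i hi => hπ i (Finset.mem_insert_of_mem hi)
    obtain ⟨u, hu⟩ := hπ a (Finset.mem_insert_self a S)
    exact ⟨u + J + 4 * u * J, by rw [Finset.prod_insert ha, hJ, hu]; ring⟩

lemma four_inj {x y : RR} (h : (1 : RR) + 4 * x = 1 + 4 * y) : x = y := by
  have h4 : (4 : RR) ≠ 0 := by
    intro h0
    have h1 : (4 : RR) = ((4 : ℤ) : RR) := by push_cast; rfl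
    have h2 := (cXY_int 4).1
    rw [← h1, h0, cXY_zero.1] at h2
    norm_num at h2
  apply mul_left_cancel₀ h4
  linear_combination h

open Classical in
/-- the sign at the places above two -/
lemma prod_sign {ϖ : RR} (h2 : ϖ ∣ 2) (hcard : ∀ x : RR, ϖ ∣ x ∨ ϖ ∣ x + 1) {ι : Type}
    (S : Finset ι) {π : ι → RR} (hπ : ∀ i ∈ S, Pm (π i)) (hϖ : Prime ϖ) {J : RR}
    (hJ : ∏ i ∈ S, π i = 1 + 4 * J) :
    ∏ i ∈ S, sy (π i) ϖ = if ϖ ∣ J then 1 else -1 := by
  induction S using Finset.induction_on generalizing J with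
  | empty =>
    have h0 : J = 0 := four_inj (by rw [← hJ]; simp)
    rw [h0, if_pos (dvd_zero _), Finset.prod_empty]
  | insert a S ha ih =>
    have hS : ∀ i ∈ S, Pm (π i) := fun i hi => hπ i (Finset.mem_insert_of_mem hi)
    have ha' := hπ a (Finset.mem_insert_self a S)
    obtain ⟨J', hJ'⟩ := prod_four S fun i hi => (hS i hi).m4
    obtain ⟨u, hu⟩ := ha'.m4
    have hJu : J = u + J' + 2 * (2 * u * J') := by
      apply four_inj
      rw [← hJ, Finset.prod_insert ha, hJ', hu]
      ring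
    rw [Finset.prod_insert ha, ih hS hJ', sy_two ha' hu hϖ h2]
    have h3 : ϖ ∣ J ↔ ϖ ∣ u + J' := by
      rw [hJu]
      exact dvd_add_left (h2.mul_right _)
    have h1 : ¬ ϖ ∣ 1 := fun h => hϖ.not_isUnit (isUnit_of_dvd_one h)
    rcases hcard u with h5 | h5 <;> rcases hcard J' with h6 | h6
    · rw [if_pos h5, if_pos h6, if_pos (h3.2 (dvd_add h5 h6)), mul_one]
    · have h7 : ¬ ϖ ∣ J' := fun h => h1 ((dvd_add_right h).1 h6)
      have h8 : ¬ ϖ ∣ J := fun h => h7 ((dvd_add_right h5).1 (h3.1 h))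
      rw [if_pos h5, if_neg h7, if_neg h8, one_mul]
    · have h7 : ¬ ϖ ∣ u := fun h => h1 ((dvd_add_right h).1 h5)
      have h8 : ¬ ϖ ∣ J := fun h => h7 ((dvd_add_left h6).1 (h3.1 h))
      rw [if_neg h7, if_pos h6, if_neg h8, mul_one]
    · have h7 : ¬ ϖ ∣ J' := fun h => h1 ((dvd_add_right h).1 h6)
      have h7' : ¬ ϖ ∣ u := fun h => h1 ((dvd_add_right h).1 h5)
      have h8 : ϖ ∣ J := by
        rw [h3]
        have e : u + J' = (u + 1) + (J' + 1) - 2 := by ring
        rw [e]
        exact dvd_sub (dvd_add h5 h6) h2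
      rw [if_neg h7', if_neg h7, if_pos h8]
      norm_num

/-- **the trace of Frobenius of the twist** -/
theorem trace_D (k : Type) [Field k] [Finite k] {ϖ : RR} (h : Prime ϖ) (h7 : ¬ ϖ ∣ 7)
    (hk : (Nat.card k : ℤ) = nR ϖ) (φ : RR →+* k) (hs : Function.Surjective φ)
    (hφ : ∀ x, φ x = 0 ↔ x ∈ sp ϖ) {ι : Type} {S : Finset ι} {π : ι → RR}
    (hπ : ∀ i ∈ S, Pm (π i)) (hne : ∀ i ∈ S, π i ∉ sp ϖ) {J : RR}
    (hJ : ∏ i ∈ S, π i = 1 + 4 * J) :
    (((Nat.card k : ℤ) - Nat.card (AP (EX k (φ J))) : ℤ) : ℂ) =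
      (∏ i ∈ S, sy (π i) ϖ) * (Pool.Agent.Y698.e7 ϖ * ((ϖ : ℂ) + (cj ϖ : ℂ))) := by
  classical
  rw [← trace_one k h h7 hk]
  have hdv : ∀ x : RR, φ x = 0 ↔ ϖ ∣ x := fun x => by rw [hφ, Ideal.mem_span_singleton]
  by_cases h2 : ϖ ∣ 2
  · have hk2 : Nat.card k = 2 := by
      obtain ⟨c, hc⟩ := h2
      have h3 : nR ϖ * nR c = 4 := by
        rw [← nR_mul, ← hc]
        have : (2 : RR) = ((2 : ℕ) : RR) := by push_cast; rfl
        rw [this, nR_nat]
        norm_num
      have h4 := nR_pos h.ne_zero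
      rcases prime_cases h with ⟨p, hp, hN⟩ | ⟨q, hq, hϖ⟩
      · rw [hN] at h3 hk
        have h5 : (p : ℤ) ∣ 4 := ⟨_, h3.symm⟩
        have h6 : p ∣ 2 ^ 2 := by exact_mod_cast h5
        have h8 := (Nat.prime_dvd_prime_iff_eq hp Nat.prime_two).1 (hp.dvd_of_dvd_pow h6)
        rw [h8] at hk
        exact_mod_cast hk
      · exfalso
        have hN : nR ϖ = (q : ℤ) ^ 2 := by
          rcases hϖ with rfl | rfl
          · rw [nR_nat]
          · rw [nR_neg, nR_nat]
        rw [hN] at h3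
        have h5 : (q : ℤ) ∣ 4 := ⟨q * nR c, by rw [← h3]; ring⟩
        have h6 : q ∣ 2 ^ 2 := by exact_mod_cast h5
        exact hq.h2 ((Nat.prime_dvd_prime_iff_eq hq.pr Nat.prime_two).1 (hq.pr.dvd_of_dvd_pow h6))
    have hcard : ∀ x : RR, ϖ ∣ x ∨ ϖ ∣ x + 1 := by
      intro x
      rw [← hdv, ← hdv]
      by_contra hcon
      push Not at hcon
      have _ : Fintype k := Fintype.ofFinite k
      have h20 : (2 : k) = 0 := by
        have := (hdv 2).2 h2
        rwa [map_ofNat] at this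
      have h3 : ({0, 1, φ x} : Finset k).card ≤ Fintype.card k := Finset.card_le_univ _
      rw [← Nat.card_eq_fintype_card, hk2, Finset.card_insert_of_notMem, Finset.card_pair] at h3
      · omega
      · intro h4
        apply hcon.2
        rw [map_add, map_one, ← h4]
        linear_combination h20
      · rw [Finset.mem_insert, Finset.mem_singleton]
        rintro (h | h)
        · exact zero_ne_one h
        · exact hcon.1 h.symm
    rw [trace_two k hk2, prod_sign h2 hcard S hπ h hJ]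
    congr 1
    simp only [hdv]
  · have _ : Fintype k := Fintype.ofFinite k
    have h20 : (2 : k) ≠ 0 := by
      intro h0
      apply h2
      rw [← hdv, map_ofNat]
      exact h0
    have hD : φ (∏ i ∈ S, π i) = 1 + 4 * φ J := by
      rw [hJ, map_add, map_mul, map_one, map_ofNat]
    have hD0 : 1 + 4 * φ J ≠ 0 := by
      rw [← hD, map_prod, Finset.prod_ne_zero_iff]
      intro i hi h0
      exact hne i hi ((hφ _).1 h0)
    rw [trace_odd k h20 hD0]
    push_cast
    congr 1
    rw [← hD, map_prod, map_prod, Int.cast_prod]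
    refine Finset.prod_congr rfl fun i hi => ?_
    rw [← sy_eq φ hs hφ]
    refine (recip (hπ i hi) h h2 (hne i hi) ?_).symm
    intro h3
    apply hne i hi
    rw [Ideal.mem_span_singleton] at h3 ⊢
    exact ((hπ i hi).pr.irreducible.associated_of_dvd h.irreducible h3).symm.dvd

end Pool.Agent.R426.QC
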