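import Pool.Agent.R426.QC.Lc
import Pool.Agent.R426.QC.Fe
import Pool.Agent.R426.QC.Tr
import Pool.Agent.Y698.SG.Ck
import Pool.Agent.Y697.PP.Det
import Pool.Agent.Y682.ZS

/-!
# The Selmer groups of the twists by elements of `ℚ(√-7)`
-/

set_option autoImplicit false
set_option linter.unusedSectionVars false

attribute [-instance] DivisionRing.toRatAlgebra

open NumberField IsDedekindDomain

namespace Pool.Agent.R426.QC

open Pool.Agent.Y698 Pool.Agent.Y698.SG
open H667R3 Pool.Agent.W192.HK Pool.Agent.TH936.CM Pool.Agent.TH936.PU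
open WithZero
open Pool.Agent.Y697.PP (Mt ker_of_det)

/-! ### squarefree elements -/

lemma nR_pos {x : RR} (h : x ≠ 0) : 0 < nR x := by
  rcases (nR_nonneg x).lt_or_eq with h1 | h1
  · exact h1
  · exfalso
    have h2 := mul_cj x
    rw [← h1, Int.cast_zero] at h2
    rcases mul_eq_zero.1 h2 with h3 | h3
    · exact h h3
    · apply h
      rw [← cj_cj x, h3, map_zero]

lemma nR_unit {x : RR} (h : nR x = 1) : IsUnit x := Pool.Agent.Y279.SG.unit_of_nR h

lemma sqf_decomp : ∀ n : ℕ, ∀ c : RR, c ≠ 0 → (nR c).natAbs ≤ n → ∃ d f, c = d * f ^ 2 ∧ Squarefree d := by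
  intro n
  induction n with
  | zero =>
    intro c hc hn
    exfalso
    have := nR_pos hc
    omega
  | succ n ih =>
    intro c hc hn
    by_cases hs : Squarefree c
    · exact ⟨c, 1, by ring, hs⟩
    · unfold Squarefree at hs
      push Not at hs
      obtain ⟨x, ⟨c', hc'⟩, hx⟩ := hs
      have hx0 : x ≠ 0 := by
        rintro rfl
        apply hc
        rw [hc']; ring
      have hc0 : c' ≠ 0 := by
        rintro rfl
        apply hc
        rw [hc', mul_zero]
      have h1 : nR c = nR x * nR x * nR c' := by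
        rw [hc', nR_mul, nR_mul]
      have h2 : nR x ≠ 1 := fun h => hx (nR_unit h)
      have h3 := nR_pos hx0
      have h4 := nR_pos hc0
      have h5 : nR c' < nR c := by
        rw [h1]
        have h6 : 2 ≤ nR x := by omega
        nlinarith [mul_pos h3 h4]
      obtain ⟨d, f, hdf, hd⟩ := ih c' hc0 (by omega)
      exact ⟨d, x * f, by rw [hc', hdf]; ring, hd⟩

section

variable {K : Type} [Field K] [NumberField K] (e : RR ≃+* 𝓞 K)

/-- squarefree representatives -/
lemma exists_sqf {b : K} (hb : b ≠ 0) :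
    ∃ (d : RR) (w : K), Squarefree d ∧ w ≠ 0 ∧ b = em e d * w ^ 2 := by
  obtain ⟨a', m', hm', hxa⟩ := IsFractionRing.div_surjective (A := 𝓞 K) b
  obtain ⟨a, rfl⟩ := e.surjective a'
  obtain ⟨m, rfl⟩ := e.surjective m'
  have hxa' : em e a / em e m = b := hxa
  have hm0 : m ≠ 0 := by
    rintro rfl
    rw [map_zero] at hm'
    exact nonZeroDivisors.ne_zero hm' rfl
  have ha0 : a ≠ 0 := by
    rintro rfl
    apply hb
    rw [← hxa', map_zero, zero_div]
  obtain ⟨d, h, hdh, hd⟩ := sqf_decomp _ (a * m) (mul_ne_zero ha0 hm0) le_rfl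
  have hh0 : h ≠ 0 := by
    rintro rfl
    apply mul_ne_zero ha0 hm0
    rw [hdh]; ring
  have hAm := em_ne e hm0
  have hAh := em_ne e hh0
  refine ⟨d, em e h / em e m, hd, div_ne_zero hAh hAm, ?_⟩
  have h1 := congrArg (em e) hdh
  rw [map_mul, map_mul, map_pow] at h1
  rw [← hxa']
  field_simp
  linear_combination h1

/-- squares at a place -/
theorem sy_of_sq {z : RR} (hz : Prime z) {x : RR} (hx : x ∉ sp z)
    (h : Sq ((plc e hz).valuation K) (em e x)) : sy z x = 1 := by
  have hx' : ¬ z ∣ x := fun h1 => hx (Ideal.mem_span_singleton.2 h1)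
  have hw1 := val_one' e hz hx'
  obtain ⟨y, hy, h⟩ := h
  have hy1 : (plc e hz).valuation K y = 1 := by
    have h1 := Sq.val h
    rw [hw1] at h1
    exact (pow_eq_one_iff_of_nonneg zero_le two_ne_zero).1 h1.symm
  obtain ⟨n', ⟨d', hd'⟩, hnd⟩ := (plc e hz).exists_primeCompl_mul_eq_of_integer y hy1.le
  obtain ⟨n, rfl⟩ := e.surjective n'
  obtain ⟨d, rfl⟩ := e.surjective d'
  have hzd : ¬ z ∣ d := fun h1 => hd' ((plc_mem e hz d).2 h1)
  have hnd' : y * em e d = em e n := hnd
  have h3 : z ∣ x * d ^ 2 - n ^ 2 := by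
    rw [← val_lt e hz]
    have e1 : em e (x * d ^ 2 - n ^ 2) = (em e x - y ^ 2) * em e d ^ 2 := by
      rw [map_sub, map_mul, map_pow, map_pow, ← hnd']
      ring
    rw [e1, map_mul, map_pow, val_one' e hz hzd, one_pow, mul_one]
    rw [hy1, one_pow] at h
    exact h
  have hmax := maximal_sp hz.irreducible
  let _ : Field (RR ⧸ sp z) := Ideal.Quotient.field (sp z)
  have h5 : IsSquare (Ideal.Quotient.mk (sp z) x) := by
    have h6 : Ideal.Quotient.mk (sp z) (x * d ^ 2) = Ideal.Quotient.mk (sp z) (n ^ 2) :=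
      (Ideal.Quotient.eq (I := sp z)).2 (Ideal.mem_span_singleton.2 h3)
    have h7 : Ideal.Quotient.mk (sp z) d ≠ 0 := fun h0 =>
      hzd (Ideal.mem_span_singleton.1 (Ideal.Quotient.eq_zero_iff_mem.1 h0))
    refine ⟨Ideal.Quotient.mk (sp z) n / Ideal.Quotient.mk (sp z) d, ?_⟩
    rw [map_mul, map_pow, map_pow] at h6
    field_simp
    exact h6
  unfold sy
  rw [if_neg hx, if_pos h5]

end

/-! ### the matrix -/

lemma gd_Mt {ι : Type} [DecidableEq ι] (c : ι → ZMod 2) (r : ι → ι → ZMod 2) (S : Finset ι) :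
    gd c r S = (Mt r c S).det := by
  unfold gd
  congr 1
  ext i j
  rw [Matrix.of_apply]
  unfold Mt
  by_cases h : i = j
  · rw [if_pos h, if_pos h.symm]
  · rw [if_neg h, if_neg (Ne.symm h)]

/-- the combinatorial condition -/
lemma ns_of_gd {ι : Type} [DecidableEq ι] {c : ι → ZMod 2} {r : ι → ι → ZMod 2} {I : Finset ι}
    (hg : gd c r I ≠ 0) {T : Finset ι} (hT : T ⊆ I) (h1 : ∀ i ∈ I \ T, ∑ j ∈ T, r i j = 0)
    (h2 : ∀ i ∈ T, c i + ∑ j ∈ I \ T, r i j = 0) : T = ∅ := by
  rw [gd_Mt] at hg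
  have key := ker_of_det r c hg (fun i => if i ∈ T then 1 else 0) (fun v hv => by
    have hz : (1 : ZMod 2) + 1 = 0 := by decide
    rw [← Finset.sum_sdiff hT]
    by_cases hvT : v ∈ T
    · have e1 : ∑ u ∈ I \ T, r v u * ((if v ∈ T then (1 : ZMod 2) else 0) + if u ∈ T then 1 else 0) =
          ∑ u ∈ I \ T, r v u := by
        refine Finset.sum_congr rfl fun u hu => ?_
        rw [if_pos hvT, if_neg (Finset.mem_sdiff.1 hu).2, add_zero, mul_one]
      have e2 : ∑ u ∈ T, r v u * ((if v ∈ T then (1 : ZMod 2) else 0) + if u ∈ T then 1 else 0) = 0 := by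
        refine Finset.sum_eq_zero fun u hu => ?_
        rw [if_pos hvT, if_pos hu, hz, mul_zero]
      rw [e1, e2, add_zero, if_pos hvT, mul_one]
      exact h2 v hvT
    · have e1 : ∑ u ∈ I \ T, r v u * ((if v ∈ T then (1 : ZMod 2) else 0) + if u ∈ T then 1 else 0) =
          0 := by
        refine Finset.sum_eq_zero fun u hu => ?_
        rw [if_neg hvT, if_neg (Finset.mem_sdiff.1 hu).2, add_zero, mul_zero]
      have e2 : ∑ u ∈ T, r v u * ((if v ∈ T then (1 : ZMod 2) else 0) + if u ∈ T then 1 else 0) =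
          ∑ u ∈ T, r v u := by
        refine Finset.sum_congr rfl fun u hu => ?_
        rw [if_neg hvT, if_pos hu, zero_add, mul_one]
      rw [e1, e2, if_neg hvT, mul_zero, zero_add, zero_add]
      exact h1 v (Finset.mem_sdiff.2 ⟨hv, hvT⟩))
  by_contra hne
  obtain ⟨i, hi⟩ := Finset.nonempty_iff_ne_empty.2 hne
  have h3 := key i (hT hi)
  simp only [if_pos hi] at h3
  exact one_ne_zero h3

/-- the combinatorial condition for prime elements -/
lemma ns_pi {ι : Type} [DecidableEq ι] {I : Finset ι} {π : ι → RR} (hπ : ∀ i ∈ I, Pm (π i))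
    (hf : Fam I π) (hg : gd (mc π) (mr π) I ≠ 0) {T : Finset ι} (hT : T ⊆ I)
    (h1 : ∀ i ∈ I \ T, ∑ j ∈ T, dr π i j = 0)
    (h2 : ∀ i ∈ T, dc π i + ∑ j ∈ I \ T, dr π i j = 0) : T = ∅ := by
  have hsym : ∀ i ∈ I, ∀ j ∈ I, i ≠ j → mr π i j = dr π i j := by
    intro i hi j hj hij
    unfold mr dr
    rw [(hπ i hi).recip (hπ j hj) (hf.ne j hj i hi (Ne.symm hij)) (hf.ne i hi j hj hij)]
  refine ns_of_gd hg hT (fun i hi => ?_) (fun i hi => ?_)
  · rw [← h1 i hi]
    refine Finset.sum_congr rfl fun j hj => ?_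
    rw [Finset.mem_sdiff] at hi
    exact hsym i hi.1 j (hT hj) (fun h => hi.2 (h ▸ hj))
  · rw [← h2 i hi]
    congr 1
    · unfold mc dc
      rw [(hπ i (hT hi)).seven]
    · refine Finset.sum_congr rfl fun j hj => ?_
      rw [Finset.mem_sdiff] at hj
      exact hsym i (hT hi) j hj.1 (fun h => hj.2 (h ▸ hi))

/-! ### the main computation -/

lemma prime_fR : Prime fR := by
  have h : Irreducible fR := irr_of_prime_norm (by rw [nR_fR]; norm_num)
  exact h.prime

lemma dvd_fR {ρ : RR} (h : Prime ρ) (h7 : ρ ∣ 7) : ρ ∣ fR := by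
  have e1 : (7 : RR) = -(fR ^ 2) := by rw [fR_sq]; norm_num
  rw [e1, dvd_neg] at h7
  exact h.dvd_of_dvd_pow h7

lemma pm_seven {ϖ : RR} (h : Pm ϖ) : ¬ ϖ ∣ 7 := fun h1 =>
  fR_notin h.pd (Ideal.mem_span_singleton.2 (dvd_fR h.pr h1))

lemma pm_two {ϖ : RR} (h : Pm ϖ) : ¬ ϖ ∣ 2 := fun h1 =>
  two_notin h.pd (Ideal.mem_span_singleton.2 h1)

section

variable {K : Type} [Field K] [NumberField K] (e : RR ≃+* 𝓞 K)

lemma ema_sq : (em e aR) ^ 2 = em e aR - 2 := by
  rw [← map_pow, aR_sq, map_sub, map_ofNat]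

lemma em_fR : em e fR = 2 * em e aR - 1 := by
  unfold fR
  rw [map_sub, map_mul, map_ofNat, map_one]

lemma em_fb (ε : Bool) : em e (fb ε) = if ε then 2 * em e aR - 1 else 1 := by
  cases ε
  · exact map_one _
  · exact em_fR e

lemma prime_cja : Prime (cj aR) := by
  have hirr : Irreducible (cj aR) := irr_of_prime_norm (by rw [nR_cj, aR_nR]; norm_num)
  exact hirr.prime

/-- **the Selmer group** -/
theorem sel {ι : Type} [DecidableEq ι] {I : Finset ι} {π : ι → RR} (hπ : ∀ i ∈ I, Pm (π i))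
    (hf : Fam I π) (hg : gd (mc π) (mr π) I ≠ 0) {q : K} (hq : q ≠ 0)
    (h : ∀ v : HeightOneSpectrum (𝓞 K), v.valuation K 7 = 1 →
      LCE (v.valuation K) (em e aR) (em e (∏ i ∈ I, π i)) q) :
    ∃ c : K, q = c ^ 2 ∨ q = em e (fR * ∏ i ∈ I, π i) * c ^ 2 := by
  classical
  have hb := ema_sq e
  obtain ⟨d, w, hd, hw, hqd⟩ := exists_sqf e hq
  have hloc : ∀ {z : RR} (hz : Prime z), ¬ z ∣ 7 →
      LCE ((plc e hz).valuation K) (em e aR) (em e (∏ i ∈ I, π i)) (em e d) := by
    intro z hz h7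
    have h7' : (plc e hz).valuation K 7 = 1 := by
      have := val_one' e hz h7
      rwa [map_ofNat] at this
    refine (h _ h7').sqE hb ⟨w⁻¹, inv_ne_zero hw, ?_⟩
    rw [hqd]
    field_simp
  have hcop : ∀ a ∈ I, ∀ b ∈ I, a ≠ b → IsCoprime (π a) (π b) := fun a ha b hb hab =>
    ((hπ a ha).pr.irreducible.coprime_iff_not_dvd).2 fun h1 =>
      hf.ne b hb a ha (Ne.symm hab) (Ideal.mem_span_singleton.2 h1)
  have hsqP : Squarefree (∏ i ∈ I, π i) := by
    refine Finset.squarefree_prod_of_pairwise_isCoprime (fun a ha b hb hab =>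
      (hcop a ha b hb hab).isRelPrime) fun x hx => (hπ x hx).pr.squarefree
  have hodd : ∀ {z : RR} (hz : Prime z) (x : K), (plc e hz).valuation K x = exp (-1) →
      ¬ Ev ((plc e hz).valuation K) x := by
    rintro z hz x hx ⟨y, hy, h⟩
    refine ev_odd_val hy h (k := -1) ?_
    rw [hx]
    congr 1
  -- the primes of `d`
  have hprime : ∀ ρ : RR, Prime ρ → ρ ∣ d → ¬ ρ ∣ 7 → ρ ∣ ∏ i ∈ I, π i := by
    intro ρ hρ hρd h7
    by_contra hρP
    exact hodd hρ _ (val_sqf e hρ hd hρd) ((hloc hρ h7).1 (val_one' e hρ hρP)).1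
  set T := I.filter (fun i => π i ∣ d) with hT
  have hTI : T ⊆ I := Finset.filter_subset _ _
  have hTd : (∏ i ∈ T, π i) ∣ d := by
    refine Finset.prod_dvd_of_coprime ?_ ?_
    · intro i hi j hj hij
      exact hcop i (hTI hi) j (hTI hj) hij
    · intro i hi
      exact (Finset.mem_filter.1 hi).2
  set ε : Bool := decide (fR ∣ d) with hε
  have hεd : fb ε * ∏ i ∈ T, π i ∣ d := by
    by_cases h1 : fR ∣ d
    · have e1 : ε = true := by rw [hε]; exact decide_eq_true h1
      rw [e1]
      show fR * ∏ i ∈ T, π i ∣ d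
      refine IsCoprime.mul_dvd ?_ h1 hTd
      refine IsCoprime.prod_right fun i hi => (hπ i (hTI hi)).pd.cop
    · have e1 : ε = false := by rw [hε]; exact decide_eq_false h1
      rw [e1]
      show 1 * ∏ i ∈ T, π i ∣ d
      rw [one_mul]
      exact hTd
  obtain ⟨u, hu⟩ := hεd
  have huu : IsUnit u := by
    by_contra hnu
    have hu0 : u ≠ 0 := by
      rintro rfl
      exact hd.ne_zero (by rw [hu, mul_zero])
    obtain ⟨ρ, hρ, hρu⟩ := WfDvdMonoid.exists_irreducible_factor hnu hu0
    have hρ' : Prime ρ := hρ.prime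
    have h1 : ρ ∣ d := by rw [hu]; exact hρu.mul_left _
    have hass : ∀ l : RR, Prime l → ρ ∣ l → l ∣ ρ := fun l hl h2 =>
      ((hρ.associated_of_dvd hl.irreducible h2).symm).dvd
    by_cases h7 : ρ ∣ 7
    · have h2 := hass fR prime_fR (dvd_fR hρ' h7)
      have h3 : fR ∣ d := h2.trans h1
      have e1 : ε = true := by rw [hε]; exact decide_eq_true h3
      rw [e1] at hu
      have h4 : fR * fR ∣ d := by
        rw [hu]
        exact mul_dvd_mul (Dvd.intro _ rfl) (h2.trans hρu)
      exact prime_fR.not_isUnit (hd _ h4)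
    · obtain ⟨l, hl, hρl⟩ := (hρ'.dvd_finsetProd_iff _).1 (hprime ρ hρ' h1 h7)
      have h2 := hass _ (hπ l hl).pr hρl
      have h4 : l ∈ T := Finset.mem_filter.2 ⟨hl, h2.trans h1⟩
      have h5 : π l * π l ∣ d := by
        rw [hu]
        exact mul_dvd_mul ((Finset.dvd_prod_of_mem π h4).mul_left _) (h2.trans hρu)
      exact (hπ l hl).pr.not_isUnit (hd _ h5)
  -- the sign
  have hu1 : u = 1 := by
    rcases isUnit_iff.1 huu with h1 | h1
    · exact h1
    exfalso
    have hz := prime_cja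
    have h2e : (2 : RR) = cj aR * aR := by rw [two_eq, mul_comm]
    have hnd : ¬ cj aR ∣ aR := by
      intro h2
      apply hz.not_isUnit
      have e1 : (1 : RR) = cj aR + aR := by rw [cj_aR]; ring
      exact isUnit_of_dvd_one (by rw [e1]; exact dvd_add dvd_rfl h2)
    have h2d : cj aR ∣ 2 := ⟨aR, h2e⟩
    have h7 : ¬ cj aR ∣ 7 := by
      intro h3
      apply hz.not_isUnit
      have e1 : (1 : RR) = 7 - 2 * 3 := by norm_num
      exact isUnit_of_dvd_one (by rw [e1]; exact dvd_sub h3 (h2d.mul_right _))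
    set W := (plc e hz).valuation K with hW
    have w7 : W 7 = 1 := by
      have := val_one' e hz h7
      rwa [map_ofNat] at this
    have w2 : W 2 = exp (-1) := by
      have := val_mul1 e hz h2e hnd
      rwa [map_ofNat] at this
    have w2' : W 2 < 1 := by rw [w2, ← exp_zero, exp_lt_exp]; norm_num
    have hur : ∀ x : RR, (∃ y : RR, x = 1 + 4 * y) → Ur W (em e x) := by
      rintro x ⟨y, rfl⟩
      refine ⟨1, one_ne_zero, ?_⟩
      have e1 : em e (1 + 4 * y) - 1 ^ 2 = 4 * em e y := by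
        rw [map_add, map_mul, map_one, map_ofNat]
        ring
      rw [e1, map_mul, map_one, one_pow, mul_one]
      exact mul_le_of_le_one_right' (val_le e hz y)
    have h1b : W (1 - em e aR) < 1 := by
      have e1 : 1 - em e aR = em e (cj aR) := by rw [cj_aR, map_sub, map_one]
      rw [e1]
      exact (val_lt e hz _).2 dvd_rfl
    obtain ⟨J, hJ⟩ := prod_four I fun i hi => (hπ i hi).m4
    have hP1 : W (em e (∏ i ∈ I, π i)) = 1 := by
      refine val_one' e hz ?_
      rw [hJ]
      intro h3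
      apply hz.not_isUnit
      have e1 : (1 : RR) = (1 + 4 * J) - 2 * (2 * J) := by ring
      exact isUnit_of_dvd_one (by rw [e1]; exact dvd_sub h3 (h2d.mul_right _))
    have hU := ((hloc hz h7).1 hP1).2 h1b
    have hUT := hur _ (prod_four T fun i hi => (hπ i (hTI hi)).m4)
    have hUf : Ur W (em e (fb ε)) := by
      rw [em_fb]
      cases ε
      · simpa using hur 1 ⟨0, by ring⟩
      · simpa using (LC.s hb w7).2 h1b
    apply not_ur_neg_one (w := W) w2
    refine ((hU.mul w2' hUT).mul w2' hUf).sqE w2' ⟨(em e (fb ε * ∏ i ∈ T, π i))⁻¹, ?_, ?_⟩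
    · apply inv_ne_zero
      apply em_ne
      intro h0
      rw [h0, zero_mul] at hu
      exact hd.ne_zero hu
    · have h0 : em e (fb ε * ∏ i ∈ T, π i) ≠ 0 := by
        apply em_ne
        intro h0
        rw [h0, zero_mul] at hu
        exact hd.ne_zero hu
      rw [hu, h1]
      simp only [map_mul, map_neg, map_one] at h0 ⊢
      obtain ⟨h01, h02⟩ := mul_ne_zero_iff.1 h0
      field_simp
  subst hu1
  rw [mul_one] at hu
  have hPne : ∀ (ε' : Bool) (U : Finset ι), U ⊆ I → fb ε' * ∏ i ∈ U, π i ≠ 0 := by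
    intro ε' U hU h0
    rcases mul_eq_zero.1 h0 with h1 | h1
    · cases ε'
      · exact one_ne_zero h1
      · exact fR_ne h1
    · exact (Finset.prod_ne_zero_iff.2 fun i hi => (hπ i (hU hi)).pr.ne_zero) h1
  -- the conditions at the primes
  have key : ∀ i ∈ I, (i ∉ T → (if ε then dc π i else 0) + ∑ j ∈ T, dr π i j = 0) ∧
      (i ∈ T → (if !ε then dc π i else 0) + ∑ j ∈ I \ T, dr π i j = 0) := by
    intro i hi
    have hz := (hπ i hi).pr
    have hl := (hloc hz (pm_seven (hπ i hi))).2 ((val_lt e hz _).2 (Finset.dvd_prod_of_mem π hi))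
    rw [← em_fR e, ← map_mul, ← map_mul] at hl
    have hunit : ∀ (ε' : Bool) (U : Finset ι), U ⊆ I → i ∉ U →
        ¬ π i ∣ fb ε' * ∏ j ∈ U, π j := fun ε' U hU hiU h1 =>
      prod_notin hf hU hi hiU ε' (Ideal.mem_span_singleton.2 h1)
    constructor
    · intro hiT
      rcases hl with h1 | h1
      · rw [hu] at h1
        exact lg_sy hf hTI hi hiT ε (sy_of_sq e hz (prod_notin hf hTI hi hiT ε) h1)
      · exfalso
        refine hodd hz _ ?_ h1.ev
        refine val_mul1 e hz (c := fR * (∏ j ∈ I.erase i, π j) * (fb ε * ∏ j ∈ T, π j)) ?_ ?_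
        · rw [← Finset.mul_prod_erase I π hi, hu]
          ring
        · intro h2
          rcases hz.dvd_or_dvd h2 with h3 | h3
          · exact hunit true (I.erase i) (Finset.erase_subset _ _) (Finset.notMem_erase _ _) h3
          · exact hunit ε T hTI hiT h3
    · intro hiT
      have hiT' : i ∉ I \ T := fun h => (Finset.mem_sdiff.1 h).2 hiT
      rcases hl with h1 | h1
      · exfalso
        refine hodd hz _ ?_ h1.ev
        refine val_mul1 e hz (c := fb ε * ∏ j ∈ T.erase i, π j) ?_ ?_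
        · rw [hu, ← Finset.mul_prod_erase T π hiT]
          ring
        · exact hunit ε _ ((Finset.erase_subset _ _).trans hTI) (Finset.notMem_erase _ _)
      · have h3 : Sq ((plc e hz).valuation K) (em e (fb (!ε) * ∏ j ∈ I \ T, π j)) := by
          have hne1 : em e (∏ j ∈ T, π j) ≠ 0 := by
            apply em_ne
            have := hPne false T hTI
            rwa [show fb false = 1 from rfl, one_mul] at this
          have hne2 : em e fR ≠ 0 := em_ne e fR_ne
          refine h1.sqE ?_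
          rw [hu, ← Finset.prod_sdiff hTI (f := π)]
          cases ε
          · refine ⟨(em e (∏ j ∈ T, π j))⁻¹, inv_ne_zero hne1, ?_⟩
            rw [show fb false = 1 from rfl, show fb (!false) = fR from rfl, one_mul]
            simp only [map_mul]
            field_simp
          · refine ⟨(em e (fR * ∏ j ∈ T, π j))⁻¹, inv_ne_zero ?_, ?_⟩
            · rw [map_mul]
              exact mul_ne_zero hne2 hne1
            · rw [show fb true = fR from rfl, show fb (!true) = 1 from rfl, one_mul]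
              simp only [map_mul]
              field_simp
        exact lg_sy hf Finset.sdiff_subset hi hiT' (!ε)
          (sy_of_sq e hz (prod_notin hf Finset.sdiff_subset hi hiT' (!ε)) h3)
  refine ⟨w, ?_⟩
  cases hεe : ε with
  | false =>
    left
    have hT0 : T = ∅ := by
      refine ns_pi hπ hf hg hTI (fun i hi => ?_) (fun i hi => ?_)
      · rw [Finset.mem_sdiff] at hi
        have := (key i hi.1).1 hi.2
        rw [hεe] at this
        simpa using this
      · have := (key i (hTI hi)).2 hi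
        rw [hεe] at this
        simpa using this
    rw [hqd, hu, hεe, hT0, Finset.prod_empty, show fb false = 1 from rfl, one_mul, map_one, one_mul]
  | true =>
    right
    have hT0 : I \ T = ∅ := by
      refine ns_pi hπ hf hg Finset.sdiff_subset (fun i hi => ?_) (fun i hi => ?_)
      · rw [Finset.sdiff_sdiff_eq_self hTI] at hi
        have := (key i (hTI hi)).2 hi
        rw [hεe] at this
        simpa using this
      · rw [Finset.sdiff_sdiff_eq_self hTI]
        rw [Finset.mem_sdiff] at hi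
        have := (key i hi.1).1 hi.2
        rw [hεe] at this
        simpa using this
    have hTI' : T = I := Finset.Subset.antisymm hTI (Finset.sdiff_eq_empty_iff_subset.1 hT0)
    rw [hqd, hu, hεe, hTI', show fb true = fR from rfl]

end

end Pool.Agent.R426.QC
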