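import Pool.Agent.R426.QC.Ve
import Pool.Agent.Y698.Uc
import Pool.Agent.Y698.Uf
import Pool.Agent.Y696.Stm

/-!
# The points with nonsingular reduction on the twists by elements of `ℚ(√-7)`
-/

set_option autoImplicit false
set_option linter.unusedSectionVars false

namespace Pool.Agent.R426.QC

open Pool.Agent.Y698
open WeierstrassCurve WithZero
open Pool.Agent.Y696 (NonsingRed)

section alg

variable {L : Type} [Field L] [CharZero L] {j : L} {W W' : WeierstrassCurve L} (S : VchE j 0 W W')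
  [DecidableEq L]

/-- the affine equation -/
def AeqE (j : L) (x y : L) : Prop :=
  y ^ 2 + x * y = x ^ 3 - (1 + 3 * j) * x ^ 2 - 2 * (1 + 4 * j) ^ 2 * x -
    (1 + 4 * j) ^ 3

/-- the equation in the other coordinates -/
def EeqE (j : L) (X Y : L) : Prop :=
  Y ^ 2 = X ^ 3 + 21 * (1 + 4 * j) * X ^ 2 + 112 * (1 + 4 * j) ^ 2 * X

omit [CharZero L] [DecidableEq L] in
lemma AeqE.eeq {x y : L} (h : AeqE j x y) : EeqE j (4 * x - 8 * (1 + 4 * j)) (8 * y + 4 * x) := by
  unfold AeqE at h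
  unfold EeqE
  linear_combination 64 * h

include S in
omit [CharZero L] [DecidableEq L] in
lemma VchE.eqn' {X Y : L} (h : W'.toAffine.Equation X Y) : EeqE j X Y := by
  rw [Affine.equation_iff, S.k1, S.k2, S.k3, S.k4, S.k6] at h
  unfold EeqE
  linear_combination h

include S in
omit [CharZero L] [DecidableEq L] in
lemma VchE.eqnA {x y : L} (h : W.toAffine.Equation x y) : AeqE j x y := by
  rw [Affine.equation_iff, S.h1, S.h2, S.h3, S.h4, S.h6] at h
  unfold AeqE
  linear_combination h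

include S in
omit [DecidableEq L] in
lemma VchE.wr0 (hD : 1 + 4 * j ≠ 0) : Wr W' 0 (21 * (1 + 4 * j)) (112 * (1 + 4 * j) ^ 2) where
  k1 := S.k1
  k2 := by rw [S.k2]
  k3 := S.k3
  k4 := by rw [S.k4]; ring
  k6 := by rw [S.k6]
  hβ := mul_ne_zero (by norm_num) (pow_ne_zero 2 hD)

include S in
omit [DecidableEq L] in
lemma VchE.wrB (hD : 1 + 4 * j ≠ 0) {a : L} (ha : a ^ 2 = a - 2) :
    Wr W' ((1 + 4 * j) * eB a) (21 * (1 + 4 * j) + 3 * ((1 + 4 * j) * eB a))
      ((1 + 4 * j) * eB a * ((1 + 4 * j) * (eB a - eA a))) where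
  k1 := S.k1
  k2 := by rw [S.k2]; ring
  k3 := S.k3
  k4 := by
    rw [S.k4]
    have h1 := eA_mul ha
    have h2 := eA_add ha
    have h3 : eB a ^ 2 = -21 * eB a - 112 := by linear_combination eB a * h2 - h1
    linear_combination (1 + 4 * j) ^ 2 * h1 + 2 * (1 + 4 * j) ^ 2 * h3
  k6 := by
    rw [S.k6]
    have h1 := eA_mul ha
    have h2 := eA_add ha
    linear_combination (-(1 + 4 * j) ^ 3) * (eB a) ^ 2 * h2
  hβ := by
    have h1 := eA_mul ha
    have h2 := eA_sub ha
    refine mul_ne_zero (mul_ne_zero hD ?_) (mul_ne_zero hD ?_)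
    · intro h
      rw [h, mul_zero] at h1
      norm_num at h1
    · intro h
      apply s_ne ha
      rw [← h2]
      linear_combination -h

end alg

section val

variable {L : Type} [Field L] {Γ : Type} [LinearOrderedCommGroupWithZero Γ] {v : Valuation L Γ} {j : L}

lemma y_intE (hj : v j ≤ 1) {x y : L} (h : AeqE j x y) (hx : v x ≤ 1) : v y ≤ 1 := by
  by_contra h1
  push Not at h1
  have h4' : v (4 : L) ≤ 1 := by exact_mod_cast vnat v 4
  have h3' : v (3 : L) ≤ 1 := by exact_mod_cast vnat v 3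
  have hd : v (1 + 4 * j) ≤ 1 := vadd (by simp) (vmul h4' hj)
  have h2 : v (y ^ 2) ≤ max (v y) 1 := by
    have e : y ^ 2 = -(x * y) + (x ^ 3 - (1 + 3 * j) * x ^ 2 - 2 * (1 + 4 * j) ^ 2 * x -
        (1 + 4 * j) ^ 3) := by
      unfold AeqE at h; linear_combination h
    rw [e]
    refine (v.map_add _ _).trans (max_le_max ?_ ?_)
    · rw [Valuation.map_neg, map_mul]
      calc v x * v y ≤ 1 * v y := by gcongr
        _ = v y := one_mul _
    · have h2' : v (2 : L) ≤ 1 := by exact_mod_cast vnat v 2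
      have h3'' : v (1 + 3 * j) ≤ 1 := vadd (by simp) (vmul h3' hj)
      exact vsub (vsub (vsub (vpow hx 3) (vmul h3'' (vpow hx 2))) (vmul (vmul h2' (vpow hd 2)) hx))
        (vpow hd 3)
  rw [max_eq_left h1.le, map_pow, pow_two] at h2
  have h3 : 0 < v y := zero_lt_one.trans h1
  have h4 : v y * 1 < v y * v y := by gcongr
  rw [mul_one] at h4
  exact absurd h2 (not_le.2 h4)

/-- nonsingular reduction away from `7 D` -/
theorem good_redE (hj : v j ≤ 1) (h7 : v (7 : L) = 1) (hD : v (1 + 4 * j) = 1) {x y : L}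
    (h : AeqE j x y) (hx : v x ≤ 1) :
    v (1 * y - (3 * x ^ 2 + 2 * -(1 + 3 * j) * x + -2 * (1 + 4 * j) ^ 2)) = 1 ∨
      v (2 * y + 1 * x + 0) = 1 := by
  have hy := y_intE hj h hx
  have h2' : v (2 : L) ≤ 1 := by exact_mod_cast vnat v 2
  have h3' : v (3 : L) ≤ 1 := by exact_mod_cast vnat v 3
  have hj3 : v (1 + 3 * j) ≤ 1 := vadd (by simp) (vmul h3' hj)
  have hd := hD.le
  set δ : L := 1 + 4 * j with hδ
  have hFx : v (1 * y - (3 * x ^ 2 + 2 * -(1 + 3 * j) * x + -2 * δ ^ 2)) ≤ 1 :=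
    vsub (vmul (by simp) hy) (vadd (vadd (vmul h3' (vpow hx 2)) (vmul (vmul h2' (vneg hj3)) hx))
      (vmul (vneg h2') (vpow hd 2)))
  have hFy : v (2 * y + 1 * x + 0) ≤ 1 := vadd (vadd (vmul h2' hy) (vmul (by simp) hx)) (by simp)
  by_contra hcon
  push Not at hcon
  obtain ⟨c1, c2⟩ := hcon
  have l1 := lt_of_le_of_ne hFx c1
  have l2 := lt_of_le_of_ne hFy c2
  rcases h2'.lt_or_eq with h2 | h2
  · -- residue characteristic two
    have lx : v x < 1 := by
      have e : x = (2 * y + 1 * x + 0) - 2 * y := by ring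
      rw [e]
      exact vsubl l2 (vmulr h2 hy)
    have ly : v y < 1 := by
      have e : y = (1 * y - (3 * x ^ 2 + 2 * -(1 + 3 * j) * x + -2 * δ ^ 2)) +
          (3 * x ^ 2 - 2 * (1 + 3 * j) * x - 2 * δ ^ 2) := by ring
      rw [e]
      exact vaddl l1 (vsubl (vsubl (vmull h3' (vpowl lx two_ne_zero)) (vmulr (vmulr h2 hj3) hx))
        (vmulr h2 (vpow hd 2)))
    have l3 : v (δ ^ 3) < 1 := by
      have e : δ ^ 3 = x ^ 3 - (1 + 3 * j) * x ^ 2 - 2 * δ ^ 2 * x - y ^ 2 - x * y := by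
        unfold AeqE at h
        rw [← hδ] at h
        linear_combination h
      rw [e]
      exact vsubl (vsubl (vsubl (vsubl (vpowl lx three_ne_zero) (vmull hj3 (vpowl lx two_ne_zero)))
        (vmull (vmul h2' (vpow hd 2)) lx)) (vpowl ly two_ne_zero)) (vmull hx ly)
    rw [map_pow, hD, one_pow] at l3
    exact lt_irrefl _ l3
  · set η := 2 * y + 1 * x + 0 with hη
    set φ := 1 * y - (3 * x ^ 2 + 2 * -(1 + 3 * j) * x + -2 * δ ^ 2) with hφ
    have hj : 4 * (1 + 3 * j) = 1 + 3 * δ := by rw [hδ]; ring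
    -- `η² = ψ`, `η - 2 φ = ψ' / 2`
    have e1 : η ^ 2 = 4 * x ^ 3 - 3 * δ * x ^ 2 - 8 * δ ^ 2 * x - 4 * δ ^ 3 := by
      rw [hη]
      unfold AeqE at h
      rw [← hδ] at h
      linear_combination 4 * h - x ^ 2 * hj
    have e2 : η - 2 * φ = 6 * x ^ 2 - 3 * δ * x - 4 * δ ^ 2 := by
      rw [hη, hφ]
      linear_combination -x * hj
    -- the resultant
    have e3 : (196 : L) * δ ^ 4 = (90 * x - 117 * δ) * η ^ 2 +
        (68 * δ ^ 2 + 93 * δ * x - 60 * x ^ 2) * (η - 2 * φ) := by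
      rw [e1, e2]
      ring
    have hn : ∀ n : ℕ, v (n : L) ≤ 1 := vnat v
    have n90 : v (90 : L) ≤ 1 := by exact_mod_cast hn 90
    have n117 : v (117 : L) ≤ 1 := by exact_mod_cast hn 117
    have n68 : v (68 : L) ≤ 1 := by exact_mod_cast hn 68
    have n93 : v (93 : L) ≤ 1 := by exact_mod_cast hn 93
    have n60 : v (60 : L) ≤ 1 := by exact_mod_cast hn 60
    have l3 : v ((196 : L) * δ ^ 4) < 1 := by
      rw [e3]
      exact vaddl (vmull (vsub (vmul n90 hx) (vmul n117 hd)) (vpowl l2 two_ne_zero))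
        (vmull (vsub (vadd (vmul n68 (vpow hd 2)) (vmul (vmul n93 hd) hx)) (vmul n60 (vpow hx 2)))
          (vsubl l2 (vmull h2' l1)))
    have e4 : (196 : L) = 2 ^ 2 * 7 ^ 2 := by norm_num
    rw [e4, map_mul, map_mul, map_pow, map_pow, map_pow, h2, h7, hD] at l3
    simp at l3

/-- the points with nonsingular reduction at the primes dividing `7 D` -/
theorem sing_redE (hj : v j ≤ 1) (h2 : v (2 : L) = 1) (l21 : v (21 * (1 + 4 * j)) < 1)
    (l112 : v (112 * (1 + 4 * j) ^ 2) < 1) {x y : L} (h : AeqE j x y) :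
    (1 < v x ∨ v (1 * y - (3 * x ^ 2 + 2 * -(1 + 3 * j) * x + -2 * (1 + 4 * j) ^ 2)) = 1 ∨
      v (2 * y + 1 * x + 0) = 1) ↔
      1 ≤ v (4 * x - 8 * (1 + 4 * j)) := by
  have h4 : v (4 : L) = 1 := by
    have e : (4 : L) = 2 ^ 2 := by norm_num
    rw [e, map_pow, h2, one_pow]
  have h8 : v (8 : L) = 1 := by
    have e : (8 : L) = 2 ^ 3 := by norm_num
    rw [e, map_pow, h2, one_pow]
  have h3' : v (3 : L) ≤ 1 := by exact_mod_cast vnat v 3
  have h2' : v (2 : L) ≤ 1 := h2.le
  have hd : v (1 + 4 * j) ≤ 1 := vadd (by simp) (vmul h4.le hj)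
  have hE := h.eeq
  set δ : L := 1 + 4 * j with hδ
  have h8d : v (8 * δ) ≤ 1 := vmul h8.le hd
  set X := 4 * x - 8 * δ with hX
  set Y := 8 * y + 4 * x with hY
  unfold EeqE at hE
  rw [← hδ] at hE
  have e4x : 4 * x = X + 8 * δ := by rw [hX]; ring
  have vx : v x = v (X + 8 * δ) := by
    rw [← e4x, map_mul, h4, one_mul]
  constructor
  · intro hc
    by_contra h1
    push Not at h1
    have hx1 : v x ≤ 1 := by rw [vx]; exact vadd h1.le h8d
    have hYl : v Y < 1 := by
      have : v (Y ^ 2) < 1 := by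
        rw [hE]
        exact vaddl (vaddl (vpowl h1 three_ne_zero) (vmull l21.le (vpowl h1 two_ne_zero)))
          (vmull l112.le h1)
      rw [map_pow] at this
      by_contra h5
      push Not at h5
      exact absurd this (not_lt.2 (one_le_pow₀ h5))
    rcases hc with hc | hc | hc
    · exact absurd hx1 (not_le.2 hc)
    · have e : 4 ^ 2 * (1 * y - (3 * x ^ 2 + 2 * -(1 + 3 * j) * x + -2 * δ ^ 2)) =
          2 * Y - 3 * X ^ 2 - (2 * (21 * δ)) * X - 112 * δ ^ 2 := by
        rw [hY, hX, hδ]; ring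
      have l1 : v (4 ^ 2 * (1 * y - (3 * x ^ 2 + 2 * -(1 + 3 * j) * x + -2 * δ ^ 2))) < 1 := by
        rw [e]
        exact vsubl (vsubl (vsubl (vmull h2' hYl) (vmull h3' (vpowl h1 two_ne_zero)))
          (vmulr (vmull h2' l21) h1.le)) l112
      rw [map_mul, map_pow, h4, hc, one_pow, one_mul] at l1
      exact lt_irrefl _ l1
    · have e : 4 * (2 * y + 1 * x + 0) = Y := by rw [hY]; ring
      have : v Y = 1 := by rw [← e, map_mul, h4, hc, one_mul]
      exact absurd hYl (not_lt.2 this.ge)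
  · intro h1
    rcases h1.lt_or_eq with h5 | h5
    · left
      rw [vx, v.map_add_eq_of_lt_left (h8d.trans_lt h5)]
      exact h5
    · right; right
      have h6 : v (X ^ 2 + 21 * δ * X + 112 * δ ^ 2) = 1 := by
        have e : X ^ 2 + 21 * δ * X + 112 * δ ^ 2 = X ^ 2 + (21 * δ * X + 112 * δ ^ 2) := by ring
        rw [e, v.map_add_eq_of_lt_left]
        · rw [map_pow, ← h5, one_pow]
        · rw [map_pow, ← h5, one_pow]
          exact vaddl (vmulr l21 h5.ge) l112
      have h7' : v (Y ^ 2) = 1 := by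
        have e : Y ^ 2 = X * (X ^ 2 + 21 * δ * X + 112 * δ ^ 2) := by rw [hE]; ring
        rw [e, map_mul, h6, ← h5, one_mul]
      have h8' : v Y = 1 := by
        rw [map_pow] at h7'
        exact (pow_eq_one_iff_of_nonneg zero_le two_ne_zero).1 h7'
      have e : 4 * (2 * y + 1 * x + 0) = Y := by rw [hY]; ring
      rw [← e, map_mul, h4, one_mul] at h8'
      exact h8'

end val

/-! ### the two forms of the condition -/

section ns

variable {L : Type} [Field L] {v : Valuation L ℤᵐ⁰} {j : L} {W W' : WeierstrassCurve L}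
  (S : VchE j 0 W W')

include S in
/-- the definition of nonsingular reduction -/
lemma ns_iffE (hj : v j ≤ 1) {x y : L} (h : W.toAffine.Nonsingular x y) :
    NonsingRed v W (.some x y h) ↔
      (1 < v x ∨ v (1 * y - (3 * x ^ 2 + 2 * -(1 + 3 * j) * x + -2 * (1 + 4 * j) ^ 2)) = 1 ∨
      v (2 * y + 1 * x + 0) = 1) := by
  have hA := S.eqnA h.1
  have h2' : v (2 : L) ≤ 1 := by exact_mod_cast vnat v 2
  have h3' : v (3 : L) ≤ 1 := by exact_mod_cast vnat v 3
  have h4' : v (4 : L) ≤ 1 := by exact_mod_cast vnat v 4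
  have hj3 : v (1 + 3 * j) ≤ 1 := vadd (by simp) (vmul h3' hj)
  have hd : v (1 + 4 * j) ≤ 1 := vadd (by simp) (vmul h4' hj)
  have hdef : NonsingRed v W (.some x y h) ↔ (1 ≤ v (2 * y + W.a₁ * x + W.a₃) ∨
      1 ≤ v (3 * x ^ 2 + 2 * W.a₂ * x + W.a₄ - W.a₁ * y)) := Iff.rfl
  rw [hdef, S.h1, S.h2, S.h3, S.h4]
  have e1 : v (3 * x ^ 2 + 2 * -(1 + 3 * j) * x + -2 * (1 + 4 * j) ^ 2 - 1 * y) =
      v (1 * y - (3 * x ^ 2 + 2 * -(1 + 3 * j) * x + -2 * (1 + 4 * j) ^ 2)) :=
    Valuation.map_sub_swap _ _ _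
  rw [e1]
  rcases le_or_gt (v x) 1 with hx | hx
  · have hy := y_intE hj hA hx
    have hFx : v (1 * y - (3 * x ^ 2 + 2 * -(1 + 3 * j) * x + -2 * (1 + 4 * j) ^ 2)) ≤ 1 :=
      vsub (vmul (by simp) hy) (vadd (vadd (vmul h3' (vpow hx 2)) (vmul (vmul h2' (vneg hj3)) hx))
        (vmul (vneg h2') (vpow hd 2)))
    have hFy : v (2 * y + 1 * x + 0) ≤ 1 := vadd (vadd (vmul h2' hy) (vmul (by simp) hx)) (by simp)
    constructor
    · rintro (h1 | h1)
      · exact Or.inr (Or.inr (le_antisymm hFy h1))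
      · exact Or.inr (Or.inl (le_antisymm hFx h1))
    · rintro (h1 | h1 | h1)
      · exact absurd hx (not_le.2 h1)
      · exact Or.inr h1.ge
      · exact Or.inl h1.ge
  · refine ⟨fun _ => Or.inl hx, fun _ => ?_⟩
    have hx0 : x ≠ 0 := by
      rintro rfl
      rw [map_zero] at hx
      exact absurd hx (by simp)
    have hxpos : 0 < v x := zero_lt_one.trans hx
    -- the size of `y`
    have hy2 : v y ^ 2 = v x ^ 3 := by
      have hx3 : ∀ z : L, v z ≤ v x ^ 2 → v (x ^ 3 + z) = v x ^ 3 := by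
        intro z hz
        rw [v.map_add_eq_of_lt_left, map_pow]
        rw [map_pow]
        refine hz.trans_lt ?_
        exact pow_lt_pow_right₀ hx (by norm_num)
      have hle1 : ∀ z : L, v z ≤ 1 → v (z * x) ≤ v x ^ 2 := by
        intro z hz
        rw [map_mul, sq]
        exact mul_le_mul' (hz.trans hx.le) le_rfl
      have h1x2 : (1 : ℤᵐ⁰) ≤ v x ^ 2 := one_le_pow₀ hx.le
      have hr : v (-(1 + 3 * j) * x ^ 2 + -2 * (1 + 4 * j) ^ 2 * x + -(1 + 4 * j) ^ 3) ≤ v x ^ 2 := by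
        refine (v.map_add _ _).trans (max_le ((v.map_add _ _).trans (max_le ?_ ?_)) ?_)
        · rw [map_mul, map_pow]
          exact mul_le_of_le_one_left' (vneg hj3)
        · exact hle1 _ (vmul (vneg h2') (vpow hd 2))
        · exact (vneg (vpow hd 3)).trans h1x2
      have h5 := hx3 _ hr
      have h6 : v (y * (y + x)) = v x ^ 3 := by
        rw [← h5]
        congr 1
        unfold AeqE at hA
        linear_combination hA
      have h7 : v x < v y := by
        by_contra hcon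
        rw [not_lt] at hcon
        have h8 : v (y * (y + x)) ≤ v x ^ 2 := by
          rw [map_mul, sq]
          exact mul_le_mul' hcon ((v.map_add _ _).trans (max_le hcon le_rfl))
        rw [h6] at h8
        exact absurd h8 (not_le.2 (pow_lt_pow_right₀ hx (by norm_num)))
      rw [map_mul, v.map_add_eq_of_lt_left h7] at h6
      rw [sq]
      exact h6
    have hypos : 1 < v y := by
      by_contra hcon
      rw [not_lt] at hcon
      have h8 : v y ^ 2 ≤ 1 := pow_le_one' hcon 2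
      rw [hy2] at h8
      exact absurd h8 (not_le.2 (one_lt_pow₀ hx (by norm_num)))
    rcases h2'.lt_or_eq with h2 | h2
    · right
      have h3 : v (3 : L) = 1 := by
        have e : (3 : L) = 1 + 2 := by norm_num
        rw [e, v.map_add_eq_of_lt_left, map_one]
        rw [map_one]
        exact h2
      have hyx : v y < v x ^ 2 := by
        by_contra hcon
        rw [not_lt] at hcon
        have h8 : (v x ^ 2) ^ 2 ≤ v y ^ 2 := pow_le_pow_left' hcon 2
        rw [hy2, ← pow_mul] at h8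
        exact absurd h8 (not_le.2 (pow_lt_pow_right₀ hx (by norm_num)))
      have h2x : v (2 * -(1 + 3 * j) * x) < v x ^ 2 := by
        rw [map_mul, sq]
        refine mul_lt_mul_of_pos_right ?_ hxpos
        exact (vmul h2' (vneg hj3)).trans_lt hx
      have hc : v (-2 * (1 + 4 * j) ^ 2) < v x ^ 2 :=
        (vmul (vneg h2') (vpow hd 2)).trans_lt (one_lt_pow₀ hx (by norm_num))
      have e2 : 1 * y - (3 * x ^ 2 + 2 * -(1 + 3 * j) * x + -2 * (1 + 4 * j) ^ 2) =
          -(3 * x ^ 2) + (y - (2 * -(1 + 3 * j) * x + -2 * (1 + 4 * j) ^ 2)) := by ring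
      have h3x : v (-(3 * x ^ 2)) = v x ^ 2 := by
        rw [Valuation.map_neg, map_mul, h3, one_mul, map_pow]
      rw [e2, v.map_add_eq_of_lt_left, h3x]
      · exact one_le_pow₀ hx.le
      · rw [h3x]
        refine (v.map_sub _ _).trans_lt (max_lt hyx ((v.map_add _ _).trans_lt (max_lt h2x hc)))
    · left
      have hxy : v x < v y := by
        by_contra hcon
        rw [not_lt] at hcon
        have h8 : v y ^ 2 ≤ v x ^ 2 := pow_le_pow_left' hcon 2
        rw [hy2] at h8
        exact absurd h8 (not_le.2 (pow_lt_pow_right₀ hx (by norm_num)))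
      have e2 : 2 * y + 1 * x + 0 = 2 * y + x := by ring
      have e3 : v (2 * y) = v y := by rw [map_mul, h2, one_mul]
      rw [e2, v.map_add_eq_of_lt_left, e3]
      · exact hypos.le
      · rw [e3]; exact hxy

end ns

end Pool.Agent.R426.QC
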