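import Pool.Agent.Y698.Vc
import Pool.Agent.Y698.Ty

/-!
# The change of variables `(x, y) ↦ (4 x - 8 D + t, 8 y + 4 x)`
-/

set_option autoImplicit false

namespace Pool.Agent.R426.QC

open Pool.Agent.Y698

open WeierstrassCurve

open Pool.Agent.TH841.SH.D (Pt act Gal Coch IsCoc IsCob LocTriv)

/-- the curves `y² + x y = x³ - (1 + 3 j) x² - 2 D² x - D³` and `y² = x³ + 21 D x² + 112 D² x`,
`D = 1 + 4 j` -/
structure VchE {L : Type} [Field L] (j t : L) (W W' : WeierstrassCurve L) : Prop where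
  h1 : W.a₁ = 1
  h2 : W.a₂ = -(1 + 3 * j)
  h3 : W.a₃ = 0
  h4 : W.a₄ = -2 * (1 + 4 * j) ^ 2
  h6 : W.a₆ = -(1 + 4 * j) ^ 3
  k1 : W'.a₁ = 0
  k2 : W'.a₂ = 21 * (1 + 4 * j) - 3 * t
  k3 : W'.a₃ = 0
  k4 : W'.a₄ = 112 * (1 + 4 * j) ^ 2 - 42 * (1 + 4 * j) * t + 3 * t ^ 2
  k6 : W'.a₆ = -t ^ 3 + 21 * (1 + 4 * j) * t ^ 2 - 112 * (1 + 4 * j) ^ 2 * t

section

variable {L : Type} [Field L] [CharZero L] {j t : L} {W W' : WeierstrassCurve L} (S : VchE j t W W')

include S in
lemma VchE.eqn (x y : L) : W'.toAffine.Equation (4 * x - 8 * (1 + 4 * j) + t) (8 * y + 4 * x) ↔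
    W.toAffine.Equation x y := by
  rw [Affine.equation_iff, Affine.equation_iff, S.h1, S.h2, S.h3, S.h4, S.h6, S.k1, S.k2, S.k3,
    S.k4, S.k6]
  constructor
  · intro h
    apply mul_left_cancel₀ (show (64 : L) ≠ 0 by norm_num)
    linear_combination h
  · intro h
    linear_combination 64 * h

include S in
omit [CharZero L] in
lemma VchE.negY (x y : L) : W'.toAffine.negY (4 * x - 8 * (1 + 4 * j) + t) (8 * y + 4 * x) =
    8 * W.toAffine.negY x y + 4 * x := by
  simp only [Affine.negY, S.h1, S.h3, S.k1, S.k3]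
  ring

include S in
lemma VchE.ns (x y : L) : W'.toAffine.Nonsingular (4 * x - 8 * (1 + 4 * j) + t) (8 * y + 4 * x) ↔
    W.toAffine.Nonsingular x y := by
  rw [Affine.nonsingular_iff, Affine.nonsingular_iff, S.eqn]
  refine and_congr_right fun _ => ?_
  rw [S.h1, S.h2, S.h3, S.h4, S.k1, S.k2, S.k3, S.k4]
  rw [← not_and_or, ← not_and_or, not_iff_not]
  constructor
  · rintro ⟨e1, e2⟩
    have e3 : y = -y - 1 * x - 0 := by
      apply mul_left_cancel₀ (show (8 : L) ≠ 0 by norm_num)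
      linear_combination e2
    refine ⟨?_, e3⟩
    apply mul_left_cancel₀ (show (16 : L) ≠ 0 by norm_num)
    linear_combination e1 + 8 * e3
  · rintro ⟨e1, e2⟩
    exact ⟨by linear_combination 16 * e1 - 8 * e2, by linear_combination 8 * e2⟩

variable [DecidableEq L]

include S in
lemma VchE.slope {x₁ x₂ y₁ y₂ : L} (hne : ¬ (x₁ = x₂ ∧ y₁ = W.toAffine.negY x₂ y₂))
    (he1 : W.toAffine.Equation x₁ y₁) (he2 : W.toAffine.Equation x₂ y₂) :
    W'.toAffine.slope (4 * x₁ - 8 * (1 + 4 * j) + t) (4 * x₂ - 8 * (1 + 4 * j) + t) (8 * y₁ + 4 * x₁) (8 * y₂ + 4 * x₂) =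
      2 * W.toAffine.slope x₁ x₂ y₁ y₂ + 1 := by
  by_cases hx : x₁ = x₂
  · have hy : y₁ ≠ W.toAffine.negY x₂ y₂ := fun h => hne ⟨hx, h⟩
    have hy' : 8 * y₁ + 4 * x₁ ≠ W'.toAffine.negY (4 * x₂ - 8 * (1 + 4 * j) + t) (8 * y₂ + 4 * x₂) := by
      rw [S.negY, hx]
      intro h
      apply hy
      apply mul_left_cancel₀ (show (8 : L) ≠ 0 by norm_num)
      linear_combination h
    rw [Affine.slope_of_Y_ne hx hy, Affine.slope_of_Y_ne (by rw [hx]) hy', S.negY]
    -- `y₁ = y₂`
    have hyy : y₁ = y₂ := by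
      rcases Affine.Y_eq_of_X_eq he1 he2 hx with h | h
      · exact h
      · exact absurd h hy
    subst hx hyy
    have hd : y₁ - W.toAffine.negY x₁ y₁ ≠ 0 := sub_ne_zero.2 hy
    have hd' : 8 * y₁ + 4 * x₁ - (8 * W.toAffine.negY x₁ y₁ + 4 * x₁) ≠ 0 := by
      have e : 8 * y₁ + 4 * x₁ - (8 * W.toAffine.negY x₁ y₁ + 4 * x₁) =
        8 * (y₁ - W.toAffine.negY x₁ y₁) := by ring
      rw [e]
      exact mul_ne_zero (by norm_num) hd
    have hn : W.toAffine.negY x₁ y₁ = -y₁ - x₁ := by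
      simp only [Affine.negY, S.h1, S.h3]
      ring
    rw [hn] at hd hd' ⊢
    rw [S.h1, S.h2, S.h4, S.k1, S.k2, S.k4]
    rw [div_eq_iff hd']
    field_simp
    ring
  · have hx' : 4 * x₁ - 8 * (1 + 4 * j) + t ≠ 4 * x₂ - 8 * (1 + 4 * j) + t := by
      intro h
      apply hx
      apply mul_left_cancel₀ (show (4 : L) ≠ 0 by norm_num)
      linear_combination h
    rw [Affine.slope_of_X_ne hx, Affine.slope_of_X_ne hx']
    have h1 : x₁ - x₂ ≠ 0 := sub_ne_zero.2 hx
    have h2 : 4 * x₁ - 8 * (1 + 4 * j) + t - (4 * x₂ - 8 * (1 + 4 * j) + t) ≠ 0 := sub_ne_zero.2 hx'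
    rw [div_eq_iff h2]
    field_simp
    ring

/-- the map on points -/
def vFe : W.toAffine.Point → W'.toAffine.Point
  | 0 => 0
  | .some x y h => .some (4 * x - 8 * (1 + 4 * j) + t) (8 * y + 4 * x) ((S.ns x y).2 h)

omit [DecidableEq L] in
lemma vFe_zero : vFe S 0 = 0 := rfl

omit [DecidableEq L] in
lemma vFe_some (x y : L) (h : W.toAffine.Nonsingular x y) :
    vFe S (.some x y h) = .some (4 * x - 8 * (1 + 4 * j) + t) (8 * y + 4 * x) ((S.ns x y).2 h) := rfl

lemma vFe_add (P Q : W.toAffine.Point) : vFe S (P + Q) = vFe S P + vFe S Q := by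
  match P, Q with
  | 0, Q => rw [zero_add, vFe_zero, zero_add]
  | .some x y h, 0 => rw [add_zero, vFe_zero, add_zero]
  | .some x₁ y₁ h₁, .some x₂ y₂ h₂ =>
    rw [vFe_some, vFe_some]
    by_cases hxy : x₁ = x₂ ∧ y₁ = W.toAffine.negY x₂ y₂
    · rw [Affine.Point.add_of_Y_eq hxy.1 hxy.2,
        Affine.Point.add_of_Y_eq (by rw [hxy.1]) (by rw [hxy.2, S.negY, hxy.1]), vFe_zero]
    · have hxy' : ¬ (4 * x₁ - 8 * (1 + 4 * j) + t = 4 * x₂ - 8 * (1 + 4 * j) + t ∧
          8 * y₁ + 4 * x₁ = W'.toAffine.negY (4 * x₂ - 8 * (1 + 4 * j) + t) (8 * y₂ + 4 * x₂)) := by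
        rintro ⟨q1, q2⟩
        apply hxy
        have e1 : x₁ = x₂ := by
          apply mul_left_cancel₀ (show (4 : L) ≠ 0 by norm_num)
          linear_combination q1
        refine ⟨e1, ?_⟩
        rw [S.negY] at q2
        apply mul_left_cancel₀ (show (8 : L) ≠ 0 by norm_num)
        linear_combination q2 - 4 * e1
      rw [Affine.Point.add_some hxy, Affine.Point.add_some hxy', vFe_some]
      rw [Affine.Point.some.injEq, S.slope hxy h₁.1 h₂.1]
      constructor
      · simp only [Affine.addX, S.h1, S.h2, S.k1, S.k2]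
        ring
      · simp only [Affine.addY, Affine.negAddY, Affine.negY, Affine.addX, S.h1, S.h2, S.h3, S.k1,
          S.k2, S.k3]
        ring

omit [DecidableEq L] in
lemma vFe_inj : Function.Injective (vFe S) := by
  intro P Q h
  match P, Q with
  | 0, 0 => rfl
  | 0, .some x y hn => exact absurd h.symm (Affine.Point.some_ne_zero _)
  | .some x y hn, 0 => exact absurd h (Affine.Point.some_ne_zero _)
  | .some x₁ y₁ h₁, .some x₂ y₂ h₂ =>
    rw [vFe_some, vFe_some, Affine.Point.some.injEq] at h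
    have e1 : x₁ = x₂ := by
      apply mul_left_cancel₀ (show (4 : L) ≠ 0 by norm_num)
      linear_combination h.1
    have e2 : y₁ = y₂ := by
      apply mul_left_cancel₀ (show (8 : L) ≠ 0 by norm_num)
      linear_combination h.2 - 4 * e1
    subst e1 e2
    rfl

omit [DecidableEq L] in
lemma vFe_surj : Function.Surjective (vFe S) := by
  intro P
  match P with
  | 0 => exact ⟨0, rfl⟩
  | .some X Y hn =>
    have e1 : 4 * ((X - t + 8 * (1 + 4 * j)) / 4) - 8 * (1 + 4 * j) + t = X := by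
      field_simp
      ring
    have e2 : 8 * ((Y - X + t - 8 * (1 + 4 * j)) / 8) +
        4 * ((X - t + 8 * (1 + 4 * j)) / 4) = Y := by
      field_simp
      ring
    have hn' : W.toAffine.Nonsingular ((X - t + 8 * (1 + 4 * j)) / 4)
        ((Y - X + t - 8 * (1 + 4 * j)) / 8) := by
      rw [← S.ns, e1, e2]
      exact hn
    refine ⟨.some _ _ hn', ?_⟩
    rw [vFe_some, Affine.Point.some.injEq]
    exact ⟨e1, e2⟩

end


section

variable (K : Type) [Field K] (j t : K)

/-- the other model -/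
def E2 : WeierstrassCurve K := ⟨0, 21 * (1 + 4 * j) - 3 * t, 0,
  112 * (1 + 4 * j) ^ 2 - 42 * (1 + 4 * j) * t + 3 * t ^ 2,
  -t ^ 3 + 21 * (1 + 4 * j) * t ^ 2 - 112 * (1 + 4 * j) ^ 2 * t⟩

lemma vche (L : Type) [Field L] [Algebra K L] :
    VchE (algebraMap K L j) (algebraMap K L t) ((EX K j).baseChange L) ((E2 K j t).baseChange L) where
  h1 := map_one (algebraMap K L)
  h2 := by
    show algebraMap K L (-(1 + 3 * j)) = _
    simp only [map_neg, map_add, map_mul, map_one, map_ofNat]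
  h3 := map_zero (algebraMap K L)
  h4 := by
    show algebraMap K L (-2 * (1 + 4 * j) ^ 2) = _
    simp only [map_neg, map_add, map_mul, map_one, map_ofNat, map_pow]
  h6 := by
    show algebraMap K L (-(1 + 4 * j) ^ 3) = _
    simp only [map_neg, map_add, map_mul, map_one, map_ofNat, map_pow]
  k1 := map_zero (algebraMap K L)
  k2 := by
    show algebraMap K L (21 * (1 + 4 * j) - 3 * t) = _
    simp only [map_sub, map_add, map_mul, map_one, map_ofNat]
  k3 := map_zero (algebraMap K L)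
  k4 := by
    show algebraMap K L (112 * (1 + 4 * j) ^ 2 - 42 * (1 + 4 * j) * t + 3 * t ^ 2) = _
    simp only [map_sub, map_add, map_mul, map_one, map_ofNat, map_pow]
  k6 := by
    show algebraMap K L (-t ^ 3 + 21 * (1 + 4 * j) * t ^ 2 - 112 * (1 + 4 * j) ^ 2 * t) = _
    simp only [map_sub, map_neg, map_add, map_mul, map_one, map_ofNat, map_pow]

/-- the isomorphism on points -/
noncomputable def vPe (L : Type) [Field L] [CharZero L] [Algebra K L] :
    Pt (EX K j) L →+ Pt (E2 K j t) L where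
  toFun := vFe (vche K j t L)
  map_zero' := rfl
  map_add' := @vFe_add L _ _ _ _ _ _ (vche K j t L) (Classical.decEq L)

lemma vPe_inj (L : Type) [Field L] [CharZero L] [Algebra K L] :
    Function.Injective (vPe K j t L) := vFe_inj (vche K j t L)

lemma vPe_surj (L : Type) [Field L] [CharZero L] [Algebra K L] :
    Function.Surjective (vPe K j t L) := vFe_surj (vche K j t L)

lemma act_vPe {L M : Type} [Field L] [CharZero L] [Algebra K L] [Field M] [CharZero M]
    [Algebra K M] (φ : L →ₐ[K] M) (P : Pt (EX K j) L) :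
    act (E2 K j t) φ (vPe K j t L P) = vPe K j t M (act (EX K j) φ P) := by
  rcases P with _ | ⟨x, y, h⟩
  · rfl
  · show (Affine.Point.some (φ (4 * x - 8 * (1 + 4 * algebraMap K L j) + algebraMap K L t))
        (φ (8 * y + 4 * x)) _ : Pt (E2 K j t) M) =
      Affine.Point.some (4 * φ x - 8 * (1 + 4 * algebraMap K M j) + algebraMap K M t)
        (8 * φ y + 4 * φ x) _
    congr 1
    · simp only [map_sub, map_add, map_mul, map_one, map_ofNat, AlgHom.commutes]
    · rw [map_add, map_mul, map_mul, map_ofNat, map_ofNat]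

end

end Pool.Agent.R426.QC
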